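import Mathlib

set_option autoImplicit false

namespace Pool.Agent.Lib.MP_f04ccf_co

open Finset

attribute [local instance] Classical.propDecidable

section Graph

variable {V : Type*} (G : SimpleGraph V)

/-- degree of `v` into the set `S` -/
noncomputable def dg (S : Finset V) (v : V) : ℕ := (S.filter (fun w => G.Adj v w)).card

/-- twice the number of edges inside `S` -/
noncomputable def E (S : Finset V) : ℕ := ∑ v ∈ S, dg G S v

/-- `I` is independent -/
def Ind (I : Finset V) : Prop := ∀ x ∈ I, ∀ y ∈ I, ¬ G.Adj x y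

/-- every independent subset of `S` has at most `t` elements -/
def AlphaLe (S : Finset V) (t : ℕ) : Prop := ∀ I : Finset V, I ⊆ S → Ind G I → I.card ≤ t

/-- `K` is a clique -/
def Clq (K : Finset V) : Prop := ∀ x ∈ K, ∀ y ∈ K, x ≠ y → G.Adj x y

lemma dg_mono {A B : Finset V} (h : A ⊆ B) (v : V) : dg G A v ≤ dg G B v :=
  card_le_card (filter_subset_filter _ h)

lemma dg_comm (A B : Finset V) : ∑ v ∈ A, dg G B v = ∑ v ∈ B, dg G A v := by
  have h := Finset.sum_card_bipartiteAbove_eq_sum_card_bipartiteBelow (s := A) (t := B)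
    (fun a b => G.Adj a b)
  unfold dg
  simp only [bipartiteAbove, bipartiteBelow] at h
  rw [h]
  refine sum_congr rfl fun b _ => ?_
  congr 1
  ext a
  simp [G.adj_comm]

lemma dg_sdiff {B S : Finset V} (h : B ⊆ S) (v : V) :
    dg G S v = dg G (S \ B) v + dg G B v := by
  unfold dg
  rw [← card_union_of_disjoint, ← filter_union, sdiff_union_of_subset h]
  exact disjoint_filter_filter sdiff_disjoint

lemma E_sdiff {B S : Finset V} (h : B ⊆ S) :
    E G S + E G B = E G (S \ B) + 2 * ∑ v ∈ B, dg G S v := by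
  have h1 : E G S = ∑ v ∈ S \ B, dg G S v + ∑ v ∈ B, dg G S v := by
    unfold E; exact (sum_sdiff h).symm
  have h2 : ∑ v ∈ S \ B, dg G S v = E G (S \ B) + ∑ v ∈ S \ B, dg G B v := by
    unfold E; rw [← sum_add_distrib]
    exact sum_congr rfl fun v _ => dg_sdiff G h v
  have h3 : ∑ v ∈ B, dg G S v = ∑ v ∈ B, dg G (S \ B) v + E G B := by
    unfold E; rw [← sum_add_distrib]
    exact sum_congr rfl fun v _ => dg_sdiff G h v
  have h4 := dg_comm G (S \ B) B
  omega

lemma E_erase {S : Finset V} {v : V} (h : v ∈ S) :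
    E G S = E G (S.erase v) + 2 * dg G S v := by
  have h1 := E_sdiff G (singleton_subset_iff.2 h)
  have h2 : E G {v} = 0 := by
    unfold E dg; simp
  rw [sum_singleton, h2, sdiff_singleton_eq_erase] at h1
  omega

lemma AlphaLe.mono {S S' : Finset V} {t : ℕ} (h : AlphaLe G S t) (hs : S' ⊆ S) :
    AlphaLe G S' t := fun I hI hi => h I (hI.trans hs) hi

lemma AlphaLe.le {S : Finset V} {t t' : ℕ} (h : AlphaLe G S t) (ht : t ≤ t') :
    AlphaLe G S t' := fun I hI hi => (h I hI hi).trans ht

/-- closed neighbourhood of `v` inside `S` -/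
noncomputable def nb (S : Finset V) (v : V) : Finset V := S.filter (fun w => w = v ∨ G.Adj v w)

lemma nb_sub (S : Finset V) (v : V) : nb G S v ⊆ S := filter_subset _ _

lemma nb_card {S : Finset V} {v : V} (hv : v ∈ S) : (nb G S v).card = dg G S v + 1 := by
  have h : nb G S v = insert v (S.filter (fun w => G.Adj v w)) := by
    ext w
    simp only [nb, mem_filter, mem_insert]
    constructor
    · rintro ⟨h1, h2 | h2⟩
      · exact Or.inl h2
      · exact Or.inr ⟨h1, h2⟩
    · rintro (h1 | ⟨h1, h2⟩)
      · subst h1; exact ⟨hv, Or.inl rfl⟩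
      · exact ⟨h1, Or.inr h2⟩
  rw [h, card_insert_of_notMem]
  · rfl
  · simp

lemma Ind.insert_of {I : Finset V} {v : V} (hI : Ind G I) (h : ∀ x ∈ I, ¬ G.Adj v x) :
    Ind G (insert v I) := by
  intro x hx y hy hxy
  rw [mem_insert] at hx hy
  rcases hx with rfl | hx
  · rcases hy with rfl | hy
    · exact G.loopless.irrefl _ hxy
    · exact h y hy hxy
  · rcases hy with rfl | hy
    · exact h x hx hxy.symm
    · exact hI x hx y hy hxy

/-- deleting a closed neighbourhood lowers the independence number -/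
lemma AlphaLe.sdiff_nb {S : Finset V} {t : ℕ} {v : V} (hv : v ∈ S) (h : AlphaLe G S (t + 1)) :
    AlphaLe G (S \ nb G S v) t := by
  intro I hI hi
  have h1 : ∀ x ∈ I, ¬ G.Adj v x := by
    intro x hx hvx
    have := hI hx
    rw [mem_sdiff, nb, mem_filter] at this
    exact this.2 ⟨this.1, Or.inr hvx⟩
  have h2 : v ∉ I := by
    intro hvI
    have := hI hvI
    rw [mem_sdiff, nb, mem_filter] at this
    exact this.2 ⟨this.1, Or.inl rfl⟩
  have h3 := h (insert v I) (by
    intro x hx
    rw [mem_insert] at hx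
    rcases hx with rfl | hx
    · exact hv
    · exact (mem_sdiff.1 (hI hx)).1) (Ind.insert_of G hi h1)
  rw [card_insert_of_notMem h2] at h3
  omega

lemma AlphaLe.zero {S : Finset V} (h : AlphaLe G S 0) : S = ∅ := by
  by_contra hne
  obtain ⟨v, hv⟩ := nonempty_iff_ne_empty.2 hne
  have := h {v} (singleton_subset_iff.2 hv) (by intro x hx y hy; simp at hx hy; subst hx; subst hy; simp)
  simp at this

/-- a graph with independence number at most `r` has at least `|A| - r` edges -/
lemma E_lower (r : ℕ) : ∀ n : ℕ, ∀ A : Finset V, A.card = n → AlphaLe G A r →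
    2 * (A.card : ℤ) - 2 * r ≤ E G A := by
  intro n
  induction n with
  | zero =>
    intro A hA _
    rw [hA]; omega
  | succ n ih =>
    intro A hA h
    by_cases hi : Ind G A
    · have := h A (Subset.refl _) hi
      have h0 : (0 : ℤ) ≤ E G A := by positivity
      omega
    · unfold Ind at hi
      push Not at hi
      obtain ⟨x, hx, y, hy, hxy⟩ := hi
      have h1 := ih (A.erase x) (by rw [card_erase_of_mem hx, hA]; rfl) (h.mono G (erase_subset _ _))
      have h2 := E_erase G hx
      have h3 : 1 ≤ dg G A x := by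
        unfold dg
        exact card_pos.2 ⟨y, mem_filter.2 ⟨hy, hxy⟩⟩
      have h4 := card_erase_of_mem hx
      omega

end Graph

end Pool.Agent.Lib.MP_f04ccf_co
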