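import Pool.Agent.Lib.MP_f04ccf_co.Basic

set_option autoImplicit false

namespace Pool.Agent.Lib.MP_f04ccf_co

open Finset

attribute [local instance] Classical.propDecidable

section Colour

variable {V : Type*} {r : ℕ} (c : V → V → Fin r) (hc : ∀ x y, c x y = c y x)

/-- the graph of colour `k` -/
def col (k : Fin r) : SimpleGraph V where
  Adj x y := x ≠ y ∧ c x y = k
  symm := ⟨fun x y h => ⟨h.1.symm, by rw [hc y x]; exact h.2⟩⟩
  loopless := ⟨fun x h => h.1 rfl⟩

/-- every `(r+1)`-set sees every colour -/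
def Sees : Prop := ∀ S : Finset V, S.card = r + 1 → ∀ k : Fin r, ∃ x ∈ S, ∃ y ∈ S, x ≠ y ∧ c x y = k

variable {c}

lemma alpha_le (hs : Sees c) (k : Fin r) (S : Finset V) : AlphaLe (col c hc k) S r := by
  intro I _ hI
  by_contra hlt
  obtain ⟨T, hT, hTc⟩ := exists_subset_card_eq (show r + 1 ≤ I.card by omega)
  obtain ⟨x, hx, y, hy, hxy, hk⟩ := hs T hTc k
  exact hI x (hT hx) y (hT hy) ⟨hxy, hk⟩

lemma sum_dg (S : Finset V) {v : V} (hv : v ∈ S) :
    ∑ k : Fin r, dg (col c hc k) S v = S.card - 1 := by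
  have h1 : (S.erase v).card = ∑ k : Fin r, ((S.erase v).filter (fun w => c v w = k)).card :=
    card_eq_sum_card_fiberwise (f := fun w => c v w) (t := univ) (fun x _ => by simp)
  rw [card_erase_of_mem hv] at h1
  rw [h1]
  refine sum_congr rfl fun k _ => ?_
  unfold dg col
  congr 1
  ext w
  simp only [mem_filter, mem_erase]
  constructor
  · rintro ⟨h1, h2, h3⟩; exact ⟨⟨h2.symm, h1⟩, h3⟩
  · rintro ⟨⟨h1, h2⟩, h3⟩; exact ⟨h2, h1.symm, h3⟩

lemma sum_E (S : Finset V) : ∑ k : Fin r, E (col c hc k) S = S.card * (S.card - 1) := by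
  unfold E
  rw [sum_comm]
  rw [sum_congr rfl (fun v hv => sum_dg hc S hv)]
  simp

lemma sum_E_int (S : Finset V) :
    ∑ k : Fin r, (E (col c hc k) S : ℤ) = (S.card : ℤ) * (S.card - 1) := by
  have h := sum_E hc S
  rcases Nat.eq_zero_or_pos S.card with h0 | h0
  · rw [h0] at h ⊢
    have : (∑ k : Fin r, (E (col c hc k) S : ℤ)) = ((∑ k : Fin r, E (col c hc k) S : ℕ) : ℤ) := by
      push_cast; rfl
    rw [this, h]; simp
  · have : (∑ k : Fin r, (E (col c hc k) S : ℤ)) = ((∑ k : Fin r, E (col c hc k) S : ℕ) : ℤ) := by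
      push_cast; rfl
    rw [this, h]
    obtain ⟨m, hm⟩ : ∃ m, S.card = m + 1 := ⟨S.card - 1, by omega⟩
    rw [hm]; push_cast; simp

/-- if each other colour has at least `b` (twice the edges) inside `A`, colour `k` has few -/
lemma E_upper_of (k : Fin r) (A : Finset V) (b : ℤ)
    (hb : ∀ j : Fin r, j ≠ k → b ≤ E (col c hc j) A) :
    (E (col c hc k) A : ℤ) ≤ (A.card : ℤ) * (A.card - 1) - (r - 1) * b := by
  have h := sum_E_int hc A
  rw [← add_sum_erase _ _ (mem_univ k)] at h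
  have h2 : ((univ.erase k).card : ℤ) * b ≤ ∑ j ∈ univ.erase k, (E (col c hc j) A : ℤ) := by
    have := card_nsmul_le_sum (univ.erase k) (fun j => (E (col c hc j) A : ℤ)) b
      (fun j hj => hb j (ne_of_mem_erase hj))
    simpa using this
  have h3 : ((univ.erase k : Finset (Fin r)).card : ℤ) = r - 1 := by
    rw [card_erase_of_mem (mem_univ k), card_univ, Fintype.card_fin]
    have : 0 < r := k.pos
    omega
  rw [h3] at h2
  linarith

lemma E_upper (hs : Sees c) (k : Fin r) (A : Finset V) :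
    (E (col c hc k) A : ℤ) ≤ (A.card : ℤ) * (A.card - 1) - (r - 1) * (2 * A.card - 2 * r) :=
  E_upper_of hc k A _ fun j _ => E_lower _ r _ A rfl (alpha_le hc hs j A)

end Colour

section General

variable {V : Type*} (G : SimpleGraph V)

lemma gen_bound (r : ℕ) (l : ℝ)
    (hP : ∀ A : Finset V, (E G A : ℝ) ≤ (A.card : ℝ) * (A.card - 1) - (r - 1) * (2 * A.card - 2 * r)) :
    ∀ s : ℕ, ∀ S : Finset V, AlphaLe G S s → (2 * l - 1 + 2 * (r - 1)) * S.card
      - s * (l ^ 2 + 2 * (r - 1) * r) ≤ E G S := by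
  intro s
  induction s with
  | zero =>
    intro S h
    rw [h.zero]; simp [E]
  | succ s ih =>
    intro S h
    by_cases hS : S = ∅
    · subst hS
      have hP0 := hP ∅
      have h1 := ih ∅ (by
        intro I hI _
        rw [subset_empty.1 hI]; simp)
      simp [E] at h1 hP0 ⊢
      nlinarith [sq_nonneg l]
    · obtain ⟨v, hv, hmin⟩ := exists_min_image S (fun w => dg G S w) (nonempty_iff_ne_empty.2 hS)
      have h1 := ih (S \ nb G S v) (h.sdiff_nb G hv)
      have h2 := E_sdiff G (nb_sub G S v)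
      have h3 := nb_card G hv
      have h4 : (nb G S v).card * dg G S v ≤ ∑ z ∈ nb G S v, dg G S z := by
        have := card_nsmul_le_sum (nb G S v) (fun z => dg G S z) (dg G S v)
          (fun z hz => hmin z (nb_sub G S v hz))
        simpa using this
      have h5 := hP (nb G S v)
      have h6 := card_sdiff_add_card_eq_card (nb_sub G S v)
      set g : ℕ := (nb G S v).card with hg
      have h2' : (E G S : ℝ) + E G (nb G S v) = E G (S \ nb G S v) + 2 * ((∑ z ∈ nb G S v, dg G S z : ℕ) : ℝ) := by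
        exact_mod_cast h2
      have h3' : (dg G S v : ℝ) = g - 1 := by rw [h3]; push_cast; ring
      have h4' : (g : ℝ) * dg G S v ≤ ((∑ z ∈ nb G S v, dg G S z : ℕ) : ℝ) := by exact_mod_cast h4
      have h6' : ((S \ nb G S v).card : ℝ) + g = S.card := by exact_mod_cast h6
      rw [h3'] at h4'
      push_cast
      have h7 : ((S \ nb G S v).card : ℝ) = S.card - g := by linarith
      rw [h7] at h1
      nlinarith [sq_nonneg ((g : ℝ) - l)]

end General

section Main

/-- every `r`-colouring of the edges of `K_N` has `r+1` vertices spanning no edge of some colour -/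
def Good (r N : ℕ) : Prop := ∀ c : Fin N → Fin N → Fin r, (∀ x y, c x y = c y x) →
  ∃ S : Finset (Fin N), S.card = r + 1 ∧ ∃ k : Fin r, ∀ x ∈ S, ∀ y ∈ S, x ≠ y → c x y ≠ k

lemma exists_min_colour {V : Type*} {r : ℕ} {c : V → V → Fin r} (hc : ∀ x y, c x y = c y x)
    (hr : 0 < r) (S : Finset V) : ∃ k : Fin r, (r : ℤ) * E (col c hc k) S ≤ (S.card : ℤ) * (S.card - 1) := by
  obtain ⟨k, _, hk⟩ := exists_min_image (univ : Finset (Fin r)) (fun k => (E (col c hc k) S : ℤ))
    ⟨⟨0, hr⟩, mem_univ _⟩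
  refine ⟨k, ?_⟩
  rw [← sum_E_int hc S]
  have := card_nsmul_le_sum (univ : Finset (Fin r)) (fun k => (E (col c hc k) S : ℤ)) _ hk
  simpa using this

theorem general (r N : ℕ) (hr : 2 ≤ r) (hN : r ^ 2 + r / 2 + 1 ≤ N) : Good r N := by
  intro c hc
  by_contra hcon
  push Not at hcon
  have hs : Sees c := fun S hS k => by
    obtain ⟨x, hx, y, hy, hxy, hk⟩ := hcon S hS k
    exact ⟨x, hx, y, hy, hxy, hk⟩
  obtain ⟨W, -, hW⟩ := exists_subset_card_eq (s := (univ : Finset (Fin N)))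
    (show r ^ 2 + r / 2 + 1 ≤ (univ : Finset (Fin N)).card by simpa using hN)
  obtain ⟨k, hk⟩ := exists_min_colour hc (show 0 < r by omega) W
  have hr1 : (2 : ℝ) ≤ r := by exact_mod_cast hr
  have hP : ∀ A : Finset (Fin N), (E (col c hc k) A : ℝ) ≤ (A.card : ℝ) * (A.card - 1)
      - (r - 1) * (2 * A.card - 2 * r) := fun A => by
    exact_mod_cast E_upper hc hs k A
  have h := gen_bound (col c hc k) r ((W.card : ℝ) / r) hP r W (alpha_le hc hs k W)
  have hk' : (r : ℝ) * E (col c hc k) W ≤ (W.card : ℝ) * (W.card - 1) := by exact_mod_cast hk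
  -- numerical contradiction
  have hdiv : r ≤ 2 * (r / 2) + 1 := by omega
  have hm : ((r / 2 : ℕ) : ℝ) ≥ (r - 1) / 2 := by
    have : (r : ℝ) ≤ 2 * ((r / 2 : ℕ) : ℝ) + 1 := by exact_mod_cast hdiv
    linarith
  have hn : (W.card : ℝ) = r ^ 2 + ((r / 2 : ℕ) : ℝ) + 1 := by rw [hW]; push_cast; ring
  set n : ℝ := (W.card : ℝ) with hndef
  set m : ℝ := ((r / 2 : ℕ) : ℝ) + 1 with hmdef
  have hn2 : n = r ^ 2 + m := by rw [hn]; ring
  have h2 : (2 * (n / r) - 1 + 2 * (r - 1)) * n * r - r * ((n / r) ^ 2 + 2 * (r - 1) * r) * r ≤ n * (n - 1) := by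
    have := mul_le_mul_of_nonneg_left h (show (0 : ℝ) ≤ r by linarith)
    nlinarith
  have h3 : (2 * (n / r) - 1 + 2 * (r - 1)) * n * r - r * ((n / r) ^ 2 + 2 * (r - 1) * r) * r
      = n ^ 2 - n * r + 2 * (r - 1) * r * (n - r ^ 2) := by
    have hr0 : (r : ℝ) ≠ 0 := by linarith
    field_simp
    ring
  rw [h3, hn2] at h2
  have hm1 : m ≥ (r + 1) / 2 := by rw [hmdef]; linarith
  -- 2 (r-1) r m ≤ (r^2+m)(r-1)
  have h4 : 2 * r * m ≤ r ^ 2 + m := by
    have h5 : 2 * (r - 1) * r * m ≤ (r ^ 2 + m) * (r - 1) := by nlinarith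
    have h6 : (r - 1) * (2 * r * m) ≤ (r - 1) * (r ^ 2 + m) := by linarith
    exact le_of_mul_le_mul_left h6 (by linarith)
  nlinarith

end Main

end Pool.Agent.Lib.MP_f04ccf_co
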