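import Pool.Agent.Lib.MP_f04ccf_co.Basic

set_option autoImplicit false

namespace Pool.Agent.Lib.MP_f04ccf_co

open Finset

attribute [local instance] Classical.propDecidable

variable {V : Type*} (G : SimpleGraph V)

lemma owner (S : Finset V) : ∀ n : ℕ, ∀ S' : Finset V, S'.card = n → S' ⊆ S →
    ∃ T ⊆ S', Ind G T ∧ ∃ own : V → V, ∀ z ∈ S', own z ∈ T ∧ (own z = z ∨ G.Adj z (own z)) ∧
      dg G S (own z) ≤ dg G S z := by
  intro n
  induction n using Nat.strong_induction_on with
  | _ n ih =>
    intro S' hn hS'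
    by_cases he : S' = ∅
    · subst he
      exact ⟨∅, Subset.refl _, by intro x hx; simp at hx, id, by simp⟩
    · obtain ⟨v, hv, hmin⟩ := exists_min_image S' (fun w => dg G S w) (nonempty_iff_ne_empty.2 he)
      have hvn : v ∈ nb G S' v := by
        rw [nb, mem_filter]; exact ⟨hv, Or.inl rfl⟩
      have hcard : (S' \ nb G S' v).card < n := by
        rw [← hn]
        refine card_lt_card ⟨sdiff_subset, fun h => ?_⟩
        have := h hv
        rw [mem_sdiff] at this
        exact this.2 hvn
      obtain ⟨T, hT, hTi, own, hown⟩ := ih _ hcard (S' \ nb G S' v) rfl (sdiff_subset.trans hS')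
      refine ⟨insert v T, ?_, ?_, fun z => if z ∈ nb G S' v then v else own z, ?_⟩
      · intro x hx
        rw [mem_insert] at hx
        rcases hx with rfl | hx
        · exact hv
        · exact (mem_sdiff.1 (hT hx)).1
      · refine Ind.insert_of G hTi fun x hx hvx => ?_
        have := mem_sdiff.1 (hT hx)
        exact this.2 (mem_filter.2 ⟨this.1, Or.inr hvx⟩)
      · intro z hz
        by_cases hzn : z ∈ nb G S' v
        · simp only [hzn, if_true]
          refine ⟨mem_insert_self _ _, ?_, hmin z hz⟩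
          rcases (mem_filter.1 hzn).2 with h | h
          · exact Or.inl h.symm
          · exact Or.inr h.symm
        · simp only [hzn, if_false]
          have := hown z (mem_sdiff.2 ⟨hz, hzn⟩)
          exact ⟨mem_insert_of_mem this.1, this.2⟩

/-- Turan-type and Fajtlowicz-type bounds, for a greedy independent set -/
lemma refined (S : Finset V) (s W : ℕ) (hs : 2 ≤ s) (hα : AlphaLe G S s)
    (hω : ∀ K : Finset V, K ⊆ S → Clq G K → K.card ≤ W) :
    ((S.card : ℤ) ^ 2 ≤ (s - 1) * (E G S + S.card)) ∨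
    ∃ m : ℤ, 1 ≤ m ∧ s * m ≤ S.card ∧
      (s - 1) * m ^ 2 + (S.card - m) ^ 2 ≤ (s - 1) * (E G S + S.card) ∧
      (s - 1) * m ^ 2 + (S.card - m) ^ 2 + (s - 1) * m * (S.card - s * W) ≤ (s - 1) * (E G S + S.card) ∧
      (s - 1) * m ^ 2 + (S.card - m) ^ 2 + (s - 1) * m * (S.card - m - (s - 1) * W) ≤
        (s - 1) * (E G S + S.card) := by
  obtain ⟨T, hTS, hTi, own, hown⟩ := owner G S _ S rfl (Subset.refl _)
  have hTs := hα T hTS hTi
  -- own v = v on T
  have hov : ∀ v ∈ T, own v = v := by
    intro v hv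
    rcases (hown v (hTS hv)).2.1 with h | h
    · exact h
    · exact absurd h (hTi v hv _ (hown v (hTS hv)).1)
  set x : V → ℤ := fun v => ((S.filter (fun z => own z = v)).card : ℤ) with hx
  have hmap : ∀ z ∈ S, own z ∈ T := fun z hz => (hown z hz).1
  have hsumx : ∑ v ∈ T, x v = S.card := by
    rw [card_eq_sum_card_fiberwise hmap]; push_cast; rfl
  have hx1 : ∀ v ∈ T, 1 ≤ x v := by
    intro v hv
    have : 0 < (S.filter (fun z => own z = v)).card :=
      card_pos.2 ⟨v, mem_filter.2 ⟨hTS hv, hov v hv⟩⟩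
    simp only [hx]; omega
  have hxg : ∀ v ∈ T, x v ≤ dg G S v + 1 := by
    intro v hv
    have h1 : (S.filter (fun z => own z = v)).card ≤ (nb G S v).card := by
      refine card_le_card fun z hz => ?_
      rw [mem_filter] at hz
      rw [nb, mem_filter]
      refine ⟨hz.1, ?_⟩
      rcases (hown z hz.1).2.1 with h | h
      · left; rw [← h]; exact hz.2
      · right; rw [← hz.2]; exact h.symm
    rw [nb_card G (hTS hv)] at h1
    simp only [hx]; exact_mod_cast h1
  have hE : ∑ v ∈ T, x v * (dg G S v + 1) ≤ E G S + S.card := by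
    have h1 : ∑ z ∈ S, ((dg G S (own z) : ℤ) + 1) ≤ ∑ z ∈ S, ((dg G S z : ℤ) + 1) :=
      sum_le_sum fun z hz => by
        have := (hown z hz).2.2
        exact_mod_cast Nat.succ_le_succ this
    have h2 : ∑ z ∈ S, ((dg G S (own z) : ℤ) + 1) = ∑ v ∈ T, x v * (dg G S v + 1) := by
      rw [← sum_fiberwise_of_maps_to hmap]
      refine sum_congr rfl fun v _ => ?_
      rw [sum_congr rfl (g := fun _ => ((dg G S v : ℤ) + 1))]
      · rw [sum_const, nsmul_eq_mul]
      · intro z hz
        rw [(mem_filter.1 hz).2]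
    have h3 : ∑ z ∈ S, ((dg G S z : ℤ) + 1) = E G S + S.card := by
      rw [sum_add_distrib]; unfold E; push_cast; simp
    linarith
  have hEx : ∑ v ∈ T, x v ^ 2 ≤ E G S + S.card := by
    refine le_trans (sum_le_sum fun v hv => ?_) hE
    have h1 := hx1 v hv
    have h2 := hxg v hv
    nlinarith
  have hsq : ∀ A : Finset V, (∑ v ∈ A, x v) ^ 2 ≤ A.card * ∑ v ∈ A, x v ^ 2 := fun A =>
    sq_sum_le_card_mul_sum_sq
  by_cases hlt : T.card < s
  · left
    have h1 := hsq T
    rw [hsumx] at h1
    have h2 : (T.card : ℤ) ≤ s - 1 := by omega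
    have h3 : (0 : ℤ) ≤ ∑ v ∈ T, x v ^ 2 := sum_nonneg fun v _ => sq_nonneg _
    calc (S.card : ℤ) ^ 2 ≤ T.card * ∑ v ∈ T, x v ^ 2 := h1
      _ ≤ (s - 1) * ∑ v ∈ T, x v ^ 2 := mul_le_mul_of_nonneg_right h2 h3
      _ ≤ (s - 1) * (E G S + S.card) := mul_le_mul_of_nonneg_left hEx (by omega)
  · right
    have hTc : T.card = s := by omega
    have hTne : T.Nonempty := card_pos.1 (by omega)
    set P : V → Finset V := fun v => S.filter (fun z => own z = v ∧ ∀ w ∈ T, (w = z ∨ G.Adj z w) → w = v)
      with hP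
    have hPx : ∀ v, ((P v).card : ℤ) ≤ x v := by
      intro v
      have : (P v).card ≤ (S.filter (fun z => own z = v)).card := by
        refine card_le_card fun z hz => ?_
        simp only [hP, mem_filter] at hz ⊢
        exact ⟨hz.1, hz.2.1⟩
      simp only [hx]; exact_mod_cast this
    have hPW : ∀ v ∈ T, ((P v).card : ℤ) ≤ W := by
      intro v hv
      have : (P v).card ≤ W := by
        refine hω _ (filter_subset _ _) ?_
        intro z hz z' hz' hne'
        by_contra hadj
        rw [hP] at hz hz'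
        simp only [mem_filter] at hz hz'
        have hzT : ∀ w ∈ T.erase v, ¬ G.Adj z w := by
          intro w hw hzw
          exact (mem_erase.1 hw).1 (hz.2.2 w (mem_erase.1 hw).2 (Or.inr hzw))
        have hzT' : ∀ w ∈ T.erase v, ¬ G.Adj z' w := by
          intro w hw hzw
          exact (mem_erase.1 hw).1 (hz'.2.2 w (mem_erase.1 hw).2 (Or.inr hzw))
        have hznT : z ∉ T.erase v := fun h => (mem_erase.1 h).1 (hz.2.2 z (mem_erase.1 h).2 (Or.inl rfl))
        have hznT' : z' ∉ T.erase v := fun h => (mem_erase.1 h).1 (hz'.2.2 z' (mem_erase.1 h).2 (Or.inl rfl))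
        have hi1 : Ind G (insert z (T.erase v)) :=
          Ind.insert_of G (fun a ha b hb => hTi a (mem_erase.1 ha).2 b (mem_erase.1 hb).2) hzT
        have hi2 : Ind G (insert z' (insert z (T.erase v))) := by
          refine Ind.insert_of G hi1 fun w hw => ?_
          rw [mem_insert] at hw
          rcases hw with rfl | hw
          · exact fun h => hadj h.symm
          · exact hzT' w hw
        have hc := hα (insert z' (insert z (T.erase v))) (by
          intro w hw
          rw [mem_insert, mem_insert] at hw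
          rcases hw with rfl | rfl | hw
          · exact hz'.1
          · exact hz.1
          · exact hTS (mem_erase.1 hw).2) hi2
        rw [card_insert_of_notMem, card_insert_of_notMem hznT, card_erase_of_mem hv] at hc
        · omega
        · rw [mem_insert]; push Not
          exact ⟨hne'.symm, hznT'⟩
      exact_mod_cast this
    -- sum of (deg + 1) over T
    have hg : 2 * (S.card : ℤ) - ∑ v ∈ T, ((P v).card : ℤ) ≤ ∑ v ∈ T, ((dg G S v : ℤ) + 1) := by
      have h1 : ∑ v ∈ T, ((dg G S v : ℤ) + 1) = ∑ v ∈ T, ((nb G S v).card : ℤ) :=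
        sum_congr rfl fun v hv => by rw [nb_card G (hTS hv)]; push_cast; rfl
      have h2 : ∑ v ∈ T, ((nb G S v).card : ℤ)
          = ∑ z ∈ S, ((T.filter (fun w => w = z ∨ G.Adj z w)).card : ℤ) := by
        have h := Finset.sum_card_bipartiteAbove_eq_sum_card_bipartiteBelow (s := T) (t := S)
          (fun w z => w = z ∨ G.Adj z w)
        simp only [bipartiteAbove, bipartiteBelow] at h
        have h' : ∑ v ∈ T, (nb G S v).card = ∑ z ∈ S, (T.filter (fun w => w = z ∨ G.Adj z w)).card := by
          rw [← h]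
          refine sum_congr rfl fun v _ => ?_
          congr 1
          ext z
          simp [nb, eq_comm, G.adj_comm]
        exact_mod_cast h'
      have h3 : ∑ v ∈ T, ((P v).card : ℤ) = ∑ z ∈ S, (if z ∈ P (own z) then (1 : ℤ) else 0) := by
        rw [← sum_fiberwise_of_maps_to hmap]
        refine sum_congr rfl fun v _ => ?_
        have : P v = (S.filter (fun z => own z = v)).filter (fun z => z ∈ P (own z)) := by
          ext z
          simp only [hP, mem_filter]
          constructor
          · rintro ⟨h1, h2, h3⟩; exact ⟨⟨h1, h2⟩, h1, trivial, by rw [h2]; exact h3⟩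
          · rintro ⟨⟨h1, h2⟩, _, _, h3⟩; exact ⟨h1, h2, by rw [h2] at h3; exact h3⟩
        rw [this, card_filter]
        push_cast
        refine sum_congr rfl fun z _ => ?_
        rfl
      have h4 : ∀ z ∈ S, (2 : ℤ) - (if z ∈ P (own z) then (1 : ℤ) else 0)
          ≤ ((T.filter (fun w => w = z ∨ G.Adj z w)).card : ℤ) := by
        intro z hz
        have ho := hown z hz
        have hmem : own z ∈ T.filter (fun w => w = z ∨ G.Adj z w) := mem_filter.2 ⟨ho.1, ho.2.1⟩
        split_ifs with hp
        · have : 1 ≤ (T.filter (fun w => w = z ∨ G.Adj z w)).card := card_pos.2 ⟨_, hmem⟩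
          push_cast; omega
        · have hp' : ∃ w ∈ T, (w = z ∨ G.Adj z w) ∧ w ≠ own z := by
            by_contra hcon
            push Not at hcon
            exact hp (mem_filter.2 ⟨hz, rfl, fun w hw h => hcon w hw h⟩)
          obtain ⟨w, hw, hwz, hne'⟩ := hp'
          have : 1 < (T.filter (fun w => w = z ∨ G.Adj z w)).card :=
            one_lt_card.2 ⟨w, mem_filter.2 ⟨hw, hwz⟩, own z, hmem, hne'⟩
          push_cast; omega
      have h5 := sum_le_sum h4
      rw [sum_sub_distrib, ← h3, sum_const, nsmul_eq_mul] at h5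
      rw [h1, h2]
      linarith
    obtain ⟨v0, hv0, hmin⟩ := exists_min_image T x hTne
    have hm1 := hx1 v0 hv0
    have hgx : x v0 * (∑ v ∈ T, ((dg G S v : ℤ) + 1 - x v)) ≤ ∑ v ∈ T, x v * ((dg G S v : ℤ) + 1 - x v) := by
      rw [mul_sum]
      exact sum_le_sum fun v hv => mul_le_mul_of_nonneg_right (hmin v hv) (by linarith [hxg v hv])
    have hgs : ∑ v ∈ T, ((dg G S v : ℤ) + 1 - x v) = ∑ v ∈ T, ((dg G S v : ℤ) + 1) - S.card := by
      rw [sum_sub_distrib, hsumx]
    have hgt : ∑ v ∈ T, x v * ((dg G S v : ℤ) + 1 - x v)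
        = ∑ v ∈ T, x v * ((dg G S v : ℤ) + 1) - ∑ v ∈ T, x v ^ 2 := by
      rw [← sum_sub_distrib]; exact sum_congr rfl fun v _ => by ring
    have hmain : ∑ v ∈ T, x v ^ 2 + x v0 * (S.card - ∑ v ∈ T, ((P v).card : ℤ)) ≤ E G S + S.card := by
      rw [hgs, hgt] at hgx
      have : x v0 * (S.card - ∑ v ∈ T, ((P v).card : ℤ))
          ≤ x v0 * (∑ v ∈ T, ((dg G S v : ℤ) + 1) - S.card) :=
        mul_le_mul_of_nonneg_left (by linarith) (by linarith)
      linarith
    have hP1 : ∑ v ∈ T, ((P v).card : ℤ) ≤ s * W := by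
      have := sum_le_card_nsmul T (fun v => ((P v).card : ℤ)) W hPW
      rw [hTc] at this
      simpa using this
    have hP2 : ∑ v ∈ T, ((P v).card : ℤ) ≤ x v0 + (s - 1) * W := by
      rw [← add_sum_erase _ _ hv0]
      have := sum_le_card_nsmul (T.erase v0) (fun v => ((P v).card : ℤ)) W
        (fun v hv => hPW v (mem_erase.1 hv).2)
      rw [card_erase_of_mem hv0, hTc, nsmul_eq_mul] at this
      have h1 := hPx v0
      have h2 : ((s - 1 : ℕ) : ℤ) = s - 1 := by omega
      rw [h2] at this
      linarith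
    have hsqx : (s - 1 : ℤ) * x v0 ^ 2 + (S.card - x v0) ^ 2 ≤ (s - 1) * ∑ v ∈ T, x v ^ 2 := by
      rw [← add_sum_erase T _ hv0]
      have h1 := hsq (T.erase v0)
      have h2 : ∑ v ∈ T.erase v0, x v = S.card - x v0 := by
        rw [← hsumx, ← add_sum_erase T _ hv0]; ring
      rw [h2, card_erase_of_mem hv0, hTc] at h1
      have h3 : ((s - 1 : ℕ) : ℤ) = s - 1 := by omega
      rw [h3] at h1
      linarith
    have hs1 : (0 : ℤ) ≤ s - 1 := by omega
    refine ⟨x v0, hm1, ?_, hsqx.trans (mul_le_mul_of_nonneg_left hEx hs1), ?_, ?_⟩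
    · rw [← hsumx]
      have := card_nsmul_le_sum T x (x v0) hmin
      rw [hTc] at this
      simpa using this
    · have h1 : x v0 * (S.card - s * W) ≤ x v0 * (S.card - ∑ v ∈ T, ((P v).card : ℤ)) :=
        mul_le_mul_of_nonneg_left (by linarith) (by linarith)
      nlinarith [mul_le_mul_of_nonneg_left (le_trans (add_le_add_right h1 (∑ v ∈ T, x v ^ 2)) hmain) hs1]
    · have h1 : x v0 * (S.card - x v0 - (s - 1) * W) ≤ x v0 * (S.card - ∑ v ∈ T, ((P v).card : ℤ)) :=
        mul_le_mul_of_nonneg_left (by linarith) (by linarith)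
      nlinarith [mul_le_mul_of_nonneg_left (le_trans (add_le_add_right h1 (∑ v ∈ T, x v ^ 2)) hmain) hs1]

lemma turan (S : Finset V) (s : ℕ) (hs : 2 ≤ s) (hα : AlphaLe G S s) :
    (S.card : ℤ) ^ 2 ≤ s * (E G S + S.card) := by
  have hs2 : (2 : ℤ) ≤ s := by exact_mod_cast hs
  rcases refined G S s S.card hs hα (fun K hK _ => card_le_card hK) with h | ⟨m, -, -, h, -, -⟩
  · have : (0 : ℤ) ≤ E G S + S.card := by positivity
    linarith
  · have h1 : (s - 1 : ℤ) * (S.card : ℤ) ^ 2 ≤ (s - 1) * (s * (E G S + S.card)) := by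
      nlinarith [sq_nonneg ((s : ℤ) * m - S.card), mul_le_mul_of_nonneg_left h (show (0 : ℤ) ≤ s by linarith)]
    exact le_of_mul_le_mul_left h1 (by linarith)

end Pool.Agent.Lib.MP_f04ccf_co
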