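import Pool.Agent.Lib.MP_f04ccf_co.Levels

set_option autoImplicit false

namespace Pool.Agent.Lib.MP_f04ccf_co

open Finset

attribute [local instance] Classical.propDecidable

variable {V : Type*}

/-- Fajtlowicz: degrees along a maximum independent set -/
lemma faj (G : SimpleGraph V) (S T : Finset V) (s W : ℕ) (hα : AlphaLe G S s)
    (hω : ∀ K : Finset V, K ⊆ S → Clq G K → K.card ≤ W) (hTS : T ⊆ S) (hTi : Ind G T)
    (hTc : T.card = s) : 2 * S.card ≤ s * W + ∑ v ∈ T, (dg G S v + 1) := by
  -- private part of v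
  set P : V → Finset V := fun v => S.filter (fun z => (v = z ∨ G.Adj z v) ∧
    ∀ w ∈ T, (w = z ∨ G.Adj z w) → w = v) with hP
  have hPW : ∀ v ∈ T, (P v).card ≤ W := by
    intro v hv
    refine hω _ (filter_subset _ _) ?_
    intro z hz z' hz' hne'
    by_contra hadj
    rw [hP] at hz hz'
    simp only [mem_filter] at hz hz'
    have hzT : ∀ w ∈ T.erase v, ¬ G.Adj z w := by
      intro w hw hzw
      exact (mem_erase.1 hw).1 (hz.2.2 w (mem_erase.1 hw).2 (Or.inr hzw))
    have hzT' : ∀ w ∈ T.erase v, ¬ G.Adj z' w := by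
      intro w hw hzw
      exact (mem_erase.1 hw).1 (hz'.2.2 w (mem_erase.1 hw).2 (Or.inr hzw))
    have hznT : z ∉ T.erase v := fun h => (mem_erase.1 h).1 (hz.2.2 z (mem_erase.1 h).2 (Or.inl rfl))
    have hznT' : z' ∉ T.erase v := fun h => (mem_erase.1 h).1 (hz'.2.2 z' (mem_erase.1 h).2 (Or.inl rfl))
    have hi1 : Ind G (insert z (T.erase v)) :=
      Ind.insert_of G (fun a ha b hb => hTi a (mem_erase.1 ha).2 b (mem_erase.1 hb).2) hzT
    have hi2 : Ind G (insert z' (insert z (T.erase v))) := by
      refine Ind.insert_of G hi1 fun w hw => ?_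
      rw [mem_insert] at hw
      rcases hw with rfl | hw
      · exact fun h => hadj h.symm
      · exact hzT' w hw
    have hc := hα (insert z' (insert z (T.erase v))) (by
      intro w hw
      rw [mem_insert, mem_insert] at hw
      rcases hw with rfl | rfl | hw
      · exact hz'.1
      · exact hz.1
      · exact hTS (mem_erase.1 hw).2) hi2
    rw [card_insert_of_notMem, card_insert_of_notMem hznT, card_erase_of_mem hv] at hc
    · have : 0 < T.card := card_pos.2 ⟨v, hv⟩
      omega
    · rw [mem_insert]; push Not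
      exact ⟨hne'.symm, hznT'⟩
  have hPs : ∑ v ∈ T, (P v).card ≤ s * W := by
    have := sum_le_card_nsmul T (fun v => (P v).card) W hPW
    rw [hTc] at this
    simpa using this
  have h1 : ∑ v ∈ T, (dg G S v + 1) = ∑ v ∈ T, (nb G S v).card :=
    sum_congr rfl fun v hv => (nb_card G (hTS hv)).symm
  have h2 : ∑ v ∈ T, (nb G S v).card = ∑ z ∈ S, (T.filter (fun w => w = z ∨ G.Adj z w)).card := by
    have h := Finset.sum_card_bipartiteAbove_eq_sum_card_bipartiteBelow (s := T) (t := S)
      (fun w z => w = z ∨ G.Adj z w)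
    simp only [bipartiteAbove, bipartiteBelow] at h
    rw [← h]
    refine sum_congr rfl fun v _ => ?_
    congr 1
    ext z
    simp [nb, eq_comm, G.adj_comm]
  have h3 : ∑ v ∈ T, (P v).card = ∑ z ∈ S, (T.filter (fun v => z ∈ P v)).card := by
    have h := Finset.sum_card_bipartiteAbove_eq_sum_card_bipartiteBelow (s := T) (t := S)
      (fun w z => z ∈ P w)
    simp only [bipartiteAbove, bipartiteBelow] at h
    rw [← h]
    refine sum_congr rfl fun v _ => ?_
    congr 1
    ext z
    simp only [hP, mem_filter]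
    constructor
    · rintro h; exact ⟨h.1, h⟩
    · rintro h; exact h.2
  have h4 : ∀ z ∈ S, 2 ≤ (T.filter (fun v => z ∈ P v)).card +
      (T.filter (fun w => w = z ∨ G.Adj z w)).card := by
    intro z hz
    -- at least one neighbour in T
    have hne : (T.filter (fun w => w = z ∨ G.Adj z w)).Nonempty := by
      by_contra hcon
      rw [not_nonempty_iff_eq_empty, filter_eq_empty_iff] at hcon
      have hzT : z ∉ T := fun h => hcon h (Or.inl rfl)
      have h := hα (insert z T) (by
        intro w hw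
        rw [mem_insert] at hw
        rcases hw with rfl | hw
        · exact hz
        · exact hTS hw) (Ind.insert_of G hTi fun w hw hzw => hcon hw (Or.inr hzw))
      rw [card_insert_of_notMem hzT] at h
      omega
    obtain ⟨w, hw⟩ := hne
    have hw' := mem_filter.1 hw
    by_cases hp : z ∈ P w
    · have : 0 < (T.filter (fun v => z ∈ P v)).card := card_pos.2 ⟨w, mem_filter.2 ⟨hw'.1, hp⟩⟩
      have : 0 < (T.filter (fun w => w = z ∨ G.Adj z w)).card := card_pos.2 ⟨w, hw⟩
      omega
    · have hp' : ∃ w' ∈ T, (w' = z ∨ G.Adj z w') ∧ w' ≠ w := by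
        by_contra hcon
        push Not at hcon
        exact hp (mem_filter.2 ⟨hz, hw'.2, fun a ha h => hcon a ha h⟩)
      obtain ⟨w', hw1, hw2, hne'⟩ := hp'
      have : 1 < (T.filter (fun w => w = z ∨ G.Adj z w)).card :=
        one_lt_card.2 ⟨w', mem_filter.2 ⟨hw1, hw2⟩, w, hw, hne'⟩
      omega
  have h5 := sum_le_sum h4
  rw [sum_const, sum_add_distrib, ← h3, ← h2, ← h1, smul_eq_mul] at h5
  omega

/-- level 4 for `r = 6` -/
lemma no_lev4 {c : V → V → Fin 6} (hc : ∀ x y, c x y = c y x) (hs : Sees c) (k : Fin 6)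
    {Z : Finset V} (hZ : Z.card = 25) (hα : AlphaLe (col c hc k) Z 4)
    (hE : E (col c hc k) Z ≤ 162) : False := by
  set G := col c hc k with hG
  have h3 : ∀ W : Finset V, AlphaLe G W 3 → W.card ≤ 18 := by
    intro W hW
    by_contra hcon
    exact no_lev3 hc hs (Or.inr rfl) k (show 3 * 6 + 1 ≤ W.card by omega) hW
  have h2 : ∀ W : Finset V, AlphaLe G W 2 → W.card ≤ 12 := by
    intro W hW
    by_contra hcon
    exact no_lev2 hc hs (by norm_num) k (show 2 * 6 + 1 ≤ W.card by omega) hW
  have hω : ∀ K : Finset V, K ⊆ Z → Clq G K → K.card ≤ 5 := by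
    intro K hK hKq
    by_contra hlt
    obtain ⟨K', hK', hKc'⟩ := exists_subset_card_eq (show 6 ≤ K.card by omega)
    have hq : Clq G K' := fun x hx y hy => hKq x (hK' hx) y (hK' hy)
    have hp := peel hc hs (by norm_num) k hq hKc' (hK'.trans hK) (by norm_num) hα
    have h5 := h3 _ hp
    have := card_sdiff_add_card_eq_card (hK'.trans hK)
    omega
  -- minimum degree
  have hδ : ∀ v ∈ Z, 6 ≤ dg G Z v := by
    intro v hv
    by_contra hlt
    have h5 := h3 _ (hα.sdiff_nb G hv)
    have h6 := nb_card G hv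
    have := card_sdiff_add_card_eq_card (nb_sub G Z v)
    omega
  -- degrees along maximum independent sets
  have hT : ∀ T : Finset V, T ⊆ Z → Ind G T → T.card = 4 → 26 ≤ ∑ v ∈ T, dg G Z v := by
    intro T h1 h2 h3
    have h4 := faj G Z T 4 5 hα hω h1 h2 h3
    rw [sum_add_distrib, hZ] at h4
    simp [h3] at h4
    omega
  set Q := Z.filter (fun v => dg G Z v = 6) with hQ
  set S1 := Z.filter (fun v => dg G Z v = 7) with hS1
  set H := Z.filter (fun v => 8 ≤ dg G Z v) with hH
  have hcard : Q.card + S1.card + H.card = 25 := by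
    have e1 : ∑ v ∈ Z, ((if dg G Z v = 6 then 1 else 0) + (if dg G Z v = 7 then 1 else 0) +
        (if 8 ≤ dg G Z v then 1 else 0)) = ∑ v ∈ Z, 1 := by
      refine sum_congr rfl fun v hv => ?_
      have := hδ v hv
      split_ifs <;> omega
    rw [sum_add_distrib, sum_add_distrib, ← card_filter, ← card_filter, ← card_filter,
      ← card_eq_sum_ones, hZ] at e1
    exact e1
  have hsum : S1.card + 2 * H.card ≤ 12 := by
    have e1 : ∑ v ∈ Z, (6 + (if dg G Z v = 7 then 1 else 0) + (if 8 ≤ dg G Z v then 2 else 0)) ≤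
        ∑ v ∈ Z, dg G Z v := by
      refine sum_le_sum fun v hv => ?_
      have := hδ v hv
      split_ifs <;> omega
    rw [sum_add_distrib, sum_add_distrib, sum_const, hZ] at e1
    have e2 : ∑ v ∈ Z, (if dg G Z v = 7 then 1 else 0) = S1.card := by
      rw [hS1, card_filter]
    have e3 : ∑ v ∈ Z, (if 8 ≤ dg G Z v then 2 else 0) = 2 * H.card := by
      rw [hH, card_filter, mul_sum]
      exact sum_congr rfl fun v _ => by split_ifs <;> rfl
    rw [e2, e3] at e1
    change _ ≤ E G Z at e1
    simp at e1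
    omega
  have hQZ : Q ⊆ Z := filter_subset _ _
  have hdQ : ∀ v ∈ Q, dg G Z v = 6 := fun v hv => (mem_filter.1 hv).2
  -- no independent 4-set inside Q or Q plus one vertex of degree 7
  have hαQ : AlphaLe G Q 3 := by
    intro I hI hi
    by_contra hlt
    obtain ⟨T, hT', hTc⟩ := exists_subset_card_eq (show 4 ≤ I.card by omega)
    have h5 := hT T ((hT'.trans hI).trans hQZ) (fun x hx y hy => hi x (hT' hx) y (hT' hy)) hTc
    rw [sum_congr rfl (fun v hv => hdQ v (hI (hT' hv))), sum_const, hTc] at h5
    simp at h5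
  have hαQ1 : ∀ x ∈ S1, AlphaLe G (insert x Q) 3 := by
    intro x hx I hI hi
    by_contra hlt
    obtain ⟨T, hT', hTc⟩ := exists_subset_card_eq (show 4 ≤ I.card by omega)
    have hsub : T ⊆ insert x Q := hT'.trans hI
    have hxZ : x ∈ Z := (mem_filter.1 hx).1
    have hxd : dg G Z x = 7 := (mem_filter.1 hx).2
    have h5 := hT T (by
      intro w hw
      have := hsub hw
      rw [mem_insert] at this
      rcases this with rfl | h
      · exact hxZ
      · exact hQZ h) (fun x hx y hy => hi x (hT' hx) y (hT' hy)) hTc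
    have h6 : ∑ v ∈ T, dg G Z v ≤ ∑ v ∈ T, (6 + if v = x then 1 else 0) := by
      refine sum_le_sum fun v hv => ?_
      have := hsub hv
      rw [mem_insert] at this
      rcases this with rfl | h
      · simp [hxd]
      · rw [hdQ v h]; omega
    rw [sum_add_distrib, sum_const, hTc] at h6
    have h7 : ∑ v ∈ T, (if v = x then 1 else 0) ≤ 1 := by
      rw [sum_ite_eq' T x]; split_ifs <;> omega
    simp only [smul_eq_mul] at h6
    omega
  have hQ18 := h3 Q hαQ
  have hS1ne : S1.Nonempty := by
    by_contra hcon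
    rw [not_nonempty_iff_eq_empty] at hcon
    rw [hcon] at hcard hsum
    simp at hcard hsum
    omega
  obtain ⟨x1, hx1⟩ := hS1ne
  have hQ17 : Q.card ≤ 17 := by
    have h5 := h3 _ (hαQ1 x1 hx1)
    rw [card_insert_of_notMem] at h5
    · omega
    · intro h
      have e1 := hdQ x1 h
      have e2 := (mem_filter.1 hx1).2
      omega
  have hQ13 : 13 ≤ Q.card := by omega
  -- the vertices missed by an independent triple of Q
  have hI : ∀ I : Finset V, I ⊆ Q → Ind G I → I.card = 3 →
      (∀ h ∈ H, ∀ q ∈ I, ¬ G.Adj q h) ∧ H.card = 4 := by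
    intro I hIQ hIi hIc
    set Y := Z.filter (fun z => z ∉ I ∧ ∀ q ∈ I, ¬ G.Adj q z) with hY
    have hYc : 4 ≤ Y.card := by
      have e1 : Z ⊆ Y ∪ I.biUnion (fun q => nb G Z q) := by
        intro z hz
        by_cases hzY : z ∈ Y
        · exact mem_union_left _ hzY
        · refine mem_union_right _ ?_
          rw [mem_biUnion]
          rw [hY, mem_filter] at hzY
          push Not at hzY
          have := hzY hz
          by_cases hzI : z ∈ I
          · exact ⟨z, hzI, mem_filter.2 ⟨hz, Or.inl rfl⟩⟩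
          · obtain ⟨q, hq, hqz⟩ := this hzI
            exact ⟨q, hq, mem_filter.2 ⟨hz, Or.inr hqz⟩⟩
      have e2 := card_le_card e1
      have e3 := card_union_le Y (I.biUnion (fun q => nb G Z q))
      have e4 : (I.biUnion (fun q => nb G Z q)).card ≤ I.card * 7 := by
        refine card_biUnion_le_card_mul _ _ _ fun q hq => ?_
        rw [nb_card G (hQZ (hIQ hq)), hdQ q (hIQ hq)]
      rw [hIc] at e4
      omega
    have hYH : Y ⊆ H := by
      intro y hy
      have hy' := mem_filter.1 hy
      rw [hH, mem_filter]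
      refine ⟨hy'.1, ?_⟩
      have h5 := hT (insert y I) (by
        intro w hw
        rw [mem_insert] at hw
        rcases hw with rfl | hw
        · exact hy'.1
        · exact hQZ (hIQ hw)) (Ind.insert_of G hIi fun q hq h => hy'.2.2 q hq h.symm)
        (by rw [card_insert_of_notMem hy'.2.1, hIc])
      rw [sum_insert hy'.2.1, sum_congr rfl (fun v hv => hdQ v (hIQ hv)), sum_const, hIc] at h5
      simp only [smul_eq_mul] at h5
      omega
    have hH4 : 4 ≤ H.card := hYc.trans (card_le_card hYH)
    have hH4' : H.card = 4 := by omega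
    have hEq : Y = H := eq_of_subset_of_card_le hYH (by omega)
    refine ⟨fun h hh q hq => ?_, hH4'⟩
    rw [← hEq] at hh
    exact (mem_filter.1 hh).2.2 q hq
  -- every vertex of Q lies in an independent triple
  have hq3 : ∀ q ∈ Q, ∃ I : Finset V, q ∈ I ∧ I ⊆ Q ∧ Ind G I ∧ I.card = 3 := by
    intro q hq
    have e1 : nb G Q q ⊆ Q := nb_sub G Q q
    have e2 : (nb G Q q).card ≤ 7 := by
      rw [nb_card G hq]
      have := dg_mono G hQZ q
      rw [hdQ q hq] at this
      omega
    have e3 := card_sdiff_add_card_eq_card e1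
    have e4 : ¬ Clq G (Q \ nb G Q q) := by
      intro hcl
      have := hω _ (sdiff_subset.trans hQZ) hcl
      omega
    unfold Clq at e4
    push Not at e4
    obtain ⟨y, hy, z, hz, hyz, hadj⟩ := e4
    rw [mem_sdiff] at hy hz
    have hy1 : y ≠ q ∧ ¬ G.Adj q y := by
      constructor
      · intro h; exact hy.2 (mem_filter.2 ⟨hy.1, Or.inl h⟩)
      · intro h; exact hy.2 (mem_filter.2 ⟨hy.1, Or.inr h⟩)
    have hz1 : z ≠ q ∧ ¬ G.Adj q z := by
      constructor
      · intro h; exact hz.2 (mem_filter.2 ⟨hz.1, Or.inl h⟩)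
      · intro h; exact hz.2 (mem_filter.2 ⟨hz.1, Or.inr h⟩)
    refine ⟨{q, y, z}, by simp, ?_, ?_, ?_⟩
    · intro w hw
      simp only [mem_insert, mem_singleton] at hw
      rcases hw with rfl | rfl | rfl
      · exact hq
      · exact hy.1
      · exact hz.1
    · refine Ind.insert_of G (Ind.insert_of G (I := {z}) ?_ ?_) ?_
      · intro a ha b hb
        rw [mem_singleton] at ha hb
        subst ha; subst hb
        exact G.loopless.irrefl _
      · intro a ha
        rw [mem_singleton] at ha
        subst ha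
        exact hadj
      · intro a ha
        simp only [mem_insert, mem_singleton] at ha
        rcases ha with rfl | rfl
        · exact hy1.2
        · exact hz1.2
    · rw [card_insert_of_notMem, card_insert_of_notMem, card_singleton]
      · simp [hyz]
      · simp only [mem_insert, mem_singleton]; push Not
        exact ⟨hy1.1.symm, hz1.1.symm⟩
  have hQne : Q.Nonempty := card_pos.1 (by omega)
  obtain ⟨q0, hq0⟩ := hQne
  obtain ⟨I0, -, hI0, hI0i, hI0c⟩ := hq3 q0 hq0
  have hH4 := (hI I0 hI0 hI0i hI0c).2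
  obtain ⟨h0, hh0⟩ : H.Nonempty := card_pos.1 (by omega)
  -- h0 has no neighbour in Q
  have hno : ∀ q ∈ Q, ¬ G.Adj h0 q := by
    intro q hq hadj
    obtain ⟨I, hqI, hIQ, hIi, hIc⟩ := hq3 q hq
    exact (hI I hIQ hIi hIc).1 h0 hh0 q hqI hadj.symm
  have hd0 : 8 ≤ dg G Z h0 := (mem_filter.1 hh0).2
  have hsub : Z.filter (fun w => G.Adj h0 w) ⊆ S1 ∪ H.erase h0 := by
    intro w hw
    have hw' := mem_filter.1 hw
    have hdw := hδ w hw'.1
    have hwQ : w ∉ Q := fun h => hno w h hw'.2
    by_cases h7 : dg G Z w = 7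
    · exact mem_union_left _ (mem_filter.2 ⟨hw'.1, h7⟩)
    · refine mem_union_right _ (mem_erase.2 ⟨?_, mem_filter.2 ⟨hw'.1, ?_⟩⟩)
      · rintro rfl; exact G.loopless.irrefl _ hw'.2
      · have : dg G Z w ≠ 6 := fun h => hwQ (mem_filter.2 ⟨hw'.1, h⟩)
        omega
  have h8 := card_le_card hsub
  have h9 := card_union_le S1 (H.erase h0)
  rw [card_erase_of_mem hh0] at h9
  have : dg G Z h0 ≤ 7 := by
    unfold dg
    omega
  omega

end Pool.Agent.Lib.MP_f04ccf_co
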