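import Pool.Agent.Lib.MP_f04ccf_co.Colour
import Pool.Agent.Lib.MP_f04ccf_co.Greedy

set_option autoImplicit false

namespace Pool.Agent.Lib.MP_f04ccf_co

open Finset

attribute [local instance] Classical.propDecidable

section Basic

variable {V : Type*} {r : ℕ} {c : V → V → Fin r} (hc : ∀ x y, c x y = c y x)

lemma clq_ind {k j : Fin r} (hjk : j ≠ k) {K : Finset V} (hK : Clq (col c hc k) K) :
    Ind (col c hc j) K := by
  intro x hx y hy hxy
  have h1 : x ≠ y ∧ c x y = j := hxy
  have h2 : x ≠ y ∧ c x y = k := hK x hx y hy h1.1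
  exact hjk (h1.2.symm.trans h2.2)

lemma exists_other (hr : 2 ≤ r) (k : Fin r) : ∃ j : Fin r, j ≠ k := by
  by_cases h : k.val = 0
  · exact ⟨⟨1, by omega⟩, fun h' => by rw [← h'] at h; simp at h⟩
  · exact ⟨⟨0, by omega⟩, fun h' => by rw [← h'] at h; simp at h⟩

lemma clq_card_le (hs : Sees c) (hr : 2 ≤ r) (k : Fin r) {K : Finset V}
    (hK : Clq (col c hc k) K) : K.card ≤ r := by
  obtain ⟨j, hj⟩ := exists_other hr k
  exact alpha_le hc hs j K K (Subset.refl _) (clq_ind hc hj hK)

omit hc in
lemma dg_clq (G : SimpleGraph V) {K : Finset V} (hK : Clq G K) {v : V} (hv : v ∈ K) :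
    dg G K v = K.card - 1 := by
  have h := nb_card G hv
  have h2 : nb G K v = K := by
    refine Subset.antisymm (nb_sub G K v) fun w hw => mem_filter.2 ⟨hw, ?_⟩
    by_cases h : w = v
    · exact Or.inl h
    · exact Or.inr (hK v hv w hw (Ne.symm h))
  rw [h2] at h
  omega

omit hc in
lemma E_clq (G : SimpleGraph V) {K : Finset V} (hK : Clq G K) :
    E G K = K.card * (K.card - 1) := by
  unfold E
  rw [sum_congr rfl (fun v hv => dg_clq G hK hv)]
  simp

/-- a vertex outside a monochromatic `K_r` has at most one neighbour of that colour in it -/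
lemma line_nbr (hs : Sees c) (hr : 2 ≤ r) (k : Fin r) {K : Finset V} (hK : Clq (col c hc k) K)
    (hKc : K.card = r) {z : V} (hz : z ∉ K) : dg (col c hc k) K z ≤ 1 := by
  have h1 := E_upper hc hs k (insert z K)
  have h2 := E_erase (col c hc k) (mem_insert_self z K)
  rw [erase_insert hz, E_clq _ hK, hKc] at h2
  have h3 : dg (col c hc k) (insert z K) z = dg (col c hc k) K z := by
    unfold dg
    rw [filter_insert, if_neg]
    exact (col c hc k).loopless.irrefl z
  rw [h3] at h2
  rw [card_insert_of_notMem hz, hKc, h2] at h1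
  obtain ⟨m, rfl⟩ : ∃ m, r = m + 1 := ⟨r - 1, by omega⟩
  push_cast at h1
  have : (2 : ℤ) * dg (col c hc k) K z ≤ 2 := by nlinarith
  omega

/-- removing a monochromatic `K_r` lowers the level -/
lemma peel (hs : Sees c) (hr : 2 ≤ r) (k : Fin r) {K S : Finset V} {t : ℕ}
    (hK : Clq (col c hc k) K) (hKc : K.card = r) (hKS : K ⊆ S) (ht : t + 1 < r)
    (hα : AlphaLe (col c hc k) S (t + 1)) : AlphaLe (col c hc k) (S \ K) t := by
  intro I hI hi
  by_contra hlt
  obtain ⟨J, hJ, hJc⟩ := exists_subset_card_eq (show t + 1 ≤ I.card by omega)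
  have hJi : Ind (col c hc k) J := fun x hx y hy => hi x (hJ hx) y (hJ hy)
  have h1 : ∑ v ∈ K, dg (col c hc k) J v ≤ t + 1 := by
    rw [dg_comm, ← hJc, card_eq_sum_ones]
    refine sum_le_sum fun x hx => line_nbr hc hs hr k hK hKc ?_
    exact (mem_sdiff.1 (hI (hJ hx))).2
  have h2 : ∃ v ∈ K, dg (col c hc k) J v = 0 := by
    by_contra hcon
    push Not at hcon
    have : ∑ v ∈ K, 1 ≤ ∑ v ∈ K, dg (col c hc k) J v :=
      sum_le_sum fun v hv => Nat.one_le_iff_ne_zero.2 (hcon v hv)
    rw [← card_eq_sum_ones, hKc] at this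
    omega
  obtain ⟨v, hv, hv0⟩ := h2
  have hvJ : ∀ x ∈ J, ¬ (col c hc k).Adj v x := by
    intro x hx hvx
    unfold dg at hv0
    rw [card_eq_zero, filter_eq_empty_iff] at hv0
    exact hv0 hx hvx
  have hvn : v ∉ J := fun h => (mem_sdiff.1 (hI (hJ h))).2 hv
  have h3 := hα (insert v J) (by
    intro x hx
    rw [mem_insert] at hx
    rcases hx with rfl | hx
    · exact hKS hv
    · exact (mem_sdiff.1 (hI (hJ hx))).1) (Ind.insert_of _ hJi hvJ)
  rw [card_insert_of_notMem hvn, hJc] at h3
  omega

omit hc in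
/-- shrinking a set with independence number at most `s` by vertices of degree at least `r` -/
lemma shrink (G : SimpleGraph V) (r s : ℕ) (hs : 2 ≤ s) : ∀ g : ℕ, ∀ Y : Finset V,
    Y.card = s * r + 1 + g → AlphaLe G Y s →
    ∃ Y' ⊆ Y, Y'.card = s * r + 1 ∧ E G Y' + 2 * r * g ≤ E G Y := by
  intro g
  induction g with
  | zero => intro Y hY _; exact ⟨Y, Subset.refl _, by omega, by simp⟩
  | succ g ih =>
    intro Y hY hα
    have h1 := turan G Y s hs hα
    have h2 : ∃ v ∈ Y, r ≤ dg G Y v := by
      by_contra hcon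
      push Not at hcon
      have h3 : E G Y + Y.card ≤ Y.card * r := by
        unfold E
        rw [card_eq_sum_ones, ← sum_add_distrib, sum_mul]
        exact sum_le_sum fun v hv => by have := hcon v hv; omega
      have h4 : (E G Y : ℤ) + Y.card ≤ Y.card * r := by exact_mod_cast h3
      have h5 : (Y.card : ℤ) = s * r + 1 + (g + 1) := by exact_mod_cast hY
      have h6 : (0 : ℤ) < Y.card := by rw [h5]; positivity
      have h7 : (s : ℤ) * (E G Y + Y.card) ≤ s * (Y.card * r) :=
        mul_le_mul_of_nonneg_left h4 (by positivity)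
      have h8 : (Y.card : ℤ) ≤ s * r := by
        have : (Y.card : ℤ) * Y.card ≤ Y.card * (s * r) := by nlinarith
        exact le_of_mul_le_mul_left this h6
      rw [h5] at h8
      have : (0 : ℤ) ≤ g := by positivity
      linarith
    obtain ⟨v, hv, hvr⟩ := h2
    obtain ⟨Y', hY', hc', hE'⟩ := ih (Y.erase v) (by rw [card_erase_of_mem hv, hY]; omega)
      (hα.mono G (erase_subset _ _))
    refine ⟨Y', hY'.trans (erase_subset _ _), hc', ?_⟩
    have := E_erase G hv
    calc E G Y' + 2 * r * (g + 1) = (E G Y' + 2 * r * g) + 2 * r := by ring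
      _ ≤ E G (Y.erase v) + 2 * dg G Y v := by omega
      _ = E G Y := by omega

end Basic

section Small

variable {V : Type*} {r : ℕ} {c : V → V → Fin r} (hc : ∀ x y, c x y = c y x)

lemma no_lev2 (hs : Sees c) (hr : 5 ≤ r) (k : Fin r) {W : Finset V} (hW : 2 * r + 1 ≤ W.card) :
    ¬ AlphaLe (col c hc k) W 2 := by
  intro hα0
  obtain ⟨A, hA, hAc⟩ := exists_subset_card_eq hW
  have hα := hα0.mono _ hA
  clear hα0 hW
  have hAz : (A.card : ℤ) = 2 * r + 1 := by exact_mod_cast hAc
  have hrz : (5 : ℤ) ≤ r := by exact_mod_cast hr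
  have hlow : ∀ j : Fin r, j ≠ k → (2 * r + 6 : ℤ) ≤ E (col c hc j) A := by
    intro j hj
    by_contra hlt
    push Not at hlt
    have hle : (E (col c hc j) A : ℤ) ≤ 2 * r + 5 := by omega
    have hω : ∀ K : Finset V, K ⊆ A → Clq (col c hc j) K → K.card ≤ 2 := fun K hK hKq =>
      hα K hK (clq_ind hc hj.symm hKq)
    rcases refined (col c hc j) A r 2 (by omega) (alpha_le hc hs j A) hω with h | ⟨m, h1, h2, -, h3, h4⟩
    · rw [hAz] at h
      nlinarith
    · rw [hAz] at h2 h3 h4
      have hm : m ≤ 2 := by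
        by_contra hm
        push Not at hm
        nlinarith
      have hm' : m = 1 ∨ m = 2 := by omega
      rcases hm' with rfl | rfl
      · push_cast at h4
        nlinarith
      · push_cast at h3
        nlinarith
  have h1 := E_upper_of hc k A _ hlow
  have h2 := turan (col c hc k) A 2 (le_refl _) hα
  rw [hAz] at h1 h2
  push_cast at h2
  nlinarith

lemma no_lev3 (hs : Sees c) (hr : r = 5 ∨ r = 6) (k : Fin r) {W : Finset V}
    (hW : 3 * r + 1 ≤ W.card) : ¬ AlphaLe (col c hc k) W 3 := by
  intro hα0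
  obtain ⟨A, hA, hAc⟩ := exists_subset_card_eq hW
  have hα := hα0.mono _ hA
  clear hα0 hW
  have hr5 : 5 ≤ r := by omega
  have hAz : (A.card : ℤ) = 3 * r + 1 := by exact_mod_cast hAc
  have hlow : ∀ j : Fin r, j ≠ k → (6 * r + 9 : ℤ) ≤ E (col c hc j) A := by
    intro j hj
    by_contra hlt
    push Not at hlt
    have hle : (E (col c hc j) A : ℤ) ≤ 6 * r + 8 := by omega
    have hω : ∀ K : Finset V, K ⊆ A → Clq (col c hc j) K → K.card ≤ 3 := fun K hK hKq =>
      hα K hK (clq_ind hc hj.symm hKq)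
    rcases refined (col c hc j) A r 3 (by omega) (alpha_le hc hs j A) hω with h | ⟨m, h1, h2, -, h3, h4⟩
    · rw [hAz] at h
      rcases hr with rfl | rfl <;> push_cast at * <;> linarith
    · rw [hAz] at h2 h3 h4
      have hm : m ≤ 3 := by
        by_contra hm
        push Not at hm
        rcases hr with rfl | rfl <;> push_cast at * <;> linarith
      have hm' : m = 1 ∨ m = 2 ∨ m = 3 := by omega
      rcases hr with rfl | rfl <;> rcases hm' with rfl | rfl | rfl <;> push_cast at * <;> linarith
  have h1 := E_upper_of hc k A _ hlow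
  have hω : ∀ K : Finset V, K ⊆ A → Clq (col c hc k) K → K.card ≤ r - 1 := by
    intro K hK hKq
    by_contra hlt
    obtain ⟨K', hK', hKc'⟩ := exists_subset_card_eq (show r ≤ K.card by omega)
    have hq : Clq (col c hc k) K' := fun x hx y hy => hKq x (hK' hx) y (hK' hy)
    have hp := peel hc hs (by omega) k hq hKc' (hK'.trans hK) (by omega) hα
    refine no_lev2 hc hs hr5 k ?_ hp
    have := card_sdiff_add_card_eq_card (hK'.trans hK)
    omega
  rw [hAz] at h1
  rcases refined (col c hc k) A 3 (r - 1) (by omega) hα hω with h | ⟨m, h1', h2, -, h3, h4⟩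
  · rw [hAz] at h
    rcases hr with rfl | rfl <;> push_cast at * <;> linarith
  · rw [hAz] at h2 h3 h4
    have hm : m ≤ 6 := by
      by_contra hm
      push Not at hm
      rcases hr with rfl | rfl <;> push_cast at * <;> linarith
    rcases hr with rfl | rfl
    · norm_num at h1 h2 h3 h4
      interval_cases m <;> linarith
    · norm_num at h1 h2 h3 h4
      interval_cases m <;> linarith

end Small

end Pool.Agent.Lib.MP_f04ccf_co
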