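import Pool.Agent.Lib.MP_f04ccf_co.Levels

set_option autoImplicit false

namespace Pool.Agent.Lib.MP_f04ccf_co

open Finset

attribute [local instance] Classical.propDecidable

/-- a graph on `r^2+1` points with independence number at most `r` and average degree at most `r`
contains a clique with `r` points -/
lemma exists_clique {V : Type*} (G : SimpleGraph V) {r : ℕ} (hr : 2 ≤ r) {S : Finset V}
    (hS : S.card = r ^ 2 + 1) (hα : AlphaLe G S r) (hE : E G S ≤ r * (r ^ 2 + 1)) :
    ∃ K ⊆ S, Clq G K ∧ K.card = r := by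
  have key : ∃ K ⊆ S, Clq G K ∧ r ≤ K.card := by
    by_contra hcon
    push Not at hcon
    have hω : ∀ K : Finset V, K ⊆ S → Clq G K → K.card ≤ r - 1 := by
      intro K hK hKq
      have := hcon K hK hKq
      omega
    have hSz : (S.card : ℤ) = (r : ℤ) ^ 2 + 1 := by exact_mod_cast hS
    have hEz : (E G S : ℤ) ≤ r * ((r : ℤ) ^ 2 + 1) := by exact_mod_cast hE
    have hr' : ((r - 1 : ℕ) : ℤ) = r - 1 := by omega
    have hr2 : (2 : ℤ) ≤ r := by exact_mod_cast hr
    have hB : ((r : ℤ) - 1) * (E G S + S.card) ≤ (r - 1) * ((r + 1) * ((r : ℤ) ^ 2 + 1)) := by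
      refine mul_le_mul_of_nonneg_left ?_ (by linarith)
      rw [hSz]; nlinarith
    rcases refined G S r (r - 1) hr hα hω with h | ⟨m, h1, h2, -, -, h4⟩
    · have h' := h.trans hB
      rw [hSz] at h'
      nlinarith
    · have h' := h4.trans hB
      rw [hSz, hr'] at h'
      nlinarith [sq_nonneg (m - (r + 1)), sq_nonneg ((r : ℤ) - 1)]
  obtain ⟨K, hK, hKq, hKc⟩ := key
  obtain ⟨K', hK', hKc'⟩ := exists_subset_card_eq hKc
  exact ⟨K', hK'.trans hK, fun x hx y hy => hKq x (hK' hx) y (hK' hy), hKc'⟩

section Line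

variable {V : Type*} {r : ℕ} {c : V → V → Fin r} (hc : ∀ x y, c x y = c y x)

/-- some colour has a monochromatic clique with `r` points (a line) -/
lemma exists_line (hs : Sees c) (hr : 2 ≤ r) {S : Finset V} (hS : S.card = r ^ 2 + 1) :
    ∃ k : Fin r, ∃ L ⊆ S, Clq (col c hc k) L ∧ L.card = r := by
  obtain ⟨k, hk⟩ := exists_min_colour hc (show 0 < r by omega) S
  refine ⟨k, exists_clique (col c hc k) hr hS (alpha_le hc hs k S) ?_⟩
  have hSz : (S.card : ℤ) = (r : ℤ) ^ 2 + 1 := by exact_mod_cast hS
  rw [hSz] at hk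
  have hr2 : (0 : ℤ) < r := by exact_mod_cast (show 0 < r by omega)
  have : (r : ℤ) * E (col c hc k) S ≤ r * (r * ((r : ℤ) ^ 2 + 1)) := by nlinarith
  have := le_of_mul_le_mul_left this hr2
  exact_mod_cast this

/-- a line is a maximum independent set of every other colour: each outside point has a
neighbour in it -/
lemma line_ge_one (hs : Sees c) {k j : Fin r} (hjk : j ≠ k) {L : Finset V}
    (hL : Clq (col c hc k) L) (hLc : L.card = r) {z : V} (hz : z ∉ L) :
    1 ≤ dg (col c hc j) L z := by
  by_contra hlt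
  have h0 : dg (col c hc j) L z = 0 := by omega
  unfold dg at h0
  rw [card_eq_zero, filter_eq_empty_iff] at h0
  have hi : Ind (col c hc j) (insert z L) :=
    Ind.insert_of _ (clq_ind hc hjk hL) fun x hx => h0 hx
  have := alpha_le hc hs j (insert z L) (insert z L) (Subset.refl _) hi
  rw [card_insert_of_notMem hz, hLc] at this
  omega

lemma sum_dg_out (L : Finset V) {z : V} (hz : z ∉ L) :
    ∑ j : Fin r, dg (col c hc j) L z = L.card := by
  have h1 := sum_dg hc (insert z L) (mem_insert_self z L)
  rw [card_insert_of_notMem hz] at h1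
  rw [← Nat.add_sub_cancel (n := L.card) (m := 1), ← h1]
  refine sum_congr rfl fun j _ => ?_
  unfold dg
  rw [filter_insert, if_neg]
  exact (col c hc j).loopless.irrefl z

/-- the sum of the surplus degrees into a line over the other colours plus the degree in the own
colour is one -/
lemma line_sum (hs : Sees c) {k : Fin r} {L : Finset V}
    (hL : Clq (col c hc k) L) (hLc : L.card = r) {z : V} (hz : z ∉ L) :
    dg (col c hc k) L z + ∑ j ∈ univ.erase k, (dg (col c hc j) L z - 1) = 1 := by
  have h1 := sum_dg_out hc L hz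
  rw [← add_sum_erase _ _ (mem_univ k)] at h1
  have h2 : ∑ j ∈ univ.erase k, dg (col c hc j) L z
      = ∑ j ∈ univ.erase k, (dg (col c hc j) L z - 1) + (univ.erase k : Finset (Fin r)).card := by
    rw [card_eq_sum_ones, ← sum_add_distrib]
    refine sum_congr rfl fun j hj => ?_
    have := line_ge_one hc hs (ne_of_mem_erase hj) hL hLc hz
    omega
  have h3 : (univ.erase k : Finset (Fin r)).card = r - 1 := by
    rw [card_erase_of_mem (mem_univ k), card_univ, Fintype.card_fin]
  have : 0 < r := k.pos
  omega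

lemma line_le_two (hs : Sees c) {k j : Fin r} (hjk : j ≠ k) {L : Finset V}
    (hL : Clq (col c hc k) L) (hLc : L.card = r) {z : V} (hz : z ∉ L) :
    dg (col c hc j) L z ≤ 2 := by
  have h1 := line_sum hc hs hL hLc hz
  have h2 : dg (col c hc j) L z - 1 ≤ ∑ i ∈ univ.erase k, (dg (col c hc i) L z - 1) :=
    single_le_sum (f := fun i => dg (col c hc i) L z - 1) (fun _ _ => Nat.zero_le _)
      (mem_erase.2 ⟨hjk, mem_univ _⟩)
  omega

/-- points outside `L` with two neighbours of colour `j` in `L` -/
noncomputable def twoSet (S L : Finset V) (j : Fin r) : Finset V :=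
  (S \ L).filter (fun z => dg (col c hc j) L z = 2)

/-- points outside `L` with a neighbour of colour `k` in `L` -/
noncomputable def oneSet (S L : Finset V) (k : Fin r) : Finset V :=
  (S \ L).filter (fun z => dg (col c hc k) L z = 1)

/-- every outside point has exactly one surplus: in `A` or in exactly one `B_j` -/
lemma line_count (hs : Sees c) {k : Fin r} {S L : Finset V} (hLS : L ⊆ S)
    (hL : Clq (col c hc k) L) (hLc : L.card = r) :
    (oneSet hc S L k).card + ∑ j ∈ univ.erase k, (twoSet hc S L j).card = S.card - r := by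
  have h0 : (S \ L).card = S.card - r := by rw [card_sdiff_of_subset hLS, hLc]
  rw [← h0, card_eq_sum_ones (S \ L)]
  unfold oneSet twoSet
  simp only [card_filter]
  rw [sum_comm, ← sum_add_distrib]
  refine sum_congr rfl fun z hz => ?_
  have hz' := (mem_sdiff.1 hz).2
  have h1 := line_sum hc hs hL hLc hz'
  have h2 : ∑ j ∈ univ.erase k, (if dg (col c hc j) L z = 2 then 1 else 0)
      = ∑ j ∈ univ.erase k, (dg (col c hc j) L z - 1) := by
    refine sum_congr rfl fun j hj => ?_
    have h3 := line_ge_one hc hs (ne_of_mem_erase hj) hL hLc hz'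
    have h4 := line_le_two hc hs (ne_of_mem_erase hj) hL hLc hz'
    split_ifs <;> omega
  rw [h2]
  split_ifs <;> omega

/-- the choice of the colour: `b_j <= r - 1` for some `j`, or the exceptional system -/
lemma line_choice (hs : Sees c) (hr : 2 ≤ r) {k : Fin r} {S L : Finset V}
    (hS : S.card = r ^ 2 + 1) (hLS : L ⊆ S) (hL : Clq (col c hc k) L) (hLc : L.card = r) :
    (∃ j : Fin r, j ≠ k ∧ (twoSet hc S L j).card ≤ r - 1) ∨
      ((∀ j : Fin r, j ≠ k → r ≤ (twoSet hc S L j).card) ∧
        (oneSet hc S L k).card + ∑ j ∈ univ.erase k, ((twoSet hc S L j).card - r) = 1) := by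
  by_cases h : ∃ j : Fin r, j ≠ k ∧ (twoSet hc S L j).card ≤ r - 1
  · exact Or.inl h
  · right
    push Not at h
    have h1 : ∀ j : Fin r, j ≠ k → r ≤ (twoSet hc S L j).card := fun j hj => by
      have := h j hj; omega
    refine ⟨h1, ?_⟩
    have h2 := line_count hc hs hLS hL hLc
    have h3 : ∑ j ∈ univ.erase k, (twoSet hc S L j).card
        = ∑ j ∈ univ.erase k, ((twoSet hc S L j).card - r)
          + (univ.erase k : Finset (Fin r)).card * r := by
      rw [← smul_eq_mul, ← sum_const, ← sum_add_distrib]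
      refine sum_congr rfl fun j hj => ?_
      have := h1 j (ne_of_mem_erase hj)
      omega
    have h4 : (univ.erase k : Finset (Fin r)).card = r - 1 := by
      rw [card_erase_of_mem (mem_univ k), card_univ, Fintype.card_fin]
    rw [h3, h4, hS] at h2
    obtain ⟨m, rfl⟩ : ∃ m, r = m + 1 := ⟨r - 1, by omega⟩
    simp only [Nat.add_sub_cancel] at h2
    have h5 : (m + 1) ^ 2 + 1 - (m + 1) = m * (m + 1) + 1 := by
      have : (m + 1) ^ 2 + 1 = m * (m + 1) + 1 + (m + 1) := by ring
      omega
    rw [h5] at h2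
    omega

end Line

end Pool.Agent.Lib.MP_f04ccf_co
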