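import Pool.Agent.Lib.MP_f04ccf_co.S2Top

/-!
MP_f04ccf_co: the reduction.  A colouring of `K_{r^2+1}` in which every `(r+1)`-set sees all colours
has a line (monochromatic `K_r`); either some line `L` of colour `i` and some `j ≠ i` have
`b_j(L) ≤ r - 1`, and then the graph of colour `j` contains an `S2` frame with `m = r - 1`,
or the colouring is exceptional: `b_j(L) ≥ r` for all lines `L` and all `j`.
-/

set_option autoImplicit false

namespace Pool.Agent.Lib.MP_f04ccf_co

open Finset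

attribute [local instance] Classical.propDecidable

section Top

variable {V : Type*} {G : SimpleGraph V} {r m t : ℕ} {Z T : Finset V}

/-- at the top level with `b ≤ r` some class is full -/
lemma PFrame.exists_full (hr : 2 ≤ r) (hP : PG G r) (h : PFrame G r m r Z T) (hm : m ≤ r) :
    ∃ v ∈ T, (Cl G Z T v).card = r := by
  by_contra hcon
  push Not at hcon
  have h1 : ∀ v ∈ T, (Cl G Z T v).card ≤ r - 1 := by
    intro v hv
    have h2 := h.Cl_card_le hr hP hv
    have h3 := hcon v hv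
    omega
  have h4 := sum_le_sum h1
  rw [sum_const, smul_eq_mul, h.cardT] at h4
  have h5 := h.card_split
  rw [h.cardZ] at h5
  have h6 := h.b
  obtain ⟨n, rfl⟩ : ∃ n, r = n + 1 := ⟨r - 1, by omega⟩
  simp only [Nat.add_sub_cancel] at h4
  have h7 : (n + 1) * (n + 1) = (n + 1) * n + (n + 1) := by ring
  omega

/-- a top level frame with `b ≤ r - 1` gives an `S2` frame -/
theorem PFrame.to_S2 (hr : 3 ≤ r) (hP : PG G r) (h : PFrame G r (r - 1) r Z T) :
    ∃ t Z' T', S2 G r (r - 1) t Z' T' := by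
  obtain ⟨v, hv, hK⟩ := h.exists_full (by omega) hP (by omega)
  have ha := h.alpha_drop hr hP hv hK
  obtain ⟨n, rfl⟩ : ∃ n, r = n + 1 := ⟨r - 1, by omega⟩
  have h2 := h.delete (t := n) (K := Cl G Z T v) (filter_subset _ _) hK (h.Cl_clq hv) hv
    (h.self_mem_Cl hv) ha
  exact exists_S2 (by omega) hP ⟨n, _, _, by omega, h2⟩

/-- a top level frame with `b ≤ m ≤ r` gives an `S2` frame when deleting cliques of size `r`
lowers the independence number -/
theorem PFrame.to_S2' (hr : 2 ≤ r) (hP : PG G r) (h : PFrame G r m r Z T) (hm : m ≤ r)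
    (hdrop : ∀ K : Finset V, K ⊆ Z → Clq G K → K.card = r → AlphaLe G (Z \ K) (r - 1)) :
    ∃ t Z' T', S2 G r m t Z' T' := by
  obtain ⟨v, hv, hK⟩ := h.exists_full hr hP hm
  have ha := hdrop (Cl G Z T v) (filter_subset _ _) (h.Cl_clq hv) hK
  obtain ⟨n, rfl⟩ : ∃ n, r = n + 1 := ⟨r - 1, by omega⟩
  have h2 := h.delete (t := n) (K := Cl G Z T v) (filter_subset _ _) hK (h.Cl_clq hv) hv
    (h.self_mem_Cl hv) ha
  exact exists_S2 hr hP ⟨n, _, _, by omega, h2⟩

end Top

section Colour

variable {V : Type*} {r : ℕ} {c : V → V → Fin r} (hc : ∀ x y, c x y = c y x)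

lemma PG_col (hs : Sees c) (k : Fin r) : PG (col c hc k) r := fun A q =>
  E_upper_of hc k A _ fun j _ => E_lower_q _ q r A (alpha_le hc hs j A)

/-- `L` is a line: a monochromatic `K_r` of colour `i` -/
def Line (i : Fin r) (L : Finset V) : Prop := Clq (col c hc i) L ∧ L.card = r

variable {hc}

lemma exists_line [Fintype V] (hs : Sees c) (hr : 2 ≤ r) (hV : Fintype.card V = r ^ 2 + 1) :
    ∃ i L, Line hc i L := by
  obtain ⟨k, hk⟩ := exists_min_colour hc (show 0 < r by omega) (univ : Finset V)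
  have hN : ((univ : Finset V).card : ℤ) = (r : ℤ) ^ 2 + 1 := by
    rw [card_univ, hV]; push_cast; ring
  rw [hN] at hk
  have hr' : (2 : ℤ) ≤ r := by exact_mod_cast hr
  have hE : (E (col c hc k) univ : ℤ) ≤ r * ((r : ℤ) ^ 2 + 1) := by
    have h1 : (r : ℤ) * E (col c hc k) univ ≤ r * (r * ((r : ℤ) ^ 2 + 1)) := by nlinarith
    exact le_of_mul_le_mul_left h1 (by linarith)
  by_contra hcon
  push Not at hcon
  have hω : ∀ K : Finset V, K ⊆ univ → Clq (col c hc k) K → K.card ≤ r - 1 := by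
    intro K _ hKq
    by_contra hlt
    obtain ⟨K', hK', hKc'⟩ := exists_subset_card_eq (show r ≤ K.card by omega)
    exact hcon k K' ⟨hKq.mono hK', hKc'⟩
  rcases refined (col c hc k) univ r (r - 1) hr (alpha_le hc hs k univ) hω with
    h | ⟨m, h1, h2, -, -, h4⟩
  · rw [hN] at h
    have h5 : ((r : ℤ) - 1) * (E (col c hc k) univ + ((r : ℤ) ^ 2 + 1))
        ≤ (r - 1) * (r * ((r : ℤ) ^ 2 + 1) + ((r : ℤ) ^ 2 + 1)) :=
      mul_le_mul_of_nonneg_left (by linarith) (by linarith)
    nlinarith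
  · rw [hN] at h4
    have h5 : ((r : ℤ) - 1) * (E (col c hc k) univ + ((r : ℤ) ^ 2 + 1))
        ≤ (r - 1) * (r * ((r : ℤ) ^ 2 + 1) + ((r : ℤ) ^ 2 + 1)) :=
      mul_le_mul_of_nonneg_left (by linarith) (by linarith)
    have h6 : (((r - 1 : ℕ) : ℕ) : ℤ) = (r : ℤ) - 1 := by
      rw [Nat.cast_sub (by omega)]; simp
    rw [h6] at h4
    nlinarith [sq_nonneg (m - (r + 1)), sq_nonneg ((r : ℤ) - 1)]

variable {i j : Fin r} {L : Finset V}

lemma Line.ind (h : Line hc i L) (hj : j ≠ i) : Ind (col c hc j) L := clq_ind hc hj h.1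

lemma Line.one_le (hs : Sees c) (h : Line hc i L) (hj : j ≠ i) {z : V} (hz : z ∉ L) :
    1 ≤ dg (col c hc j) L z :=
  dom_of_alpha (subset_insert z L) (h.ind hj) h.2 (alpha_le hc hs j (insert z L))
    (mem_insert_self z L) hz

lemma dg_insert_self (G : SimpleGraph V) (L : Finset V) (z : V) : dg G (insert z L) z = dg G L z := by
  unfold dg
  rw [filter_insert, if_neg]
  exact G.loopless.irrefl z

lemma Line.sum (h : Line hc i L) {z : V} (hz : z ∉ L) :
    ∑ k : Fin r, dg (col c hc k) L z = r := by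
  have h1 := sum_dg hc (insert z L) (mem_insert_self z L)
  rw [card_insert_of_notMem hz, h.2] at h1
  simp only [dg_insert_self] at h1
  rw [h1]; rfl

/-- for `z` outside the line: exactly one of `z` has an `i`-neighbour in `L` and
`z` has two `j`-neighbours in `L` for one `j ≠ i` holds -/
lemma Line.excess (hs : Sees c) (h : Line hc i L) {z : V} (hz : z ∉ L) :
    ∑ j ∈ univ.erase i, (dg (col c hc j) L z - 1) + dg (col c hc i) L z = 1 := by
  have h1 := h.sum hz
  rw [← add_sum_erase univ _ (mem_univ i)] at h1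
  have h2 : ∑ j ∈ univ.erase i, dg (col c hc j) L z
      = ∑ j ∈ univ.erase i, (dg (col c hc j) L z - 1) + ∑ j ∈ univ.erase i, 1 := by
    rw [← sum_add_distrib]
    refine sum_congr rfl fun j hj => ?_
    have := h.one_le hs (ne_of_mem_erase hj) hz
    omega
  have h3 : ∑ j ∈ (univ : Finset (Fin r)).erase i, 1 = r - 1 := by
    rw [← card_eq_sum_ones, card_erase_of_mem (mem_univ i), card_univ, Fintype.card_fin]
  have h4 : 0 < r := i.pos
  omega

lemma Line.le_two (hs : Sees c) (h : Line hc i L) (hj : j ≠ i) {z : V} (hz : z ∉ L) :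
    dg (col c hc j) L z ≤ 2 := by
  have h1 := h.excess hs hz
  have h2 : dg (col c hc j) L z - 1 ≤ ∑ j ∈ univ.erase i, (dg (col c hc j) L z - 1) :=
    single_le_sum (f := fun j => dg (col c hc j) L z - 1) (fun _ _ => Nat.zero_le _)
      (mem_erase.2 ⟨hj, mem_univ j⟩)
  omega

variable [Fintype V]

/-- the vertices outside `L` with a neighbour in `L` of the colour of `L` -/
noncomputable def AA (hc : ∀ x y, c x y = c y x) (i : Fin r) (L : Finset V) : Finset V :=
  (univ \ L).filter (fun z => dg (col c hc i) L z ≠ 0)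

/-- `sum_{j ≠ i} b_j(L) + |A(L)| = r^2 - r + 1` -/
lemma Line.count (hs : Sees c) (h : Line hc i L) (hV : Fintype.card V = r ^ 2 + 1) :
    ∑ j ∈ univ.erase i, (BB (col c hc j) univ L).card + (AA hc i L).card + r = r ^ 2 + 1 := by
  have hL : (univ \ L : Finset V).card + r = r ^ 2 + 1 := by
    have h1 := card_sdiff_add_card_eq_card (subset_univ L)
    rw [card_univ, hV, h.2] at h1
    exact h1
  have h1 : ∑ z ∈ univ \ L, 1 = ∑ z ∈ univ \ L,
      (∑ j ∈ univ.erase i, (dg (col c hc j) L z - 1) + dg (col c hc i) L z) :=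
    sum_congr rfl fun z hz => (h.excess hs (mem_sdiff.1 hz).2).symm
  rw [← card_eq_sum_ones, sum_add_distrib, sum_comm] at h1
  have h2 : ∀ j ∈ univ.erase i, ∑ z ∈ univ \ L, (dg (col c hc j) L z - 1)
      = (BB (col c hc j) univ L).card := by
    intro j hj
    rw [BB, card_filter]
    refine sum_congr rfl fun z hz => ?_
    have h3 := h.one_le hs (ne_of_mem_erase hj) (mem_sdiff.1 hz).2
    have h4 := h.le_two hs (ne_of_mem_erase hj) (mem_sdiff.1 hz).2
    split_ifs <;> omega
  have h3 : ∑ z ∈ univ \ L, dg (col c hc i) L z = (AA hc i L).card := by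
    rw [AA, card_filter]
    refine sum_congr rfl fun z hz => ?_
    have h4 := h.excess hs (mem_sdiff.1 hz).2
    split_ifs <;> omega
  rw [sum_congr rfl h2, h3] at h1
  omega

/-- the top level frame of a line -/
lemma Line.frame (hs : Sees c) (h : Line hc i L) (hj : j ≠ i) (hV : Fintype.card V = r ^ 2 + 1)
    {m : ℕ} (hm : (BB (col c hc j) univ L).card ≤ m) : PFrame (col c hc j) r m r univ L where
  sub := subset_univ L
  ind := h.ind hj
  cardT := h.2
  alpha := alpha_le hc hs j univ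
  cardZ := by rw [card_univ, hV]; ring
  k2 := fun _ hz => h.le_two hs hj (mem_sdiff.1 hz).2
  b := hm

/-- the exceptional case: every line has all `b_j ≥ r` -/
structure Exc (hc : ∀ x y, c x y = c y x) : Prop where
  line : ∃ i L, Line hc i L
  low : ∀ i L, Line hc i L → ∀ j, j ≠ i → r ≤ (BB (col c hc j) univ L).card

namespace Exc

variable (hs : Sees c) (hV : Fintype.card V = r ^ 2 + 1)

include hs hV in
/-- `|A(L)| + sum (b_j - r) = 1` -/
lemma sum_excess (he : Exc hc) (h : Line hc i L) :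
    ∑ j ∈ univ.erase i, ((BB (col c hc j) univ L).card - r) + (AA hc i L).card = 1 := by
  have h1 := h.count hs hV
  have h2 : ∑ j ∈ univ.erase i, (BB (col c hc j) univ L).card
      = ∑ j ∈ univ.erase i, ((BB (col c hc j) univ L).card - r) + ∑ j ∈ univ.erase i, r := by
    rw [← sum_add_distrib]
    refine sum_congr rfl fun j hj => ?_
    have := he.low i L h j (ne_of_mem_erase hj)
    omega
  have h3 : ∑ j ∈ (univ : Finset (Fin r)).erase i, r = (r - 1) * r := by
    rw [sum_const, card_erase_of_mem (mem_univ i), card_univ, Fintype.card_fin, smul_eq_mul]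
  obtain ⟨n, rfl⟩ : ∃ n, r = n + 1 := ⟨r - 1, by have := i.pos; omega⟩
  simp only [Nat.add_sub_cancel] at h3
  have h4 : (n + 1) ^ 2 = n * (n + 1) + (n + 1) := by ring
  omega

include hs hV in
lemma AA_le (he : Exc hc) (h : Line hc i L) : (AA hc i L).card ≤ 1 := by
  have := he.sum_excess hs hV h
  omega

include hs hV in
/-- deleting a line lowers the independence number of its colour -/
lemma drop (hr : 2 ≤ r) (he : Exc hc) (h : Line hc i L) :
    AlphaLe (col c hc i) (univ \ L) (r - 1) := by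
  intro I hI hi
  by_contra hlt
  obtain ⟨J, hJI, hJc⟩ := exists_subset_card_eq (show r ≤ I.card by omega)
  have hJ : J ⊆ univ \ L := hJI.trans hI
  have hJi : Ind (col c hc i) J := hi.mono hJI
  have hP := PG_col hc hs i
  have ha : ∀ p ∈ L, 1 ≤ dg (col c hc i) J p := by
    intro p hp
    have hpJ : p ∉ J := fun h' => (mem_sdiff.1 (hJ h')).2 hp
    exact dom_of_alpha (subset_univ J) hJi hJc (alpha_le hc hs i univ) (mem_univ p) hpJ
  have hs1 : ∑ p ∈ L, 1 ≤ ∑ p ∈ L, dg (col c hc i) J p := sum_le_sum ha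
  rw [dg_comm, ← card_eq_sum_ones, h.2] at hs1
  have hs2 : ∑ y ∈ J, dg (col c hc i) L y ≤ ∑ y ∈ J, (if y ∈ AA hc i L then 1 else 0) := by
    refine sum_le_sum fun y hy => ?_
    have h1 := hP.line_nbr hr h.1 h.2 (mem_sdiff.1 (hJ hy)).2
    split_ifs with h2
    · exact h1
    · by_contra h3
      exact h2 (mem_filter.2 ⟨hJ hy, by omega⟩)
  rw [← card_filter] at hs2
  have hs3 : (J.filter (fun y => y ∈ AA hc i L)).card ≤ (AA hc i L).card :=
    card_le_card fun y hy => (mem_filter.1 hy).2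
  have := he.AA_le hs hV h
  omega

include hs hV in
/-- in the exceptional case every line `L` and every `j ≠ i` with `b_j(L) = r` give a frame -/
theorem exists_S2 (hr : 2 ≤ r) (he : Exc hc) (h : Line hc i L) (hj : j ≠ i)
    (hb : (BB (col c hc j) univ L).card ≤ r) : ∃ t Z T, S2 (col c hc j) r r t Z T :=
  (h.frame hs hj hV hb).to_S2' hr (PG_col hc hs j) le_rfl
    fun K _ hK hKc => he.drop hs hV hr (L := K) ⟨hK, hKc⟩

include hs hV in
/-- two different lines of one colour are disjoint -/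
lemma disjoint_lines (hr : 3 ≤ r) (he : Exc hc) {L' : Finset V} (h : Line hc i L)
    (h' : Line hc i L') (hne : L ≠ L') : Disjoint L L' := by
  rw [disjoint_left]
  intro x hx hx'
  have hsub : L' \ L ⊆ AA hc i L := by
    intro y hy
    obtain ⟨hy1, hy2⟩ := mem_sdiff.1 hy
    refine mem_filter.2 ⟨mem_sdiff.2 ⟨mem_univ y, hy2⟩, ?_⟩
    have h1 : 0 < dg (col c hc i) L y := by
      refine card_pos.2 ⟨x, mem_filter.2 ⟨hx, h'.1 y hy1 x hx' ?_⟩⟩
      rintro rfl
      exact hy2 hx
    omega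
  have h1 := (card_le_card hsub).trans (he.AA_le hs hV h)
  -- a vertex `y` of `L' \ L` is adjacent to all of `L ∩ L'`
  have hP := PG_col hc hs i
  have h2 : (L' \ L).Nonempty := by
    rw [sdiff_nonempty]
    intro hsub'
    exact hne (eq_of_subset_of_card_le hsub' (by rw [h.2, h'.2])).symm
  obtain ⟨y, hy⟩ := h2
  obtain ⟨hy1, hy2⟩ := mem_sdiff.1 hy
  have h3 := hP.line_nbr (by omega) h.1 h.2 hy2
  have h4 : (L' ∩ L).card ≤ dg (col c hc i) L y := by
    apply card_le_card
    intro p hp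
    obtain ⟨hp1, hp2⟩ := mem_inter.1 hp
    refine mem_filter.2 ⟨hp2, h'.1 y hy1 p hp1 ?_⟩
    rintro rfl
    exact hy2 hp2
  have h5 := card_sdiff_add_card_inter L' L
  rw [h'.2] at h5
  omega

include hs hV in
/-- lines of different colours meet in exactly one point -/
lemma inter_lines (hr : 3 ≤ r) (he : Exc hc) {L' : Finset V} (h : Line hc i L)
    (h' : Line hc j L') (hj : j ≠ i) : (L ∩ L').card = 1 := by
  have h1 : (L ∩ L').card ≤ 1 := by
    by_contra hcon
    obtain ⟨x, hx, y, hy, hxy⟩ := one_lt_card.1 (not_le.1 hcon)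
    obtain ⟨hx1, hx2⟩ := mem_inter.1 hx
    obtain ⟨hy1, hy2⟩ := mem_inter.1 hy
    exact h.ind hj x hx1 y hy1 (h'.1 x hx2 y hy2 hxy)
  by_contra hcon
  have h0 : L ∩ L' = ∅ := by rw [← card_eq_zero]; omega
  have h2 : L ⊆ univ \ L' := by
    intro x hx
    refine mem_sdiff.2 ⟨mem_univ x, fun hx' => ?_⟩
    have : x ∈ L ∩ L' := mem_inter.2 ⟨hx, hx'⟩
    rw [h0] at this
    simp at this
  have h3 := he.drop hs hV (by omega) h' L h2 (h.ind hj)
  rw [h.2] at h3
  omega

end Exc

/-- the reduction -/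
theorem S2_or_exc (hs : Sees c) (hr : 3 ≤ r) (hV : Fintype.card V = r ^ 2 + 1) :
    (∃ j t Z T, S2 (col c hc j) r (r - 1) t Z T) ∨ Exc hc := by
  by_cases h : ∀ i L, Line hc i L → ∀ j, j ≠ i → r ≤ (BB (col c hc j) univ L).card
  · exact Or.inr ⟨exists_line hs (by omega) hV, h⟩
  · push Not at h
    obtain ⟨i, L, hL, j, hj, hlt⟩ := h
    obtain ⟨t, Z, T, hS⟩ := (hL.frame hs hj hV (show _ ≤ r - 1 by omega)).to_S2 hr (PG_col hc hs j)
    exact Or.inl ⟨j, t, Z, T, hS⟩

/-- an `S2` frame with `m = r` always exists -/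
theorem exists_S2_r (hs : Sees c) (hr : 3 ≤ r) (hV : Fintype.card V = r ^ 2 + 1) :
    ∃ j t Z T, S2 (col c hc j) r r t Z T := by
  rcases S2_or_exc (hc := hc) hs hr hV with ⟨j, t, Z, T, h⟩ | he
  · exact ⟨j, t, Z, T, { h with b := h.b.trans (by omega) }⟩
  · obtain ⟨i, L, hL⟩ := he.line
    have h1 := he.sum_excess hs hV hL
    have h2 : ∃ j, j ≠ i ∧ (BB (col c hc j) univ L).card ≤ r := by
      by_contra hcon
      push Not at hcon
      have h3 : ∑ j ∈ univ.erase i, 1 ≤ ∑ j ∈ univ.erase i, ((BB (col c hc j) univ L).card - r) := by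
        refine sum_le_sum fun j hj => ?_
        have := hcon j (ne_of_mem_erase hj)
        omega
      rw [← card_eq_sum_ones, card_erase_of_mem (mem_univ i), card_univ, Fintype.card_fin] at h3
      omega
    obtain ⟨j, hj, hb⟩ := h2
    obtain ⟨t, Z, T, hS⟩ := he.exists_S2 hs hV (by omega) hL hj hb
    exact ⟨j, t, Z, T, hS⟩

/-- final form: no `S2` frame with `m = r - 1` and no exceptional colouring imply the statement -/
theorem good_of_S2 (r : ℕ) (hr : 3 ≤ r)
    (hS : ∀ (G : SimpleGraph (Fin (r ^ 2 + 1))) (t : ℕ) (Z T : Finset (Fin (r ^ 2 + 1))),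
      PG G r → AlphaLe G univ r → ¬ S2 G r (r - 1) t Z T)
    (hE : ∀ (c : Fin (r ^ 2 + 1) → Fin (r ^ 2 + 1) → Fin r) (hc : ∀ x y, c x y = c y x),
      Sees c → ¬ Exc hc) :
    Good r (r ^ 2 + 1) := by
  intro c hc
  by_contra hcon
  push Not at hcon
  have hs : Sees c := fun S hS k => by
    obtain ⟨x, hx, y, hy, hxy, hk⟩ := hcon S hS k
    exact ⟨x, hx, y, hy, hxy, hk⟩
  rcases S2_or_exc (hc := hc) hs hr (by simp) with ⟨j, t, Z, T, h⟩ | he
  · exact hS _ t Z T (PG_col hc hs j) (alpha_le hc hs j univ) h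
  · exact hE c hc hs he

end Colour

end Pool.Agent.Lib.MP_f04ccf_co
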