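import Pool.Agent.Lib.MP_f04ccf_co.S2Api
import Pool.Agent.Lib.MP_f04ccf_co.S2Red

/-!
MP_f04ccf_co: the critical line frame `S2C`.  `(P)` is an upper bound for the number of edges of
`G`, so it survives the deletion of edges: the level, then `|B|`, then the number of edges of `G[Z]`
may be assumed to be minimal over ALL graphs with `(P)`.  Then every edge of `G[Z]` is critical.
-/

set_option autoImplicit false

namespace Pool.Agent.Lib.MP_f04ccf_co

open Finset

attribute [local instance] Classical.propDecidable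

section

variable {V : Type*} {G H : SimpleGraph V}

lemma dg_le_of_le (h : H ≤ G) (S : Finset V) (v : V) : dg H S v ≤ dg G S v := by
  unfold dg
  exact card_le_card (monotone_filter_right _ (fun w _ hw => h hw))

lemma E_le_of_le (h : H ≤ G) (S : Finset V) : E H S ≤ E G S :=
  sum_le_sum fun v _ => dg_le_of_le h S v

lemma PG.mono {r : ℕ} (hP : PG G r) (h : H ≤ G) : PG H r := by
  intro A q
  have h1 := hP A q
  have h2 : (E H A : ℤ) ≤ E G A := by exact_mod_cast E_le_of_le h A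
  linarith

lemma Ind.of_le (h : H ≤ G) {I : Finset V} (hi : Ind G I) : Ind H I :=
  fun x hx y hy hxy => hi x hx y hy (h hxy)

/-- deleting edges of `G` keeps the frame as long as `alpha(Z)` does not grow -/
lemma PFrame.of_le {r m t : ℕ} {Z T : Finset V} (hF : PFrame G r m t Z T) (h : H ≤ G)
    (ha : AlphaLe H Z t) : PFrame H r m t Z T ∧ (BB H Z T).card ≤ (BB G Z T).card := by
  have hsub : BB H Z T ⊆ BB G Z T := by
    intro z hz
    obtain ⟨⟨h1, h2⟩, h3⟩ := mem_BB.1 hz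
    have h4 := hF.k2 z (mem_sdiff.2 ⟨h1, h2⟩)
    have h5 := dg_le_of_le h T z
    exact mem_BB.2 ⟨⟨h1, h2⟩, by omega⟩
  refine ⟨⟨hF.sub, hF.ind.of_le h, hF.cardT, ha, hF.cardZ, ?_, ?_⟩, card_le_card hsub⟩
  · intro z hz
    exact (dg_le_of_le h T z).trans (hF.k2 z hz)
  · exact (card_le_card hsub).trans hF.b

/-- the graph `G` without the edge `xy` -/
def del (G : SimpleGraph V) (x y : V) : SimpleGraph V where
  Adj a b := G.Adj a b ∧ ¬ ((a = x ∧ b = y) ∨ (a = y ∧ b = x))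
  symm := by
    constructor
    rintro a b ⟨h1, h2⟩
    refine ⟨h1.symm, fun h3 => h2 ?_⟩
    rcases h3 with ⟨h3, h4⟩ | ⟨h3, h4⟩
    · exact Or.inr ⟨h4, h3⟩
    · exact Or.inl ⟨h4, h3⟩
  loopless := ⟨fun a h => G.loopless.irrefl a h.1⟩

lemma del_le (G : SimpleGraph V) (x y : V) : del G x y ≤ G := fun _ _ h => h.1

lemma E_del_lt {x y : V} {Z : Finset V} (hx : x ∈ Z) (hy : y ∈ Z) (hxy : G.Adj x y) :
    E (del G x y) Z < E G Z := by
  apply sum_lt_sum (fun v _ => dg_le_of_le (del_le G x y) Z v)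
  refine ⟨x, hx, ?_⟩
  unfold dg
  apply card_lt_card
  refine ⟨monotone_filter_right _ (fun w _ hw => hw.1), ?_⟩
  intro h
  have h1 : y ∈ Z.filter (fun w => (del G x y).Adj x w) := h (mem_filter.2 ⟨hy, hxy⟩)
  exact (mem_filter.1 h1).2.2 (Or.inl ⟨rfl, rfl⟩)

/-- the critical line frame -/
structure S2C (G : SimpleGraph V) (r m t : ℕ) (Z T : Finset V) : Prop
    extends S2 G r m t Z T where
  /-- no frame of a lower level, for any graph with `(P)` -/
  low : ∀ (G' : SimpleGraph V) (t' : ℕ) (Z' T' : Finset V), PG G' r → t' < t →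
    ¬ PFrame G' r m t' Z' T'
  /-- `|B|` is minimal -/
  bmin : ∀ (G' : SimpleGraph V) (Z' T' : Finset V), PG G' r → PFrame G' r m t Z' T' →
    (BB G Z T).card ≤ (BB G' Z' T').card
  /-- every edge of `G[Z]` is critical -/
  crit : ∀ x ∈ Z, ∀ y ∈ Z, G.Adj x y → ∃ J : Finset V, J ⊆ Z ∧ J.card + 1 = t ∧ x ∉ J ∧ y ∉ J ∧
    Ind G (insert x J) ∧ Ind G (insert y J)

/-- if an edge `xy` is not critical, then it can be deleted -/
lemma exists_J {t : ℕ} {Z : Finset V} (ha : AlphaLe G Z t) {x y : V} (hxy : G.Adj x y)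
    (hn : ¬ AlphaLe (del G x y) Z t) :
    ∃ J : Finset V, J ⊆ Z ∧ J.card + 1 = t ∧ x ∉ J ∧ y ∉ J ∧
      Ind G (insert x J) ∧ Ind G (insert y J) := by
  unfold AlphaLe at hn
  push Not at hn
  obtain ⟨I, hIZ, hI, hIc⟩ := hn
  have hxI : x ∈ I := by
    by_contra hx
    have h1 := ha I hIZ (by
      intro a ha b hb hab
      refine hI a ha b hb ⟨hab, ?_⟩
      rintro (⟨rfl, _⟩ | ⟨_, rfl⟩)
      · exact hx ha
      · exact hx hb)
    omega
  have hyI : y ∈ I := by
    by_contra hy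
    have h1 := ha I hIZ (by
      intro a ha b hb hab
      refine hI a ha b hb ⟨hab, ?_⟩
      rintro (⟨_, rfl⟩ | ⟨rfl, _⟩)
      · exact hy hb
      · exact hy ha)
    omega
  have hne : x ≠ y := G.ne_of_adj hxy
  have key : ∀ a ∈ I, ∀ b ∈ I, G.Adj a b → (a = x ∧ b = y) ∨ (a = y ∧ b = x) := by
    intro a ha b hb hab
    by_contra hcon
    exact hI a ha b hb ⟨hab, hcon⟩
  have hxJ : x ∉ (I.erase x).erase y := fun h => (mem_erase.1 (mem_erase.1 h).2).1 rfl
  have hyJ : y ∉ (I.erase x).erase y := fun h => (mem_erase.1 h).1 rfl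
  have e1 : insert y ((I.erase x).erase y) = I.erase x :=
    insert_erase (mem_erase.2 ⟨hne.symm, hyI⟩)
  have e2 : insert x ((I.erase x).erase y) = I.erase y := by
    rw [erase_right_comm]
    exact insert_erase (mem_erase.2 ⟨hne, hxI⟩)
  have i1 : Ind G (I.erase x) := by
    intro a ha b hb hab
    obtain ⟨ha1, ha2⟩ := mem_erase.1 ha
    obtain ⟨hb1, hb2⟩ := mem_erase.1 hb
    rcases key a ha2 b hb2 hab with ⟨h1, _⟩ | ⟨_, h2⟩
    · exact ha1 h1
    · exact hb1 h2
  have i2 : Ind G (I.erase y) := by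
    intro a ha b hb hab
    obtain ⟨ha1, ha2⟩ := mem_erase.1 ha
    obtain ⟨hb1, hb2⟩ := mem_erase.1 hb
    rcases key a ha2 b hb2 hab with ⟨_, h1⟩ | ⟨h2, _⟩
    · exact hb1 h1
    · exact ha1 h2
  have h1 := ha (I.erase x) ((erase_subset _ _).trans hIZ) i1
  rw [card_erase_of_mem hxI] at h1
  have h2 : 2 ≤ I.card := by
    have h3 : ({x, y} : Finset V) ⊆ I := by
      intro a ha
      simp only [mem_insert, mem_singleton] at ha
      rcases ha with rfl | rfl <;> assumption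
    have h4 := card_le_card h3
    rwa [card_pair hne] at h4
  refine ⟨(I.erase x).erase y, ((erase_subset _ _).trans (erase_subset _ _)).trans hIZ, ?_,
    hxJ, hyJ, ?_, ?_⟩
  · rw [card_erase_of_mem (mem_erase.2 ⟨hne.symm, hyI⟩), card_erase_of_mem hxI]
    omega
  · rw [e2]; exact i2
  · rw [e1]; exact i1

/-- the critical frame exists as soon as there is any frame below the top level -/
theorem exists_S2C {r m : ℕ} (hr : 2 ≤ r) {G₀ : SimpleGraph V} (hP : PG G₀ r)
    (h : ∃ t Z T, t < r ∧ PFrame G₀ r m t Z T) :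
    ∃ (G : SimpleGraph V) (t : ℕ) (Z T : Finset V), PG G r ∧ S2C G r m t Z T := by
  have ht : ∃ t : ℕ, ∃ (G : SimpleGraph V) (Z T : Finset V), PG G r ∧ t < r ∧
      PFrame G r m t Z T := by
    obtain ⟨t, Z, T, h1, h2⟩ := h
    exact ⟨t, G₀, Z, T, hP, h1, h2⟩
  set t := Nat.find ht with htdef
  have hlow : ∀ (G' : SimpleGraph V) (t' : ℕ) (Z' T' : Finset V), PG G' r → t' < t →
      ¬ PFrame G' r m t' Z' T' := by
    intro G' t' Z' T' hG' hlt hF
    have htr : t < r := by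
      obtain ⟨_, _, _, _, h1, _⟩ := Nat.find_spec ht
      exact h1
    exact Nat.find_min ht hlt ⟨G', Z', T', hG', by omega, hF⟩
  have hb : ∃ b : ℕ, ∃ (G : SimpleGraph V) (Z T : Finset V), PG G r ∧ t < r ∧
      PFrame G r m t Z T ∧ (BB G Z T).card = b := by
    obtain ⟨G, Z, T, h1, h2, h3⟩ := Nat.find_spec ht
    exact ⟨_, G, Z, T, h1, h2, h3, rfl⟩
  set b := Nat.find hb with hbdef
  have hbmin : ∀ (G' : SimpleGraph V) (Z' T' : Finset V), PG G' r → PFrame G' r m t Z' T' →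
      b ≤ (BB G' Z' T').card := by
    intro G' Z' T' hG' hF
    have htr : t < r := by
      obtain ⟨_, _, _, _, h1, _⟩ := Nat.find_spec ht
      exact h1
    exact Nat.find_min' hb ⟨G', Z', T', hG', htr, hF, rfl⟩
  have he : ∃ e : ℕ, ∃ (G : SimpleGraph V) (Z T : Finset V), PG G r ∧ t < r ∧
      PFrame G r m t Z T ∧ (BB G Z T).card = b ∧ E G Z = e := by
    obtain ⟨G, Z, T, h1, h2, h3, h4⟩ := Nat.find_spec hb
    exact ⟨_, G, Z, T, h1, h2, h3, h4, rfl⟩
  obtain ⟨G, Z, T, h1, h2, h3, h4, h5⟩ := Nat.find_spec he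
  refine ⟨G, t, Z, T, h1, ⟨⟨h3, h2, ?_, ?_⟩, hlow, ?_, ?_⟩⟩
  · intro K hK hKq
    by_contra hlt
    obtain ⟨K', hK', hKc⟩ := exists_subset_card_eq (show r ≤ K.card by omega)
    have hKq' := hKq.mono hK'
    have hpos := h3.pos
    obtain ⟨s, hs⟩ : ∃ s, t = s + 1 := ⟨t - 1, by omega⟩
    rw [hs] at h3
    have ha : AlphaLe G (Z \ K') s :=
      h1.peel hr hKq' hKc (hK'.trans hK) (by omega) h3.alpha
    have hmeet : ∃ v ∈ T, v ∈ K' := by
      by_contra hcon
      push Not at hcon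
      have h1' : ∑ v ∈ T, dg G K' v ≤ s + 1 := by
        rw [← h3.cardT, card_eq_sum_ones]
        exact sum_le_sum fun v hv => h1.line_nbr hr hKq' hKc (hcon v hv)
      have h2' : ∑ x ∈ K', 1 ≤ ∑ x ∈ K', dg G T x := by
        refine sum_le_sum fun x hx => h3.k1 (hK (hK' hx)) fun hxT => hcon x hxT hx
      rw [dg_comm, ← card_eq_sum_ones, hKc] at h2'
      omega
    obtain ⟨v, hvT, hvK⟩ := hmeet
    exact hlow G s _ _ h1 (by omega) (h3.delete (hK'.trans hK) hKc hKq' hvT hvK ha)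
  · intro I hI
    by_contra hlt
    obtain ⟨Z', hZ'⟩ := h3.restrict hI.1 (by omega)
    have h1' : I.card < t := by
      have := card_lt_card hI
      rw [h3.cardT] at this
      exact this
    exact hlow G _ _ _ h1 h1' hZ'
  · rw [h4]
    exact hbmin
  · intro x hx y hy hxy
    apply exists_J h3.alpha hxy
    intro ha
    obtain ⟨h6, h7⟩ := h3.of_le (del_le G x y) ha
    have h8 : (BB (del G x y) Z T).card = b :=
      le_antisymm (h7.trans h4.le) (hbmin _ _ _ (h1.mono (del_le G x y)) h6)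
    have h9 : Nat.find he ≤ E (del G x y) Z :=
      Nat.find_min' he ⟨del G x y, Z, T, h1.mono (del_le G x y), h2, h6, h8, rfl⟩
    have h10 := E_del_lt hx hy hxy
    omega

theorem S2.exists_S2C {r m t : ℕ} {Z T : Finset V} (hr : 2 ≤ r) {G₀ : SimpleGraph V}
    (hP : PG G₀ r) (h : S2 G₀ r m t Z T) :
    ∃ (G : SimpleGraph V) (t : ℕ) (Z T : Finset V), PG G r ∧ S2C G r m t Z T :=
  Pool.Agent.Lib.MP_f04ccf_co.exists_S2C hr hP ⟨t, Z, T, h.lt, h.toPFrame⟩

end

/-- final form with the critical frame, `m = r - 1` (h ≥ 0) -/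
theorem good_of_S2C (r : ℕ) (hr : 3 ≤ r)
    (hS : ∀ (G : SimpleGraph (Fin (r ^ 2 + 1))) (t : ℕ) (Z T : Finset (Fin (r ^ 2 + 1))),
      PG G r → ¬ S2C G r (r - 1) t Z T)
    (hE : ∀ (c : Fin (r ^ 2 + 1) → Fin (r ^ 2 + 1) → Fin r) (hc : ∀ x y, c x y = c y x),
      Sees c → ¬ Exc hc) :
    Good r (r ^ 2 + 1) := by
  refine good_of_S2 r hr ?_ hE
  intro G t Z T hP _ h
  obtain ⟨G', t', Z', T', h1, h2⟩ := h.exists_S2C (by omega) hP
  exact hS G' t' Z' T' h1 h2

/-- final form with the critical frame, `m = r` (h ≥ -1): no exceptional case -/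
theorem good_of_S2C_r (r : ℕ) (hr : 3 ≤ r)
    (hS : ∀ (G : SimpleGraph (Fin (r ^ 2 + 1))) (t : ℕ) (Z T : Finset (Fin (r ^ 2 + 1))),
      PG G r → ¬ S2C G r r t Z T) :
    Good r (r ^ 2 + 1) := by
  intro c hc
  by_contra hcon
  push Not at hcon
  have hs : Sees c := fun S hS k => by
    obtain ⟨x, hx, y, hy, hxy, hk⟩ := hcon S hS k
    exact ⟨x, hx, y, hy, hxy, hk⟩
  obtain ⟨j, t, Z, T, h⟩ := exists_S2_r (hc := hc) hs hr (by simp)
  obtain ⟨G', t', Z', T', h1, h2⟩ := h.exists_S2C (by omega) (PG_col hc hs j)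
  exact hS G' t' Z' T' h1 h2

end Pool.Agent.Lib.MP_f04ccf_co
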