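import Pool.Agent.Lib.MP_f04ccf_co.S2Test

/-!
MP_f04ccf_co: the safe server lemma (note 2618) in the line frame, with arbitrary homes.
-/

set_option autoImplicit false

namespace Pool.Agent.Lib.MP_f04ccf_co

open Finset

attribute [local instance] Classical.propDecidable

section Homes

variable {V : Type*} (G : SimpleGraph V) (Z T : Finset V) (hm : V → V)

/-- every vertex with two ends has one of them as its home -/
def Homes : Prop := ∀ z ∈ BB G Z T, hm z ∈ ends G T z

/-- vertices with home `v` -/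
noncomputable def Ph (v : V) : Finset V := (BB G Z T).filter (fun z => hm z = v)

/-- the class of `v` together with the vertices with home `v` -/
noncomputable def MM (v : V) : Finset V := Cl G Z T v ∪ Ph G Z T hm v

/-- vertices with end `w` and another home -/
noncomputable def tails (w : V) : Finset V :=
  (BB G Z T).filter (fun z => w ∈ ends G T z ∧ hm z ≠ w)

/-- vertices with end `w` -/
noncomputable def Bw (w : V) : Finset V := (BB G Z T).filter (fun z => w ∈ ends G T z)

/-- nonadjacent pairs with the same home -/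
def hmG : SimpleGraph V where
  Adj x y := (co G).Adj x y ∧ hm x = hm y
  symm := ⟨fun _ _ h => ⟨h.1.symm, h.2.symm⟩⟩
  loopless := ⟨fun x h => (co G).loopless.irrefl x h.1⟩

/-- number of non-neighbours in the class of the home -/
noncomputable def kk (z : V) : ℕ := dg (co G) (Cl G Z T (hm z)) z

variable {G Z T hm}

lemma mem_Ph {v z : V} : z ∈ Ph G Z T hm v ↔ z ∈ BB G Z T ∧ hm z = v := mem_filter

lemma mem_tails {w z : V} : z ∈ tails G Z T hm w ↔ z ∈ BB G Z T ∧ w ∈ ends G T z ∧ hm z ≠ w :=
  mem_filter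

lemma mem_Bw {w z : V} : z ∈ Bw G Z T w ↔ z ∈ BB G Z T ∧ w ∈ ends G T z := mem_filter

lemma Cl_BB_disjoint {w : V} (hw : w ∈ T) : Disjoint (Cl G Z T w) (BB G Z T) := by
  rw [disjoint_left]
  intro z hz hzB
  obtain ⟨⟨_, hzT⟩, h2⟩ := mem_BB.1 hzB
  rcases (mem_Cl.1 hz).2 with h3 | ⟨_, h3⟩
  · exact hzT (h3 ▸ hw)
  · rw [← card_ends, h3, card_singleton] at h2
    omega

lemma Cl_Cl_disjoint {v w : V} (hv : v ∈ T) (hw : w ∈ T) (hvw : v ≠ w) :
    Disjoint (Cl G Z T v) (Cl G Z T w) := by
  rw [disjoint_left]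
  intro z hzv hzw
  rcases (mem_Cl.1 hzv).2 with h3 | ⟨h3, h4⟩ <;> rcases (mem_Cl.1 hzw).2 with h5 | ⟨h5, h6⟩
  · exact hvw (h3.symm.trans h5)
  · exact h5 (h3 ▸ hv)
  · exact h3 (h5 ▸ hw)
  · rw [h4] at h6
    exact hvw (singleton_inj.1 h6)

lemma MM_disj {w : V} (hw : w ∈ T) : Disjoint (Cl G Z T w) (Ph G Z T hm w) :=
  disjoint_of_subset_right (filter_subset _ _) (Cl_BB_disjoint hw)

lemma MM_tails_disj {w : V} (hw : w ∈ T) :
    Disjoint (MM G Z T hm w) (tails G Z T hm w) := by
  rw [MM, disjoint_union_left]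
  refine ⟨disjoint_of_subset_right (filter_subset _ _) (Cl_BB_disjoint hw), ?_⟩
  rw [disjoint_left]
  intro z hz hz'
  exact (mem_tails.1 hz').2.2 (mem_Ph.1 hz).2

lemma ends_eq_pair {z w i : V} (hz : z ∈ BB G Z T) (hi : i ∈ ends G T z) (hw : w ∈ ends G T z)
    (hiw : i ≠ w) : ends G T z = {i, w} := by
  symm
  refine eq_of_subset_of_card_le ?_ ?_
  · intro x hx
    rcases mem_insert.1 hx with rfl | hx
    · exact hi
    · rw [mem_singleton.1 hx]; exact hw
  · rw [card_pair hiw, card_ends, (mem_BB.1 hz).2]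

lemma Bw_card {w : V} (hh : Homes G Z T hm) :
    (Bw G Z T w).card = (Ph G Z T hm w).card + (tails G Z T hm w).card := by
  rw [← card_union_of_disjoint]
  · congr 1
    ext z
    rw [mem_union, mem_Bw, mem_Ph, mem_tails]
    constructor
    · rintro ⟨h1, h2⟩
      by_cases h : hm z = w
      · exact Or.inl ⟨h1, h⟩
      · exact Or.inr ⟨h1, h2, h⟩
    · rintro (⟨h1, h2⟩ | ⟨h1, h2, _⟩)
      · exact ⟨h1, h2 ▸ hh z h1⟩
      · exact ⟨h1, h2⟩
  · rw [disjoint_left]
    intro z hz hz'
    exact (mem_tails.1 hz').2.2 (mem_Ph.1 hz).2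

namespace PFrame

variable {r m t : ℕ}

/-- no three pairwise nonadjacent vertices with all ends in `{i, w}` -/
lemma no_triple (h : PFrame G r m t Z T) {i w : V} (hi : i ∈ T) (hw : w ∈ T)
    {x y z : V} (hx : x ∈ ZI G Z T {i, w}) (hy : y ∈ ZI G Z T {i, w})
    (hz : z ∈ ZI G Z T {i, w}) (hxy : (co G).Adj x y) (hyz : (co G).Adj y z)
    (hxz : (co G).Adj x z) : False := by
  have hI : ({i, w} : Finset V) ⊆ T := by
    intro a ha
    rcases mem_insert.1 ha with rfl | ha
    · exact hi
    · rw [mem_singleton.1 ha]; exact hw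
  have h1 := h.alpha_ZI hI {x, y, z} (by
    intro a ha
    simp only [mem_insert, mem_singleton] at ha
    rcases ha with rfl | rfl | rfl <;> assumption) (by
    intro a ha b hb hab
    simp only [mem_insert, mem_singleton] at ha hb
    rcases ha with rfl | rfl | rfl <;> rcases hb with rfl | rfl | rfl
    · exact G.loopless.irrefl _ hab
    · exact hxy.2 hab
    · exact hxz.2 hab
    · exact hxy.2 hab.symm
    · exact G.loopless.irrefl _ hab
    · exact hyz.2 hab
    · exact hxz.2 hab.symm
    · exact hyz.2 hab.symm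
    · exact G.loopless.irrefl _ hab)
  have h2 : ({x, y, z} : Finset V).card = 3 := by
    rw [card_insert_of_notMem, card_pair hyz.1]
    simp only [mem_insert, mem_singleton, not_or]
    exact ⟨hxy.1, hxz.1⟩
  have h3 : ({i, w} : Finset V).card ≤ 2 := card_le_two
  omega

lemma Cl_mem_ZI (h : PFrame G r m t Z T) {v i w : V} (hv : v ∈ T) (hvi : v ∈ ({i, w} : Finset V))
    {z : V} (hz : z ∈ Cl G Z T v) : z ∈ ZI G Z T {i, w} := by
  obtain ⟨h1, h2, h3⟩ := mem_ZI.1 (h.Cl_sub_ZI hv hz)
  refine mem_ZI.2 ⟨h1, fun h' => ?_, fun x hx => ?_⟩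
  · rw [mem_singleton.1 (h2 h')]; exact hvi
  · rw [mem_singleton.1 (h3 hx)]; exact hvi

omit m t in
lemma BB_mem_ZI {i w z : V} (hz : z ∈ BB G Z T) (he : ends G T z = {i, w}) :
    z ∈ ZI G Z T {i, w} :=
  mem_ZI.2 ⟨(mem_BB.1 hz).1.1, fun h' => absurd h' (mem_BB.1 hz).1.2, he.subset⟩

/-- everything about one tail `z` at `w` -/
lemma tail_facts (_h : PFrame G r m t Z T) (hh : Homes G Z T hm) {w z : V} (_hw : w ∈ T)
    (hz : z ∈ tails G Z T hm w) :
    hm z ∈ T ∧ hm z ≠ w ∧ ends G T z = {hm z, w} ∧ z ∈ ZI G Z T {hm z, w} := by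
  obtain ⟨h1, h2, h3⟩ := mem_tails.1 hz
  have h4 := hh z h1
  have h5 := ends_eq_pair h1 h4 h2 h3
  exact ⟨(mem_ends.1 h4).1, h3, h5, BB_mem_ZI h1 h5⟩

/-- the points of `C_i` missed by `z` see all the points of `C_w` missed by `z` -/
lemma cross (h : PFrame G r m t Z T) (hh : Homes G Z T hm) {w z : V} (hw : w ∈ T)
    (hz : z ∈ tails G Z T hm w) {p : V} (hp : p ∈ Cl G Z T (hm z)) (hzp : (co G).Adj z p) :
    dg (co G) (Cl G Z T w) z ≤ dg G (Cl G Z T w) p := by
  obtain ⟨h1, h2, h3, h4⟩ := h.tail_facts hh hw hz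
  refine card_le_card fun q hq => ?_
  rw [mem_filter] at hq ⊢
  refine ⟨hq.1, ?_⟩
  by_contra hpq
  have hne : p ≠ q := fun h' => disjoint_left.1 (Cl_Cl_disjoint h1 hw h2) hp (h' ▸ hq.1)
  exact h.no_triple h1 hw h4 (h.Cl_mem_ZI h1 (mem_insert_self _ _) hp)
    (h.Cl_mem_ZI hw (mem_insert_of_mem (mem_singleton_self _)) hq.1) hzp ⟨hne, hpq⟩ hq.2

/-- a subset of the class of the home of a tail all of whose points see many points of `C_w` is
usable -/
lemma usable_of (h : PFrame G r m t Z T) (hh : Homes G Z T hm) {w i : V} (hw : w ∈ T)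
    (hi : i ∈ T) (hiw : i ≠ w) {Γ : Finset V} (hΓ : Γ ⊆ Cl G Z T i)
    (hx : ∀ p ∈ Γ, (Bw G Z T w).card + (Cl G Z T w).card + 1 ≤ dg G (Cl G Z T w) p + r) :
    Usable G r (MM G Z T hm w) (tails G Z T hm w) Γ := by
  refine ⟨(h.Cl_clq hi).mono hΓ, ?_, ?_, ?_⟩
  · rw [MM, disjoint_union_left]
    exact ⟨disjoint_of_subset_right hΓ (Cl_Cl_disjoint hi hw hiw).symm,
      (disjoint_of_subset_left hΓ (disjoint_of_subset_right (filter_subset _ _)
        (Cl_BB_disjoint hi))).symm⟩
  · exact (disjoint_of_subset_left hΓ (disjoint_of_subset_right (filter_subset _ _)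
        (Cl_BB_disjoint hi))).symm
  · intro p hp
    have h1 := hx p hp
    have hpw : p ∉ Cl G Z T w := disjoint_left.1 (Cl_Cl_disjoint hi hw hiw) (hΓ hp)
    have h2 := dg_compl_notMem G hpw
    have h3 : dg (co G) (MM G Z T hm w) p
        = dg (co G) (Cl G Z T w) p + dg (co G) (Ph G Z T hm w) p := by
      unfold MM dg
      rw [filter_union, card_union_of_disjoint]
      exact disjoint_filter_filter (MM_disj hw)
    have h4 := dg_le_card (G := co G) (Ph G Z T hm w) p
    have h5 := Bw_card (w := w) hh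
    omega

/-- **Safe server lemma** in the line frame: the server `w` pays all PC edges of its tails and all
nonadjacent pairs of tails with the same home -/
theorem safe (h : PFrame G r m t Z T) (hP : PG G r) (hh : Homes G Z T hm) {w : V} (hw : w ∈ T)
    (hsafe : ∀ z ∈ tails G Z T hm w,
      net2 G r (MM G Z T hm w) (tails G Z T hm w) (hmG G hm) (kk G Z T hm) z < 0 →
      (Bw G Z T w).card + (Cl G Z T w).card + 1 ≤ dg (co G) (Cl G Z T w) z + r) :
    2 * ∑ z ∈ tails G Z T hm w, (kk G Z T hm z : ℤ) + E (hmG G hm) (tails G Z T hm w)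
      + ∑ z ∈ tails G Z T hm w,
          max (net2 G r (MM G Z T hm w) (tails G Z T hm w) (hmG G hm) (kk G Z T hm) z) 0
      ≤ slk G r (MM G Z T hm w) := by
  refine safe_server hP (MM_tails_disj hw) (H := hmG G hm)
    (fun x _ y _ (hxy : (hmG G hm).Adj x y) => hxy.1) _ ?_ ?_
  · intro z hz hneg
    obtain ⟨h1, h2, h3, h4⟩ := h.tail_facts hh hw hz
    refine ⟨(Cl G Z T (hm z)).filter (fun p => (co G).Adj z p), ?_, le_refl _⟩
    refine h.usable_of hh hw h1 h2 (filter_subset _ _) fun p hp => ?_
    have h5 := h.cross hh hw hz (mem_filter.1 hp).1 (mem_filter.1 hp).2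
    have h6 := hsafe z hz hneg
    omega
  · intro y hy z hz hyz hny hnz
    obtain ⟨hyz1, hyz2⟩ := hyz
    obtain ⟨y1, y2, y3, y4⟩ := h.tail_facts hh hw hy
    obtain ⟨z1, z2, z3, z4⟩ := h.tail_facts hh hw hz
    rw [← hyz2] at z1 z2 z3 z4
    set i := hm y with hi
    have hsy := hsafe y hy hny
    have hsz := hsafe z hz hnz
    -- disjointness of the two missed parts
    have hdisj : ∀ v ∈ ({i, w} : Finset V), v ∈ T → ∀ q ∈ Cl G Z T v, (co G).Adj y q →
        (co G).Adj z q → False := by
      intro v hv hvT q hq hyq hzq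
      exact h.no_triple y1 hw y4 z4 (h.Cl_mem_ZI hvT hv hq) hyz1 hzq hyq
    have hdi : Disjoint ((Cl G Z T i).filter (fun p => (co G).Adj y p))
        ((Cl G Z T i).filter (fun p => (co G).Adj z p)) := by
      rw [disjoint_left]
      intro q hq1 hq2
      exact hdisj i (mem_insert_self _ _) y1 q (mem_filter.1 hq1).1 (mem_filter.1 hq1).2
        (mem_filter.1 hq2).2
    -- `w` sees both, so the missed parts of `C_w` together miss `w`
    have hCw : dg (co G) (Cl G Z T w) y + dg (co G) (Cl G Z T w) z + 1 ≤ (Cl G Z T w).card := by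
      have hdw : Disjoint ((Cl G Z T w).filter (fun p => (co G).Adj y p))
          ((Cl G Z T w).filter (fun p => (co G).Adj z p)) := by
        rw [disjoint_left]
        intro q hq1 hq2
        exact hdisj w (mem_insert_of_mem (mem_singleton_self _)) hw q (mem_filter.1 hq1).1
          (mem_filter.1 hq1).2 (mem_filter.1 hq2).2
      have h1 : ((Cl G Z T w).filter (fun p => (co G).Adj y p)
          ∪ (Cl G Z T w).filter (fun p => (co G).Adj z p)) ⊆ (Cl G Z T w).erase w := by
        intro q hq
        rw [mem_union, mem_filter, mem_filter] at hq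
        rw [mem_erase]
        constructor
        · rintro rfl
          rcases hq with hq | hq
          · exact hq.2.2 (mem_ends.1 (mem_tails.1 hy).2.1).2
          · exact hq.2.2 (mem_ends.1 (mem_tails.1 hz).2.1).2
        · rcases hq with hq | hq <;> exact hq.1
      have h2 := card_le_card h1
      rw [card_union_of_disjoint hdw, card_erase_of_mem (h.self_mem_Cl hw)] at h2
      have h3 : 0 < (Cl G Z T w).card := card_pos.2 ⟨w, h.self_mem_Cl hw⟩
      unfold dg
      omega
    constructor
    · -- `|A| ≤ k y + k z`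
      have hMy : dg (co G) (MM G Z T hm w) y
          = dg (co G) (Cl G Z T w) y + dg (co G) (Ph G Z T hm w) y := by
        unfold MM dg
        rw [filter_union, card_union_of_disjoint]
        exact disjoint_filter_filter (MM_disj hw)
      have hMz : dg (co G) (MM G Z T hm w) z
          = dg (co G) (Cl G Z T w) z + dg (co G) (Ph G Z T hm w) z := by
        unfold MM dg
        rw [filter_union, card_union_of_disjoint]
        exact disjoint_filter_filter (MM_disj hw)
      have hpy := dg_le_card (G := co G) (Ph G Z T hm w) y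
      have hpz := dg_le_card (G := co G) (Ph G Z T hm w) z
      have hA : dg (hmG G hm) (tails G Z T hm w) y + dg (hmG G hm) (tails G Z T hm w) z
          + dg (co G) (tails G Z T hm w) y + dg (co G) (tails G Z T hm w) z
          ≤ 2 * (tails G Z T hm w).card := by
        unfold dg
        rw [card_filter, card_filter, card_filter, card_filter, ← sum_add_distrib,
          ← sum_add_distrib, ← sum_add_distrib, card_eq_sum_ones, mul_sum]
        refine sum_le_sum fun x hx => ?_
        obtain ⟨x1, x2, x3, x4⟩ := h.tail_facts hh hw hx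
        by_cases hxi : hm x = i
        · have hnot : ¬ ((co G).Adj y x ∧ (co G).Adj z x) := by
            rintro ⟨ha, hb⟩
            rw [hxi] at x4
            exact h.no_triple y1 hw y4 z4 x4 hyz1 hb ha
          have e1 : (hmG G hm).Adj y x ↔ (co G).Adj y x :=
            ⟨fun h' => h'.1, fun h' => ⟨h', by rw [hxi]⟩⟩
          have e2 : (hmG G hm).Adj z x ↔ (co G).Adj z x :=
            ⟨fun h' => h'.1, fun h' => ⟨h', by rw [hxi, ← hyz2]⟩⟩
          by_cases ha : (co G).Adj y x
          · have hb : ¬ (co G).Adj z x := fun hb => hnot ⟨ha, hb⟩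
            rw [if_pos (e1.2 ha), if_neg (fun h' => hb (e2.1 h')), if_pos ha, if_neg hb]
            omega
          · rw [if_neg (fun h' => ha (e1.1 h')), if_neg ha]
            split_ifs <;> omega
        · have e1 : ¬ (hmG G hm).Adj y x := fun h' => hxi h'.2.symm
          have e2 : ¬ (hmG G hm).Adj z x := fun h' => hxi (h'.2.symm.trans hyz2.symm)
          rw [if_neg e1, if_neg e2]
          split_ifs <;> omega
      have hB := Bw_card (w := w) hh
      unfold net2 at hny hnz
      rw [hMy] at hny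
      rw [hMz] at hnz
      push_cast at hny hnz
      omega
    · refine ⟨(Cl G Z T i).filter (fun p => (co G).Adj y p)
        ∪ (Cl G Z T i).filter (fun p => (co G).Adj z p), ?_, ?_⟩
      · refine h.usable_of hh hw y1 y2 (union_subset (filter_subset _ _) (filter_subset _ _))
          fun p hp => ?_
        rcases mem_union.1 hp with hp | hp
        · have h5 := h.cross hh hw hy (mem_filter.1 hp).1 (mem_filter.1 hp).2
          omega
        · have h5 := h.cross hh hw hz (by rw [← hyz2]; exact (mem_filter.1 hp).1)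
            (mem_filter.1 hp).2
          omega
      · rw [card_union_of_disjoint hdi]
        unfold kk dg
        rw [← hyz2]

end PFrame

end Homes

end Pool.Agent.Lib.MP_f04ccf_co
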