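import Pool.Agent.Lib.MP_f04ccf_co.S2Frame

/-!
MP_f04ccf_co: non-edge counting, the pair lemma for doubly covered vertices, and the top level:
deleting a full class lowers the independence number.
-/

set_option autoImplicit false

namespace Pool.Agent.Lib.MP_f04ccf_co

open Finset

attribute [local instance] Classical.propDecidable

section NonEdges

variable {V : Type*} (G : SimpleGraph V)

/-- the number of non-neighbours of `x` in `S` (other than `x`): the `F`-degree -/
noncomputable def nd (S : Finset V) (x : V) : ℕ := (S.filter (fun y => y ≠ x ∧ ¬ G.Adj x y)).card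

/-- twice the number of non-edges (`F`-edges) inside `A` -/
noncomputable def NE (A : Finset V) : ℕ := ∑ x ∈ A, nd G A x

variable {G}

lemma dg_add_nd {A : Finset V} {x : V} (hx : x ∈ A) : dg G A x + nd G A x + 1 = A.card := by
  have h1 : (A.filter (fun y => G.Adj x y)).card + (A.filter (fun y => ¬ G.Adj x y)).card = A.card :=
    card_filter_add_card_filter_not (fun y => G.Adj x y)
  have h2 : A.filter (fun y => ¬ G.Adj x y) = insert x (A.filter (fun y => y ≠ x ∧ ¬ G.Adj x y)) := by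
    ext y
    simp only [mem_filter, mem_insert]
    constructor
    · rintro ⟨h1, h2⟩
      by_cases h : y = x
      · exact Or.inl h
      · exact Or.inr ⟨h1, h, h2⟩
    · rintro (h | ⟨h1, _, h2⟩)
      · subst h; exact ⟨hx, G.loopless.irrefl _⟩
      · exact ⟨h1, h2⟩
  rw [h2, card_insert_of_notMem (by simp)] at h1
  unfold dg nd
  omega

lemma nd_of_notMem {A : Finset V} {x : V} (hx : x ∉ A) : dg G A x + nd G A x = A.card := by
  have h1 : (A.filter (fun y => G.Adj x y)).card + (A.filter (fun y => ¬ G.Adj x y)).card = A.card :=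
    card_filter_add_card_filter_not (fun y => G.Adj x y)
  have h2 : A.filter (fun y => ¬ G.Adj x y) = A.filter (fun y => y ≠ x ∧ ¬ G.Adj x y) := by
    apply filter_congr
    intro y hy
    constructor
    · exact fun h => ⟨fun h' => hx (h' ▸ hy), h⟩
    · exact fun h => h.2
  rw [h2] at h1
  exact h1

lemma E_add_NE (A : Finset V) : (E G A : ℤ) + NE G A = (A.card : ℤ) * (A.card - 1) := by
  unfold E NE
  push_cast
  rw [← sum_add_distrib]
  have h : ∀ x ∈ A, ((dg G A x : ℤ) + nd G A x) = A.card - 1 := by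
    intro x hx
    have := dg_add_nd (G := G) hx
    omega
  rw [sum_congr rfl h, sum_const, nsmul_eq_mul]

lemma nd_mono {A B : Finset V} (h : A ⊆ B) (x : V) : nd G A x ≤ nd G B x :=
  card_le_card (filter_subset_filter _ h)

lemma nd_comm (A B : Finset V) : ∑ v ∈ A, nd G B v = ∑ v ∈ B, nd G A v := by
  have h := Finset.sum_card_bipartiteAbove_eq_sum_card_bipartiteBelow (s := A) (t := B)
    (fun a b => b ≠ a ∧ ¬ G.Adj a b)
  unfold nd
  simp only [bipartiteAbove, bipartiteBelow] at h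
  rw [h]
  refine sum_congr rfl fun b _ => ?_
  congr 1
  ext a
  simp [G.adj_comm, ne_comm]

lemma nd_union {A B : Finset V} (h : Disjoint A B) (x : V) : nd G (A ∪ B) x = nd G A x + nd G B x := by
  unfold nd
  rw [filter_union, card_union_of_disjoint (disjoint_filter_filter h)]

lemma NE_union {A B : Finset V} (h : Disjoint A B) :
    NE G (A ∪ B) = NE G A + NE G B + 2 * ∑ x ∈ B, nd G A x := by
  unfold NE
  rw [sum_union h]
  have h1 : ∑ x ∈ A, nd G (A ∪ B) x = ∑ x ∈ A, nd G A x + ∑ x ∈ B, nd G A x := by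
    rw [nd_comm B A, ← sum_add_distrib]
    exact sum_congr rfl fun x _ => nd_union h x
  have h2 : ∑ x ∈ B, nd G (A ∪ B) x = ∑ x ∈ B, nd G A x + ∑ x ∈ B, nd G B x := by
    rw [← sum_add_distrib]
    exact sum_congr rfl fun x _ => nd_union h x
  rw [h1, h2]
  ring

lemma NE_clq {K : Finset V} (h : Clq G K) : NE G K = 0 := by
  unfold NE nd
  rw [sum_eq_zero_iff]
  intro x hx
  rw [card_eq_zero, filter_eq_empty_iff]
  exact fun y hy h' => h'.2 (h x hx y hy h'.1.symm)

lemma NE_le (A : Finset V) : NE G A ≤ A.card * (A.card - 1) := by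
  have h : ∀ x ∈ A, nd G A x ≤ A.card - 1 := by
    intro x hx
    have := dg_add_nd (G := G) hx
    omega
  have h2 := sum_le_sum h
  rw [sum_const, smul_eq_mul] at h2
  exact h2

/-- property (P) for the non-edges, all slopes -/
lemma PG.ne {r : ℕ} (h : PG G r) (A : Finset V) (q : ℤ) :
    ((r : ℤ) - 1) * (2 * q * A.card - r * q * (q + 1)) ≤ NE G A := by
  have h1 := h A q
  have h2 := E_add_NE (G := G) A
  linarith

lemma PG.ne1 {r : ℕ} (h : PG G r) (A : Finset V) :
    2 * ((r : ℤ) - 1) * (A.card - r) ≤ NE G A := by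
  have h1 := h.ne A 1
  linarith

end NonEdges

namespace PFrame

variable {V : Type*} {G : SimpleGraph V} {r m t : ℕ} {Z T : Finset V}

lemma ZI_mono {I I' : Finset V} (h : I ⊆ I') : ZI G Z T I ⊆ ZI G Z T I' := by
  intro z hz
  obtain ⟨h1, h2, h3⟩ := mem_ZI.1 hz
  exact mem_ZI.2 ⟨h1, fun h' => h (h2 h'), h3.trans h⟩

lemma Cl_disjoint {u w : V} (hu : u ∈ T) (hw : w ∈ T) (huw : u ≠ w) :
    Disjoint (Cl G Z T u) (Cl G Z T w) := by
  rw [disjoint_left]
  intro z hzv hzw
  rcases (mem_Cl.1 hzv).2 with h3 | ⟨h3, h4⟩ <;> rcases (mem_Cl.1 hzw).2 with h5 | ⟨h5, h6⟩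
  · exact huw (h3.symm.trans h5)
  · exact h5 (h3 ▸ hu)
  · exact h3 (h5 ▸ hw)
  · rw [h4] at h6
    exact huw (singleton_inj.1 h6)

lemma BB_disjoint_Cl {u : V} (hu : u ∈ T) : Disjoint (Cl G Z T u) (BB G Z T) := by
  rw [disjoint_left]
  intro z hz hzB
  obtain ⟨⟨_, hzT⟩, h2⟩ := mem_BB.1 hzB
  rcases (mem_Cl.1 hz).2 with h3 | ⟨_, h3⟩
  · exact hzT (h3 ▸ hu)
  · rw [← card_ends, h3, card_singleton] at h2
    omega

lemma mem_ZI_of_BB {z : V} (hz : z ∈ BB G Z T) {I : Finset V} (hI : ends G T z ⊆ I) :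
    z ∈ ZI G Z T I :=
  mem_ZI.2 ⟨(mem_BB.1 hz).1.1, fun h' => absurd h' (mem_BB.1 hz).1.2, hI⟩

/-- for a doubly covered vertex `z` with ends `u, w` the non-neighbours of `z` in `Cl u` and `Cl w`
are completely joined -/
lemma Q_adj (h : PFrame G r m t Z T) {z u w p q : V} (hz : z ∈ BB G Z T)
    (hends : ends G T z = {u, w}) (huw : u ≠ w) (hp : p ∈ Cl G Z T u) (hq : q ∈ Cl G Z T w)
    (hzp : ¬ G.Adj z p) (hzq : ¬ G.Adj z q) : G.Adj p q := by
  by_contra hpq
  have hu : u ∈ T := (mem_ends.1 (by rw [hends]; simp)).1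
  have hw : w ∈ T := (mem_ends.1 (by rw [hends]; simp)).1
  have hI : ({u, w} : Finset V) ⊆ T := by
    intro x hx
    simp only [mem_insert, mem_singleton] at hx
    rcases hx with rfl | rfl
    · exact hu
    · exact hw
  have h1 := h.alpha_ZI hI
  have hzp' : z ≠ p := fun h' => (disjoint_left.1 (BB_disjoint_Cl hu) hp) (h' ▸ hz)
  have hzq' : z ≠ q := fun h' => (disjoint_left.1 (BB_disjoint_Cl hw) hq) (h' ▸ hz)
  have hpq' : p ≠ q := fun h' => (disjoint_left.1 (Cl_disjoint (G := G) (Z := Z) hu hw huw) hp) (h' ▸ hq)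
  have h2 := h1 {z, p, q} (by
    intro x hx
    simp only [mem_insert, mem_singleton] at hx
    rcases hx with rfl | rfl | rfl
    · exact mem_ZI_of_BB hz hends.subset
    · exact ZI_mono (by simp) (h.Cl_sub_ZI hu hp)
    · exact ZI_mono (by simp) (h.Cl_sub_ZI hw hq)) (by
    intro a ha b hb hab
    simp only [mem_insert, mem_singleton] at ha hb
    rcases ha with rfl | rfl | rfl <;> rcases hb with rfl | rfl | rfl
    · exact G.loopless.irrefl _ hab
    · exact hzp hab
    · exact hzq hab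
    · exact hzp hab.symm
    · exact G.loopless.irrefl _ hab
    · exact hpq hab
    · exact hzq hab.symm
    · exact hpq hab.symm
    · exact G.loopless.irrefl _ hab)
  rw [card_insert_of_notMem (by simp [hzp', hzq']), card_pair hpq', card_pair huw] at h2
  omega

/-- `kappa_u(z) + kappa_w(z) ≤ r - 1` -/
lemma kappa_le (hr : 3 ≤ r) (hP : PG G r) (h : PFrame G r m t Z T) {z : V} (hz : z ∈ BB G Z T) :
    ∑ w ∈ ends G T z, nd G (Cl G Z T w) z ≤ r - 1 := by
  have hc := (mem_BB.1 hz).2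
  rw [← card_ends, card_eq_two] at hc
  obtain ⟨u, w, huw, hends⟩ := hc
  have hu : u ∈ T := (mem_ends.1 (by rw [hends]; simp)).1
  have hw : w ∈ T := (mem_ends.1 (by rw [hends]; simp)).1
  have hzu : G.Adj z u := (mem_ends.1 (by rw [hends]; simp)).2
  have hzw : G.Adj z w := (mem_ends.1 (by rw [hends]; simp)).2
  rw [hends, sum_pair huw]
  set Qu := (Cl G Z T u).filter (fun y => y ≠ z ∧ ¬ G.Adj z y) with hQu
  set Qw := (Cl G Z T w).filter (fun y => y ≠ z ∧ ¬ G.Adj z y) with hQw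
  have hQuq : Clq G Qu := (h.Cl_clq hu).mono (filter_subset _ _)
  have hQwq : Clq G Qw := (h.Cl_clq hw).mono (filter_subset _ _)
  have hcross : ∀ p ∈ Qu, ∀ q ∈ Qw, G.Adj p q := by
    intro p hp q hq
    rw [hQu, mem_filter] at hp
    rw [hQw, mem_filter] at hq
    exact h.Q_adj hz hends huw hp.1 hq.1 hp.2.2 hq.2.2
  have hclq : Clq G (Qu ∪ Qw) := by
    intro x hx y hy hxy
    rcases mem_union.1 hx with hx | hx <;> rcases mem_union.1 hy with hy | hy
    · exact hQuq x hx y hy hxy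
    · exact hcross x hx y hy
    · exact (hcross y hy x hx).symm
    · exact hQwq x hx y hy hxy
  have hdis : Disjoint Qu Qw :=
    (Cl_disjoint hu hw huw).mono (filter_subset _ _) (filter_subset _ _)
  have hle := hP.clq_le (by omega) hclq
  rw [card_union_of_disjoint hdis] at hle
  change Qu.card + Qw.card ≤ r - 1
  by_contra hcon
  have heq : (Qu ∪ Qw).card = r := by rw [card_union_of_disjoint hdis]; omega
  have huQ : u ∉ Qu ∪ Qw := by
    intro h'
    rcases mem_union.1 h' with h' | h'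
    · exact (mem_filter.1 h').2.2 hzu
    · exact (mem_filter.1 h').2.2 hzu
  have hwQ : w ∉ Qu ∪ Qw := by
    intro h'
    rcases mem_union.1 h' with h' | h'
    · exact (mem_filter.1 h').2.2 hzw
    · exact (mem_filter.1 h').2.2 hzw
  have h1 := hP.line_nbr (by omega) hclq heq huQ
  have h2 := hP.line_nbr (by omega) hclq heq hwQ
  have h3 : Qu.card ≤ dg G (Qu ∪ Qw) u := by
    apply card_le_card
    intro p hp
    refine mem_filter.2 ⟨mem_union_left _ hp, ?_⟩
    exact h.Cl_clq hu u (h.self_mem_Cl hu) p (mem_filter.1 hp).1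
      (fun h' => huQ (h' ▸ mem_union_left _ hp))
  have h4 : Qw.card ≤ dg G (Qu ∪ Qw) w := by
    apply card_le_card
    intro p hp
    refine mem_filter.2 ⟨mem_union_right _ hp, ?_⟩
    exact h.Cl_clq hw w (h.self_mem_Cl hw) p (mem_filter.1 hp).1
      (fun h' => hwQ (h' ▸ mem_union_right _ hp))
  omega

/-- Lemma A: at the top level deleting a full class lowers the independence number -/
lemma alpha_drop (hr : 3 ≤ r) (hP : PG G r) (h : PFrame G r (r - 1) r Z T) {v : V}
    (hv : v ∈ T) (hK : (Cl G Z T v).card = r) : AlphaLe G (Z \ Cl G Z T v) (r - 1) := by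
  have hr2 : 2 ≤ r := by omega
  set K := Cl G Z T v with hKdef
  have hKq : Clq G K := h.Cl_clq hv
  intro I hI hi
  by_contra hlt
  obtain ⟨J, hJI, hJc⟩ := exists_subset_card_eq (show r ≤ I.card by omega)
  have hJ : J ⊆ Z \ K := hJI.trans hI
  have hJi : Ind G J := hi.mono hJI
  have match1 : ∀ J' : Finset V, J' ⊆ Z \ K → Ind G J' → J'.card = r →
      (∀ p ∈ K, dg G J' p = 1) ∧ (∀ y ∈ J', dg G K y = 1) := by
    intro J' h1 h2 h3
    have ha : ∀ p ∈ K, 1 ≤ dg G J' p := by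
      intro p hp
      have hpJ : p ∉ J' := fun h' => (mem_sdiff.1 (h1 h')).2 hp
      exact dom_of_alpha (h1.trans sdiff_subset) h2 h3 h.alpha (mem_Cl.1 hp).1 hpJ
    have hb : ∀ y ∈ J', dg G K y ≤ 1 := fun y hy =>
      hP.line_nbr hr2 hKq hK (mem_sdiff.1 (h1 hy)).2
    have hs1 : ∑ p ∈ K, 1 ≤ ∑ p ∈ K, dg G J' p := sum_le_sum ha
    have hs2 : ∑ y ∈ J', dg G K y ≤ ∑ y ∈ J', 1 := sum_le_sum hb
    have hs3 := dg_comm G K J'
    have hc1 : ∑ p ∈ K, 1 = r := by rw [← card_eq_sum_ones, hK]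
    have hc2 : ∑ y ∈ J', 1 = r := by rw [← card_eq_sum_ones, h3]
    have e1 : ∑ p ∈ K, 1 = ∑ p ∈ K, dg G J' p := by omega
    have e2 : ∑ y ∈ J', dg G K y = ∑ y ∈ J', 1 := by omega
    exact ⟨fun p hp => ((sum_eq_sum_iff_of_le ha).1 e1 p hp).symm,
      (sum_eq_sum_iff_of_le hb).1 e2⟩
  have hvK : v ∈ K := h.self_mem_Cl hv
  have disj : ∀ J' : Finset V, J' ⊆ Z \ K → Ind G J' → J'.card = r → ∀ w ∈ J', w ∉ T := by
    intro J' h1 h2 h3 w hwJ hwT
    have h4 := (match1 J' h1 h2 h3).2 w hwJ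
    have h5 : 0 < dg G K w := by omega
    obtain ⟨p, hp⟩ := card_pos.1 h5
    obtain ⟨hpK, hwp⟩ := mem_filter.1 hp
    rcases (mem_Cl.1 hpK).2 with h6 | ⟨h6, h7⟩
    · exact h.ind w hwT v hv (h6 ▸ hwp)
    · have h8 : w ∈ ends G T p := mem_ends.2 ⟨hwT, hwp.symm⟩
      rw [h7, mem_singleton] at h8
      exact (mem_sdiff.1 (h1 hwJ)).2 (h8 ▸ hvK)
  have hJT := disj J hJ hJi hJc
  have two : ∀ w ∈ T, w ≠ v → 2 ≤ dg G J w := by
    intro w hw hwv
    by_contra hcon
    have h1 : (J.filter (fun y => G.Adj w y)).card + (J.filter (fun y => ¬ G.Adj w y)).card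
        = J.card := card_filter_add_card_filter_not (fun y => G.Adj w y)
    have h2 : (J.filter (fun y => G.Adj w y)).card ≤ 1 := by
      change dg G J w ≤ 1; omega
    have hwJ : w ∉ J := fun h' => hJT w h' hw
    have hwf : w ∉ J.filter (fun y => ¬ G.Adj w y) := fun h' => hwJ (mem_filter.1 h').1
    have hwK : w ∉ K := by
      intro h'
      rcases (mem_Cl.1 h').2 with h3 | ⟨h3, _⟩
      · exact hwv h3
      · exact h3 hw
    have hsub : insert w (J.filter (fun y => ¬ G.Adj w y)) ⊆ Z \ K :=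
      insert_subset (mem_sdiff.2 ⟨h.sub hw, hwK⟩) ((filter_subset _ _).trans hJ)
    have hind : Ind G (insert w (J.filter (fun y => ¬ G.Adj w y))) :=
      Ind.insert_of G (hJi.mono (filter_subset _ _)) (fun x hx => (mem_filter.1 hx).2)
    have hle := h.alpha _ (hsub.trans sdiff_subset) hind
    have hcard : (insert w (J.filter (fun y => ¬ G.Adj w y))).card = r := by
      rw [card_insert_of_notMem hwf] at hle ⊢
      omega
    exact disj _ hsub hind hcard w (mem_insert_self _ _) hw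
  have hv1 : dg G J v = 1 := (match1 J hJ hJi hJc).1 v hvK
  set B := BB G Z T with hB
  have hJmem : ∀ y ∈ J, dg G T y = if y ∈ B then 2 else 1 := by
    intro y hy
    have hyZ := (mem_sdiff.1 (hJ hy)).1
    have hyT := hJT y hy
    have h1 := h.k1 hyZ hyT
    have h2 := h.k2 y (mem_sdiff.2 ⟨hyZ, hyT⟩)
    by_cases hyB : y ∈ B
    · rw [if_pos hyB]; exact (mem_BB.1 hyB).2
    · rw [if_neg hyB]
      have h3 : dg G T y ≠ 2 := fun h' => hyB (mem_BB.2 ⟨⟨hyZ, hyT⟩, h'⟩)
      omega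
  have hsumJ : ∑ y ∈ J, dg G T y = r + (J.filter (fun y => y ∈ B)).card := by
    rw [sum_congr rfl hJmem, card_filter, ← hJc, card_eq_sum_ones, ← sum_add_distrib]
    refine sum_congr rfl fun y _ => ?_
    split_ifs <;> rfl
  have hcomm := dg_comm G T J
  have hsplit : ∑ w ∈ T, dg G J w = dg G J v + ∑ w ∈ T.erase v, dg G J w :=
    (add_sum_erase T _ hv).symm
  have htwo : ∑ w ∈ T.erase v, 2 ≤ ∑ w ∈ T.erase v, dg G J w :=
    sum_le_sum fun w hw => two w (mem_erase.1 hw).2 (mem_erase.1 hw).1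
  have hTe : (T.erase v).card = r - 1 := by rw [card_erase_of_mem hv, h.cardT]
  have h2c : ∑ w ∈ T.erase v, 2 = 2 * (r - 1) := by rw [sum_const, hTe, smul_eq_mul, mul_comm]
  have hBb := h.b
  rw [← hB] at hBb
  have hJB : (J.filter (fun y => y ∈ B)).card ≤ B.card := card_le_card fun y hy => (mem_filter.1 hy).2
  have hBc : B.card = r - 1 := by omega
  have hBJ : B ⊆ J := by
    have h1 : J.filter (fun y => y ∈ B) ⊆ B := fun y hy => (mem_filter.1 hy).2
    have h2 := eq_of_subset_of_card_le h1 (by omega)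
    intro y hy
    rw [← h2] at hy
    exact (mem_filter.1 hy).1
  have hdg2 : ∀ w ∈ T.erase v, 2 = dg G J w := by
    refine (sum_eq_sum_iff_of_le fun w hw => two w (mem_erase.1 hw).2 (mem_erase.1 hw).1).1 ?_
    omega
  have hJBc : (J \ B).card = 1 := by
    rw [card_sdiff_of_subset hBJ, hJc, hBc]; omega
  have hbeta : ∀ w ∈ T, 1 ≤ dg G B w ∧ dg G B w ≤ 2 := by
    intro w hw
    have h1 := dg_sdiff G hBJ w
    have h2 : dg G (J \ B) w ≤ 1 := by
      have := card_filter_le (J \ B) (fun y => G.Adj w y)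
      rw [hJBc] at this
      exact this
    by_cases hwv : w = v
    · subst hwv
      refine ⟨?_, by omega⟩
      by_contra hcon
      have h3 : 0 < dg G (J \ B) w := by omega
      obtain ⟨y, hy⟩ := card_pos.1 h3
      obtain ⟨hy1, hy2⟩ := mem_filter.1 hy
      obtain ⟨hyJ, hyB⟩ := mem_sdiff.1 hy1
      have h4 := hJmem y hyJ
      rw [if_neg hyB, ← card_ends, card_eq_one] at h4
      obtain ⟨a, ha⟩ := h4
      have h5 : w ∈ ends G T y := mem_ends.2 ⟨hw, hy2.symm⟩
      rw [ha, mem_singleton] at h5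
      have h6 : y ∈ K := mem_Cl.2 ⟨(mem_sdiff.1 (hJ hyJ)).1, Or.inr ⟨hJT y hyJ, by rw [ha, h5]⟩⟩
      exact (mem_sdiff.1 (hJ hyJ)).2 h6
    · have h3 := hdg2 w (mem_erase.2 ⟨hwv, hw⟩)
      omega
  -- property (P) on the closed neighbourhoods of the points of `T`
  set Bw : V → Finset V := fun w => B.filter (fun z => G.Adj w z) with hBw
  have hPw : ∀ w ∈ T, 2 * ((r : ℤ) - 1) * (((Cl G Z T w).card : ℤ) + dg G B w - r)
      ≤ 2 * ((dg G B w : ℤ) - 1) + 2 * ∑ z ∈ Bw w, (nd G (Cl G Z T w) z : ℤ) := by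
    intro w hw
    have hd : Disjoint (Cl G Z T w) (Bw w) :=
      (BB_disjoint_Cl hw).mono_right (filter_subset _ _)
    have h1 := hP.ne1 (Cl G Z T w ∪ Bw w)
    rw [NE_union hd, NE_clq (h.Cl_clq hw), card_union_of_disjoint hd] at h1
    have h2 := NE_le (G := G) (Bw w)
    have h3 : (Bw w).card = dg G B w := rfl
    rw [h3] at h1 h2
    have h4 : (NE G (Bw w) : ℤ) ≤ 2 * ((dg G B w : ℤ) - 1) := by
      obtain ⟨h5, h6⟩ := hbeta w hw
      have h7 : dg G B w = 1 ∨ dg G B w = 2 := by omega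
      rcases h7 with h7 | h7 <;> rw [h7] at h2 ⊢ <;> norm_num at h2 ⊢ <;> omega
    push_cast at h1
    linarith
  have hsum := sum_le_sum hPw
  have hcs := h.card_split
  rw [h.cardZ, ← hB, hBc] at hcs
  have hdB : ∑ w ∈ T, dg G B w = 2 * (r - 1) := by
    rw [dg_comm, sum_congr rfl (fun z (hz : z ∈ B) => (mem_BB.1 hz).2), sum_const, hBc,
      smul_eq_mul, mul_comm]
  have hkap : ∑ w ∈ T, ∑ z ∈ Bw w, nd G (Cl G Z T w) z ≤ (r - 1) * (r - 1) := by
    have h1 : ∑ w ∈ T, ∑ z ∈ Bw w, nd G (Cl G Z T w) z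
        = ∑ z ∈ B, ∑ w ∈ ends G T z, nd G (Cl G Z T w) z := by
      simp only [hBw, ends, sum_filter]
      rw [sum_comm]
      refine sum_congr rfl fun z _ => sum_congr rfl fun w _ => ?_
      simp only [G.adj_comm]
    rw [h1]
    refine (sum_le_sum fun z hz => h.kappa_le hr hP hz).trans ?_
    rw [sum_const, hBc, smul_eq_mul]
  obtain ⟨n, rfl⟩ : ∃ n, r = n + 1 := ⟨r - 1, by omega⟩
  have e1 : ((∑ w ∈ T, (Cl G Z T w).card : ℕ) : ℤ) = (n + 1) * (n + 1) + 1 - n := by
    have : ∑ w ∈ T, (Cl G Z T w).card = (n + 1) * (n + 1) + 1 - n := by omega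
    rw [this]
    have : n ≤ (n + 1) * (n + 1) + 1 := by nlinarith
    push_cast [this]
    ring
  have e2 : ((∑ w ∈ T, dg G B w : ℕ) : ℤ) = 2 * n := by rw [hdB]; push_cast; ring
  have e3 : ((∑ w ∈ T, ∑ z ∈ Bw w, nd G (Cl G Z T w) z : ℕ) : ℤ) ≤ n * n := by exact_mod_cast hkap
  push_cast at e1 e2 e3
  have hTc : ((T.card : ℕ) : ℤ) = n + 1 := by rw [h.cardT]; push_cast; ring
  simp only [sum_add_distrib, sum_sub_distrib, ← mul_sum, sum_const, nsmul_eq_mul, mul_one,
    Nat.cast_add, Nat.cast_one, hTc, e1, e2] at hsum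
  nlinarith

end PFrame

end Pool.Agent.Lib.MP_f04ccf_co
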