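import Pool.Agent.Lib.MP_f04ccf_co.S2Red

/-!
MP_f04ccf_co: local inequalities in the line frame.  `R = r - 1`, `a_v = r - |Cl v|`,
`kappa_v(y) = nd G (Cl v) y`, `e_F(Y) = NE G Y / 2`.
-/

set_option autoImplicit false

namespace Pool.Agent.Lib.MP_f04ccf_co

open Finset

attribute [local instance] Classical.propDecidable

section Gen

variable {V : Type*} {G : SimpleGraph V} {r : ℕ}

/-- (P) on `C ∪ Y` for a clique `C`: `sum_Y (R - kappa(y)) - e_F(Y) ≤ R (r - |C|)` -/
lemma PG.val (hP : PG G r) {C Y : Finset V} (hC : Clq G C) (hd : Disjoint C Y) :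
    2 * ∑ y ∈ Y, (((r : ℤ) - 1) - nd G C y) - NE G Y ≤ 2 * ((r : ℤ) - 1) * (r - C.card) := by
  have h1 := hP.ne1 (C ∪ Y)
  rw [NE_union hd, NE_clq hC, card_union_of_disjoint hd] at h1
  push_cast at h1
  rw [sum_sub_distrib, sum_const, nsmul_eq_mul]
  linarith

/-- pair load: (P) on `C ∪ D ∪ Y` for two cliques `C`, `D` -/
lemma PG.pair (hP : PG G r) {C D Y : Finset V} (hC : Clq G C) (hD : Clq G D) (hCD : Disjoint C D)
    (hCY : Disjoint C Y) (hDY : Disjoint D Y) :
    2 * ∑ x ∈ D, (dg G C x : ℤ) + 2 * ∑ y ∈ Y, (((r : ℤ) - 1) - nd G C y - nd G D y) - NE G Y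
      ≤ 2 * (((r : ℤ) - 1) + ((r : ℤ) - C.card - 1) * ((r : ℤ) - D.card - 1)) := by
  have hd : Disjoint (C ∪ D) Y := disjoint_union_left.2 ⟨hCY, hDY⟩
  have h1 := hP.ne1 ((C ∪ D) ∪ Y)
  rw [NE_union hd, NE_union hCD, NE_clq hC, NE_clq hD, card_union_of_disjoint hd,
    card_union_of_disjoint hCD, sum_congr rfl (fun y (_ : y ∈ Y) => nd_union hCD y)] at h1
  have h2 : ∑ x ∈ D, ((dg G C x : ℤ) + nd G C x) = D.card * C.card := by
    have h3 : ∀ x ∈ D, ((dg G C x : ℤ) + nd G C x) = C.card := by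
      intro x hx
      have := nd_of_notMem (G := G) (disjoint_right.1 hCD hx)
      exact_mod_cast this
    rw [sum_congr rfl h3, sum_const, nsmul_eq_mul]
  rw [sum_add_distrib] at h2
  push_cast at h1
  rw [sum_add_distrib] at h1
  rw [sum_sub_distrib, sum_sub_distrib, sum_const, nsmul_eq_mul]
  nlinarith

end Gen

namespace PFrame

variable {V : Type*} {G : SimpleGraph V} {r m t : ℕ} {Z T : Finset V}

/-- the `F`-neighbours of `z` in a set -/
lemma nd_eq (G : SimpleGraph V) (S : Finset V) (z : V) :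
    nd G S z = (S.filter (fun y => y ≠ z ∧ ¬ G.Adj z y)).card := rfl

/-- an independent set with all ends in `I` has at most `|I|` points -/
lemma card_le_of_ends (h : PFrame G r m t Z T) {I J : Finset V} (hI : I ⊆ T)
    (hJ : J ⊆ ZI G Z T I) (hi : Ind G J) : J.card ≤ I.card := h.alpha_ZI hI J hJ hi

/-- `F[Z_{uw}]` is triangle free: the `F`-neighbours of `z` in `Z_{uw}` form a clique -/
lemma pair_clq (h : PFrame G r m t Z T) {u w z : V} (hu : u ∈ T) (hw : w ∈ T) (huw : u ≠ w)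
    (hz : z ∈ ZI G Z T {u, w}) :
    Clq G ((ZI G Z T {u, w}).filter (fun y => y ≠ z ∧ ¬ G.Adj z y)) := by
  intro p hp q hq hpq
  obtain ⟨hp1, hp2, hp3⟩ := mem_filter.1 hp
  obtain ⟨hq1, hq2, hq3⟩ := mem_filter.1 hq
  by_contra hn
  have hI : ({u, w} : Finset V) ⊆ T := by
    intro x hx
    simp only [mem_insert, mem_singleton] at hx
    rcases hx with rfl | rfl
    · exact hu
    · exact hw
  have h2 := h.card_le_of_ends hI (J := {z, p, q}) (by
    intro x hx
    simp only [mem_insert, mem_singleton] at hx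
    rcases hx with rfl | rfl | rfl
    · exact hz
    · exact hp1
    · exact hq1) (by
    intro a ha b hb hab
    simp only [mem_insert, mem_singleton] at ha hb
    rcases ha with rfl | rfl | rfl <;> rcases hb with rfl | rfl | rfl
    · exact G.loopless.irrefl _ hab
    · exact hp3 hab
    · exact hq3 hab
    · exact hp3 hab.symm
    · exact G.loopless.irrefl _ hab
    · exact hn hab
    · exact hq3 hab.symm
    · exact hn hab.symm
    · exact G.loopless.irrefl _ hab)
  rw [card_insert_of_notMem (by simp [hp2.symm, hq2.symm]), card_pair hpq, card_pair huw] at h2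
  omega

lemma Cl_sub_ZI' (h : PFrame G r m t Z T) {u : V} (hu : u ∈ T) {I : Finset V} (hI : u ∈ I) :
    Cl G Z T u ⊆ ZI G Z T I :=
  (h.Cl_sub_ZI hu).trans (ZI_mono (singleton_subset_iff.2 hI))

/-- (P) for two classes: `e_G(C_u, C_w) ≤ R + (a_u - 1)(a_w - 1)` -/
lemma cross_le (h : PFrame G r m t Z T) (hP : PG G r) {u w : V} (hu : u ∈ T) (hw : w ∈ T)
    (huw : u ≠ w) : ∑ x ∈ Cl G Z T w, (dg G (Cl G Z T u) x : ℤ)
      ≤ ((r : ℤ) - 1) + ((r : ℤ) - (Cl G Z T u).card - 1) * ((r : ℤ) - (Cl G Z T w).card - 1) := by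
  have h1 := hP.pair (Y := ∅) (h.Cl_clq hu) (h.Cl_clq hw) (Cl_disjoint hu hw huw)
    (disjoint_empty_right _) (disjoint_empty_right _)
  simp [NE] at h1
  linarith

/-- `(kappa_u - 1)(kappa_w - 1) ≤ (a_u - 1)(a_w - 1) + 1` -/
lemma kappa_mul (h : PFrame G r m t Z T) (hP : PG G r) {z u w : V} (hz : z ∈ BB G Z T)
    (hends : ends G T z = {u, w}) (huw : u ≠ w) :
    ((nd G (Cl G Z T u) z : ℤ) - 1) * ((nd G (Cl G Z T w) z : ℤ) - 1)
      ≤ ((r : ℤ) - (Cl G Z T u).card - 1) * ((r : ℤ) - (Cl G Z T w).card - 1) + 1 := by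
  have hu : u ∈ T := (mem_ends.1 (by rw [hends]; simp)).1
  have hw : w ∈ T := (mem_ends.1 (by rw [hends]; simp)).1
  have h1 := hP.pair (Y := {z}) (h.Cl_clq hu) (h.Cl_clq hw) (Cl_disjoint hu hw huw)
    ((BB_disjoint_Cl hu).mono_right (singleton_subset_iff.2 hz))
    ((BB_disjoint_Cl hw).mono_right (singleton_subset_iff.2 hz))
  have hNE : NE G {z} = 0 := by simp [NE, nd]
  rw [sum_singleton, hNE] at h1
  -- the non-neighbours of `z` are completely joined
  set Qu := (Cl G Z T u).filter (fun y => y ≠ z ∧ ¬ G.Adj z y) with hQu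
  set Qw := (Cl G Z T w).filter (fun y => y ≠ z ∧ ¬ G.Adj z y) with hQw
  have h2 : Qw.card * Qu.card ≤ ∑ x ∈ Cl G Z T w, dg G (Cl G Z T u) x := by
    have h3 : ∑ x ∈ Qw, Qu.card ≤ ∑ x ∈ Qw, dg G (Cl G Z T u) x := by
      refine sum_le_sum fun q hq => card_le_card fun p hp => ?_
      obtain ⟨hq1, hq2, hq3⟩ := mem_filter.1 hq
      obtain ⟨hp1, hp2, hp3⟩ := mem_filter.1 hp
      exact mem_filter.2 ⟨hp1, (h.Q_adj hz hends huw hp1 hq1 hp3 hq3).symm⟩
    rw [sum_const, smul_eq_mul] at h3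
    exact h3.trans (sum_le_sum_of_subset (filter_subset _ _))
  have h4 : ((nd G (Cl G Z T w) z : ℤ)) * (nd G (Cl G Z T u) z)
      ≤ ∑ x ∈ Cl G Z T w, (dg G (Cl G Z T u) x : ℤ) := by
    have : nd G (Cl G Z T w) z * nd G (Cl G Z T u) z
      ≤ ∑ x ∈ Cl G Z T w, dg G (Cl G Z T u) x := h2
    exact_mod_cast this
  push_cast at h1
  nlinarith

/-- mixed (or disjoint) pairs: for an `F`-pair `y, y'` with ends in the three-element set `I` the
common `F`-neighbours in `Z_I` form a clique -/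
lemma triple_clq (h : PFrame G r m t Z T) {I : Finset V} (hI : I ⊆ T) (hI3 : I.card = 3)
    {y y' : V} (hy : y ∈ ZI G Z T I) (hy' : y' ∈ ZI G Z T I) (hne : y ≠ y') (hn : ¬ G.Adj y y') :
    Clq G ((ZI G Z T I).filter (fun x => (x ≠ y ∧ ¬ G.Adj y x) ∧ (x ≠ y' ∧ ¬ G.Adj y' x))) := by
  intro p hp q hq hpq
  obtain ⟨hp1, ⟨hp2, hp3⟩, hp4, hp5⟩ := mem_filter.1 hp
  obtain ⟨hq1, ⟨hq2, hq3⟩, hq4, hq5⟩ := mem_filter.1 hq
  by_contra hn'
  have h2 := h.card_le_of_ends hI (J := {y, y', p, q}) (by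
    intro x hx
    simp only [mem_insert, mem_singleton] at hx
    rcases hx with rfl | rfl | rfl | rfl
    · exact hy
    · exact hy'
    · exact hp1
    · exact hq1) (by
    have hi : Ind G ({p, q} : Finset V) := by
      intro a ha b hb hab
      simp only [mem_insert, mem_singleton] at ha hb
      rcases ha with rfl | rfl <;> rcases hb with rfl | rfl
      · exact G.loopless.irrefl _ hab
      · exact hn' hab
      · exact hn' hab.symm
      · exact G.loopless.irrefl _ hab
    refine Ind.insert_of G (Ind.insert_of G hi ?_) ?_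
    · intro x hx
      simp only [mem_insert, mem_singleton] at hx
      rcases hx with rfl | rfl
      · exact hp5
      · exact hq5
    · intro x hx
      simp only [mem_insert, mem_singleton] at hx
      rcases hx with rfl | rfl | rfl
      · exact hn
      · exact hp3
      · exact hq3)
  rw [card_insert_of_notMem (by simp [hne, hp2.symm, hq2.symm]),
    card_insert_of_notMem (by simp [hp4.symm, hq4.symm]), card_pair hpq, hI3] at h2
  omega

/-- for `I` in `T`: `|Z_I| = sum_I |Cl v| + b_I` -/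
lemma card_ZI (h : PFrame G r m t Z T) {I : Finset V} (hI : I ⊆ T) :
    (ZI G Z T I).card = ∑ v ∈ I, (Cl G Z T v).card
      + ((BB G Z T).filter (fun z => ends G T z ⊆ I)).card := by
  have h1 : (I.biUnion (fun v => Cl G Z T v)) ∪ (BB G Z T).filter (fun z => ends G T z ⊆ I)
      = ZI G Z T I := by
    ext z
    simp only [mem_union, mem_biUnion, mem_filter]
    constructor
    · rintro (⟨v, hv, hz⟩ | ⟨hz, hz2⟩)
      · exact h.Cl_sub_ZI' (hI hv) hv hz
      · exact mem_ZI_of_BB hz hz2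
    · intro hz
      obtain ⟨hzZ, hz2, hz3⟩ := mem_ZI.1 hz
      by_cases hzT : z ∈ T
      · exact Or.inl ⟨z, hz2 hzT, h.self_mem_Cl hzT⟩
      · have h1 := h.k1 hzZ hzT
        have h2 := h.k2 z (mem_sdiff.2 ⟨hzZ, hzT⟩)
        have h3 : dg G T z = 1 ∨ dg G T z = 2 := by omega
        rcases h3 with h3 | h3
        · left
          rw [← card_ends, card_eq_one] at h3
          obtain ⟨v, hv⟩ := h3
          exact ⟨v, hz3 (by rw [hv]; exact mem_singleton_self v), mem_Cl.2 ⟨hzZ, Or.inr ⟨hzT, hv⟩⟩⟩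
        · exact Or.inr ⟨mem_BB.2 ⟨⟨hzZ, hzT⟩, h3⟩, hz3⟩
  have h2 : Disjoint (I.biUnion (fun v => Cl G Z T v))
      ((BB G Z T).filter (fun z => ends G T z ⊆ I)) := by
    rw [disjoint_biUnion_left]
    exact fun v hv => (BB_disjoint_Cl (hI hv)).mono_right (filter_subset _ _)
  have h3 : (I.biUnion (fun v => Cl G Z T v)).card = ∑ v ∈ I, (Cl G Z T v).card :=
    card_biUnion fun v hv w hw hvw => Cl_disjoint (hI hv) (hI hw) hvw
  rw [← h3, ← card_union_of_disjoint h2, h1]

end PFrame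

namespace S2

variable {V : Type*} {G : SimpleGraph V} {r m t : ℕ} {Z T : Finset V}

/-- `a_v ≥ 1` -/
lemma Cl_card_lt (h : S2 G r m t Z T) {v : V} (hv : v ∈ T) : (Cl G Z T v).card ≤ r - 1 :=
  h.omega _ (filter_subset _ _) (h.toPFrame.Cl_clq hv)

/-- the deficiency `a_v = r - |Cl v|` -/
noncomputable def a (G : SimpleGraph V) (r : ℕ) (Z T : Finset V) (v : V) : ℕ :=
  r - (Cl G Z T v).card

lemma a_pos (h : S2 G r m t Z T) {v : V} (hv : v ∈ T) : 1 ≤ a G r Z T v := by
  have h1 := h.Cl_card_lt hv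
  have h2 := h.lt
  unfold a
  omega

lemma a_add (h : S2 G r m t Z T) {v : V} (hv : v ∈ T) : a G r Z T v + (Cl G Z T v).card = r := by
  have h1 := h.Cl_card_lt hv
  unfold a
  omega

lemma Cl_pos (h : S2 G r m t Z T) {v : V} (hv : v ∈ T) : 1 ≤ (Cl G Z T v).card :=
  card_pos.2 ⟨v, h.toPFrame.self_mem_Cl hv⟩

/-- `b = 1 + sum a_v` -/
lemma b_eq (h : S2 G r m t Z T) : (BB G Z T).card = 1 + ∑ v ∈ T, a G r Z T v := by
  have h1 := h.toPFrame.card_split
  rw [h.cardZ] at h1
  have h2 : ∑ v ∈ T, a G r Z T v + ∑ v ∈ T, (Cl G Z T v).card = t * r := by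
    rw [← sum_add_distrib, sum_congr rfl fun v hv => h.a_add hv, sum_const, h.cardT, smul_eq_mul]
  omega

/-- Hall: `b_I ≤ a(I)` for proper `I` -/
lemma hall_b (h : S2 G r m t Z T) {I : Finset V} (hI : I ⊂ T) :
    ((BB G Z T).filter (fun z => ends G T z ⊆ I)).card ≤ ∑ v ∈ I, a G r Z T v := by
  have h1 := h.hall I hI
  rw [h.toPFrame.card_ZI hI.1] at h1
  have h2 : ∑ v ∈ I, a G r Z T v + ∑ v ∈ I, (Cl G Z T v).card = I.card * r := by
    rw [← sum_add_distrib, sum_congr rfl fun v hv => h.a_add (hI.1 hv), sum_const, smul_eq_mul]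
  omega

/-- blocking: `beta_v ≥ a_v + 1` -/
lemma beta_ge (h : S2 G r m t Z T) {v : V} (hv : v ∈ T) :
    a G r Z T v + 1 ≤ ((BB G Z T).filter (fun z => v ∈ ends G T z)).card := by
  have h1 := h.hall_b (I := T.erase v) (erase_ssubset hv)
  have h2 : (BB G Z T).filter (fun z => ends G T z ⊆ T.erase v)
      = (BB G Z T).filter (fun z => ¬ v ∈ ends G T z) := by
    apply filter_congr
    intro z _
    constructor
    · exact fun h' hv' => (mem_erase.1 (h' hv')).1 rfl
    · intro h' x hx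
      exact mem_erase.2 ⟨fun h'' => h' (h'' ▸ hx), (mem_ends.1 hx).1⟩
  rw [h2] at h1
  have h3 := card_filter_add_card_filter_not (s := BB G Z T) (fun z => v ∈ ends G T z)
  have h4 := h.b_eq
  have h5 : a G r Z T v + ∑ x ∈ T.erase v, a G r Z T x = ∑ x ∈ T, a G r Z T x :=
    add_sum_erase T (fun v => a G r Z T v) hv
  omega

/-- clique bound: `kappa_u(z) + kappa_w(z) + h_z ≤ r - 1`, in the form: all `F`-neighbours of a
point of `Z_{uw}` inside `Z_{uw}` -/
lemma pair_nd_le (h : S2 G r m t Z T) {u w z : V} (hu : u ∈ T) (hw : w ∈ T) (huw : u ≠ w)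
    (hz : z ∈ ZI G Z T {u, w}) : nd G (ZI G Z T {u, w}) z ≤ r - 1 :=
  h.omega _ ((filter_subset _ _).trans (filter_subset _ _)) (h.toPFrame.pair_clq hu hw huw hz)

/-- the level is at least three -/
lemma three_le (hr : 2 ≤ r) (hP : PG G r) (h : S2 G r m t Z T) : 3 ≤ t := by
  have hpos := h.toPFrame.pos
  by_contra hlt
  have h12 : t = 1 ∨ t = 2 := by omega
  rcases h12 with h1 | h1
  · subst h1
    have h2 := h.omega Z (Subset.refl _) (PFrame.clq_of_alpha_one h.alpha)
    have h3 := h.cardZ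
    omega
  · subst h1
    have hTc := h.cardT
    obtain ⟨u, w, huw, hT⟩ := card_eq_two.1 hTc
    have hu : u ∈ T := by rw [hT]; simp
    have hw : w ∈ T := by rw [hT]; simp
    have hZ : ZI G Z T {u, w} = Z := by
      apply filter_true_of_mem
      intro z _
      exact ⟨fun h' => by rw [hT] at h'; exact h', by rw [← hT]; exact filter_subset _ _⟩
    have h2 : NE G Z ≤ Z.card * (r - 1) := by
      unfold NE
      rw [← smul_eq_mul, ← sum_const]
      refine sum_le_sum fun z hz => ?_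
      have := h.pair_nd_le hu hw huw (z := z) (by rw [hZ]; exact hz)
      rw [hZ] at this
      exact this
    have h3 := hP.ne1 Z
    rw [h.cardZ] at h2 h3
    obtain ⟨n, rfl⟩ : ∃ n, r = n + 1 := ⟨r - 1, by omega⟩
    simp only [Nat.add_sub_cancel] at h2
    have h4 : (NE G Z : ℤ) ≤ (2 * (n + 1) + 1) * n := by exact_mod_cast h2
    push_cast at h3
    have hn : (1 : ℤ) ≤ n := by
      have : 1 ≤ n := by omega
      exact_mod_cast this
    nlinarith

/-- balanced homes: `n_v ≤ a_v` except for one chosen class `u₀` with `n ≤ a + 1` -/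
lemma exists_homes (h : S2 G r m t Z T) {u₀ : V} (hu₀ : u₀ ∈ T) :
    ∃ home : V → V, (∀ z ∈ BB G Z T, home z ∈ ends G T z) ∧
      ∀ v ∈ T, ((BB G Z T).filter (fun z => home z = v)).card
        ≤ a G r Z T v + if v = u₀ then 1 else 0 := by
  set cap : V → ℕ := fun v => a G r Z T v + if v = u₀ then 1 else 0 with hcap
  set slot : {z // z ∈ BB G Z T} → Finset (V × ℕ) := fun z =>
    (ends G T z).biUnion (fun v => {v} ×ˢ range (cap v)) with hslot
  have hslotmem : ∀ (z : {z // z ∈ BB G Z T}) (p : V × ℕ),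
      p ∈ slot z ↔ p.1 ∈ ends G T z ∧ p.2 < cap p.1 := by
    intro z p
    simp only [hslot, mem_biUnion, mem_product, mem_singleton, mem_range]
    constructor
    · rintro ⟨v, hv, h1, h2⟩
      subst h1
      exact ⟨hv, h2⟩
    · rintro ⟨h1, h2⟩
      exact ⟨p.1, h1, rfl, h2⟩
  have hall : ∀ X : Finset {z // z ∈ BB G Z T}, X.card ≤ (X.biUnion slot).card := by
    intro X
    set I : Finset V := X.biUnion (fun z => ends G T z) with hI
    have hIT : I ⊆ T := by
      intro v hv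
      obtain ⟨z, _, hz⟩ := mem_biUnion.1 hv
      exact (mem_ends.1 hz).1
    have h1 : X.biUnion slot = I.biUnion (fun v => {v} ×ˢ range (cap v)) := by
      ext p
      simp only [mem_biUnion, hslotmem, hI, mem_product, mem_singleton, mem_range]
      constructor
      · rintro ⟨z, hz, h1, h2⟩
        exact ⟨p.1, ⟨z, hz, h1⟩, rfl, h2⟩
      · rintro ⟨v, ⟨z, hz, h1⟩, h2, h3⟩
        subst h2
        exact ⟨z, hz, h1, h3⟩
    have h2 : (X.biUnion slot).card = ∑ v ∈ I, cap v := by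
      rw [h1, card_biUnion]
      · refine sum_congr rfl fun v _ => ?_
        rw [card_product, card_singleton, card_range, one_mul]
      · intro v _ w _ hvw
        change Disjoint _ _
        rw [disjoint_left]
        intro p hp hp'
        simp only [mem_product, mem_singleton, mem_range] at hp hp'
        exact hvw (hp.1.symm.trans hp'.1)
    have h3 : X.card = (X.map (Function.Embedding.subtype _)).card := (card_map _).symm
    have h4 : X.map (Function.Embedding.subtype _)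
        ⊆ (BB G Z T).filter (fun z => ends G T z ⊆ I) := by
      intro z hz
      obtain ⟨z', hz', rfl⟩ := mem_map.1 hz
      exact mem_filter.2 ⟨z'.2, subset_biUnion_of_mem
      (fun z : {z // z ∈ BB G Z T} => ends G T z.1) hz'⟩
    rw [h2, h3]
    refine (card_le_card h4).trans ?_
    by_cases hIe : I = T
    · rw [hIe]
      refine (card_filter_le _ _).trans ?_
      rw [h.b_eq, hcap, sum_add_distrib, sum_ite_eq' T u₀, if_pos hu₀]
      omega
    · refine (h.hall_b (hIT.ssubset_of_ne hIe)).trans (sum_le_sum fun v _ => ?_)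
      exact Nat.le_add_right _ _
  obtain ⟨f, hf, hfs⟩ := (all_card_le_biUnion_card_iff_exists_injective slot).1 hall
  refine ⟨fun z => if hz : z ∈ BB G Z T then (f ⟨z, hz⟩).1 else z, ?_, ?_⟩
  · intro z hz
    simp only [hz, dif_pos]
    exact ((hslotmem _ _).1 (hfs ⟨z, hz⟩)).1
  · intro v _
    change _ ≤ cap v
    rw [← card_range (cap v)]
    refine card_le_card_of_injOn (fun z => if hz : z ∈ BB G Z T then (f ⟨z, hz⟩).2 else 0) ?_ ?_
    · intro z hz
      obtain ⟨hz1, hz2⟩ := mem_filter.1 hz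
      simp only [hz1, dif_pos] at hz2 ⊢
      have := ((hslotmem _ _).1 (hfs ⟨z, hz1⟩)).2
      rw [hz2] at this
      exact mem_coe.2 (mem_range.2 this)
    · intro z hz z' hz' heq
      obtain ⟨hz1, hz2⟩ := mem_filter.1 (mem_coe.1 hz)
      obtain ⟨hz1', hz2'⟩ := mem_filter.1 (mem_coe.1 hz')
      simp only [hz1, hz1', dif_pos] at hz2 hz2' heq
      have h1 : f ⟨z, hz1⟩ = f ⟨z', hz1'⟩ := Prod.ext (hz2.trans hz2'.symm) heq
      have h2 := hf h1
      exact congrArg Subtype.val h2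

end S2

end Pool.Agent.Lib.MP_f04ccf_co
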