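import Pool.Agent.Lib.MP_f04ccf_co.S2Safe

/-!
MP_f04ccf_co: summing the server inequalities.  If every server is safe, the number of nonadjacent
pairs with the same home and different tails is large.
-/

set_option autoImplicit false

namespace Pool.Agent.Lib.MP_f04ccf_co

open Finset

attribute [local instance] Classical.propDecidable

section Total

variable {V : Type*} {G : SimpleGraph V} {Z T : Finset V} {hm : V → V}

variable (G Z T hm) in
/-- the number of non-neighbours of `z` with the same home -/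
noncomputable def allH (z : V) : ℕ :=
  ((BB G Z T).filter (fun y => (co G).Adj z y ∧ hm z = hm y)).card

variable (G Z T hm) in
/-- the number of non-neighbours of `z` with the same home and the same tail -/
noncomputable def sameH (z : V) : ℕ :=
  ((BB G Z T).filter (fun y => (co G).Adj z y ∧ hm z = hm y ∧ ends G T z = ends G T y)).card

variable (G Z T hm) in
/-- the number of non-neighbours of `z` with the same home and a different tail -/
noncomputable def diffH (z : V) : ℕ :=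
  ((BB G Z T).filter (fun y => (co G).Adj z y ∧ hm z = hm y ∧ ends G T z ≠ ends G T y)).card

lemma allH_eq (z : V) : allH G Z T hm z = sameH G Z T hm z + diffH G Z T hm z := by
  unfold allH sameH diffH
  rw [← card_union_of_disjoint, ← filter_or]
  · congr 1
    ext y
    simp only [mem_filter]
    tauto
  · rw [disjoint_filter]
    intro y _ h1 h2
    exact h2.2.2 h1.2.2

namespace PFrame

variable {r m t : ℕ}

lemma hm_mem (hh : Homes G Z T hm) {z : V} (hz : z ∈ BB G Z T) : hm z ∈ T :=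
  (mem_ends.1 (hh z hz)).1

lemma sum_Ph (hh : Homes G Z T hm) (f : V → ℤ) :
    ∑ w ∈ T, ∑ z ∈ Ph G Z T hm w, f z = ∑ z ∈ BB G Z T, f z :=
  sum_fiberwise_of_maps_to (fun _ hz => hm_mem hh hz) f

lemma sum_tails (hh : Homes G Z T hm) (f : V → ℤ) :
    ∑ w ∈ T, ∑ z ∈ tails G Z T hm w, f z = ∑ z ∈ BB G Z T, f z := by
  unfold tails
  simp only [sum_filter]
  rw [sum_comm]
  refine sum_congr rfl fun z hz => ?_
  rw [← sum_filter, sum_const, nsmul_eq_mul]
  have h1 : (T.filter (fun w => w ∈ ends G T z ∧ hm z ≠ w)) = (ends G T z).erase (hm z) := by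
    ext w
    rw [mem_filter, mem_erase]
    constructor
    · rintro ⟨_, h2, h3⟩
      exact ⟨fun h => h3 h.symm, h2⟩
    · rintro ⟨h2, h3⟩
      exact ⟨(mem_ends.1 h3).1, h3, fun h => h2 h.symm⟩
  rw [h1, card_erase_of_mem (hh z hz), card_ends, (mem_BB.1 hz).2]
  simp

lemma sum_card_MM (h : PFrame G r m t Z T) (hh : Homes G Z T hm) :
    ∑ w ∈ T, ((MM G Z T hm w).card : ℤ) = t * r + 1 := by
  have h1 : ∀ w ∈ T, ((MM G Z T hm w).card : ℤ) = (Cl G Z T w).card + (Ph G Z T hm w).card := by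
    intro w hw
    unfold MM
    rw [card_union_of_disjoint (MM_disj hw)]
    push_cast
    rfl
  have h2 : ∑ w ∈ T, ((Ph G Z T hm w).card : ℤ) = (BB G Z T).card := by
    have := sum_Ph hh (fun _ => 1)
    simpa using this
  rw [sum_congr rfl h1, sum_add_distrib, h2]
  have h3 := h.card_split
  rw [h.cardZ] at h3
  have h4 : ((t * r + 1 : ℕ) : ℤ) = ((∑ v ∈ T, (Cl G Z T v).card + (BB G Z T).card : ℕ) : ℤ) := by
    rw [h3]
  push_cast at h4
  linarith

lemma E_MM (h : PFrame G r m t Z T) {w : V} (hw : w ∈ T) :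
    (E (co G) (MM G Z T hm w) : ℤ)
      = 2 * ∑ z ∈ Ph G Z T hm w, (kk G Z T hm z : ℤ) + E (co G) (Ph G Z T hm w) := by
  unfold MM
  rw [E_union (co G) (MM_disj hw), E_compl_clq (h.Cl_clq hw)]
  have : ∑ y ∈ Ph G Z T hm w, dg (co G) (Cl G Z T w) y = ∑ y ∈ Ph G Z T hm w, kk G Z T hm y := by
    refine sum_congr rfl fun y hy => ?_
    unfold kk
    rw [(mem_Ph.1 hy).2]
  rw [this]
  push_cast
  ring


lemma sum_E_Ph (hh : Homes G Z T hm) :
    ∑ w ∈ T, (E (co G) (Ph G Z T hm w) : ℤ) = ∑ z ∈ BB G Z T, (allH G Z T hm z : ℤ) := by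
  rw [← sum_Ph hh]
  refine sum_congr rfl fun w _ => ?_
  unfold E
  push_cast
  refine sum_congr rfl fun z hz => ?_
  unfold dg allH Ph
  rw [filter_filter]
  congr 2
  ext y
  simp only [mem_filter]
  have hz2 := (mem_Ph.1 hz).2
  constructor
  · rintro ⟨h1, h2, h3⟩
    exact ⟨h1, h3, by rw [hz2, h2]⟩
  · rintro ⟨h1, h2, h3⟩
    exact ⟨h1, by rw [← h3, hz2], h2⟩


lemma sum_E_tails (hh : Homes G Z T hm) :
    ∑ w ∈ T, (E (hmG G hm) (tails G Z T hm w) : ℤ) = ∑ z ∈ BB G Z T, (sameH G Z T hm z : ℤ) := by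
  rw [← sum_tails hh]
  refine sum_congr rfl fun w _ => ?_
  unfold E
  push_cast
  refine sum_congr rfl fun z hz => ?_
  obtain ⟨z1, z2, z3⟩ := mem_tails.1 hz
  have ez := ends_eq_pair z1 (hh z z1) z2 z3
  unfold dg sameH
  congr 2
  ext y
  rw [mem_filter, mem_filter]
  constructor
  · rintro ⟨h1, h2, h3⟩
    obtain ⟨y1, y2, y3⟩ := mem_tails.1 h1
    refine ⟨y1, h2, h3, ?_⟩
    rw [ez, ends_eq_pair y1 (hh y y1) y2 y3, h3]
  · rintro ⟨h1, h2, h3, h4⟩
    refine ⟨mem_tails.2 ⟨h1, ?_, ?_⟩, h2, h3⟩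
    · rw [← h4]; exact z2
    · rw [← h3]; exact z3

/-- if all servers are safe then the different-tail pairs are numerous -/
theorem safe_total (h : PFrame G r m t Z T) (hP : PG G r) (hh : Homes G Z T hm)
    (hsafe : ∀ w ∈ T, ∀ z ∈ tails G Z T hm w,
      net2 G r (MM G Z T hm w) (tails G Z T hm w) (hmG G hm) (kk G Z T hm) z < 0 →
      (Bw G Z T w).card + (Cl G Z T w).card + 1 ≤ dg (co G) (Cl G Z T w) z + r) :
    2 * ((r : ℤ) - 1) + ∑ w ∈ T, ∑ z ∈ tails G Z T hm w,
        max (net2 G r (MM G Z T hm w) (tails G Z T hm w) (hmG G hm) (kk G Z T hm) z) 0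
      ≤ ∑ z ∈ BB G Z T, (diffH G Z T hm z : ℤ) := by
  have h1 := sum_le_sum fun w hw => h.safe hP hh hw (hsafe w hw)
  rw [sum_add_distrib, sum_add_distrib, ← mul_sum, sum_tails hh, sum_E_tails hh] at h1
  have h2 : ∑ w ∈ T, slk G r (MM G Z T hm w)
      = 2 * ∑ z ∈ BB G Z T, (kk G Z T hm z : ℤ) + ∑ z ∈ BB G Z T, (allH G Z T hm z : ℤ)
        - 2 * ((r : ℤ) - 1) := by
    unfold slk
    rw [sum_sub_distrib, sum_congr rfl (fun w hw => h.E_MM hw), sum_add_distrib, ← mul_sum,
      sum_Ph hh, sum_E_Ph hh, ← mul_sum, sum_sub_distrib, h.sum_card_MM hh, sum_const,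
      h.cardT, nsmul_eq_mul]
    ring
  rw [h2] at h1
  have h3 : ∑ z ∈ BB G Z T, (allH G Z T hm z : ℤ)
      = ∑ z ∈ BB G Z T, (sameH G Z T hm z : ℤ) + ∑ z ∈ BB G Z T, (diffH G Z T hm z : ℤ) := by
    rw [← sum_add_distrib]
    refine sum_congr rfl fun z _ => ?_
    rw [allH_eq]
    push_cast
    rfl
  rw [h3] at h1
  linarith

end PFrame

end Total

end Pool.Agent.Lib.MP_f04ccf_co
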