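import Pool.Agent.Lib.MP_f04ccf_co.S2Crown
import Pool.Agent.Lib.MP_f04ccf_co.S2Total
import Pool.Agent.Lib.MP_f04ccf_co.S2Api

/-!
MP_f04ccf_co: overloaded vertices with the ends `{i, w}` (helper25, notes 2769 and 2803).

`kap v z` is the number of non-neighbours of `z` in the class of `v`, `gg` the number of
non-neighbours with the same pair of ends, `eta i w z` the overload at the server `w` and
`mv i w z = kappa_w + g - e_w - 1`.
-/

set_option autoImplicit false

namespace Pool.Agent.Lib.MP_f04ccf_co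

open Finset

attribute [local instance] Classical.propDecidable

section Over

variable {V : Type*} (G : SimpleGraph V) (r : ℕ) (Z T : Finset V)

/-- non-neighbours of `z` in the class of `v` -/
noncomputable def kap (v z : V) : ℕ := dg (co G) (Cl G Z T v) z

/-- the vertices with ends `i` and `w` -/
noncomputable def Bp (i w : V) : Finset V := (BB G Z T).filter (fun z => ends G T z = {i, w})

/-- non-neighbours of `z` with the ends `i`, `w` -/
noncomputable def gg (i w z : V) : ℕ := dg (co G) (Bp G Z T i w) z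

/-- overload at the server `w` of a vertex with the ends `i`, `w` -/
noncomputable def eta (i w z : V) : ℤ :=
  (kap G Z T i z : ℤ) + kap G Z T w z + gg G Z T i w z
    + ((Bw G Z T w).card - (Bp G Z T i w).card) - ((r : ℤ) - 1)

/-- what a point of the class of `i` missed by `z` brings at least at the server `w` -/
noncomputable def mv (i w z : V) : ℤ :=
  (kap G Z T w z : ℤ) + gg G Z T i w z - ((Bw G Z T w).card - ((r : ℤ) - (Cl G Z T w).card)) - 1

variable {G r Z T}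

lemma mem_Bp {i w z : V} : z ∈ Bp G Z T i w ↔ z ∈ BB G Z T ∧ ends G T z = {i, w} := mem_filter

lemma Bp_comm (i w : V) : Bp G Z T i w = Bp G Z T w i := by
  unfold Bp
  rw [pair_comm]

lemma gg_comm (i w z : V) : gg G Z T i w z = gg G Z T w i z := by
  unfold gg
  rw [Bp_comm]

lemma Bp_sub_Bw (i w : V) : Bp G Z T i w ⊆ Bw G Z T w := by
  intro z hz
  obtain ⟨h1, h2⟩ := mem_Bp.1 hz
  exact mem_Bw.2 ⟨h1, by rw [h2]; simp⟩

/-- `kap` as `nd` -/
lemma nd_eq_dg (A : Finset V) (z : V) : nd G A z = dg (co G) A z := by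
  unfold nd dg
  congr 1
  ext y
  rw [mem_filter, mem_filter, co_adj]
  constructor
  · rintro ⟨h1, h2, h3⟩
    exact ⟨h1, h2.symm, h3⟩
  · rintro ⟨h1, h2, h3⟩
    exact ⟨h1, h2.symm, h3⟩

lemma NE_eq_E (A : Finset V) : NE G A = E (co G) A :=
  sum_congr rfl fun z _ => nd_eq_dg A z

/-- the identity of note 2769: `m_w = eta_i - kappa_i + a_w + h + o - 1` -/
lemma mv_eq (i w z : V) :
    mv G r Z T i w z = eta G r Z T w i z - kap G Z T i z + ((r : ℤ) - (Cl G Z T w).card)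
      + ((r : ℤ) - 1 - (Bw G Z T i).card - (Bw G Z T w).card + (Bp G Z T i w).card) - 1 := by
  unfold mv eta
  rw [gg_comm w i, Bp_comm w i]
  ring

namespace PFrame

variable {m t : ℕ}

/-- the pair `{i, w}`: a point of `Bp` lies in `Z_{iw}` -/
lemma Bp_mem_ZI {i w z : V} (hz : z ∈ Bp G Z T i w) : z ∈ ZI G Z T {i, w} :=
  BB_mem_ZI (mem_Bp.1 hz).1 (mem_Bp.1 hz).2

/-- two nonadjacent vertices of `Bp`: the missed parts of any subset of `Z_{iw}` are disjoint -/
lemma miss_disj (h : PFrame G r m t Z T) {i w : V} (hi : i ∈ T) (hw : w ∈ T) {y z : V}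
    (hy : y ∈ Bp G Z T i w) (hz : z ∈ Bp G Z T i w) (hyz : (co G).Adj y z) {S : Finset V}
    (hS : S ⊆ ZI G Z T {i, w}) :
    Disjoint (S.filter (fun q => (co G).Adj y q)) (S.filter (fun q => (co G).Adj z q)) := by
  rw [disjoint_left]
  intro q hq1 hq2
  obtain ⟨h1, h2⟩ := mem_filter.1 hq1
  obtain ⟨_, h3⟩ := mem_filter.1 hq2
  exact h.no_triple hi hw (Bp_mem_ZI hy) (Bp_mem_ZI hz) (hS h1) hyz h3 h2

lemma dg_add_le (h : PFrame G r m t Z T) {i w : V} (hi : i ∈ T) (hw : w ∈ T) {y z : V}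
    (hy : y ∈ Bp G Z T i w) (hz : z ∈ Bp G Z T i w) (hyz : (co G).Adj y z) {S : Finset V}
    (hS : S ⊆ ZI G Z T {i, w}) : dg (co G) S y + dg (co G) S z ≤ S.card := by
  have h1 := h.miss_disj hi hw hy hz hyz hS
  unfold dg
  rw [← card_union_of_disjoint h1]
  exact card_le_card (union_subset (filter_subset _ _) (filter_subset _ _))

lemma Cl_sub_ZI_pair (h : PFrame G r m t Z T) {i w v : V} (hv : v ∈ T)
    (hvi : v ∈ ({i, w} : Finset V)) : Cl G Z T v ⊆ ZI G Z T {i, w} :=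
  fun _ hz => h.Cl_mem_ZI hv hvi hz

lemma Bp_sub_ZI (i w : V) : Bp G Z T i w ⊆ ZI G Z T {i, w} := fun _ hz => Bp_mem_ZI hz

/-- missed parts of a class avoid the vertex of `T` -/
lemma kap_add_lt (h : PFrame G r m t Z T) {i w v : V} (hi : i ∈ T) (hw : w ∈ T)
    (hvi : v ∈ ({i, w} : Finset V)) {y z : V}
    (hy : y ∈ Bp G Z T i w) (hz : z ∈ Bp G Z T i w) (hyz : (co G).Adj y z) :
    kap G Z T v y + kap G Z T v z + 1 ≤ (Cl G Z T v).card := by
  have hv : v ∈ T := by
    rcases mem_insert.1 hvi with rfl | hvi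
    · exact hi
    · rw [mem_singleton.1 hvi]; exact hw
  have h1 := h.dg_add_le hi hw hy hz hyz
    (S := (Cl G Z T v).erase v) ((erase_subset _ _).trans (h.Cl_sub_ZI_pair hv hvi))
  have h2 : ∀ x ∈ Bp G Z T i w, dg (co G) ((Cl G Z T v).erase v) x = kap G Z T v x := by
    intro x hx
    unfold kap dg
    congr 1
    ext q
    rw [mem_filter, mem_filter, mem_erase]
    constructor
    · rintro ⟨⟨_, h4⟩, h5⟩
      exact ⟨h4, h5⟩
    · rintro ⟨h4, h5⟩
      refine ⟨⟨?_, h4⟩, h5⟩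
      rintro rfl
      have h6 : q ∈ ends G T x := by rw [(mem_Bp.1 hx).2]; exact hvi
      exact h5.2 (mem_ends.1 h6).2
  rw [h2 y hy, h2 z hz, card_erase_of_mem (h.self_mem_Cl hv)] at h1
  have h3 : 0 < (Cl G Z T v).card := card_pos.2 ⟨v, h.self_mem_Cl hv⟩
  omega

/-- the non-neighbours of `z` in the two classes are completely joined -/
lemma prod_sub (h : PFrame G r m t Z T) {i w : V} (hi : i ∈ T) (hw : w ∈ T) (hiw : i ≠ w)
    {z p q : V} (hz : z ∈ Bp G Z T i w) (hp : p ∈ Cl G Z T i) (hq : q ∈ Cl G Z T w)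
    (hzp : (co G).Adj z p) (hzq : (co G).Adj z q) : G.Adj p q := by
  by_contra hpq
  have hne : p ≠ q := fun h' => disjoint_left.1 (Cl_Cl_disjoint hi hw hiw) hp (h' ▸ hq)
  exact h.no_triple hi hw (Bp_mem_ZI hz) (h.Cl_mem_ZI hi (mem_insert_self _ _) hp)
    (h.Cl_mem_ZI hw (mem_insert_of_mem (mem_singleton_self _)) hq) hzp ⟨hne, hpq⟩ hzq

/-- two nonadjacent vertices of `Bp` and the edges between the two classes -/
lemma cross_two (h : PFrame G r m t Z T) {i w : V} (hi : i ∈ T) (hw : w ∈ T) (hiw : i ≠ w)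
    {y z : V} (hy : y ∈ Bp G Z T i w) (hz : z ∈ Bp G Z T i w) (hyz : (co G).Adj y z) :
    kap G Z T i y * kap G Z T w y + kap G Z T i z * kap G Z T w z
      ≤ ∑ x ∈ Cl G Z T w, dg G (Cl G Z T i) x := by
  set Qy := (Cl G Z T w).filter (fun q => (co G).Adj y q)
  set Qz := (Cl G Z T w).filter (fun q => (co G).Adj z q)
  have hd : Disjoint Qy Qz := h.miss_disj hi hw hy hz hyz
    (h.Cl_sub_ZI_pair hw (mem_insert_of_mem (mem_singleton_self _)))
  have h1 : ∀ x ∈ Bp G Z T i w, ∀ q ∈ (Cl G Z T w).filter (fun q => (co G).Adj x q),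
      kap G Z T i x ≤ dg G (Cl G Z T i) q := by
    intro x hx q hq
    obtain ⟨hq1, hq2⟩ := mem_filter.1 hq
    refine card_le_card fun p hp => ?_
    obtain ⟨hp1, hp2⟩ := mem_filter.1 hp
    exact mem_filter.2 ⟨hp1, (h.prod_sub hi hw hiw hx hp1 hq1 hp2 hq2).symm⟩
  have h2 : ∀ x ∈ Bp G Z T i w, kap G Z T i x * kap G Z T w x
      ≤ ∑ q ∈ (Cl G Z T w).filter (fun q => (co G).Adj x q), dg G (Cl G Z T i) q := by
    intro x hx
    have h3 := card_nsmul_le_sum ((Cl G Z T w).filter (fun q => (co G).Adj x q))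
      (fun q => dg G (Cl G Z T i) q) (kap G Z T i x) (h1 x hx)
    rw [smul_eq_mul, mul_comm] at h3
    exact h3
  refine (Nat.add_le_add (h2 y hy) (h2 z hz)).trans ?_
  rw [← sum_union hd]
  exact sum_le_sum_of_subset (union_subset (filter_subset _ _) (filter_subset _ _))

/-- (P) with slope one on the two classes and a set of vertices with two ends: inequality (E) -/
lemma val_pair (h : PFrame G r m t Z T) (hP : PG G r) {i w : V} (hi : i ∈ T) (hw : w ∈ T)
    (hiw : i ≠ w) {Y : Finset V} (hY : Y ⊆ BB G Z T) :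
    2 * ∑ x ∈ Cl G Z T w, (dg G (Cl G Z T i) x : ℤ)
      + 2 * ∑ y ∈ Y, (((r : ℤ) - 1) - kap G Z T i y - kap G Z T w y) - E (co G) Y
      ≤ 2 * (((r : ℤ) - 1)
        + ((r : ℤ) - (Cl G Z T i).card - 1) * ((r : ℤ) - (Cl G Z T w).card - 1)) := by
  have h1 := hP.pair (h.Cl_clq hi) (h.Cl_clq hw) (Cl_Cl_disjoint hi hw hiw)
    (disjoint_of_subset_right hY (Cl_BB_disjoint hi))
    (disjoint_of_subset_right hY (Cl_BB_disjoint hw))
  simp only [nd_eq_dg, NE_eq_E] at h1
  exact h1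

end PFrame

/-- the arithmetic of (D) in note 2803 -/
lemma over_num {R ai aw ky ly kz lz τ e N s : ℤ} (hai : 1 ≤ ai) (haw : 1 ≤ aw) (hτ : 2 ≤ τ)
    (hK : ky + ly + (kz + lz) = R + τ) (hi : ky + kz ≤ R - ai) (hw : ly + lz ≤ R - aw)
    (hky : ky ≤ aw) (hkz : kz ≤ aw) (hly : 0 ≤ ly) (hlz : 0 ≤ lz) (he : ky * ly + kz * lz ≤ e)
    (hN : N ≤ ai + aw) (hs : (R - τ) * N ≤ 2 * s)
    (hE : 4 * e + 4 * s - N ^ 2 ≤ 4 * (R + (ai - 1) * (aw - 1))) :
    N ≤ 2 * (2 * aw - ky - kz) := by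
  by_contra hlt
  rw [not_le] at hlt
  obtain ⟨ρ, hρ⟩ : ∃ ρ, ρ = R - aw - ly - lz := ⟨_, rfl⟩
  obtain ⟨A, hA⟩ : ∃ A, A = 2 * aw - ky - kz := ⟨_, rfl⟩
  have hρ0 : 0 ≤ ρ := by linarith
  have hA0 : 0 ≤ A := by linarith
  have hAe : A = aw - τ - ρ := by linarith
  have h1 : (aw - A) * (ly + lz) ≤ ky * ly + kz * lz := by
    have h2 := mul_nonneg (sub_nonneg.2 hkz) hly
    have h3 := mul_nonneg (sub_nonneg.2 hky) hlz
    nlinarith
  have h4 : (τ + ρ) * (R - aw - ρ) ≤ e := by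
    have h5 : aw - A = τ + ρ := by linarith
    have h6 : ly + lz = R - aw - ρ := by linarith
    rw [h5, h6] at h1
    linarith
  have hai2 : ai ≤ R - aw - τ - ρ := by linarith
  have hNA : 2 * A + 1 ≤ N := by rw [← hA] at hlt; linarith
  have hNR : N ≤ R - τ := by linarith
  have h7 : 0 ≤ (N - (2 * A + 1)) * (2 * (R - τ) - N - (2 * A + 1)) :=
    mul_nonneg (by linarith) (by linarith)
  have h8 : (ai - 1) * (aw - 1) ≤ (R - aw - τ - ρ - 1) * (aw - 1) :=
    mul_le_mul_of_nonneg_right (by linarith) (by linarith)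
  have h9 : 0 ≤ ρ * A := mul_nonneg hρ0 hA0
  have h10 : 1 ≤ aw * (τ - 1) := by nlinarith
  have h11 : 2 ≤ R - τ := by linarith
  subst hAe
  nlinarith

variable (G r Z T) in
/-- a set of overloaded vertices with home `i` and tail `w` as in note 2803 -/
structure OverSet (i w : V) (D : Finset V) : Prop where
  hi : i ∈ T
  hw : w ∈ T
  hiw : i ≠ w
  sub : D ⊆ Bp G Z T i w
  eta_pos : ∀ z ∈ D, 1 ≤ eta G r Z T i w z
  kap_le : ∀ z ∈ D, kap G Z T i z + (Cl G Z T w).card ≤ r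
  le : (Bw G Z T w).card ≤ (Bw G Z T i).card
  room : (Bw G Z T i).card + (Bw G Z T w).card + 1 ≤ r + (Bp G Z T i w).card

namespace OverSet

variable {m t : ℕ} {i w : V} {D : Finset V}

lemma mv_ge (hO : OverSet G r Z T i w D) {z : V} (hz : z ∈ D) :
    (r : ℤ) - (Cl G Z T w).card - kap G Z T i z ≤ mv G r Z T i w z := by
  have h1 := hO.eta_pos z hz
  have h2 := hO.le
  have h3 := hO.room
  unfold eta at h1
  unfold mv
  omega

lemma mv_nonneg (hO : OverSet G r Z T i w D) {z : V} (hz : z ∈ D) :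
    0 ≤ mv G r Z T i w z := by
  have h1 := hO.mv_ge hz
  have h2 := hO.kap_le z hz
  omega

lemma tau_ge (h : PFrame G r m t Z T) (hO : OverSet G r Z T i w D) {y z : V} (hy : y ∈ D)
    (hz : z ∈ D) (hyz : (co G).Adj y z) :
    eta G r Z T i w y + eta G r Z T i w z ≤ ((kap G Z T i y : ℤ) + kap G Z T w y)
      + ((kap G Z T i z : ℤ) + kap G Z T w z) - ((r : ℤ) - 1) := by
  have h1 := h.dg_add_le hO.hi hO.hw (hO.sub hy) (hO.sub hz) hyz (S := Bp G Z T i w)
    (PFrame.Bp_sub_ZI i w)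
  have h2 := hO.le
  have h3 := hO.room
  unfold eta gg
  omega

/-- (A1): `kappa_i + kappa_i' >= a_w + tau` -/
lemma kap_ge (h : PFrame G r m t Z T) (hO : OverSet G r Z T i w D) {y z : V} (hy : y ∈ D)
    (hz : z ∈ D) (hyz : (co G).Adj y z) :
    (r : ℤ) - (Cl G Z T w).card + (((kap G Z T i y : ℤ) + kap G Z T w y)
      + ((kap G Z T i z : ℤ) + kap G Z T w z) - ((r : ℤ) - 1))
      ≤ (kap G Z T i y : ℤ) + kap G Z T i z := by
  have h1 := h.kap_add_lt hO.hi hO.hw (v := w) (by simp) (hO.sub hy) (hO.sub hz) hyz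
  omega

lemma eta_lt_kap (h : PFrame G r m t Z T) (hO : OverSet G r Z T i w D) {y z : V} (hy : y ∈ D)
    (hz : z ∈ D) (hyz : (co G).Adj y z) : eta G r Z T i w y < kap G Z T i y := by
  have h1 := hO.kap_ge h hy hz hyz
  have h2 := hO.tau_ge h hy hz hyz
  have h3 := hO.kap_le z hz
  have h4 := hO.eta_pos z hz
  omega

/-- Hall: `b_iw <= a_i + a_w` -/
lemma hall (h : S2 G r m t Z T) (hr : 2 ≤ r) (hP : PG G r) (hO : OverSet G r Z T i w D) :
    ((Bp G Z T i w).card : ℤ) ≤ ((r : ℤ) - (Cl G Z T i).card) + ((r : ℤ) - (Cl G Z T w).card) := by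
  have h3 := S2.three_le hr hP h
  have hsub : ({i, w} : Finset V) ⊆ T := by
    intro x hx
    simp only [mem_insert, mem_singleton] at hx
    rcases hx with rfl | rfl
    · exact hO.hi
    · exact hO.hw
  have hI : ({i, w} : Finset V) ⊂ T := by
    refine hsub.ssubset_of_ne fun heq => ?_
    have := h.cardT
    rw [← heq, card_pair hO.hiw] at this
    omega
  have h1 := h.hall_b hI
  have h2 : (Bp G Z T i w).card ≤ ((BB G Z T).filter (fun z => ends G T z ⊆ {i, w})).card := by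
    refine card_le_card fun z hz => ?_
    obtain ⟨h4, h5⟩ := mem_Bp.1 hz
    exact mem_filter.2 ⟨h4, h5.subset⟩
  rw [sum_pair hO.hiw] at h1
  have h4 := h.a_add hO.hi
  have h5 := h.a_add hO.hw
  omega

/-- (D): a balanced subset of `D` is small -/
lemma card_le (h : S2 G r m t Z T) (hr : 2 ≤ r) (hP : PG G r) (hO : OverSet G r Z T i w D)
    {y z : V} (hy : y ∈ D) (hz : z ∈ D) (hyz : (co G).Adj y z)
    (hmax : ∀ y' ∈ D, ∀ z' ∈ D, (co G).Adj y' z' →
      ((kap G Z T i y' : ℤ) + kap G Z T w y') + ((kap G Z T i z' : ℤ) + kap G Z T w z')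
        ≤ ((kap G Z T i y : ℤ) + kap G Z T w y) + ((kap G Z T i z : ℤ) + kap G Z T w z))
    {Y : Finset V} (hY : Y ⊆ D)
    (hbal : ∀ (φ : V → ℤ) (c : ℤ), (∀ y' ∈ D, ∀ z' ∈ D, (co G).Adj y' z' → c ≤ φ y' + φ z') →
      c * Y.card ≤ 2 * ∑ x ∈ Y, φ x) :
    (Y.card : ℤ) ≤ 2 * (2 * ((r : ℤ) - (Cl G Z T w).card) - kap G Z T i y - kap G Z T i z) := by
  have hF := h.toPFrame
  have h1 := hO.tau_ge hF hy hz hyz
  have e1 := hO.eta_pos y hy
  have e2 := hO.eta_pos z hz
  have ki := hF.kap_add_lt hO.hi hO.hw (v := i) (by simp) (hO.sub hy) (hO.sub hz) hyz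
  have kw := hF.kap_add_lt hO.hi hO.hw (v := w) (by simp) (hO.sub hy) (hO.sub hz) hyz
  have hc := hF.cross_two hO.hi hO.hw hO.hiw (hO.sub hy) (hO.sub hz) hyz
  have hBB : Y ⊆ BB G Z T := fun x hx => (mem_Bp.1 (hO.sub (hY hx))).1
  have hv := hF.val_pair hP hO.hi hO.hw hO.hiw hBB
  have hal : AlphaLe G Y 2 := by
    intro J hJ hJi
    have := hF.card_le_of_ends (I := {i, w}) (by
      intro x hx
      simp only [mem_insert, mem_singleton] at hx
      rcases hx with rfl | rfl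
      · exact hO.hi
      · exact hO.hw) (hJ.trans (hY.trans (hO.sub.trans (PFrame.Bp_sub_ZI i w)))) hJi
    exact this.trans card_le_two
  have hM := mantel hal
  have hH := hO.hall h hr hP
  have hYc : (Y.card : ℤ) ≤ (Bp G Z T i w).card := by
    exact_mod_cast card_le_card (hY.trans hO.sub)
  have hai := h.a_pos hO.hi
  have haw := h.a_pos hO.hw
  have hai' := h.a_add hO.hi
  have haw' := h.a_add hO.hw
  have hb := hbal (fun x => ((r : ℤ) - 1) - kap G Z T i x - kap G Z T w x)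
    (2 * ((r : ℤ) - 1) - (((kap G Z T i y : ℤ) + kap G Z T w y)
      + ((kap G Z T i z : ℤ) + kap G Z T w z))) (by
      intro y' hy' z' hz' hyz'
      have := hmax y' hy' z' hz' hyz'
      linarith)
  have hc' : (kap G Z T i y : ℤ) * kap G Z T w y + (kap G Z T i z : ℤ) * kap G Z T w z
      ≤ ∑ x ∈ Cl G Z T w, (dg G (Cl G Z T i) x : ℤ) := by exact_mod_cast hc
  refine over_num (R := (r : ℤ) - 1) (ai := (r : ℤ) - (Cl G Z T i).card)
    (aw := (r : ℤ) - (Cl G Z T w).card) (ly := kap G Z T w y) (lz := kap G Z T w z)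
    (τ := ((kap G Z T i y : ℤ) + kap G Z T w y) + ((kap G Z T i z : ℤ) + kap G Z T w z)
      - ((r : ℤ) - 1))
    (e := ∑ x ∈ Cl G Z T w, (dg G (Cl G Z T i) x : ℤ))
    (s := ∑ x ∈ Y, (((r : ℤ) - 1) - kap G Z T i x - kap G Z T w x))
    (by omega) (by omega) (by omega) (by ring) (by omega) (by omega) ?_ ?_ (by positivity)
    (by positivity) hc' (by linarith) ?_ ?_
  · have := hO.kap_le y hy
    omega
  · have := hO.kap_le z hz
    omega
  · refine le_trans (le_of_eq ?_) hb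
    ring
  · linarith

/-- the points of the class of `i` missed by some vertex of `D` -/
noncomputable def UU (G : SimpleGraph V) (Z T : Finset V) (i : V) (D : Finset V) : Finset V :=
  (Cl G Z T i).filter (fun p => ∃ z ∈ D, (co G).Adj z p)

/-- the crown decomposition of `D` and a maximal edge -/
lemma exists_crown (h : S2 G r m t Z T) (hr : 2 ≤ r) (hP : PG G r) (hO : OverSet G r Z T i w D)
    (hne : ∃ y ∈ D, ∃ z ∈ D, (co G).Adj y z) :
    ∃ y ∈ D, ∃ z ∈ D, (co G).Adj y z ∧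
      (∀ y' ∈ D, ∀ z' ∈ D, (co G).Adj y' z' →
      ((kap G Z T i y' : ℤ) + kap G Z T w y') + ((kap G Z T i z' : ℤ) + kap G Z T w z')
        ≤ ((kap G Z T i y : ℤ) + kap G Z T w y) + ((kap G Z T i z : ℤ) + kap G Z T w z)) ∧
      ∃ V0 V1 X : Finset V, V0 ⊆ D ∧ V1 ⊆ D ∧ X ⊆ D ∧ Disjoint V0 V1 ∧ Disjoint V0 X ∧
      Disjoint V1 X ∧ V0 ∪ V1 ∪ X = D ∧ (∀ x ∈ V0, ∀ y ∈ V0, ¬ (co G).Adj x y) ∧
      (∀ x ∈ V0, ∀ y ∈ X, ¬ (co G).Adj x y) ∧
      (∃ μ : V → V, (∀ z ∈ V1, μ z ∈ V0 ∧ (co G).Adj z (μ z)) ∧ Set.InjOn μ V1) ∧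
      (∃ σ : V → V, (∀ z ∈ X, σ z ∈ X ∧ (co G).Adj z (σ z)) ∧ Set.InjOn σ X) ∧
      2 * (V1.card : ℤ) + X.card
        ≤ 2 * (2 * ((r : ℤ) - (Cl G Z T w).card) - kap G Z T i y - kap G Z T i z) := by
  obtain ⟨y0, hy0, z0, hz0, hyz0⟩ := hne
  set P : Finset (V × V) := (D ×ˢ D).filter (fun p => (co G).Adj p.1 p.2) with hP'
  have hPne : P.Nonempty := ⟨(y0, z0), by
    rw [hP', mem_filter, mem_product]
    exact ⟨⟨hy0, hz0⟩, hyz0⟩⟩
  obtain ⟨⟨y, z⟩, hp, hmax⟩ := exists_max_image P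
    (fun p => ((kap G Z T i p.1 : ℤ) + kap G Z T w p.1)
      + ((kap G Z T i p.2 : ℤ) + kap G Z T w p.2)) hPne
  rw [hP', mem_filter, mem_product] at hp
  obtain ⟨⟨hy, hz⟩, hyz⟩ := hp
  have hmax' : ∀ y' ∈ D, ∀ z' ∈ D, (co G).Adj y' z' →
      ((kap G Z T i y' : ℤ) + kap G Z T w y') + ((kap G Z T i z' : ℤ) + kap G Z T w z')
        ≤ ((kap G Z T i y : ℤ) + kap G Z T w y) + ((kap G Z T i z : ℤ) + kap G Z T w z) := by
    intro y' hy' z' hz' hyz'
    exact hmax (y', z') (by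
      rw [hP', mem_filter, mem_product]
      exact ⟨⟨hy', hz'⟩, hyz'⟩)
  obtain ⟨V0, V1, X, h0, h1, hX, h01, h0X, h1X, hU, hi0, hi0X, ⟨μ, hμ, hμi⟩, ⟨σ, hσ, hσi⟩⟩ :=
    crown (co G) D
  refine ⟨y, hy, z, hz, hyz, hmax', V0, V1, X, h0, h1, hX, h01, h0X, h1X, hU, hi0, hi0X,
    ⟨μ, hμ, hμi⟩, ⟨σ, hσ, hσi⟩, ?_⟩
  have hd1 : Disjoint V1 (V1.image μ) := by
    rw [disjoint_left]
    intro x hx hx'
    obtain ⟨x1, hx1, rfl⟩ := mem_image.1 hx'
    exact disjoint_left.1 h01 (hμ x1 hx1).1 hx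
  have hd2 : Disjoint (V1 ∪ V1.image μ) X := by
    rw [disjoint_union_left]
    refine ⟨h1X, ?_⟩
    rw [disjoint_left]
    intro x hx hx'
    obtain ⟨x1, hx1, rfl⟩ := mem_image.1 hx
    exact disjoint_left.1 h0X (hμ x1 hx1).1 hx'
  have hc := hO.card_le h hr hP hy hz hyz hmax' (Y := V1 ∪ V1.image μ ∪ X) (by
    refine union_subset (union_subset h1 ?_) hX
    intro x hx
    obtain ⟨x1, hx1, rfl⟩ := mem_image.1 hx
    exact h0 (hμ x1 hx1).1) (by
    intro φ c hφ
    rw [card_union_of_disjoint hd2, card_union_of_disjoint hd1, card_image_of_injOn hμi,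
      sum_union hd2, sum_union hd1, sum_image hμi]
    have a1 : (V1.card : ℤ) * c ≤ ∑ x ∈ V1, φ x + ∑ x ∈ V1, φ (μ x) := by
      rw [← sum_add_distrib]
      have := card_nsmul_le_sum V1 (fun x => φ x + φ (μ x)) c
        (fun x hx => hφ x (h1 hx) (μ x) (h0 (hμ x hx).1) (hμ x hx).2)
      simpa using this
    have a2 : (X.card : ℤ) * c ≤ 2 * ∑ x ∈ X, φ x := by
      have a3 := sum_perm (fun z hz => (hσ z hz).1) hσi φ
      have a4 : 2 * ∑ x ∈ X, φ x = ∑ x ∈ X, (φ x + φ (σ x)) := by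
        rw [sum_add_distrib, a3]
        ring
      rw [a4]
      have := card_nsmul_le_sum X (fun x => φ x + φ (σ x)) c
        (fun x hx => hφ x (hX hx) (σ x) (hX (hσ x hx).1) (hσ x hx).2)
      simpa using this
    push_cast
    linarith)
  rw [card_union_of_disjoint hd2, card_union_of_disjoint hd1, card_image_of_injOn hμi] at hc
  push_cast at hc
  linarith

/-- **Other homes** (C): if `u` is at least the number of points of the class of `i` missed by
`D`, some subset `E` of `D` may be left out of the test at no cost. -/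
theorem other (h : S2 G r m t Z T) (hr : 2 ≤ r) (hP : PG G r) (hO : OverSet G r Z T i w D)
    {u : ℤ} (hu : ((UU G Z T i D).card : ℤ) ≤ u) :
    ∃ E' ⊆ D, (E (co G) E' : ℤ) + 2 * ∑ z ∈ D \ E', eta G r Z T i w z
      ≤ 2 * ∑ z ∈ E', (u - kap G Z T i z) := by
  have hF := h.toPFrame
  have hku : ∀ z ∈ D, (kap G Z T i z : ℤ) ≤ u := by
    intro z hz
    refine le_trans ?_ hu
    have : kap G Z T i z ≤ (UU G Z T i D).card := by
      refine card_le_card fun p hp => ?_
      obtain ⟨hp1, hp2⟩ := mem_filter.1 hp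
      exact mem_filter.2 ⟨hp1, z, hz, hp2⟩
    exact_mod_cast this
  have hkku : ∀ y ∈ D, ∀ z ∈ D, (co G).Adj y z →
      (kap G Z T i y : ℤ) + kap G Z T i z ≤ u := by
    intro y hy z hz hyz
    refine le_trans ?_ hu
    have hd := hF.miss_disj hO.hi hO.hw (hO.sub hy) (hO.sub hz) hyz
      (hF.Cl_sub_ZI_pair (v := i) hO.hi (by simp))
    have : kap G Z T i y + kap G Z T i z ≤ (UU G Z T i D).card := by
      unfold kap dg
      rw [← card_union_of_disjoint hd]
      refine card_le_card fun p hp => ?_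
      rcases mem_union.1 hp with hp | hp
      · obtain ⟨hp1, hp2⟩ := mem_filter.1 hp
        exact mem_filter.2 ⟨hp1, y, hy, hp2⟩
      · obtain ⟨hp1, hp2⟩ := mem_filter.1 hp
        exact mem_filter.2 ⟨hp1, z, hz, hp2⟩
    exact_mod_cast this
  by_cases hne : ∃ y ∈ D, ∃ z ∈ D, (co G).Adj y z
  · obtain ⟨y, hy, z, hz, hyz, hmax, V0, V1, X, h0, h1, hX, h01, h0X, h1X, hU, hi0, hi0X,
      ⟨μ, hμ, hμi⟩, ⟨σ, hσ, hσi⟩, hc⟩ := hO.exists_crown h hr hP hne
    refine ⟨V0 ∪ X, union_subset h0 hX, ?_⟩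
    have hD : D \ (V0 ∪ X) = V1 := by
      rw [← hU]
      ext x
      simp only [mem_sdiff, mem_union]
      constructor
      · rintro ⟨(h | h) | h, h'⟩
        · exact absurd (Or.inl h) h'
        · exact h
        · exact absurd (Or.inr h) h'
      · intro hx
        refine ⟨Or.inl (Or.inr hx), ?_⟩
        rintro (h' | h')
        · exact disjoint_left.1 h01 h' hx
        · exact disjoint_left.1 h1X hx h'
    rw [hD, sum_union h0X]
    -- the edges inside `V0 ∪ X` are inside `X`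
    have hE0 : ∀ x ∈ X, dg (co G) V0 x = 0 := by
      intro x hx
      unfold dg
      rw [card_eq_zero, filter_eq_empty_iff]
      intro y hy hxy
      exact hi0X y hy x hx hxy.symm
    have hE1 : E (co G) V0 = 0 := by
      unfold E
      refine sum_eq_zero fun x hx => ?_
      unfold dg
      rw [card_eq_zero, filter_eq_empty_iff]
      intro y hy hxy
      exact hi0 x hx y hy hxy
    have hE2 : E (co G) (V0 ∪ X) = E (co G) X := by
      rw [E_union (co G) h0X, hE1, sum_congr rfl hE0]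
      simp
    rw [hE2]
    have hal : AlphaLe G X 2 := by
      intro J hJ hJi
      have := hF.card_le_of_ends (I := {i, w}) (by
        intro x hx
        simp only [mem_insert, mem_singleton] at hx
        rcases hx with rfl | rfl
        · exact hO.hi
        · exact hO.hw) (hJ.trans (hX.trans (hO.sub.trans (PFrame.Bp_sub_ZI i w)))) hJi
      exact this.trans card_le_two
    have hM := mantel hal
    -- gain of `V0`
    have g0 : ∑ z ∈ V1, eta G r Z T i w z ≤ ∑ z ∈ V0, (u - (kap G Z T i z : ℤ)) := by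
      refine le_trans ?_ (sum_match (fun z hz => (hμ z hz).1) hμi
        (fun z => u - (kap G Z T i z : ℤ)) (fun z hz => by have := hku z (h0 hz); linarith))
      refine sum_le_sum fun z hz => ?_
      have e1 := hO.eta_lt_kap hF (h1 hz) (h0 (hμ z hz).1) (hμ z hz).2
      have e2 := hkku z (h1 hz) (μ z) (h0 (hμ z hz).1) (hμ z hz).2
      linarith
    -- gain of `X`
    have g1 : (X.card : ℤ) * ((r : ℤ) - (Cl G Z T w).card + 2)
        ≤ 2 * ∑ z ∈ X, (u - (kap G Z T i z : ℤ)) := by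
      have a3 := sum_perm (fun z hz => (hσ z hz).1) hσi (fun z => u - (kap G Z T i z : ℤ))
      have a4 : 2 * ∑ z ∈ X, (u - (kap G Z T i z : ℤ))
          = ∑ z ∈ X, ((u - (kap G Z T i z : ℤ)) + (u - (kap G Z T i (σ z) : ℤ))) := by
        rw [sum_add_distrib, a3]
        ring
      rw [a4]
      have := card_nsmul_le_sum X
        (fun z => (u - (kap G Z T i z : ℤ)) + (u - (kap G Z T i (σ z) : ℤ)))
        ((r : ℤ) - (Cl G Z T w).card + 2) (fun x hx => by
          have b1 := hkku x (hX hx) (σ x) (hX (hσ x hx).1) (hσ x hx).2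
          have b2 := hO.kap_ge hF (hX hx) (hX (hσ x hx).1) (hσ x hx).2
          have b3 := hO.tau_ge hF (hX hx) (hX (hσ x hx).1) (hσ x hx).2
          have b4 := hO.eta_pos x (hX hx)
          have b5 := hO.eta_pos (σ x) (hX (hσ x hx).1)
          linarith)
      simpa using this
    -- `|X| ≤ 2 a_w`
    have b2 := hO.kap_ge hF hy hz hyz
    have b3 := hO.tau_ge hF hy hz hyz
    have b4 := hO.eta_pos y hy
    have b5 := hO.eta_pos z hz
    have hX2 : (X.card : ℤ) ≤ 2 * ((r : ℤ) - (Cl G Z T w).card) := by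
      have : (0 : ℤ) ≤ V1.card := by positivity
      linarith
    have hXX : (X.card : ℤ) * X.card ≤ X.card * (2 * ((r : ℤ) - (Cl G Z T w).card)) :=
      mul_le_mul_of_nonneg_left hX2 (by positivity)
    have hX0 : (0 : ℤ) ≤ X.card := by positivity
    nlinarith
  · push Not at hne
    refine ⟨D, Subset.refl D, ?_⟩
    have hE1 : E (co G) D = 0 := by
      unfold E
      refine sum_eq_zero fun x hx => ?_
      unfold dg
      rw [card_eq_zero, filter_eq_empty_iff]
      intro y hy hxy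
      exact hne x hx y hy hxy
    rw [hE1, Finset.sdiff_self, sum_empty]
    have : 0 ≤ ∑ z ∈ D, (u - (kap G Z T i z : ℤ)) :=
      sum_nonneg fun z hz => by have := hku z hz; linarith
    push_cast
    linarith

/-- **The main home** (C): the missed points of the class of `i` pay for a vertex cover of `D`. -/
theorem same (h : S2 G r m t Z T) (hr : 2 ≤ r) (hP : PG G r) (hO : OverSet G r Z T i w D)
    {M : V → ℤ} (hM : ∀ z ∈ D, ∀ p ∈ Cl G Z T i, (co G).Adj z p → mv G r Z T i w z ≤ M p) :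
    ∃ E' ⊆ D, (E (co G) E' : ℤ) + 2 * ∑ z ∈ D \ E', eta G r Z T i w z
      ≤ 2 * ∑ p ∈ UU G Z T i D, M p := by
  have hF := h.toPFrame
  have hM0 : ∀ p ∈ UU G Z T i D, 0 ≤ M p := by
    intro p hp
    obtain ⟨hp1, z, hz, hzp⟩ := mem_filter.1 hp
    exact (hO.mv_nonneg hz).trans (hM z hz p hp1 hzp)
  by_cases hne : ∃ y ∈ D, ∃ z ∈ D, (co G).Adj y z
  · obtain ⟨y, hy, z, hz, hyz, hmax, V0, V1, X, h0, h1, hX, h01, h0X, h1X, hU, hi0, hi0X,
      ⟨μ, hμ, hμi⟩, ⟨σ, hσ, hσi⟩, hc⟩ := hO.exists_crown h hr hP hne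
    refine ⟨V0, h0, ?_⟩
    have hD : D \ V0 = V1 ∪ X := by
      rw [← hU]
      ext x
      simp only [mem_sdiff, mem_union]
      constructor
      · rintro ⟨(h | h) | h, h'⟩
        · exact absurd h h'
        · exact Or.inl h
        · exact Or.inr h
      · rintro (hx | hx)
        · exact ⟨Or.inl (Or.inr hx), fun h' => disjoint_left.1 h01 h' hx⟩
        · exact ⟨Or.inr hx, fun h' => disjoint_left.1 h0X h' hx⟩
    rw [hD, sum_union h1X]
    have hE1 : E (co G) V0 = 0 := by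
      unfold E
      refine sum_eq_zero fun x hx => ?_
      unfold dg
      rw [card_eq_zero, filter_eq_empty_iff]
      intro y hy hxy
      exact hi0 x hx y hy hxy
    rw [hE1]
    -- cost
    obtain ⟨τ, hτ⟩ : ∃ τ, τ = ((kap G Z T i y : ℤ) + kap G Z T w y)
        + ((kap G Z T i z : ℤ) + kap G Z T w z) - ((r : ℤ) - 1) := ⟨_, rfl⟩
    have hτe : ∀ y' ∈ D, ∀ z' ∈ D, (co G).Adj y' z' →
        eta G r Z T i w y' + eta G r Z T i w z' ≤ τ := by
      intro y' hy' z' hz' hyz'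
      have a1 := hO.tau_ge hF hy' hz' hyz'
      have a2 := hmax y' hy' z' hz' hyz'
      linarith
    have c1 : ∑ x ∈ V1, eta G r Z T i w x ≤ V1.card * τ := by
      have := sum_le_card_nsmul V1 (fun x => eta G r Z T i w x) τ (fun x hx => by
        have a1 := hτe x (h1 hx) (μ x) (h0 (hμ x hx).1) (hμ x hx).2
        have a2 := hO.eta_pos (μ x) (h0 (hμ x hx).1)
        linarith)
      simpa using this
    have c2 : 2 * ∑ x ∈ X, eta G r Z T i w x ≤ X.card * τ := by
      have a3 := sum_perm (fun z hz => (hσ z hz).1) hσi (fun x => eta G r Z T i w x)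
      have a4 : 2 * ∑ x ∈ X, eta G r Z T i w x
          = ∑ x ∈ X, (eta G r Z T i w x + eta G r Z T i w (σ x)) := by
        rw [sum_add_distrib, a3]
        ring
      rw [a4]
      have := sum_le_card_nsmul X (fun x => eta G r Z T i w x + eta G r Z T i w (σ x)) τ
        (fun x hx => hτe x (hX hx) (σ x) (hX (hσ x hx).1) (hσ x hx).2)
      simpa using this
    -- gain
    have hd := hF.miss_disj hO.hi hO.hw (hO.sub hy) (hO.sub hz) hyz
      (hF.Cl_sub_ZI_pair (v := i) hO.hi (by simp))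
    have g1 : (kap G Z T i y : ℤ) * mv G r Z T i w y + kap G Z T i z * mv G r Z T i w z
        ≤ ∑ p ∈ UU G Z T i D, M p := by
      have g2 : ∀ x ∈ D, (kap G Z T i x : ℤ) * mv G r Z T i w x
          ≤ ∑ p ∈ (Cl G Z T i).filter (fun p => (co G).Adj x p), M p := by
        intro x hx
        have := card_nsmul_le_sum ((Cl G Z T i).filter (fun p => (co G).Adj x p)) M
          (mv G r Z T i w x) (fun p hp => hM x hx p (mem_filter.1 hp).1 (mem_filter.1 hp).2)
        rw [nsmul_eq_mul] at this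
        exact this
      refine (add_le_add (g2 y hy) (g2 z hz)).trans ?_
      rw [← sum_union hd]
      refine sum_le_sum_of_subset_of_nonneg ?_ (fun p hp _ => hM0 p hp)
      intro p hp
      rcases mem_union.1 hp with hp | hp
      · obtain ⟨hp1, hp2⟩ := mem_filter.1 hp
        exact mem_filter.2 ⟨hp1, y, hy, hp2⟩
      · obtain ⟨hp1, hp2⟩ := mem_filter.1 hp
        exact mem_filter.2 ⟨hp1, z, hz, hp2⟩
    have b1 := hO.kap_ge hF hy hz hyz
    have b2 := hO.tau_ge hF hy hz hyz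
    have b3 := hO.eta_pos y hy
    have b4 := hO.eta_pos z hz
    have b5 := hO.mv_ge hy
    have b6 := hO.mv_ge hz
    have b7 := hO.kap_le y hy
    have b8 := hO.kap_le z hz
    obtain ⟨a, ha⟩ : ∃ a : ℤ, a = (r : ℤ) - (Cl G Z T w).card := ⟨_, rfl⟩
    obtain ⟨ky, hky⟩ : ∃ k : ℤ, k = kap G Z T i y := ⟨_, rfl⟩
    obtain ⟨kz, hkz⟩ : ∃ k : ℤ, k = kap G Z T i z := ⟨_, rfl⟩
    obtain ⟨my, hmy⟩ : ∃ k : ℤ, k = mv G r Z T i w y := ⟨_, rfl⟩
    obtain ⟨mz, hmz⟩ : ∃ k : ℤ, k = mv G r Z T i w z := ⟨_, rfl⟩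
    have b7' : (kap G Z T i y : ℤ) + (Cl G Z T w).card ≤ r := by exact_mod_cast b7
    have b8' : (kap G Z T i z : ℤ) + (Cl G Z T w).card ≤ r := by exact_mod_cast b8
    rw [← hτ] at b1 b2
    rw [← ha] at b1 b5 b6 hc
    rw [← hky] at b1 b5 g1 hc b7'
    rw [← hkz] at b1 b6 g1 hc b8'
    rw [← hmy] at b5 g1
    rw [← hmz] at b6 g1
    have hk1 : ky ≤ a := by linarith
    have hk2 : kz ≤ a := by linarith
    have hτ2 : 2 ≤ τ := by linarith
    have h5 : τ * (a - ky) ≤ ky * my := by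
      have q1 : τ ≤ ky := by linarith
      have q2 : 0 ≤ a - ky := by linarith
      have q3 := mul_le_mul_of_nonneg_right q1 q2
      have q4 : ky * (a - ky) ≤ ky * my := mul_le_mul_of_nonneg_left b5 (by linarith)
      linarith
    have h6 : τ * (a - kz) ≤ kz * mz := by
      have q1 : τ ≤ kz := by linarith
      have q2 : 0 ≤ a - kz := by linarith
      have q3 := mul_le_mul_of_nonneg_right q1 q2
      have q4 : kz * (a - kz) ≤ kz * mz := mul_le_mul_of_nonneg_left b6 (by linarith)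
      linarith
    have h7 : (2 * (V1.card : ℤ) + X.card) * τ ≤ 2 * (2 * a - ky - kz) * τ :=
      mul_le_mul_of_nonneg_right hc (by linarith)
    push_cast
    nlinarith
  · push Not at hne
    refine ⟨D, Subset.refl D, ?_⟩
    have hE1 : E (co G) D = 0 := by
      unfold E
      refine sum_eq_zero fun x hx => ?_
      unfold dg
      rw [card_eq_zero, filter_eq_empty_iff]
      intro y hy hxy
      exact hne x hx y hy hxy
    rw [hE1, Finset.sdiff_self, sum_empty]
    have : 0 ≤ ∑ p ∈ UU G Z T i D, M p := sum_nonneg hM0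
    push_cast
    linarith

end OverSet

/-- (O3): two vertices with `kappa_i > a_w`, overloaded at `w` (the end with the smaller class of
two-ended vertices), are adjacent -/
theorem high_adj {m t : ℕ} (h : S2 G r m t Z T) (hP : PG G r) {i w y z : V}
    (hi : i ∈ T) (hw : w ∈ T) (hiw : i ≠ w) (hle : (Bw G Z T w).card ≤ (Bw G Z T i).card)
    (hroom : (Bw G Z T i).card + (Bw G Z T w).card + 1 ≤ r + (Bp G Z T i w).card)
    (hy : y ∈ Bp G Z T i w) (hz : z ∈ Bp G Z T i w)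
    (ey : 1 ≤ eta G r Z T i w y) (ez : 1 ≤ eta G r Z T i w z)
    (hky : r + 1 ≤ kap G Z T i y + (Cl G Z T w).card)
    (hkz : r + 1 ≤ kap G Z T i z + (Cl G Z T w).card) : ¬ (co G).Adj y z := by
  intro hyz
  have hF := h.toPFrame
  have h1 := hF.dg_add_le hi hw hy hz hyz (S := Bp G Z T i w) (PFrame.Bp_sub_ZI i w)
  have ki := hF.kap_add_lt hi hw (v := i) (by simp) hy hz hyz
  have kw := hF.kap_add_lt hi hw (v := w) (by simp) hy hz hyz
  have hc := hF.cross_two hi hw hiw hy hz hyz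
  have hai := h.a_pos hi
  have haw := h.a_pos hw
  have hai' := h.a_add hi
  have haw' := h.a_add hw
  have hv := hF.val_pair hP hi hw hiw (Y := {y, z}) (by
    intro x hx
    simp only [mem_insert, mem_singleton] at hx
    rcases hx with rfl | rfl
    · exact (mem_Bp.1 hy).1
    · exact (mem_Bp.1 hz).1)
  rw [sum_pair hyz.1] at hv
  have hM : (E (co G) ({y, z} : Finset V) : ℤ) ≤ 2 := by
    have h5 := E_le (co G) ({y, z} : Finset V)
    rw [card_pair hyz.1] at h5
    push_cast at h5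
    linarith
  have hc' : (kap G Z T i y : ℤ) * kap G Z T w y + (kap G Z T i z : ℤ) * kap G Z T w z
      ≤ ∑ x ∈ Cl G Z T w, (dg G (Cl G Z T i) x : ℤ) := by exact_mod_cast hc
  obtain ⟨ai, hai0⟩ : ∃ a : ℤ, a = (r : ℤ) - (Cl G Z T i).card := ⟨_, rfl⟩
  obtain ⟨aw, haw0⟩ : ∃ a : ℤ, a = (r : ℤ) - (Cl G Z T w).card := ⟨_, rfl⟩
  obtain ⟨τ, hτ⟩ : ∃ τ : ℤ, τ = ((kap G Z T i y : ℤ) + kap G Z T w y)
    + ((kap G Z T i z : ℤ) + kap G Z T w z) - ((r : ℤ) - 1) := ⟨_, rfl⟩
  have hτ2 : 2 ≤ τ := by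
    unfold eta gg at ey ez
    omega
  obtain ⟨ky, hky0⟩ : ∃ k : ℤ, k = kap G Z T i y := ⟨_, rfl⟩
  obtain ⟨kz, hkz0⟩ : ∃ k : ℤ, k = kap G Z T i z := ⟨_, rfl⟩
  obtain ⟨ly, hly0⟩ : ∃ k : ℤ, k = kap G Z T w y := ⟨_, rfl⟩
  obtain ⟨lz, hlz0⟩ : ∃ k : ℤ, k = kap G Z T w z := ⟨_, rfl⟩
  have q1 : aw + 1 ≤ ky := by omega
  have q2 : aw + 1 ≤ kz := by omega
  have q3 : ky + kz ≤ (r : ℤ) - 1 - ai := by omega
  have q4 : ly + lz ≤ (r : ℤ) - 1 - aw := by omega
  have q5 : 1 ≤ ai := by omega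
  have q6 : 1 ≤ aw := by omega
  have q7 : 0 ≤ ly := by omega
  have q8 : 0 ≤ lz := by omega
  rw [← hky0, ← hkz0, ← hly0, ← hlz0] at hc' hv hτ
  rw [← hai0, ← haw0] at hv
  have p1 := mul_nonneg (sub_nonneg.2 q1) q7
  have p2 := mul_nonneg (sub_nonneg.2 q2) q8
  have p3 : (aw + 1) * (ly + lz) ≤ ky * ly + kz * lz := by nlinarith
  -- `ly + lz = R + τ - (ky + kz) ≥ ai + τ`
  have p4 : ai + τ ≤ ly + lz := by linarith
  have p5 : (aw + 1) * (ai + τ) ≤ (aw + 1) * (ly + lz) :=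
    mul_le_mul_of_nonneg_left p4 (by linarith)
  have p6 : 0 ≤ aw * τ := by positivity
  nlinarith

/-- (O4): a vertex overloaded at both ends with `kappa_i > a_w` has `kappa_w ≤ a_i` -/
theorem high_le {m t : ℕ} (h : S2 G r m t Z T) (hr : 8 ≤ r) (hP : PG G r) {i w z : V}
    (hi : i ∈ T) (hw : w ∈ T) (hiw : i ≠ w)
    (hroom : (Bw G Z T i).card + (Bw G Z T w).card + 1 ≤ r + (Bp G Z T i w).card)
    (hz : z ∈ Bp G Z T i w) (ei : 1 ≤ eta G r Z T w i z) (ew : 1 ≤ eta G r Z T i w z)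
    (hk : r + 1 ≤ kap G Z T i z + (Cl G Z T w).card) :
    kap G Z T w z + (Cl G Z T i).card ≤ r := by
  by_contra hlt
  rw [not_le] at hlt
  have hF := h.toPFrame
  have hai := h.a_pos hi
  have haw := h.a_pos hw
  have hai' := h.a_add hi
  have haw' := h.a_add hw
  have hm := hF.kappa_mul hP (mem_Bp.1 hz).1 (mem_Bp.1 hz).2 hiw
  rw [nd_eq_dg, nd_eq_dg] at hm
  change ((kap G Z T i z : ℤ) - 1) * ((kap G Z T w z : ℤ) - 1) ≤ _ at hm
  have hO : OverSet G r Z T i w (∅ : Finset V) ∨ OverSet G r Z T w i (∅ : Finset V) := by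
    rcases le_total (Bw G Z T w).card (Bw G Z T i).card with hle | hle
    · exact Or.inl ⟨hi, hw, hiw, by simp, by simp, by simp, hle, hroom⟩
    · exact Or.inr ⟨hw, hi, hiw.symm, by simp, by simp, by simp, hle, by
        rw [Bp_comm w i]
        omega⟩
  have hH : ((Bp G Z T i w).card : ℤ)
      ≤ ((r : ℤ) - (Cl G Z T i).card) + ((r : ℤ) - (Cl G Z T w).card) := by
    rcases hO with hO | hO
    · exact hO.hall h (by omega) hP
    · have := hO.hall h (by omega) hP
      rw [Bp_comm w i] at this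
      linarith
  have hg : gg G Z T i w z + 1 ≤ (Bp G Z T i w).card := by
    have h1 : gg G Z T i w z ≤ ((Bp G Z T i w).erase z).card := by
      refine card_le_card fun x hx => ?_
      obtain ⟨h1, h2⟩ := mem_filter.1 hx
      exact mem_erase.2 ⟨h2.1.symm, h1⟩
    rw [card_erase_of_mem hz] at h1
    have h2 : 0 < (Bp G Z T i w).card := card_pos.2 ⟨z, hz⟩
    omega
  obtain ⟨ai, hai0⟩ : ∃ a : ℤ, a = (r : ℤ) - (Cl G Z T i).card := ⟨_, rfl⟩
  obtain ⟨aw, haw0⟩ : ∃ a : ℤ, a = (r : ℤ) - (Cl G Z T w).card := ⟨_, rfl⟩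
  obtain ⟨k, hk0⟩ : ∃ k : ℤ, k = kap G Z T i z := ⟨_, rfl⟩
  obtain ⟨l, hl0⟩ : ∃ k : ℤ, k = kap G Z T w z := ⟨_, rfl⟩
  have q1 : aw + 1 ≤ k := by omega
  have q2 : ai + 1 ≤ l := by omega
  have q5 : 1 ≤ ai := by omega
  have q6 : 1 ≤ aw := by omega
  rw [← hk0, ← hl0, ← hai0, ← haw0] at hm
  have p1 : aw * ai ≤ (k - 1) * (l - 1) :=
    mul_le_mul (by linarith) (by linarith) (by linarith) (by linarith)
  have p2 : ai + aw ≤ 2 := by nlinarith
  have p3 : ai = 1 := by linarith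
  have p4 : aw = 1 := by linarith
  subst p3
  subst p4
  have p5 : k = 2 ∧ l = 2 := by
    have a1 : 1 ≤ k - 1 := by linarith
    have a2 : 1 ≤ l - 1 := by linarith
    have a3 : (k - 1) * (l - 1) ≤ 1 := by linarith
    constructor <;> nlinarith
  obtain ⟨p6, p7⟩ := p5
  have e1 := gg_comm (G := G) (Z := Z) (T := T) i w z
  have e2 := Bp_comm (G := G) (Z := Z) (T := T) i w
  unfold eta at ei ew
  rw [← e1, ← e2] at ei
  omega

end Over

end Pool.Agent.Lib.MP_f04ccf_co
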