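import Pool.Agent.Lib.MP_f04ccf_co.S2Frame

/-!
MP_f04ccf_co: tests at a class.  `co G` is the complement, `slk G r M` is twice the slack
`e_F(M) - R (|M| - r)` of a set `M` (`R = r - 1`).
-/

set_option autoImplicit false

namespace Pool.Agent.Lib.MP_f04ccf_co

open Finset

attribute [local instance] Classical.propDecidable

section Test

variable {V : Type*} (G : SimpleGraph V)

/-- the complement graph -/
def co (G : SimpleGraph V) : SimpleGraph V where
  Adj x y := x ≠ y ∧ ¬ G.Adj x y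
  symm := ⟨fun _ _ h => ⟨h.1.symm, fun h' => h.2 h'.symm⟩⟩
  loopless := ⟨fun _ h => h.1 rfl⟩

variable {G} in
lemma co_adj {x y : V} : (co G).Adj x y ↔ x ≠ y ∧ ¬ G.Adj x y := Iff.rfl

lemma dg_compl_notMem {A : Finset V} {v : V} (hv : v ∉ A) : dg G A v + dg (co G) A v = A.card := by
  unfold dg
  rw [← card_union_of_disjoint, ← filter_or, filter_true_of_mem]
  · intro w hw
    by_cases h : G.Adj v w
    · exact Or.inl h
    · exact Or.inr ((co_adj).2 ⟨fun h' => hv (h' ▸ hw), h⟩)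
  · rw [disjoint_filter]
    intro w _ h1 h2
    exact ((co_adj).1 h2).2 h1

lemma dg_compl_mem {A : Finset V} {v : V} (hv : v ∈ A) :
    dg G A v + dg (co G) A v + 1 = A.card := by
  have h := dg_compl_notMem G (notMem_erase v A)
  have h1 : dg G (A.erase v) v = dg G A v := by
    unfold dg; congr 1; ext w
    simp only [mem_filter, mem_erase]
    exact ⟨fun h => ⟨h.1.2, h.2⟩, fun h => ⟨⟨fun h' => G.loopless.irrefl v (h' ▸ h.2), h.1⟩, h.2⟩⟩
  have h2 : dg (co G) (A.erase v) v = dg (co G) A v := by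
    unfold dg; congr 1; ext w
    simp only [mem_filter, mem_erase]
    exact ⟨fun h => ⟨h.1.2, h.2⟩, fun h => ⟨⟨fun h' => (co G).loopless.irrefl v (h' ▸ h.2), h.1⟩, h.2⟩⟩
  rw [h1, h2, card_erase_of_mem hv] at h
  have : 0 < A.card := card_pos.2 ⟨v, hv⟩
  omega

lemma E_compl (A : Finset V) : (E G A : ℤ) + E (co G) A = (A.card : ℤ) * (A.card - 1) := by
  unfold E
  push_cast
  rw [← sum_add_distrib, sum_congr rfl (g := fun _ => ((A.card : ℤ) - 1))]
  · rw [sum_const, nsmul_eq_mul]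
  · intro v hv
    have := dg_compl_mem G hv
    omega

lemma E_union {M Y : Finset V} (h : Disjoint M Y) :
    E G (M ∪ Y) = E G M + 2 * ∑ y ∈ Y, dg G M y + E G Y := by
  have h1 := E_sdiff G (subset_union_right : Y ⊆ M ∪ Y)
  have h2 : (M ∪ Y) \ Y = M := by
    rw [union_sdiff_right, sdiff_eq_self_of_disjoint h]
  have h3 : ∑ v ∈ Y, dg G (M ∪ Y) v = ∑ v ∈ Y, dg G M v + E G Y := by
    unfold E
    rw [← sum_add_distrib]
    refine sum_congr rfl fun v _ => ?_
    rw [dg_sdiff G (subset_union_right : Y ⊆ M ∪ Y) v, h2]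
  rw [h2, h3] at h1
  omega

/-- twice the slack -/
noncomputable def slk (r : ℕ) (M : Finset V) : ℤ :=
  (E (co G) M : ℤ) - 2 * ((r : ℤ) - 1) * ((M.card : ℤ) - r)

variable {G}

lemma slk_nonneg {r : ℕ} (hP : PG G r) (A : Finset V) : 0 ≤ slk G r A := by
  have h1 := hP.one A
  have h2 := E_compl G A
  unfold slk
  linarith

/-- the test with a set `Y` -/
lemma slk_test {r : ℕ} (hP : PG G r) {M Y : Finset V} (h : Disjoint M Y) :
    ∑ y ∈ Y, (2 * ((r : ℤ) - 1 - dg (co G) M y)) - E (co G) Y ≤ slk G r M := by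
  have h1 := slk_nonneg hP (M ∪ Y)
  have h2 := E_union (co G) h
  have h3 := card_union_of_disjoint h
  unfold slk at h1 ⊢
  rw [h2, h3] at h1
  push_cast at h1
  rw [← mul_sum, sum_sub_distrib, sum_const, nsmul_eq_mul]
  linarith

lemma E_compl_clq {K : Finset V} (hK : Clq G K) : E (co G) K = 0 := by
  unfold E
  refine sum_eq_zero fun v hv => ?_
  unfold dg
  rw [card_eq_zero, filter_eq_empty_iff]
  intro w hw h
  exact ((co_adj).1 h).2 (hK v hv w hw ((co_adj).1 h).1)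

lemma dg_le_card (A : Finset V) (v : V) : dg G A v ≤ A.card := card_filter_le _ _

/-- twice the net of `y` at a server with set `M`, tails `A`, paid graph `H`, charges `k` -/
noncomputable def net2 (G : SimpleGraph V) (r : ℕ) (M A : Finset V) (H : SimpleGraph V)
    (k : V → ℕ) (y : V) : ℤ :=
  2 * ((r : ℤ) - 1 - dg (co G) M y) - 2 * k y - dg H A y - dg (co G) A y

/-- the server inequality with a test set `Y ∪ Γ`, `Γ` a clique all of whose points have value at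
least `ξ` -/
lemma server {r : ℕ} (hP : PG G r) {M A Γ Y : Finset V} (hMA : Disjoint M A)
    (hMΓ : Disjoint M Γ) (hAΓ : Disjoint A Γ) (hY : Y ⊆ A) (hΓ : Clq G Γ) (ξ : ℤ)
    (hξ : ∀ p ∈ Γ, ξ ≤ (r : ℤ) - 1 - dg (co G) M p) {H : SimpleGraph V}
    (hH : ∀ x ∈ A, ∀ y ∈ A, H.Adj x y → (co G).Adj x y) (k : V → ℕ) :
    ∑ y ∈ Y, net2 G r M A H k y + 2 * ∑ y ∈ Y, (k y : ℤ)
      + ((E H A : ℤ) - E H (A \ Y)) + 2 * Γ.card * (ξ - Y.card) ≤ slk G r M := by
  have hYΓ : Disjoint Y Γ := disjoint_of_subset_left hY hAΓ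
  have hMY : Disjoint M Y := disjoint_of_subset_right hY hMA
  have h0 := slk_test hP (M := M) (Y := Y ∪ Γ) (disjoint_union_right.2 ⟨hMY, hMΓ⟩)
  rw [sum_union hYΓ, E_union (co G) hYΓ, E_compl_clq hΓ] at h0
  have h1 : (Γ.card : ℤ) * (2 * ξ) ≤ ∑ p ∈ Γ, (2 * ((r : ℤ) - 1 - dg (co G) M p)) := by
    have := card_nsmul_le_sum Γ (fun p => 2 * ((r : ℤ) - 1 - dg (co G) M p)) (2 * ξ)
      (fun p hp => by have := hξ p hp; linarith)
    simpa using this
  have h2 : ((∑ p ∈ Γ, dg (co G) Y p : ℕ) : ℤ) ≤ Γ.card * Y.card := by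
    have := sum_le_card_nsmul Γ (fun p => dg (co G) Y p) Y.card (fun p _ => dg_le_card Y p)
    rw [smul_eq_mul] at this
    exact_mod_cast this
  -- the part of `Y`
  have h3 : (E (co G) Y : ℤ) = ∑ y ∈ Y, ((dg (co G) A y : ℤ) - dg (co G) (A \ Y) y) := by
    unfold E
    push_cast
    refine sum_congr rfl fun y _ => ?_
    have := dg_sdiff (co G) hY y
    omega
  have h4 : ∑ y ∈ Y, (dg H (A \ Y) y : ℤ) ≤ ∑ y ∈ Y, (dg (co G) (A \ Y) y : ℤ) := by
    refine sum_le_sum fun y hy => ?_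
    have : dg H (A \ Y) y ≤ dg (co G) (A \ Y) y := by
      refine card_le_card fun z hz => ?_
      rw [mem_filter] at hz ⊢
      exact ⟨hz.1, hH y (hY hy) z (mem_sdiff.1 hz.1).1 hz.2⟩
    exact_mod_cast this
  have h5 : (E H A : ℤ) - E H (A \ Y) = ∑ y ∈ Y, (dg H A y : ℤ) + ∑ y ∈ Y, (dg H (A \ Y) y : ℤ) := by
    have h6 := E_sdiff H hY
    have h7 : ∑ v ∈ Y, dg H A v = ∑ v ∈ Y, dg H (A \ Y) v + E H Y := by
      unfold E; rw [← sum_add_distrib]
      exact sum_congr rfl fun v _ => dg_sdiff H hY v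
    have h6' : (E H A : ℤ) + E H Y = E H (A \ Y) + 2 * ((∑ v ∈ Y, dg H A v : ℕ) : ℤ) := by
      exact_mod_cast h6
    have h7' : ((∑ v ∈ Y, dg H A v : ℕ) : ℤ) = ((∑ v ∈ Y, dg H (A \ Y) v : ℕ) : ℤ) + E H Y := by
      exact_mod_cast h7
    push_cast at h6' h7'
    linarith
  have h8 : ∑ y ∈ Y, net2 G r M A H k y = ∑ y ∈ Y, (2 * ((r : ℤ) - 1 - dg (co G) M y))
      - 2 * ∑ y ∈ Y, (k y : ℤ) - ∑ y ∈ Y, (dg H A y : ℤ) - ∑ y ∈ Y, (dg (co G) A y : ℤ) := by
    unfold net2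
    rw [mul_sum, ← sum_sub_distrib, ← sum_sub_distrib, ← sum_sub_distrib]
  rw [sum_sub_distrib] at h3
  push_cast at h0 h2
  rw [h8, h5]
  nlinarith

/-- a clique usable at the server -/
def Usable (G : SimpleGraph V) (r : ℕ) (M A Γ : Finset V) : Prop :=
  Clq G Γ ∧ Disjoint M Γ ∧ Disjoint A Γ ∧ ∀ p ∈ Γ, (A.card : ℤ) ≤ (r : ℤ) - 1 - dg (co G) M p

/-- charges against one clique -/
lemma charge {A Bad : Finset V} (hB : Bad ⊆ A) {H : SimpleGraph V} {k : V → ℕ} {γ : ℕ}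
    (h1 : ∀ z ∈ Bad, k z ≤ γ) (h2 : ∀ y ∈ Bad, ∀ z ∈ Bad, H.Adj y z → k y + k z ≤ γ)
    (h3 : ∀ y ∈ Bad, ∀ z ∈ Bad, H.Adj y z → A.card ≤ γ) :
    2 * ∑ z ∈ Bad, (k z : ℤ) + E H Bad ≤ 2 * γ * Bad.card := by
  by_cases hE : ∃ y ∈ Bad, ∃ z ∈ Bad, H.Adj y z
  · obtain ⟨y0, hy0, z0, hz0, hyz0⟩ := hE
    have hA : A.card ≤ γ := h3 y0 hy0 z0 hz0 hyz0
    have hγ : (0 : ℤ) < γ := by
      have : 0 < A.card := card_pos.2 ⟨y0, hB hy0⟩
      exact_mod_cast (show 0 < γ by omega)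
    -- double sum
    have e1 : ∀ f : V → ℤ, ∑ z ∈ Bad, (dg H Bad z : ℤ) * f z
        = ∑ z ∈ Bad, ∑ w ∈ Bad, if H.Adj z w then f z else 0 := by
      intro f
      refine sum_congr rfl fun z _ => ?_
      rw [← sum_filter, sum_const, nsmul_eq_mul]
      rfl
    have e2 : ∑ z ∈ Bad, (dg H Bad z : ℤ) * ((γ : ℤ) - k z)
        = ∑ z ∈ Bad, ∑ w ∈ Bad, if H.Adj z w then ((γ : ℤ) - k w) else 0 := by
      rw [e1 (fun z => (γ : ℤ) - k z), sum_comm]
      refine sum_congr rfl fun z _ => sum_congr rfl fun w _ => ?_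
      by_cases h : H.Adj z w
      · rw [if_pos h, if_pos h.symm]
      · rw [if_neg h, if_neg (fun h' => h h'.symm)]
    have e3 : (γ : ℤ) * E H Bad ≤ 2 * ∑ z ∈ Bad, (dg H Bad z : ℤ) * ((γ : ℤ) - k z) := by
      have e4 : (γ : ℤ) * E H Bad = ∑ z ∈ Bad, ∑ w ∈ Bad, if H.Adj z w then (γ : ℤ) else 0 := by
        rw [← e1 (fun _ => (γ : ℤ)), ← sum_mul]
        unfold E
        push_cast
        ring
      have e5 : 2 * ∑ z ∈ Bad, (dg H Bad z : ℤ) * ((γ : ℤ) - k z)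
          = ∑ z ∈ Bad, ∑ w ∈ Bad, if H.Adj z w then (2 * (γ : ℤ) - k z - k w) else 0 := by
        rw [two_mul]
        nth_rewrite 1 [e1 (fun z => (γ : ℤ) - k z)]
        rw [e2, ← sum_add_distrib]
        refine sum_congr rfl fun z _ => ?_
        rw [← sum_add_distrib]
        refine sum_congr rfl fun w _ => ?_
        split_ifs
        · ring
        · ring
      rw [e4, e5]
      refine sum_le_sum fun z hz => sum_le_sum fun w hw => ?_
      split_ifs with h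
      · have := h2 z hz w hw h
        have : (k z : ℤ) + k w ≤ γ := by exact_mod_cast this
        linarith
      · exact le_refl _
    have e6 : ∑ z ∈ Bad, (dg H Bad z : ℤ) * ((γ : ℤ) - k z) ≤ γ * ∑ z ∈ Bad, ((γ : ℤ) - k z) := by
      rw [mul_sum]
      refine sum_le_sum fun z hz => ?_
      have h4 : (k z : ℤ) ≤ γ := by exact_mod_cast h1 z hz
      have h5 : (dg H Bad z : ℤ) ≤ γ := by
        have h6 := dg_le_card (G := H) Bad z
        have h7 := card_le_card hB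
        exact_mod_cast (show dg H Bad z ≤ γ by omega)
      exact mul_le_mul_of_nonneg_right h5 (by linarith)
    have e7 : (γ : ℤ) * E H Bad ≤ γ * (2 * ∑ z ∈ Bad, ((γ : ℤ) - k z)) := by nlinarith
    have e8 := le_of_mul_le_mul_left e7 hγ
    rw [sum_sub_distrib, sum_const, nsmul_eq_mul] at e8
    linarith
  · push Not at hE
    have hE0 : E H Bad = 0 := by
      unfold E
      refine sum_eq_zero fun v hv => ?_
      unfold dg
      rw [card_eq_zero, filter_eq_empty_iff]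
      exact fun w hw => hE v hv w hw
    have h4 : ∑ z ∈ Bad, (k z : ℤ) ≤ Bad.card * γ := by
      have := sum_le_card_nsmul Bad (fun z => (k z : ℤ)) γ (fun z hz => by exact_mod_cast h1 z hz)
      simpa using this
    rw [hE0]
    push_cast
    linarith

/-- **Safe server lemma** (helper79, note 2618), abstract form. -/
theorem safe_server {r : ℕ} (hP : PG G r) {M A : Finset V} (hMA : Disjoint M A)
    {H : SimpleGraph V} (hH : ∀ x ∈ A, ∀ y ∈ A, H.Adj x y → (co G).Adj x y) (k : V → ℕ)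
    (h1 : ∀ z ∈ A, net2 G r M A H k z < 0 → ∃ Γ, Usable G r M A Γ ∧ k z ≤ Γ.card)
    (h2 : ∀ y ∈ A, ∀ z ∈ A, H.Adj y z → net2 G r M A H k y < 0 → net2 G r M A H k z < 0 →
      A.card ≤ k y + k z ∧ ∃ Γ, Usable G r M A Γ ∧ k y + k z ≤ Γ.card) :
    2 * ∑ z ∈ A, (k z : ℤ) + E H A + ∑ z ∈ A, max (net2 G r M A H k z) 0 ≤ slk G r M := by
  set Bad : Finset V := A.filter (fun z => net2 G r M A H k z < 0) with hBad
  have hBA : Bad ⊆ A := filter_subset _ _
  set Y : Finset V := A \ Bad with hYdef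
  have hYA : Y ⊆ A := sdiff_subset
  have hAY : A \ Y = Bad := by rw [hYdef, Finset.sdiff_sdiff_eq_self hBA]
  -- the best clique
  have hbest : ∃ Γ, Usable G r M A Γ ∧ (∀ z ∈ Bad, k z ≤ Γ.card) ∧
      (∀ y ∈ Bad, ∀ z ∈ Bad, H.Adj y z → k y + k z ≤ Γ.card) := by
    by_cases hne : Bad = ∅
    · refine ⟨∅, ⟨fun x hx => by simp at hx, disjoint_empty_right _, disjoint_empty_right _,
        fun p hp => by simp at hp⟩, ?_, ?_⟩
      · rw [hne]; simp
      · rw [hne]; simp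
    · obtain ⟨z0, hz0, hmax⟩ := exists_max_image Bad k (nonempty_iff_ne_empty.2 hne)
      set P : Finset (V × V) := (Bad ×ˢ Bad).filter (fun p => H.Adj p.1 p.2) with hPdef
      have hz0' := mem_filter.1 hz0
      obtain ⟨Γ0, hΓ0, hk0⟩ := h1 z0 hz0'.1 hz0'.2
      by_cases hPe : P = ∅
      · refine ⟨Γ0, hΓ0, fun z hz => (hmax z hz).trans hk0, fun y hy z hz hyz => ?_⟩
        have : (y, z) ∈ P := by
          rw [hPdef, mem_filter, mem_product]
          exact ⟨⟨hy, hz⟩, hyz⟩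
        rw [hPe] at this
        simp at this
      · obtain ⟨⟨y1, z1⟩, hp1, hmax1⟩ := exists_max_image P (fun p => k p.1 + k p.2)
          (nonempty_iff_ne_empty.2 hPe)
        rw [hPdef, mem_filter, mem_product] at hp1
        obtain ⟨⟨hy1, hz1⟩, hyz1⟩ := hp1
        have hy1' := mem_filter.1 hy1
        have hz1' := mem_filter.1 hz1
        obtain ⟨-, Γ1, hΓ1, hk1⟩ := h2 y1 hy1'.1 z1 hz1'.1 hyz1 hy1'.2 hz1'.2
        have hle : ∀ y ∈ Bad, ∀ z ∈ Bad, H.Adj y z → k y + k z ≤ k y1 + k z1 := by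
          intro y hy z hz hyz
          exact hmax1 (y, z) (by
            rw [hPdef, mem_filter, mem_product]
            exact ⟨⟨hy, hz⟩, hyz⟩)
        rcases le_total Γ0.card Γ1.card with hc | hc
        · exact ⟨Γ1, hΓ1, fun z hz => ((hmax z hz).trans hk0).trans hc,
            fun y hy z hz hyz => (hle y hy z hz hyz).trans hk1⟩
        · exact ⟨Γ0, hΓ0, fun z hz => (hmax z hz).trans hk0,
            fun y hy z hz hyz => ((hle y hy z hz hyz).trans hk1).trans hc⟩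
  obtain ⟨Γ, ⟨hΓq, hMΓ, hAΓ, hΓξ⟩, hk1, hk2⟩ := hbest
  have hs := server hP hMA hMΓ hAΓ hYA hΓq A.card hΓξ hH k
  have hc := charge hBA hk1 hk2 (fun y hy z hz hyz => by
    have hy' := mem_filter.1 hy
    have hz' := mem_filter.1 hz
    exact (h2 y hy'.1 z hz'.1 hyz hy'.2 hz'.2).1.trans (hk2 y hy z hz hyz))
  have hcard : (Y.card : ℤ) + Bad.card = A.card := by
    have := card_sdiff_add_card_eq_card hBA
    exact_mod_cast this
  have hsplit : ∀ f : V → ℤ, ∑ z ∈ A, f z = ∑ z ∈ Y, f z + ∑ z ∈ Bad, f z := fun f =>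
    (sum_sdiff hBA).symm
  rw [hAY] at hs
  have hn1 : ∑ z ∈ Y, max (net2 G r M A H k z) 0 = ∑ z ∈ Y, net2 G r M A H k z := by
    refine sum_congr rfl fun z hz => max_eq_left ?_
    rw [hYdef, mem_sdiff, hBad, mem_filter, not_and, not_lt] at hz
    exact hz.2 hz.1
  have hn2 : ∑ z ∈ Bad, max (net2 G r M A H k z) 0 = 0 := by
    refine sum_eq_zero fun z hz => max_eq_right ?_
    exact (mem_filter.1 hz).2.le
  rw [hsplit (fun z => (k z : ℤ)), hsplit (fun z => max (net2 G r M A H k z) 0), hn1, hn2]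
  have h5 : (A.card : ℤ) - Y.card = Bad.card := by linarith
  rw [h5] at hs
  linarith

end Test

end Pool.Agent.Lib.MP_f04ccf_co
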