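import Pool.Agent.Lib.MP_f04ccf_co.S2Test

/-!
MP_f04ccf_co: the crown decomposition of a finite graph (from Hall) and Mantel's theorem for
vertex sets of independence number two.
-/

set_option autoImplicit false

namespace Pool.Agent.Lib.MP_f04ccf_co

open Finset

attribute [local instance] Classical.propDecidable

section Crown

variable {V : Type*}

/-- Hall's theorem on a finite set -/
lemma hall_on (A : Finset V) (f : V → Finset V) (h : ∀ W ⊆ A, W.card ≤ (W.biUnion f).card) :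
    ∃ g : V → V, (∀ z ∈ A, g z ∈ f z) ∧ Set.InjOn g A := by
  have h1 : ∀ s : Finset {z // z ∈ A}, s.card ≤ (s.biUnion (fun z => f z.1)).card := by
    intro s
    have h2 := h (s.map (Function.Embedding.subtype _)) (by
      intro z hz
      obtain ⟨z', _, rfl⟩ := mem_map.1 hz
      exact z'.2)
    rw [card_map] at h2
    refine h2.trans (card_le_card ?_)
    intro x hx
    obtain ⟨z, hz, hxz⟩ := mem_biUnion.1 hx
    obtain ⟨z', hz', rfl⟩ := mem_map.1 hz
    exact mem_biUnion.2 ⟨z', hz', hxz⟩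
  obtain ⟨g, hg, hgf⟩ := (all_card_le_biUnion_card_iff_exists_injective _).1 h1
  refine ⟨fun z => if hz : z ∈ A then g ⟨z, hz⟩ else z, ?_, ?_⟩
  · intro z hz
    simp only [hz, dif_pos]
    exact hgf ⟨z, hz⟩
  · intro z hz z' hz' heq
    have hz1 : z ∈ A := hz
    have hz1' : z' ∈ A := hz'
    simp only [hz1, hz1', dif_pos] at heq
    exact congrArg Subtype.val (hg heq)

/-- neighbours in `D` of a set -/
noncomputable def nbD (H : SimpleGraph V) (D S : Finset V) : Finset V :=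
  D.filter (fun y => ∃ s ∈ S, H.Adj s y)

/-- **Crown decomposition**: `V0` is independent and has no neighbour outside `V1`, `V1` is matched
into `V0`, and `X` has a permutation along the edges. -/
theorem crown (H : SimpleGraph V) (D : Finset V) :
    ∃ V0 V1 X : Finset V, V0 ⊆ D ∧ V1 ⊆ D ∧ X ⊆ D ∧ Disjoint V0 V1 ∧ Disjoint V0 X ∧
      Disjoint V1 X ∧ V0 ∪ V1 ∪ X = D ∧ (∀ x ∈ V0, ∀ y ∈ V0, ¬ H.Adj x y) ∧
      (∀ x ∈ V0, ∀ y ∈ X, ¬ H.Adj x y) ∧
      (∃ μ : V → V, (∀ z ∈ V1, μ z ∈ V0 ∧ H.Adj z (μ z)) ∧ Set.InjOn μ V1) ∧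
      (∃ σ : V → V, (∀ z ∈ X, σ z ∈ X ∧ H.Adj z (σ z)) ∧ Set.InjOn σ X) := by
  set F : Finset (Finset V) :=
    D.powerset.filter (fun S => ∀ x ∈ S, ∀ y ∈ S, ¬ H.Adj x y) with hF
  have hFne : F.Nonempty := ⟨∅, by rw [hF, mem_filter]; simp⟩
  obtain ⟨S, hS, hmax⟩ := exists_max_image F
    (fun S => (S.card : ℤ) - (nbD H D S).card) hFne
  have hmemF : ∀ S', S' ∈ F ↔ S' ⊆ D ∧ ∀ x ∈ S', ∀ y ∈ S', ¬ H.Adj x y := by
    intro S'
    rw [hF, mem_filter, mem_powerset]
  obtain ⟨hSD, hSi⟩ := (hmemF S).1 hS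
  set V1 := nbD H D S with hV1
  have hV1D : V1 ⊆ D := filter_subset _ _
  have hmemV1 : ∀ y, y ∈ V1 ↔ y ∈ D ∧ ∃ s ∈ S, H.Adj s y := by
    intro y
    rw [hV1, nbD, mem_filter]
  set X := D \ (S ∪ V1) with hX
  have hmemX : ∀ y, y ∈ X ↔ y ∈ D ∧ y ∉ S ∧ y ∉ V1 := by
    intro y
    rw [hX, mem_sdiff, mem_union, not_or]
  have hSV1 : Disjoint S V1 := by
    rw [disjoint_left]
    intro y hy hy1
    obtain ⟨_, s, hs, hsy⟩ := (hmemV1 y).1 hy1
    exact hSi s hs y hy hsy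
  refine ⟨S, V1, X, hSD, hV1D, sdiff_subset, hSV1, ?_, ?_, ?_, hSi, ?_, ?_, ?_⟩
  · rw [disjoint_left]
    intro y hy hyX
    exact ((hmemX y).1 hyX).2.1 hy
  · rw [disjoint_left]
    intro y hy hyX
    exact ((hmemX y).1 hyX).2.2 hy
  · exact union_sdiff_of_subset (union_subset hSD hV1D)
  · intro x hx y hy hxy
    have := (hmemX y).1 hy
    exact this.2.2 ((hmemV1 y).2 ⟨this.1, x, hx, hxy⟩)
  · -- matching of `V1` into `S`
    obtain ⟨μ, hμ, hinj⟩ := hall_on V1 (fun z => S.filter (fun s => H.Adj z s)) (by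
      intro W hW
      by_contra hlt
      rw [not_le] at hlt
      set P := W.biUnion (fun z => S.filter (fun s => H.Adj z s)) with hP
      have hPS : P ⊆ S := by
        intro x hx
        obtain ⟨z, _, hxz⟩ := mem_biUnion.1 hx
        exact (mem_filter.1 hxz).1
      have h1 : S \ P ∈ F := (hmemF _).2 ⟨sdiff_subset.trans hSD, fun x hx y hy =>
        hSi x (sdiff_subset hx) y (sdiff_subset hy)⟩
      have h2 : nbD H D (S \ P) ⊆ V1 \ W := by
        intro y hy
        obtain ⟨hyD, s, hs, hsy⟩ := mem_filter.1 hy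
        rw [mem_sdiff] at hs ⊢
        refine ⟨(hmemV1 y).2 ⟨hyD, s, hs.1, hsy⟩, fun hyW => hs.2 ?_⟩
        exact mem_biUnion.2 ⟨y, hyW, mem_filter.2 ⟨hs.1, hsy.symm⟩⟩
      have h3 := hmax _ h1
      have h4 := card_le_card h2
      have h5 := card_sdiff_add_card_eq_card hPS
      have h6 := card_sdiff_add_card_eq_card hW
      omega)
    exact ⟨μ, fun z hz => ⟨(mem_filter.1 (hμ z hz)).1, (mem_filter.1 (hμ z hz)).2⟩, hinj⟩
  · obtain ⟨σ, hσ, hinj⟩ := hall_on X (fun z => X.filter (fun s => H.Adj z s)) (by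
      intro W hW
      by_contra hlt
      rw [not_le] at hlt
      set U := W.biUnion (fun z => X.filter (fun s => H.Adj z s)) with hU
      have hUX : U ⊆ X := by
        intro x hx
        obtain ⟨z, _, hxz⟩ := mem_biUnion.1 hx
        exact (mem_filter.1 hxz).1
      have hmemU : ∀ y, y ∈ U ↔ y ∈ X ∧ ∃ z ∈ W, H.Adj z y := by
        intro y
        rw [hU, mem_biUnion]
        constructor
        · rintro ⟨z, hz, hy⟩
          exact ⟨(mem_filter.1 hy).1, z, hz, (mem_filter.1 hy).2⟩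
        · rintro ⟨h1, z, hz, h2⟩
          exact ⟨z, hz, mem_filter.2 ⟨h1, h2⟩⟩
      have hXD : X ⊆ D := sdiff_subset
      have h1 : S ∪ (W \ U) ∈ F := by
        refine (hmemF _).2 ⟨union_subset hSD (sdiff_subset.trans (hW.trans hXD)), ?_⟩
        intro x hx y hy hxy
        rw [mem_union, mem_sdiff] at hx hy
        rcases hx with hx | ⟨hx, hxU⟩ <;> rcases hy with hy | ⟨hy, hyU⟩
        · exact hSi x hx y hy hxy
        · exact ((hmemX y).1 (hW hy)).2.2 ((hmemV1 y).2 ⟨hXD (hW hy), x, hx, hxy⟩)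
        · exact ((hmemX x).1 (hW hx)).2.2 ((hmemV1 x).2 ⟨hXD (hW hx), y, hy, hxy.symm⟩)
        · exact hyU ((hmemU y).2 ⟨hW hy, x, hx, hxy⟩)
      have h2 : nbD H D (S ∪ (W \ U)) ⊆ V1 ∪ (U \ W) := by
        intro y hy
        obtain ⟨hyD, s, hs, hsy⟩ := mem_filter.1 hy
        rw [mem_union, mem_sdiff] at hs
        rw [mem_union, mem_sdiff]
        rcases hs with hs | ⟨hs, hsU⟩
        · exact Or.inl ((hmemV1 y).2 ⟨hyD, s, hs, hsy⟩)
        · by_cases hyV : y ∈ V1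
          · exact Or.inl hyV
          · have hyS : y ∉ S := fun hyS =>
              ((hmemX s).1 (hW hs)).2.2 ((hmemV1 s).2 ⟨hXD (hW hs), y, hyS, hsy.symm⟩)
            have hyX : y ∈ X := (hmemX y).2 ⟨hyD, hyS, hyV⟩
            refine Or.inr ⟨(hmemU y).2 ⟨hyX, s, hs, hsy⟩, fun hyW => hsU ?_⟩
            exact (hmemU s).2 ⟨hW hs, y, hyW, hsy.symm⟩
      have h3 := hmax _ h1
      have h4 := card_le_card h2
      have h5 : (V1 ∪ (U \ W)).card ≤ V1.card + (U \ W).card := card_union_le _ _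
      have h6 : (S ∪ (W \ U)).card = S.card + (W \ U).card := by
        apply card_union_of_disjoint
        rw [disjoint_left]
        intro y hy hy'
        exact ((hmemX y).1 (hW (mem_sdiff.1 hy').1)).2.1 hy
      have h7 : (W \ U).card + U.card = (U \ W).card + W.card := by
        rw [card_sdiff_add_card, card_sdiff_add_card, union_comm]
      omega)
    exact ⟨σ, fun z hz => ⟨(mem_filter.1 (hσ z hz)).1, (mem_filter.1 (hσ z hz)).2⟩, hinj⟩

/-- summation along a permutation -/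
lemma sum_perm {X : Finset V} {σ : V → V} (hσ : ∀ z ∈ X, σ z ∈ X) (hinj : Set.InjOn σ X)
    (φ : V → ℤ) : ∑ z ∈ X, φ (σ z) = ∑ z ∈ X, φ z := by
  have h1 : X.image σ = X := by
    apply eq_of_subset_of_card_le
    · intro y hy
      obtain ⟨z, hz, rfl⟩ := mem_image.1 hy
      exact hσ z hz
    · rw [card_image_of_injOn hinj]
  conv_rhs => rw [← h1]
  rw [sum_image hinj]

/-- summation along a matching -/
lemma sum_match {V0 V1 : Finset V} {μ : V → V} (hμ : ∀ z ∈ V1, μ z ∈ V0)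
    (hinj : Set.InjOn μ V1) (φ : V → ℤ) (hφ : ∀ z ∈ V0, 0 ≤ φ z) :
    ∑ z ∈ V1, φ (μ z) ≤ ∑ z ∈ V0, φ z := by
  rw [← sum_image (f := φ) hinj]
  exact sum_le_sum_of_subset_of_nonneg (fun y hy => by
    obtain ⟨z, hz, rfl⟩ := mem_image.1 hy
    exact hμ z hz) (fun z hz _ => hφ z hz)

variable {G : SimpleGraph V}

/-- Mantel's theorem for the complement of `G` -/
lemma mantel {Y : Finset V} (h : AlphaLe G Y 2) : 2 * (E (co G) Y : ℤ) ≤ (Y.card : ℤ) ^ 2 := by
  have h1 := E_compl G Y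
  rcases Nat.even_or_odd' Y.card with ⟨k, hk | hk⟩
  · have h2 := E_lower_q G ((k : ℤ) - 1) 2 Y h
    have hk' : (Y.card : ℤ) = 2 * k := by exact_mod_cast hk
    rw [hk'] at h1 h2 ⊢
    push_cast at h2
    nlinarith
  · have h2 := E_lower_q G (k : ℤ) 2 Y h
    have hk' : (Y.card : ℤ) = 2 * k + 1 := by exact_mod_cast hk
    rw [hk'] at h1 h2 ⊢
    push_cast at h2
    nlinarith

end Crown

end Pool.Agent.Lib.MP_f04ccf_co
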