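import Pool.Agent.Lib.MP_f04ccf_co.S2Crit

/-!
MP_f04ccf_co: consequences of the minimality of the level (`S2C.low`): local expansion (EXP) and
avoidance (AV).
-/

set_option autoImplicit false

namespace Pool.Agent.Lib.MP_f04ccf_co

open Finset

attribute [local instance] Classical.propDecidable

section Gen

variable {V : Type*} (G : SimpleGraph V)

/-- the closed neighbourhood in `S` of the set `J` -/
noncomputable def nbS (S J : Finset V) : Finset V := S.filter (fun z => z ∈ J ∨ dg G J z ≠ 0)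

variable {G}

lemma mem_nbS {S J : Finset V} {z : V} : z ∈ nbS G S J ↔ z ∈ S ∧ (z ∈ J ∨ dg G J z ≠ 0) :=
  mem_filter

lemma dg_ne_zero {J : Finset V} {z : V} : dg G J z ≠ 0 ↔ ∃ y ∈ J, G.Adj z y := by
  unfold dg
  rw [Ne, card_eq_zero, ← Ne, ← nonempty_iff_ne_empty, filter_nonempty_iff]

lemma nbS_sub (S J : Finset V) : nbS G S J ⊆ S := filter_subset _ _

/-- `J` and an independent set outside its closed neighbourhood -/
lemma Ind.union_nbS {S J I : Finset V} (hJ : Ind G J) (hI : Ind G I) (hIS : I ⊆ S \ nbS G S J) :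
    Ind G (J ∪ I) := by
  have key : ∀ x ∈ J, ∀ y ∈ I, ¬ G.Adj y x := by
    intro x hx y hy hyx
    obtain ⟨h1, h2⟩ := mem_sdiff.1 (hIS hy)
    exact h2 (mem_nbS.2 ⟨h1, Or.inr (dg_ne_zero.2 ⟨x, hx, hyx⟩)⟩)
  intro x hx y hy hxy
  rcases mem_union.1 hx with hx | hx <;> rcases mem_union.1 hy with hy | hy
  · exact hJ x hx y hy hxy
  · exact key x hx y hy hxy.symm
  · exact key y hy x hx hxy
  · exact hI x hx y hy hxy

lemma disjoint_of_sdiff_nbS {S J I : Finset V} (hIS : I ⊆ S \ nbS G S J) : Disjoint J I := by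
  rw [disjoint_left]
  intro x hxJ hxI
  obtain ⟨h1, h2⟩ := mem_sdiff.1 (hIS hxI)
  exact h2 (mem_nbS.2 ⟨h1, Or.inl hxJ⟩)

end Gen

namespace S2C

variable {V : Type*} {G : SimpleGraph V} {r m t : ℕ} {Z T : Finset V}

/-- no part of `Z` above a proper part of `T` is a frame of a lower level -/
lemma sub_frame (h : S2C G r m t Z T) (hP : PG G r) {Z' T' : Finset V} (hTT : T' ⊆ T)
    (hZZ : Z' ⊆ Z) (hTZ : T' ⊆ Z') (hZT : ∀ z ∈ Z', z ∈ T → z ∈ T') (hlt : T'.card < t)
    (hc : T'.card * r + 1 ≤ Z'.card) : ¬ AlphaLe G Z' T'.card := by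
  intro ha
  have hle : T'.card ≤ T'.card * r + 1 := by
    have h1 := h.lt
    have := Nat.le_mul_of_pos_right T'.card (show 0 < r by omega)
    omega
  obtain ⟨Z'', hZ1, hZ2, hZc⟩ := exists_subsuperset_card_eq hTZ hle hc
  refine h.low G T'.card Z'' T' hP hlt ⟨hZ1, h.ind.mono hTT, rfl, ha.mono G hZ2, hZc, ?_, ?_⟩
  · intro z hz
    obtain ⟨h1, h2⟩ := mem_sdiff.1 hz
    exact (dg_mono G hTT z).trans
      (h.k2 z (mem_sdiff.2 ⟨hZZ (hZ2 h1), fun h' => h2 (hZT z (hZ2 h1) h')⟩))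
  · refine (card_le_card ?_).trans h.b
    intro z hz
    obtain ⟨⟨h1, h2⟩, h3⟩ := mem_BB.1 hz
    have h6 : z ∉ T := fun h' => h2 (hZT z (hZ2 h1) h')
    have h7 := h.k2 z (mem_sdiff.2 ⟨hZZ (hZ2 h1), h6⟩)
    have h8 := dg_mono G hTT z
    exact mem_BB.2 ⟨⟨hZZ (hZ2 h1), h6⟩, by omega⟩

/-- EXP: a tight independent set `J` (`|J|` = number of the points of `T` in `N[J]`) with `|J| < t`
has `|N[J]| ≥ |J| r + 1` -/
theorem exp (h : S2C G r m t Z T) (hP : PG G r) {J : Finset V} (hJZ : J ⊆ Z) (hJ : Ind G J)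
    (hne : J.Nonempty) (hlt : J.card < t)
    (htight : (nbS G T J).card = J.card) : J.card * r + 1 ≤ (nbS G Z J).card := by
  by_contra hcon
  have hTN : nbS G T J ⊆ nbS G Z J := by
    intro z hz
    obtain ⟨h1, h2⟩ := mem_nbS.1 hz
    exact mem_nbS.2 ⟨h.sub h1, h2⟩
  have hcT : (T \ nbS G T J).card = t - J.card := by
    rw [card_sdiff_of_subset (nbS_sub _ _), h.cardT, htight]
  have hpos : 0 < J.card := card_pos.2 hne
  have hcZ : (Z \ nbS G Z J).card = t * r + 1 - (nbS G Z J).card := by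
    rw [card_sdiff_of_subset (nbS_sub _ _), h.cardZ]
  have hmul : (t - J.card) * r = t * r - J.card * r := Nat.sub_mul _ _ _
  have hmul' : J.card * r ≤ t * r := Nat.mul_le_mul_right r hlt.le
  refine h.sub_frame hP (Z' := Z \ nbS G Z J) (T' := T \ nbS G T J) sdiff_subset sdiff_subset ?_ ?_
    (by rw [hcT]; omega) (by rw [hcT, hcZ, hmul]; omega) ?_
  · intro z hz
    obtain ⟨h1, h2⟩ := mem_sdiff.1 hz
    exact mem_sdiff.2 ⟨h.sub h1, fun h3 => h2 (mem_nbS.2 ⟨h1, (mem_nbS.1 h3).2⟩)⟩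
  · intro z hz hzT
    obtain ⟨h1, h2⟩ := mem_sdiff.1 hz
    exact mem_sdiff.2 ⟨hzT, fun h3 => h2 (mem_nbS.2 ⟨h1, (mem_nbS.1 h3).2⟩)⟩
  · intro I hI hi
    have h1 := h.alpha (J ∪ I) (union_subset hJZ (hI.trans sdiff_subset)) (hJ.union_nbS hi hI)
    rw [card_union_of_disjoint (disjoint_of_sdiff_nbS hI)] at h1
    rw [hcT]
    omega

/-- AV: if `K` contains `s ≥ 1` points of `T` and `|K| ≤ s r`, then `Z - K` contains an independent
set of size `t - s + 1` -/
theorem avoid (h : S2C G r m t Z T) (hP : PG G r) {K : Finset V} {s : ℕ} (hKZ : K ⊆ Z)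
    (hs : (T ∩ K).card = s) (hs1 : 1 ≤ s) (hK : K.card ≤ s * r) :
    ∃ J : Finset V, J ⊆ Z \ K ∧ Ind G J ∧ J.card = t - s + 1 := by
  have hst : s ≤ t := by
    rw [← hs, ← h.cardT]
    exact card_le_card inter_subset_left
  have hcT : (T \ K).card = t - s := by
    rw [← h.cardT, ← hs, ← card_sdiff_add_card_inter T K]
    omega
  have hcZ : (Z \ K).card = t * r + 1 - K.card := by
    rw [card_sdiff_of_subset hKZ, h.cardZ]
  have hmul : (t - s) * r = t * r - s * r := Nat.sub_mul _ _ _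
  have hmul' : s * r ≤ t * r := Nat.mul_le_mul_right r hst
  have h1 := h.sub_frame hP (Z' := Z \ K) (T' := T \ K) sdiff_subset sdiff_subset
    (sdiff_subset_sdiff h.sub le_rfl)
    (fun z hz hzT => mem_sdiff.2 ⟨hzT, (mem_sdiff.1 hz).2⟩)
    (by rw [hcT]; omega) (by rw [hcT, hcZ, hmul]; omega)
  unfold AlphaLe at h1
  push Not at h1
  obtain ⟨I, hI, hi, hIc⟩ := h1
  rw [hcT] at hIc
  obtain ⟨J, hJ, hJc⟩ := exists_subset_card_eq (show t - s + 1 ≤ I.card by omega)
  exact ⟨J, hJ.trans hI, hi.mono hJ, hJc⟩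

/-- a vertex outside `B` has degree at least `r` in `Z` -/
theorem deg_ge (h : S2C G r m t Z T) (hP : PG G r) (ht : 2 ≤ t) {z : V} (hz : z ∈ Z)
    (hzB : z ∉ BB G Z T) : r ≤ dg G Z z := by
  have hk : (nbS G T {z}).card = 1 := by
    have h0 : nbS G T {z} = T.filter (fun w => w = z ∨ G.Adj z w) := by
      ext w
      rw [mem_nbS, dg_ne_zero, mem_filter]
      simp only [mem_singleton, exists_eq_left]
      rw [G.adj_comm]
    rw [h0]
    by_cases hzT : z ∈ T
    · have h1 : T.filter (fun w => w = z ∨ G.Adj z w) = {z} := by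
        ext w
        rw [mem_filter, mem_singleton]
        constructor
        · rintro ⟨h1, h2 | h2⟩
          · exact h2
          · exact absurd h2 (h.ind z hzT w h1)
        · rintro rfl
          exact ⟨hzT, Or.inl rfl⟩
      rw [h1, card_singleton]
    · have h1 := h.k1 hz hzT
      have h2 := h.k2 z (mem_sdiff.2 ⟨hz, hzT⟩)
      have h3 : dg G T z ≠ 2 := fun h3 => hzB (mem_BB.2 ⟨⟨hz, hzT⟩, h3⟩)
      have h4 : T.filter (fun w => w = z ∨ G.Adj z w) = T.filter (fun w => G.Adj z w) := by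
        apply filter_congr
        intro w hw
        constructor
        · rintro (rfl | h5)
          · exact absurd hw hzT
          · exact h5
        · exact Or.inr
      rw [h4]
      unfold dg at h1 h2 h3
      omega
  have h1 := h.exp hP (J := {z}) (singleton_subset_iff.2 hz) (by
    intro a ha b hb hab
    rw [mem_singleton] at ha hb
    subst ha; subst hb
    exact G.loopless.irrefl _ hab) ⟨z, mem_singleton_self z⟩ (by rw [card_singleton]; omega)
    (by rw [hk, card_singleton])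
  rw [card_singleton, one_mul] at h1
  have h2 : nbS G Z {z} = nb G Z z := by
    ext w
    rw [mem_nbS, dg_ne_zero, nb, mem_filter]
    simp only [mem_singleton, exists_eq_left]
    rw [G.adj_comm]
  rw [h2, nb_card G hz] at h1
  omega

end S2C

end Pool.Agent.Lib.MP_f04ccf_co
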