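import Pool.Agent.Lib.MP_f04ccf_co.Levels

/-!
MP_f04ccf_co: the line frame `S2`.  `G` is the graph of one colour, `r` the number of colours,
`T` a maximum independent set of `G[Z]` (a part of a monochromatic `K_r` of another colour), every
vertex of `Z \ T` has one or two neighbours in `T`.
-/

set_option autoImplicit false

namespace Pool.Agent.Lib.MP_f04ccf_co

open Finset

attribute [local instance] Classical.propDecidable

section Gen

variable {V : Type*} (G : SimpleGraph V)

lemma E_le (A : Finset V) : (E G A : ℤ) ≤ (A.card : ℤ) * (A.card - 1) := by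
  have h : ∀ v ∈ A, ((dg G A v : ℕ) : ℤ) ≤ A.card - 1 := by
    intro v hv
    have h1 := nb_card G hv
    have h2 := card_le_card (nb_sub G A v)
    omega
  have h2 := sum_le_sum h
  rw [sum_const, nsmul_eq_mul] at h2
  unfold E
  push_cast
  exact h2

/-- Turan's lower bound in tangent form -/
lemma E_lower_q (q : ℤ) : ∀ s : ℕ, ∀ A : Finset V, AlphaLe G A s →
    2 * q * A.card - s * q * (q + 1) ≤ (E G A : ℤ) := by
  intro s
  induction s with
  | zero =>
    intro A h
    rw [h.zero]; simp [E]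
  | succ s ih =>
    intro A h
    have hq : 0 ≤ q * (q + 1) := by
      rcases le_or_gt 0 q with h0 | h0
      · positivity
      · nlinarith
    by_cases hA : A = ∅
    · subst hA
      have h1 := ih ∅ (by intro I hI _; rw [subset_empty.1 hI]; simp)
      simp [E] at h1 ⊢
      nlinarith
    · obtain ⟨v, hv, hmin⟩ := exists_min_image A (fun w => dg G A w) (nonempty_iff_ne_empty.2 hA)
      have h1 := ih (A \ nb G A v) (h.sdiff_nb G hv)
      have h2 := E_sdiff G (nb_sub G A v)
      have h3 := nb_card G hv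
      have h4 : (nb G A v).card * dg G A v ≤ ∑ z ∈ nb G A v, dg G A z := by
        have := card_nsmul_le_sum (nb G A v) (fun z => dg G A z) (dg G A v)
          (fun z hz => hmin z (nb_sub G A v hz))
        simpa using this
      have h5 := E_le G (nb G A v)
      have h6 := card_sdiff_add_card_eq_card (nb_sub G A v)
      set d : ℤ := (dg G A v : ℤ) with hd
      have h3' : ((nb G A v).card : ℤ) = d + 1 := by rw [h3]; push_cast; rfl
      have h2' : (E G A : ℤ) + E G (nb G A v) = E G (A \ nb G A v)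
          + 2 * ((∑ z ∈ nb G A v, dg G A z : ℕ) : ℤ) := by exact_mod_cast h2
      have h4' : ((nb G A v).card : ℤ) * d ≤ ((∑ z ∈ nb G A v, dg G A z : ℕ) : ℤ) := by
        rw [hd]; exact_mod_cast h4
      have h6' : ((A \ nb G A v).card : ℤ) = A.card - (d + 1) := by
        have : ((A \ nb G A v).card : ℤ) + (nb G A v).card = A.card := by exact_mod_cast h6
        rw [h3'] at this; linarith
      rw [h3'] at h4' h5
      rw [h6'] at h1
      push_cast
      have h7 : 0 ≤ (d - q) * (d - q + 1) := by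
        rcases le_or_gt 0 (d - q) with h0 | h0
        · positivity
        · nlinarith
      nlinarith

/-- property (P) with all slopes: everything that is used about the complement of `G` -/
def PG (r : ℕ) : Prop := ∀ (A : Finset V) (q : ℤ),
  (E G A : ℤ) ≤ (A.card : ℤ) * (A.card - 1) - ((r : ℤ) - 1) * (2 * q * A.card - r * q * (q + 1))

variable {G}

lemma PG.one {r : ℕ} (h : PG G r) (A : Finset V) :
    (E G A : ℤ) ≤ (A.card : ℤ) * (A.card - 1) - ((r : ℤ) - 1) * (2 * A.card - 2 * r) := by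
  have := h A 1
  linarith

lemma PG.clq_le {r : ℕ} (hr : 2 ≤ r) (h : PG G r) {K : Finset V} (hK : Clq G K) : K.card ≤ r := by
  have h1 := h.one K
  rw [E_clq G hK] at h1
  by_contra hlt
  have h2 : (r : ℤ) + 1 ≤ K.card := by exact_mod_cast not_le.1 hlt
  have h3 : 1 ≤ K.card := by omega
  have h4 : (2 : ℤ) ≤ r := by exact_mod_cast hr
  push_cast [h3] at h1
  nlinarith

lemma Clq.mono {K K' : Finset V} (h : Clq G K) (hs : K' ⊆ K) : Clq G K' :=
  fun x hx y hy => h x (hs hx) y (hs hy)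

lemma Ind.mono {K K' : Finset V} (h : Ind G K) (hs : K' ⊆ K) : Ind G K' :=
  fun x hx y hy => h x (hs hx) y (hs hy)

/-- a vertex outside a clique of size `r` has at most one neighbour in it -/
lemma PG.line_nbr {r : ℕ} (hr : 2 ≤ r) (h : PG G r) {K : Finset V} (hK : Clq G K)
    (hKc : K.card = r) {z : V} (hz : z ∉ K) : dg G K z ≤ 1 := by
  have h1 := h.one (insert z K)
  have h2 := E_erase G (mem_insert_self z K)
  rw [erase_insert hz, E_clq _ hK, hKc] at h2
  have h3 : dg G (insert z K) z = dg G K z := by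
    unfold dg
    rw [filter_insert, if_neg]
    exact G.loopless.irrefl z
  rw [h3] at h2
  rw [card_insert_of_notMem hz, hKc, h2] at h1
  obtain ⟨m, rfl⟩ : ∃ m, r = m + 1 := ⟨r - 1, by omega⟩
  push_cast at h1
  have : (2 : ℤ) * dg G K z ≤ 2 := by nlinarith
  omega

/-- removing a clique of size `r` lowers the level (below the top level) -/
lemma PG.peel {r : ℕ} (hr : 2 ≤ r) (h : PG G r) {K S : Finset V} {t : ℕ}
    (hK : Clq G K) (hKc : K.card = r) (hKS : K ⊆ S) (ht : t + 1 < r)
    (hα : AlphaLe G S (t + 1)) : AlphaLe G (S \ K) t := by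
  intro I hI hi
  by_contra hlt
  obtain ⟨J, hJ, hJc⟩ := exists_subset_card_eq (show t + 1 ≤ I.card by omega)
  have hJi : Ind G J := fun x hx y hy => hi x (hJ hx) y (hJ hy)
  have h1 : ∑ v ∈ K, dg G J v ≤ t + 1 := by
    rw [dg_comm, ← hJc, card_eq_sum_ones]
    refine sum_le_sum fun x hx => h.line_nbr hr hK hKc ?_
    exact (mem_sdiff.1 (hI (hJ hx))).2
  have h2 : ∃ v ∈ K, dg G J v = 0 := by
    by_contra hcon
    push Not at hcon
    have : ∑ v ∈ K, 1 ≤ ∑ v ∈ K, dg G J v :=
      sum_le_sum fun v hv => Nat.one_le_iff_ne_zero.2 (hcon v hv)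
    rw [← card_eq_sum_ones, hKc] at this
    omega
  obtain ⟨v, hv, hv0⟩ := h2
  have hvJ : ∀ x ∈ J, ¬ G.Adj v x := by
    intro x hx hvx
    unfold dg at hv0
    rw [card_eq_zero, filter_eq_empty_iff] at hv0
    exact hv0 hx hvx
  have hvn : v ∉ J := fun h => (mem_sdiff.1 (hI (hJ h))).2 hv
  have h3 := hα (insert v J) (by
    intro x hx
    rw [mem_insert] at hx
    rcases hx with rfl | hx
    · exact hKS hv
    · exact (mem_sdiff.1 (hI (hJ hx))).1) (Ind.insert_of _ hJi hvJ)
  rw [card_insert_of_notMem hvn, hJc] at h3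
  omega

end Gen

section Frame

variable {V : Type*} (G : SimpleGraph V)

/-- the ends of `z`: its neighbours in `T` -/
noncomputable def ends (T : Finset V) (z : V) : Finset V := T.filter (fun v => G.Adj z v)

/-- the vertices of `Z \ T` with two ends -/
noncomputable def BB (Z T : Finset V) : Finset V := (Z \ T).filter (fun z => dg G T z = 2)

/-- the class of `v ∈ T`: `v` and its private neighbours -/
noncomputable def Cl (Z T : Finset V) (v : V) : Finset V :=
  Z.filter (fun z => z = v ∨ (z ∉ T ∧ ends G T z = {v}))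

/-- the vertices all of whose ends lie in `I` -/
noncomputable def ZI (Z T I : Finset V) : Finset V :=
  Z.filter (fun z => (z ∈ T → z ∈ I) ∧ ends G T z ⊆ I)

/-- level `t` frame: `b = |BB| ≤ m` -/
structure PFrame (r m t : ℕ) (Z T : Finset V) : Prop where
  sub : T ⊆ Z
  ind : Ind G T
  cardT : T.card = t
  alpha : AlphaLe G Z t
  cardZ : Z.card = t * r + 1
  k2 : ∀ z ∈ Z \ T, dg G T z ≤ 2
  b : (BB G Z T).card ≤ m

/-- the critical line frame below the top level -/
structure S2 (r m t : ℕ) (Z T : Finset V) : Prop extends PFrame G r m t Z T where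
  lt : t < r
  omega : ∀ K : Finset V, K ⊆ Z → Clq G K → K.card ≤ r - 1
  hall : ∀ I : Finset V, I ⊂ T → (ZI G Z T I).card ≤ I.card * r

variable {G}

lemma card_ends (T : Finset V) (z : V) : (ends G T z).card = dg G T z := rfl

lemma mem_ends {T : Finset V} {z v : V} : v ∈ ends G T z ↔ v ∈ T ∧ G.Adj z v := mem_filter

lemma mem_BB {Z T : Finset V} {z : V} : z ∈ BB G Z T ↔ (z ∈ Z ∧ z ∉ T) ∧ dg G T z = 2 := by
  rw [BB, mem_filter, mem_sdiff]

lemma mem_Cl {Z T : Finset V} {v z : V} :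
    z ∈ Cl G Z T v ↔ z ∈ Z ∧ (z = v ∨ (z ∉ T ∧ ends G T z = {v})) := mem_filter

lemma mem_ZI {Z T I : Finset V} {z : V} :
    z ∈ ZI G Z T I ↔ z ∈ Z ∧ ((z ∈ T → z ∈ I) ∧ ends G T z ⊆ I) := mem_filter

/-- an independent set of full size dominates -/
lemma dom_of_alpha {Z T : Finset V} {t : ℕ} (hT : T ⊆ Z) (hi : Ind G T) (hc : T.card = t)
    (ha : AlphaLe G Z t) {z : V} (hz : z ∈ Z) (hzT : z ∉ T) : 1 ≤ dg G T z := by
  by_contra h0
  have h1 : ∀ x ∈ T, ¬ G.Adj z x := by
    intro x hx hzx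
    apply h0
    exact card_pos.2 ⟨x, mem_filter.2 ⟨hx, hzx⟩⟩
  have h2 := ha (insert z T) (insert_subset hz hT) (Ind.insert_of G hi h1)
  rw [card_insert_of_notMem hzT, hc] at h2
  omega

namespace PFrame

variable {r m t : ℕ} {Z T : Finset V}

lemma k1 (h : PFrame G r m t Z T) {z : V} (hz : z ∈ Z) (hzT : z ∉ T) : 1 ≤ dg G T z :=
  dom_of_alpha h.sub h.ind h.cardT h.alpha hz hzT

lemma ends_T (h : PFrame G r m t Z T) {z : V} (hz : z ∈ T) : ends G T z = ∅ := by
  rw [ends, filter_eq_empty_iff]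
  exact fun x hx => h.ind z hz x hx

lemma self_mem_Cl (h : PFrame G r m t Z T) {v : V} (hv : v ∈ T) : v ∈ Cl G Z T v :=
  mem_Cl.2 ⟨h.sub hv, Or.inl rfl⟩

/-- exchange: the vertices with all ends in `I` have independence number at most `|I|` -/
lemma alpha_ZI (h : PFrame G r m t Z T) {I : Finset V} (hI : I ⊆ T) :
    AlphaLe G (ZI G Z T I) I.card := by
  intro J hJ hi
  have hdis : Disjoint (T \ I) J := by
    rw [disjoint_left]
    intro x hx hxJ
    exact (mem_sdiff.1 hx).2 ((mem_ZI.1 (hJ hxJ)).2.1 (mem_sdiff.1 hx).1)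
  have h1 := h.alpha ((T \ I) ∪ J) (by
    apply union_subset (sdiff_subset.trans h.sub)
    exact fun x hx => (mem_ZI.1 (hJ hx)).1) (by
    have key : ∀ x ∈ T \ I, ∀ y ∈ J, ¬ G.Adj y x := by
      intro x hx y hy hyx
      have := (mem_ZI.1 (hJ hy)).2.2 (mem_ends.2 ⟨(mem_sdiff.1 hx).1, hyx⟩)
      exact (mem_sdiff.1 hx).2 this
    intro x hx y hy hxy
    rcases mem_union.1 hx with hx | hx <;> rcases mem_union.1 hy with hy | hy
    · exact h.ind x (mem_sdiff.1 hx).1 y (mem_sdiff.1 hy).1 hxy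
    · exact key x hx y hy hxy.symm
    · exact key y hy x hx hxy
    · exact hi x hx y hy hxy)
  rw [card_union_of_disjoint hdis, card_sdiff_of_subset hI, h.cardT] at h1
  have h2 := card_le_card hI
  rw [h.cardT] at h2
  omega

lemma Cl_sub_ZI (h : PFrame G r m t Z T) {v : V} (hv : v ∈ T) :
    Cl G Z T v ⊆ ZI G Z T {v} := by
  intro z hz
  obtain ⟨hzZ, h1 | ⟨h1, h2⟩⟩ := mem_Cl.1 hz
  · subst h1
    exact mem_ZI.2 ⟨hzZ, fun _ => mem_singleton_self _, by rw [h.ends_T hv]; exact empty_subset _⟩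
  · exact mem_ZI.2 ⟨hzZ, fun h' => absurd h' h1, h2.subset⟩

lemma clq_of_alpha_one {S : Finset V} (h : AlphaLe G S 1) : Clq G S := by
  intro x hx y hy hxy
  by_contra hn
  have h1 := h {x, y} (by intro z hz; rcases mem_insert.1 hz with rfl | hz
                          · exact hx
                          · rw [mem_singleton.1 hz]; exact hy) (by
    intro a ha b hb hab
    simp only [mem_insert, mem_singleton] at ha hb
    rcases ha with rfl | rfl <;> rcases hb with rfl | rfl
    · exact G.loopless.irrefl _ hab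
    · exact hn hab
    · exact hn hab.symm
    · exact G.loopless.irrefl _ hab)
  rw [card_pair hxy] at h1
  omega

lemma Cl_clq (h : PFrame G r m t Z T) {v : V} (hv : v ∈ T) : Clq G (Cl G Z T v) := by
  have h1 := h.alpha_ZI (singleton_subset_iff.2 hv)
  rw [card_singleton] at h1
  exact (clq_of_alpha_one h1).mono (h.Cl_sub_ZI hv)

/-- the classes and `B` partition `Z` -/
lemma card_split (h : PFrame G r m t Z T) :
    Z.card = ∑ v ∈ T, (Cl G Z T v).card + (BB G Z T).card := by
  have h1 : (T.biUnion (fun v => Cl G Z T v)) ∪ BB G Z T = Z := by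
    ext z
    simp only [mem_union, mem_biUnion]
    constructor
    · rintro (⟨v, hv, hz⟩ | hz)
      · exact (mem_Cl.1 hz).1
      · exact (mem_BB.1 hz).1.1
    · intro hz
      by_cases hzT : z ∈ T
      · exact Or.inl ⟨z, hzT, h.self_mem_Cl hzT⟩
      · have h1 := h.k1 hz hzT
        have h2 := h.k2 z (mem_sdiff.2 ⟨hz, hzT⟩)
        have h3 : dg G T z = 1 ∨ dg G T z = 2 := by omega
        rcases h3 with h3 | h3
        · left
          rw [← card_ends, card_eq_one] at h3
          obtain ⟨v, hv⟩ := h3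
          have hvT : v ∈ T := (mem_ends.1 (by rw [hv]; exact mem_singleton_self v)).1
          exact ⟨v, hvT, mem_Cl.2 ⟨hz, Or.inr ⟨hzT, hv⟩⟩⟩
        · exact Or.inr (mem_BB.2 ⟨⟨hz, hzT⟩, h3⟩)
  have h2 : Disjoint (T.biUnion (fun v => Cl G Z T v)) (BB G Z T) := by
    rw [disjoint_left]
    intro z hz hzB
    obtain ⟨v, hv, hzv⟩ := mem_biUnion.1 hz
    obtain ⟨⟨_, hzT⟩, h2⟩ := mem_BB.1 hzB
    rcases (mem_Cl.1 hzv).2 with h3 | ⟨_, h3⟩
    · exact hzT (h3 ▸ hv)
    · rw [← card_ends, h3, card_singleton] at h2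
      omega
  have h3 : (T.biUnion (fun v => Cl G Z T v)).card = ∑ v ∈ T, (Cl G Z T v).card := by
    apply card_biUnion
    intro v hv w hw hvw
    change Disjoint (Cl G Z T v) (Cl G Z T w)
    rw [disjoint_left]
    intro z hzv hzw
    rcases (mem_Cl.1 hzv).2 with h3 | ⟨h3, h4⟩ <;> rcases (mem_Cl.1 hzw).2 with h5 | ⟨h5, h6⟩
    · exact hvw (h3.symm.trans h5)
    · exact h5 (h3 ▸ hv)
    · exact h3 (h5 ▸ hw)
    · rw [h4] at h6
      exact hvw (singleton_inj.1 h6)
  rw [← h3, ← card_union_of_disjoint h2, h1]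

lemma Cl_card_le (hr : 2 ≤ r) (hP : PG G r) (h : PFrame G r m t Z T) {v : V} (hv : v ∈ T) :
    (Cl G Z T v).card ≤ r := hP.clq_le hr (h.Cl_clq hv)

lemma pos (h : PFrame G r m t Z T) : 0 < t := by
  rcases Nat.eq_zero_or_pos t with h0 | h0
  · subst h0
    have h1 := h.alpha.zero
    have h2 := h.cardZ
    rw [h1] at h2
    simp at h2
  · exact h0

/-- deleting a clique of size `r` that meets `T` -/
lemma delete (h : PFrame G r m (t + 1) Z T) {K : Finset V} (hKZ : K ⊆ Z)
    (hKc : K.card = r) (hKq : Clq G K) {v : V} (hvT : v ∈ T) (hvK : v ∈ K)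
    (ha : AlphaLe G (Z \ K) t) : PFrame G r m t (Z \ K) (T.erase v) := by
  have hTK : ∀ w ∈ T, w ∈ K → w = v := by
    intro w hw hwK
    by_contra hne
    exact h.ind w hw v hvT (hKq w hwK v hvK hne)
  have hsub : T.erase v ⊆ Z \ K := by
    intro w hw
    rw [mem_erase] at hw
    exact mem_sdiff.2 ⟨h.sub hw.2, fun hwK => hw.1 (hTK w hw.2 hwK)⟩
  have hcT : (T.erase v).card = t := by rw [card_erase_of_mem hvT, h.cardT]; rfl
  refine ⟨hsub, h.ind.mono (erase_subset _ _), hcT, ha, ?_, ?_, ?_⟩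
  · rw [card_sdiff_of_subset hKZ, h.cardZ, hKc, Nat.add_mul]
    omega
  · intro z hz
    obtain ⟨h1, h2⟩ := mem_sdiff.1 hz
    obtain ⟨h3, h4⟩ := mem_sdiff.1 h1
    have h5 : z ∉ T := fun h' => h2 (mem_erase.2 ⟨fun h6 => h4 (h6 ▸ hvK), h'⟩)
    exact (dg_mono G (erase_subset v T) z).trans (h.k2 z (mem_sdiff.2 ⟨h3, h5⟩))
  · refine (card_le_card ?_).trans h.b
    intro z hz
    obtain ⟨⟨h1, h2⟩, h3⟩ := mem_BB.1 hz
    obtain ⟨h4, h5⟩ := mem_sdiff.1 h1
    have h6 : z ∉ T := fun h' => h2 (mem_erase.2 ⟨fun h6 => h5 (h6 ▸ hvK), h'⟩)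
    have h7 := h.k2 z (mem_sdiff.2 ⟨h4, h6⟩)
    have h8 := dg_mono G (erase_subset v T) z
    exact mem_BB.2 ⟨⟨h4, h6⟩, by omega⟩

/-- restricting the frame to an overfull set of ends -/
lemma restrict (h : PFrame G r m t Z T) {I : Finset V} (hI : I ⊆ T)
    (hc : I.card * r + 1 ≤ (ZI G Z T I).card) :
    ∃ Z' : Finset V, PFrame G r m I.card Z' I := by
  have hIZ : I ⊆ ZI G Z T I := by
    intro x hx
    exact mem_ZI.2 ⟨h.sub (hI hx), fun _ => hx, by rw [h.ends_T (hI hx)]; exact empty_subset _⟩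
  by_cases hr : r = 0
  · -- degenerate: `|Z| = 1`
    subst hr
    have h1 := h.cardZ
    have h2 := card_le_card h.sub
    have h3 := h.pos
    rw [h.cardT] at h2
    have ht : t = 1 := by omega
    have hIne : I ≠ ∅ := by
      intro hI0
      subst hI0
      have h4 : (ZI G Z T ∅).card ≤ 0 := by
        rw [Nat.le_zero, card_eq_zero, eq_empty_iff_forall_notMem]
        intro z hz
        obtain ⟨hz1, hz2, hz3⟩ := mem_ZI.1 hz
        have hzT : z ∉ T := fun h' => by simpa using hz2 h'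
        have := h.k1 hz1 hzT
        rw [← card_ends, subset_empty.1 hz3, card_empty] at this
        omega
      omega
    have hIc : I.card = t := by
      have h5 := card_le_card hI
      have h6 : 0 < I.card := card_pos.2 (nonempty_iff_ne_empty.2 hIne)
      rw [h.cardT] at h5
      omega
    have hIT : I = T := eq_of_subset_of_card_le hI (by rw [h.cardT, hIc])
    refine ⟨Z, ?_⟩
    rw [hIc, hIT]
    exact h
  · have hle : I.card ≤ I.card * r + 1 := by
      have := Nat.le_mul_of_pos_right I.card (Nat.pos_of_ne_zero hr)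
      omega
    obtain ⟨Z', hZ1, hZ2, hZc⟩ := exists_subsuperset_card_eq hIZ hle hc
    refine ⟨Z', hZ1, h.ind.mono hI, rfl, (h.alpha_ZI hI).mono G hZ2, hZc, ?_, ?_⟩
    · intro z hz
      obtain ⟨h1, h2⟩ := mem_sdiff.1 hz
      obtain ⟨h3, h4, _⟩ := mem_ZI.1 (hZ2 h1)
      exact (dg_mono G hI z).trans (h.k2 z (mem_sdiff.2 ⟨h3, fun h' => h2 (h4 h')⟩))
    · refine (card_le_card ?_).trans h.b
      intro z hz
      obtain ⟨⟨h1, h2⟩, h3⟩ := mem_BB.1 hz
      obtain ⟨h4, h5, _⟩ := mem_ZI.1 (hZ2 h1)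
      have h6 : z ∉ T := fun h' => h2 (h5 h')
      have h7 := h.k2 z (mem_sdiff.2 ⟨h4, h6⟩)
      have h8 := dg_mono G hI z
      exact mem_BB.2 ⟨⟨h4, h6⟩, by omega⟩

end PFrame

/-- the minimal frame below the top level is an `S2` frame -/
theorem exists_S2 {r m : ℕ} (hr : 2 ≤ r) (hP : PG G r)
    (h : ∃ t Z T, t < r ∧ PFrame G r m t Z T) : ∃ t Z T, S2 G r m t Z T := by
  have h' : ∃ t, ∃ Z T, t < r ∧ PFrame G r m t Z T := h
  set t := Nat.find h' with ht
  obtain ⟨Z, T, htr, hF⟩ := Nat.find_spec h'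
  have hmin : ∀ t' < t, ∀ Z' T', ¬ PFrame G r m t' Z' T' := by
    intro t' ht' Z' T' hF'
    exact Nat.find_min h' ht' ⟨Z', T', by omega, hF'⟩
  refine ⟨t, Z, T, hF, htr, ?_, ?_⟩
  · intro K hK hKq
    by_contra hlt
    obtain ⟨K', hK', hKc⟩ := exists_subset_card_eq (show r ≤ K.card by omega)
    have hKq' := hKq.mono hK'
    have hpos := hF.pos
    obtain ⟨s, hs⟩ : ∃ s, t = s + 1 := ⟨t - 1, by omega⟩
    rw [← ht, hs] at hF
    have ha : AlphaLe G (Z \ K') s :=
      hP.peel hr hKq' hKc (hK'.trans hK) (by omega) hF.alpha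
    -- `T` meets `K'`
    have hmeet : ∃ v ∈ T, v ∈ K' := by
      by_contra hcon
      push Not at hcon
      have h1 : ∑ v ∈ T, dg G K' v ≤ s + 1 := by
        rw [← hF.cardT, card_eq_sum_ones]
        exact sum_le_sum fun v hv => hP.line_nbr hr hKq' hKc (hcon v hv)
      have h2 : ∑ x ∈ K', 1 ≤ ∑ x ∈ K', dg G T x := by
        refine sum_le_sum fun x hx => hF.k1 (hK (hK' hx)) fun hxT => hcon x hxT hx
      rw [dg_comm, ← card_eq_sum_ones, hKc] at h2
      omega
    obtain ⟨v, hvT, hvK⟩ := hmeet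
    exact hmin s (by omega) _ _ (hF.delete (hK'.trans hK) hKc hKq' hvT hvK ha)
  · intro I hI
    by_contra hlt
    obtain ⟨Z', hZ'⟩ := hF.restrict hI.1 (by omega)
    have h1 : I.card < t := by
      have := card_lt_card hI
      rw [hF.cardT] at this
      exact this
    exact hmin _ h1 _ _ hZ'

end Frame

end Pool.Agent.Lib.MP_f04ccf_co
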