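import Pool.Agent.Lib.MP_f04ccf_co.S2Crown
import Pool.Agent.Lib.MP_f04ccf_co.S2Total

/-!
MP_f04ccf_co: the exact server lemma (note 2803), abstract part.
-/

set_option autoImplicit false

namespace Pool.Agent.Lib.MP_f04ccf_co

open Finset

attribute [local instance] Classical.propDecidable

section Blocks

variable {V : Type*}

/-- no edges inside -/
private lemma serv_E_ind {H : SimpleGraph V} {A : Finset V} (h : ∀ x ∈ A, ∀ y ∈ A, ¬ H.Adj x y) :
    E H A = 0 := by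
  unfold E
  refine sum_eq_zero fun v hv => ?_
  unfold dg
  rw [card_eq_zero, filter_eq_empty_iff]
  exact fun w hw => h v hv w hw

private lemma serv_sdiff_left {V0 V1 X D : Finset V} (h01 : Disjoint V0 V1) (h1X : Disjoint V1 X)
    (hD : V0 ∪ V1 ∪ X = D) : D \ (V0 ∪ X) = V1 := by
  rw [← hD]
  ext y
  simp only [mem_sdiff, mem_union]
  have a1 : y ∈ V0 → y ∉ V1 := fun h => disjoint_left.1 h01 h
  have a2 : y ∈ V1 → y ∉ X := fun h => disjoint_left.1 h1X h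
  tauto

private lemma serv_sdiff_right {V0 V1 X D : Finset V} (h01 : Disjoint V0 V1) (h0X : Disjoint V0 X)
    (hD : V0 ∪ V1 ∪ X = D) : D \ V0 = V1 ∪ X := by
  rw [← hD]
  ext y
  simp only [mem_sdiff, mem_union]
  have a1 : y ∈ V0 → y ∉ V1 := fun h => disjoint_left.1 h01 h
  have a2 : y ∈ V0 → y ∉ X := fun h => disjoint_left.1 h0X h
  tauto

/-- the excluded tails of a home which is not the home of the test clique -/
lemma block_other {H : SimpleGraph V} {D : Finset V} {κ η : V → ℤ} {u c : ℤ}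
    (h1 : ∀ z ∈ D, κ z ≤ u) (h2 : ∀ z ∈ D, ∀ z' ∈ D, H.Adj z z' → κ z + κ z' ≤ u)
    (h3 : ∀ z ∈ D, ∀ z' ∈ D, H.Adj z z' → η z ≤ κ z)
    (h4 : ∀ z ∈ D, ∀ z' ∈ D, H.Adj z z' → c ≤ κ z + κ z')
    (hX : ∀ X ⊆ D, ∀ σ : V → V, (∀ z ∈ X, σ z ∈ X ∧ H.Adj z (σ z)) → Set.InjOn σ X →
      (E H X : ℤ) ≤ c * X.card) :
    ∃ E0 ⊆ D, 0 ≤ 2 * ∑ z ∈ E0, (u - κ z) - (E H E0 : ℤ) - 2 * ∑ z ∈ D \ E0, η z := by
  obtain ⟨V0, V1, X, hV0, hV1, hXD, h01, h0X, h1X, hD, hi0, hi0X, ⟨μ, hμ, hμi⟩, ⟨σ, hσ, hσi⟩⟩ :=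
    crown H D
  refine ⟨V0 ∪ X, union_subset hV0 hXD, ?_⟩
  rw [serv_sdiff_left h01 h1X hD, sum_union h0X, E_union H h0X, serv_E_ind hi0]
  have e1 : ∑ y ∈ X, dg H V0 y = 0 := by
    refine sum_eq_zero fun y hy => ?_
    unfold dg
    rw [card_eq_zero, filter_eq_empty_iff]
    exact fun x hx hxy => hi0X x hx y hy hxy.symm
  rw [e1]
  have e2 : ∑ z ∈ V1, κ z ≤ ∑ z ∈ V0, (u - κ z) := by
    refine le_trans ?_ (sum_match (fun z hz => (hμ z hz).1) hμi (fun z => u - κ z)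
      (fun z hz => by linarith [h1 z (hV0 hz)]))
    refine sum_le_sum fun z hz => ?_
    have := h2 z (hV1 hz) (μ z) (hV0 (hμ z hz).1) (hμ z hz).2
    linarith
  have e3 : ∑ z ∈ V1, η z ≤ ∑ z ∈ V1, κ z :=
    sum_le_sum fun z hz => h3 z (hV1 hz) (μ z) (hV0 (hμ z hz).1) (hμ z hz).2
  have e4 : c * X.card ≤ 2 * ∑ z ∈ X, (u - κ z) := by
    have f1 : ∑ z ∈ X, κ z ≤ ∑ z ∈ X, (u - κ z) := by
      rw [← sum_perm (fun z hz => (hσ z hz).1) hσi (fun z => u - κ z)]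
      refine sum_le_sum fun z hz => ?_
      have := h2 z (hXD hz) (σ z) (hXD (hσ z hz).1) (hσ z hz).2
      linarith
    have f2 : c * X.card ≤ ∑ z ∈ X, (κ z + κ (σ z)) := by
      have := card_nsmul_le_sum X (fun z => κ z + κ (σ z)) c
        (fun z hz => h4 z (hXD hz) (σ z) (hXD (hσ z hz).1) (hσ z hz).2)
      rw [nsmul_eq_mul] at this
      linarith
    rw [sum_add_distrib, sum_perm (fun z hz => (hσ z hz).1) hσi κ] at f2
    linarith
  have e5 := hX X hXD σ hσ hσi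
  push_cast
  linarith

/-- the excluded tails of the home of the test clique -/
lemma block_same {H : SimpleGraph V} {D : Finset V} {η : V → ℤ} {τ A : V → V → ℤ} {M : ℤ}
    (hM0 : 0 ≤ M) (hη : ∀ z ∈ D, 0 ≤ η z)
    (hτ : ∀ z ∈ D, ∀ z' ∈ D, H.Adj z z' → η z + η z' ≤ τ z z')
    (hM : ∀ z ∈ D, ∀ z' ∈ D, H.Adj z z' → τ z z' * A z z' ≤ M)
    (hN : ∀ (V0 V1 X : Finset V) (μ σ : V → V), V0 ⊆ D → V1 ⊆ D → X ⊆ D → Disjoint V0 V1 →
      Disjoint V0 X → Disjoint V1 X → (∀ z ∈ V1, μ z ∈ V0 ∧ H.Adj z (μ z)) → Set.InjOn μ V1 →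
      (∀ z ∈ X, σ z ∈ X ∧ H.Adj z (σ z)) → Set.InjOn σ X →
      ∀ y ∈ D, ∀ y' ∈ D, H.Adj y y' → (∀ z ∈ D, ∀ z' ∈ D, H.Adj z z' → τ z z' ≤ τ y y') →
      2 * (V1.card : ℤ) + X.card ≤ 2 * A y y') :
    ∃ E0 ⊆ D, 0 ≤ 2 * M - (E H E0 : ℤ) - 2 * ∑ z ∈ D \ E0, η z := by
  obtain ⟨V0, V1, X, hV0, hV1, hXD, h01, h0X, h1X, hD, hi0, hi0X, ⟨μ, hμ, hμi⟩, ⟨σ, hσ, hσi⟩⟩ :=
    crown H D
  refine ⟨V0, hV0, ?_⟩
  rw [serv_sdiff_right h01 h0X hD, sum_union h1X, serv_E_ind hi0]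
  by_cases hne : ∃ z ∈ D, ∃ z' ∈ D, H.Adj z z'
  · obtain ⟨z0, hz0, z0', hz0', hz00⟩ := hne
    obtain ⟨⟨y, y'⟩, hp, hmax⟩ := exists_max_image ((D ×ˢ D).filter (fun p => H.Adj p.1 p.2))
      (fun p => τ p.1 p.2) ⟨(z0, z0'), by
        rw [mem_filter, mem_product]; exact ⟨⟨hz0, hz0'⟩, hz00⟩⟩
    rw [mem_filter, mem_product] at hp
    obtain ⟨⟨hy, hy'⟩, hyy⟩ := hp
    have hmax' : ∀ z ∈ D, ∀ z' ∈ D, H.Adj z z' → τ z z' ≤ τ y y' := by
      intro z hz z' hz' hzz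
      exact hmax (z, z') (by rw [mem_filter, mem_product]; exact ⟨⟨hz, hz'⟩, hzz⟩)
    have hn := hN V0 V1 X μ σ hV0 hV1 hXD h01 h0X h1X hμ hμi hσ hσi y hy y' hy' hyy hmax'
    have g1 : ∑ z ∈ V1, η z ≤ V1.card * τ y y' := by
      have := sum_le_card_nsmul V1 η (τ y y') (fun z hz => by
        have a1 := hτ z (hV1 hz) (μ z) (hV0 (hμ z hz).1) (hμ z hz).2
        have a2 := hmax' z (hV1 hz) (μ z) (hV0 (hμ z hz).1) (hμ z hz).2
        have a3 := hη (μ z) (hV0 (hμ z hz).1)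
        linarith)
      rw [nsmul_eq_mul] at this
      exact this
    have g2 : 2 * ∑ z ∈ X, η z ≤ X.card * τ y y' := by
      have := sum_le_card_nsmul X (fun z => η z + η (σ z)) (τ y y') (fun z hz => by
        have a1 := hτ z (hXD hz) (σ z) (hXD (hσ z hz).1) (hσ z hz).2
        have a2 := hmax' z (hXD hz) (σ z) (hXD (hσ z hz).1) (hσ z hz).2
        linarith)
      rw [nsmul_eq_mul, sum_add_distrib, sum_perm (fun z hz => (hσ z hz).1) hσi η] at this
      linarith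
    have g3 : 0 ≤ τ y y' := by
      have a1 := hτ y hy y' hy' hyy
      have a2 := hη y hy
      have a3 := hη y' hy'
      linarith
    have g4 := hM y hy y' hy' hyy
    have g5 := mul_le_mul_of_nonneg_right hn g3
    push_cast
    nlinarith
  · have hV1e : V1 = ∅ := by
      rw [eq_empty_iff_forall_notMem]
      exact fun z hz => hne ⟨z, hV1 hz, μ z, hV0 (hμ z hz).1, (hμ z hz).2⟩
    have hXe : X = ∅ := by
      rw [eq_empty_iff_forall_notMem]
      exact fun z hz => hne ⟨z, hXD hz, σ z, hXD (hσ z hz).1, (hσ z hz).2⟩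
    rw [hV1e, hXe]
    simp
    exact hM0

end Blocks

section Exact

variable {V : Type*} {G : SimpleGraph V}

/-- the server inequality with a test set `Y ∪ Γ`, exact value of the points of `Γ` -/
lemma server_val {r : ℕ} (hP : PG G r) {M A Γ Y : Finset V} (hMA : Disjoint M A)
    (hMΓ : Disjoint M Γ) (hAΓ : Disjoint A Γ) (hY : Y ⊆ A) (hΓ : Clq G Γ)
    {H : SimpleGraph V}
    (hH : ∀ x ∈ A, ∀ y ∈ A, H.Adj x y → (co G).Adj x y) (k : V → ℕ) :
    ∑ y ∈ Y, net2 G r M A H k y + 2 * ∑ y ∈ Y, (k y : ℤ)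
      + ((E H A : ℤ) - E H (A \ Y))
      + 2 * ∑ p ∈ Γ, ((r : ℤ) - 1 - dg (co G) M p - dg (co G) Y p) ≤ slk G r M := by
  have hYΓ : Disjoint Y Γ := disjoint_of_subset_left hY hAΓ
  have hMY : Disjoint M Y := disjoint_of_subset_right hY hMA
  have h0 := slk_test hP (M := M) (Y := Y ∪ Γ) (disjoint_union_right.2 ⟨hMY, hMΓ⟩)
  rw [sum_union hYΓ, E_union (co G) hYΓ, E_compl_clq hΓ] at h0
  have h1 : ∑ p ∈ Γ, (2 * ((r : ℤ) - 1 - dg (co G) M p)) - 2 * ∑ p ∈ Γ, (dg (co G) Y p : ℤ)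
      = 2 * ∑ p ∈ Γ, ((r : ℤ) - 1 - dg (co G) M p - dg (co G) Y p) := by
    rw [mul_sum, mul_sum, ← sum_sub_distrib]
    exact sum_congr rfl fun p _ => by ring
  -- the part of `Y`
  have h3 : (E (co G) Y : ℤ) = ∑ y ∈ Y, ((dg (co G) A y : ℤ) - dg (co G) (A \ Y) y) := by
    unfold E
    push_cast
    refine sum_congr rfl fun y _ => ?_
    have := dg_sdiff (co G) hY y
    omega
  have h4 : ∑ y ∈ Y, (dg H (A \ Y) y : ℤ) ≤ ∑ y ∈ Y, (dg (co G) (A \ Y) y : ℤ) := by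
    refine sum_le_sum fun y hy => ?_
    have : dg H (A \ Y) y ≤ dg (co G) (A \ Y) y := by
      refine card_le_card fun z hz => ?_
      rw [mem_filter] at hz ⊢
      exact ⟨hz.1, hH y (hY hy) z (mem_sdiff.1 hz.1).1 hz.2⟩
    exact_mod_cast this
  have h5 : (E H A : ℤ) - E H (A \ Y) = ∑ y ∈ Y, (dg H A y : ℤ) + ∑ y ∈ Y, (dg H (A \ Y) y : ℤ) := by
    have h6 := E_sdiff H hY
    have h7 : ∑ v ∈ Y, dg H A v = ∑ v ∈ Y, dg H (A \ Y) v + E H Y := by
      unfold E; rw [← sum_add_distrib]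
      exact sum_congr rfl fun v _ => dg_sdiff H hY v
    have h6' : (E H A : ℤ) + E H Y = E H (A \ Y) + 2 * ((∑ v ∈ Y, dg H A v : ℕ) : ℤ) := by
      exact_mod_cast h6
    have h7' : ((∑ v ∈ Y, dg H A v : ℕ) : ℤ) = ((∑ v ∈ Y, dg H (A \ Y) v : ℕ) : ℤ) + E H Y := by
      exact_mod_cast h7
    push_cast at h6' h7'
    linarith
  have h8 : ∑ y ∈ Y, net2 G r M A H k y = ∑ y ∈ Y, (2 * ((r : ℤ) - 1 - dg (co G) M y))
      - 2 * ∑ y ∈ Y, (k y : ℤ) - ∑ y ∈ Y, (dg H A y : ℤ) - ∑ y ∈ Y, (dg (co G) A y : ℤ) := by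
    unfold net2
    rw [mul_sum, ← sum_sub_distrib, ← sum_sub_distrib, ← sum_sub_distrib]
  rw [sum_sub_distrib] at h3
  push_cast at h0
  rw [h8, h5]
  linarith

/-- double counting -/
private lemma serv_count {E0 U : Finset V} {Q : V → Finset V} (h : ∀ z ∈ E0, Q z ⊆ U) :
    ∑ p ∈ U, ((E0.filter (fun z => p ∈ Q z)).card : ℤ) = ∑ z ∈ E0, ((Q z).card : ℤ) := by
  have h1 : ∀ p ∈ U, ((E0.filter (fun z => p ∈ Q z)).card : ℤ)
      = ∑ z ∈ E0, if p ∈ Q z then (1 : ℤ) else 0 := by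
    intro p _
    rw [sum_boole]
  rw [sum_congr rfl h1, sum_comm]
  refine sum_congr rfl fun z hz => ?_
  rw [sum_boole]
  congr 2
  ext p
  rw [mem_filter]
  exact ⟨fun h' => h'.2, fun h' => ⟨h z hz h', h'⟩⟩

/-- **Exact server lemma**, abstract form.  `D` are the bad tails, `Q z` the part of the class of
the home of `z` missed by `z`, `U i` the union of the `Q z` over the bad tails with home `i`. -/
theorem server_exact {r : ℕ} (hP : PG G r) {M A : Finset V} (hMA : Disjoint M A)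
    {H : SimpleGraph V} {hm : V → V}
    (hH : ∀ x ∈ A, ∀ y ∈ A, H.Adj x y → (co G).Adj x y)
    (hHm : ∀ x y, H.Adj x y → hm x = hm y)
    (k : V → ℕ) (Q : V → Finset V) (hk : ∀ z ∈ A, (Q z).card = k z)
    {D : Finset V} (hD : D = A.filter (fun z => net2 G r M A H k z < 0))
    (U : V → Finset V) (hU : ∀ i, U i = (D.filter (fun z => hm z = i)).biUnion Q)
    (hUclq : ∀ i, Clq G (U i)) (hMU : ∀ i, Disjoint M (U i)) (hAU : ∀ i, Disjoint A (U i))
    (η : V → ℤ) (ms : V → V → ℤ) (hη : ∀ z ∈ D, -(2 * η z) ≤ net2 G r M A H k z)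
    (hval : ∀ i, ∀ p ∈ U i, ∀ S ⊆ D, ms i p + ((S.filter (fun z => hm z ≠ i)).card : ℤ)
      + ((S.filter (fun z => hm z = i ∧ p ∈ Q z)).card : ℤ)
      ≤ (r : ℤ) - 1 - dg (co G) M p - dg (co G) (A \ S) p)
    (hother : ∀ j, ∀ u : ℤ, ((U j).card : ℤ) ≤ u → ∃ E0 ⊆ D.filter (fun z => hm z = j),
      0 ≤ 2 * ∑ z ∈ E0, (u - (k z : ℤ)) - (E H E0 : ℤ)
        - 2 * ∑ z ∈ D.filter (fun z => hm z = j) \ E0, η z)
    (hsame : ∀ i, ∃ E0 ⊆ D.filter (fun z => hm z = i),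
      0 ≤ 2 * ∑ p ∈ U i, ms i p - (E H E0 : ℤ)
        - 2 * ∑ z ∈ D.filter (fun z => hm z = i) \ E0, η z) :
    2 * ∑ z ∈ A, (k z : ℤ) + E H A + ∑ z ∈ A, max (net2 G r M A H k z) 0 ≤ slk G r M := by
  have hDA : D ⊆ A := by rw [hD]; exact filter_subset _ _
  have hDneg : ∀ z ∈ D, net2 G r M A H k z < 0 := by
    intro z hz
    rw [hD, mem_filter] at hz
    exact hz.2
  have hpos : ∀ z ∈ A \ D, 0 ≤ net2 G r M A H k z := by
    intro z hz
    rw [mem_sdiff, hD, mem_filter] at hz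
    by_contra hcon
    exact hz.2 ⟨hz.1, not_le.1 hcon⟩
  -- sums over `A`
  have hmax : ∑ z ∈ A, max (net2 G r M A H k z) 0 = ∑ z ∈ A \ D, net2 G r M A H k z := by
    rw [← sum_sdiff hDA, sum_congr rfl (fun z hz => max_eq_left (hpos z hz)),
      sum_eq_zero (s := D) (fun z hz => max_eq_right (hDneg z hz).le), add_zero]
  set J : Finset V := D.image hm with hJ
  have hJmem : ∀ z ∈ D, hm z ∈ J := fun z hz => mem_image_of_mem _ hz
  by_cases hJe : J = ∅
  · have hDe : D = ∅ := by rwa [hJ, image_eq_empty] at hJe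
    have h1 := server_val hP hMA (Γ := ∅) (disjoint_empty_right _) (disjoint_empty_right _)
      (Subset.refl A) (fun x hx => by simp at hx) hH k
    rw [sdiff_self, bot_eq_empty, serv_E_ind (A := ∅) (by simp), sum_empty] at h1
    rw [hmax, hDe, sdiff_empty]
    push_cast at h1
    linarith
  · obtain ⟨i, hi, himax⟩ := exists_max_image J (fun j => (U j).card) (nonempty_iff_ne_empty.2 hJe)
    obtain ⟨Ei, hEi, hEiv⟩ := hsame i
    have hex : ∀ j, ∃ E0 : Finset V, E0 ⊆ D.filter (fun z => hm z = j) ∧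
        (j ∈ J → j ≠ i → 0 ≤ 2 * ∑ z ∈ E0, (((U i).card : ℤ) - (k z : ℤ)) - (E H E0 : ℤ)
          - 2 * ∑ z ∈ D.filter (fun z => hm z = j) \ E0, η z) ∧ (j = i → E0 = Ei) := by
      intro j
      by_cases hji : j = i
      · subst hji
        exact ⟨Ei, hEi, fun _ h => absurd rfl h, fun _ => rfl⟩
      · by_cases hj : j ∈ J
        · obtain ⟨E0, h1, h2⟩ := hother j (U i).card (by exact_mod_cast himax j hj)
          exact ⟨E0, h1, fun _ _ => h2, fun h => absurd h hji⟩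
        · exact ⟨∅, empty_subset _, fun h => absurd h hj, fun h => absurd h hji⟩
    choose f hf1 hf2 hf3 using hex
    obtain ⟨S, hS⟩ : ∃ S : Finset V, S = D.filter (fun z => z ∈ f (hm z)) := ⟨_, rfl⟩
    have hSD : S ⊆ D := by rw [hS]; exact filter_subset _ _
    have hSA : S ⊆ A := hSD.trans hDA
    have hSf : ∀ j, S.filter (fun z => hm z = j) = f j := by
      intro j
      ext z
      rw [mem_filter, hS, mem_filter]
      constructor
      · rintro ⟨⟨_, h2⟩, h3⟩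
        rw [← h3]; exact h2
      · intro h
        have := mem_filter.1 (hf1 j h)
        exact ⟨⟨this.1, by rw [this.2]; exact h⟩, this.2⟩
    have hDSf : ∀ j, (D \ S).filter (fun z => hm z = j)
        = D.filter (fun z => hm z = j) \ f j := by
      intro j
      ext z
      have e1 : z ∈ f j ↔ z ∈ S ∧ hm z = j := by rw [← hSf j, mem_filter]
      rw [mem_filter, mem_sdiff, mem_sdiff, mem_filter, e1]
      tauto
    have hfib : ∀ (W : Finset V) (g : V → ℤ), W ⊆ D →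
        ∑ j ∈ J, ∑ z ∈ W.filter (fun z => hm z = j), g z = ∑ z ∈ W, g z := fun W g hW =>
      sum_fiberwise_of_maps_to (fun z hz => hJmem z (hW hz)) g
    -- edges
    have hES : (E H S : ℤ) = ∑ j ∈ J, (E H (f j) : ℤ) := by
      have h1 : (E H S : ℤ) = ∑ z ∈ S, (dg H S z : ℤ) := by unfold E; push_cast; rfl
      rw [h1, ← hfib S _ hSD]
      refine sum_congr rfl fun j _ => ?_
      rw [hSf]
      unfold E
      push_cast
      refine sum_congr rfl fun z hz => ?_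
      have hzj := (mem_filter.1 (hf1 j hz)).2
      unfold dg
      congr 2
      ext y
      rw [mem_filter, mem_filter]
      constructor
      · rintro ⟨h2, h3⟩
        refine ⟨?_, h3⟩
        rw [← hSf j, mem_filter]
        exact ⟨h2, by rw [← hHm z y h3]; exact hzj⟩
      · rintro ⟨h2, h3⟩
        rw [← hSf j, mem_filter] at h2
        exact ⟨h2.1, h3⟩
    -- the test
    have hAS : A \ (A \ S) = S := Finset.sdiff_sdiff_eq_self hSA
    have ht := server_val hP hMA (hMU i) (hAU i) (sdiff_subset : A \ S ⊆ A) (hUclq i) hH k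
    rw [hAS] at ht
    -- the value of the clique
    have hv : ∑ p ∈ U i, ms i p + ((U i).card : ℤ) * ((S.filter (fun z => hm z ≠ i)).card : ℤ)
        + ∑ z ∈ f i, (k z : ℤ)
        ≤ ∑ p ∈ U i, ((r : ℤ) - 1 - dg (co G) M p - dg (co G) (A \ S) p) := by
      have h1 := sum_le_sum fun p hp => hval i p hp S hSD
      rw [sum_add_distrib, sum_add_distrib, sum_const, nsmul_eq_mul] at h1
      have h2 : ∑ p ∈ U i, ((S.filter (fun z => hm z = i ∧ p ∈ Q z)).card : ℤ)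
          = ∑ z ∈ f i, (k z : ℤ) := by
        have h3 : ∀ p ∈ U i, ((S.filter (fun z => hm z = i ∧ p ∈ Q z)).card : ℤ)
            = (((f i).filter (fun z => p ∈ Q z)).card : ℤ) := by
          intro p _
          rw [← hSf i, filter_filter]
        rw [sum_congr rfl h3, serv_count]
        · refine sum_congr rfl fun z hz => ?_
          rw [hk z (hDA (mem_filter.1 (hf1 i hz)).1)]
        · intro z hz
          rw [hU]
          exact subset_biUnion_of_mem Q (hf1 i hz)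
      rw [h2] at h1
      linarith
    -- the blocks
    have hcardne : ((S.filter (fun z => hm z ≠ i)).card : ℤ) = ∑ j ∈ J.erase i, ((f j).card : ℤ) := by
      have h1 : (S.filter (fun z => hm z ≠ i)) ⊆ D := (filter_subset _ _).trans hSD
      have h2 := hfib (S.filter (fun z => hm z ≠ i)) (fun _ => 1) h1
      rw [sum_const, nsmul_eq_mul, mul_one] at h2
      rw [← h2, ← add_sum_erase J _ hi]
      have h3 : (S.filter (fun z => hm z ≠ i)).filter (fun z => hm z = i) = ∅ := by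
        rw [filter_filter, filter_eq_empty_iff]
        rintro z _ ⟨h4, h5⟩
        exact h4 h5
      rw [h3, sum_empty, zero_add]
      refine sum_congr rfl fun j hj => ?_
      have h6 : (S.filter (fun z => hm z ≠ i)).filter (fun z => hm z = j) = f j := by
        rw [← hSf j, filter_filter]
        refine filter_congr fun z _ => ⟨fun h4 => h4.2, fun h4 => ⟨?_, h4⟩⟩
        rw [h4]
        exact (mem_erase.1 hj).1
      rw [h6, sum_const, nsmul_eq_mul, mul_one]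
    have hblocks : 0 ≤ ∑ j ∈ J.erase i, (2 * ∑ z ∈ f j, (((U i).card : ℤ) - (k z : ℤ))
        - (E H (f j) : ℤ) - 2 * ∑ z ∈ D.filter (fun z => hm z = j) \ f j, η z) :=
      sum_nonneg fun j hj => hf2 j (mem_erase.1 hj).2 (mem_erase.1 hj).1
    rw [sum_sub_distrib, sum_sub_distrib, ← mul_sum, ← mul_sum] at hblocks
    have hb1 : ∑ j ∈ J.erase i, ∑ z ∈ f j, (((U i).card : ℤ) - (k z : ℤ))
        = ((U i).card : ℤ) * ∑ j ∈ J.erase i, ((f j).card : ℤ)
          - ∑ j ∈ J.erase i, ∑ z ∈ f j, (k z : ℤ) := by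
      rw [mul_sum, ← sum_sub_distrib]
      refine sum_congr rfl fun j _ => ?_
      rw [sum_sub_distrib, sum_const, nsmul_eq_mul]
      ring
    rw [hb1] at hblocks
    have hkS : ∑ z ∈ S, (k z : ℤ) = ∑ z ∈ f i, (k z : ℤ)
        + ∑ j ∈ J.erase i, ∑ z ∈ f j, (k z : ℤ) := by
      rw [← hfib S _ hSD, ← add_sum_erase J _ hi, hSf]
      congr 1
      exact sum_congr rfl fun j _ => by rw [hSf]
    have hηS : ∑ z ∈ D \ S, η z = ∑ z ∈ D.filter (fun z => hm z = i) \ f i, η z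
        + ∑ j ∈ J.erase i, ∑ z ∈ D.filter (fun z => hm z = j) \ f j, η z := by
      rw [← hfib (D \ S) _ sdiff_subset, ← add_sum_erase J _ hi, hDSf]
      congr 1
      exact sum_congr rfl fun j _ => by rw [hDSf]
    have hEi' : (E H S : ℤ) = E H (f i) + ∑ j ∈ J.erase i, (E H (f j) : ℤ) := by
      rw [hES, ← add_sum_erase J _ hi]
    rw [hf3 i rfl] at hkS hηS hEi' hv
    -- the nets
    have hnet : ∑ z ∈ A \ D, net2 G r M A H k z - 2 * ∑ z ∈ D \ S, η z
        ≤ ∑ z ∈ A \ S, net2 G r M A H k z := by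
      have h1 : A \ S = (A \ D) ∪ (D \ S) := by
        ext z
        simp only [mem_union, mem_sdiff]
        constructor
        · rintro ⟨h2, h3⟩
          by_cases h4 : z ∈ D
          · exact Or.inr ⟨h4, h3⟩
          · exact Or.inl ⟨h2, h4⟩
        · rintro (⟨h2, h3⟩ | ⟨h2, h3⟩)
          · exact ⟨h2, fun h4 => h3 (hSD h4)⟩
          · exact ⟨hDA h2, h3⟩
      have h2 : Disjoint (A \ D) (D \ S) := by
        rw [disjoint_left]
        intro z hz hz'
        exact (mem_sdiff.1 hz).2 (mem_sdiff.1 hz').1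
      rw [h1, sum_union h2]
      have h3 : -(2 * ∑ z ∈ D \ S, η z) ≤ ∑ z ∈ D \ S, net2 G r M A H k z := by
        rw [mul_sum, ← sum_neg_distrib]
        exact sum_le_sum fun z hz => hη z (mem_sdiff.1 hz).1
      linarith
    have hkA : ∑ z ∈ A, (k z : ℤ) = ∑ z ∈ A \ S, (k z : ℤ) + ∑ z ∈ S, (k z : ℤ) :=
      (sum_sdiff hSA).symm
    rw [hmax, hkA]
    rw [hcardne] at hv
    linarith

end Exact

end Pool.Agent.Lib.MP_f04ccf_co
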