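import Pool.Agent.Lib.MP_f04ccf_co.S2Over
import Pool.Agent.Lib.MP_f04ccf_co.S2Serv

/-!
MP_f04ccf_co: the homes of note 2803 and the exact server lemma for them.  The tail of a vertex is
the end with the smaller class of two-ended vertices, except for the vertices that are overloaded
there and miss more than `a_w` points of the other class.
-/

set_option autoImplicit false

namespace Pool.Agent.Lib.MP_f04ccf_co

open Finset

attribute [local instance] Classical.propDecidable

section Rule

variable {V : Type*} (G : SimpleGraph V) (r : ℕ) (Z T : Finset V)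

/-- the end in `I` with the smaller class of two-ended vertices -/
noncomputable def loI (I : Finset V) (z : V) : V :=
  if h : ∃ w ∈ I, ∀ v ∈ I, (Bw G Z T w).card ≤ (Bw G Z T v).card then h.choose else z

/-- the other end in `I` -/
noncomputable def hiI (I : Finset V) (z : V) : V :=
  if h : ∃ v ∈ I, v ≠ loI G Z T I z then h.choose else z

/-- overloaded at the low end with `kappa_hi > a_lo` -/
def High (z : V) : Prop :=
  1 ≤ eta G r Z T (hiI G Z T (ends G T z) z) (loI G Z T (ends G T z) z) z ∧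
    r + 1 ≤ kap G Z T (hiI G Z T (ends G T z) z) z
      + (Cl G Z T (loI G Z T (ends G T z) z)).card

/-- the homes of note 2803 -/
noncomputable def hmR (z : V) : V :=
  if High G r Z T z then loI G Z T (ends G T z) z else hiI G Z T (ends G T z) z

variable {G r Z T}

private lemma homes_loI_eq {I : Finset V} (hI : I.Nonempty) (z z' : V) :
    loI G Z T I z = loI G Z T I z' := by
  have h := exists_min_image I (fun v => (Bw G Z T v).card) hI
  unfold loI
  rw [dif_pos h, dif_pos h]

private lemma homes_hiI_eq {I : Finset V} (hI : 1 < I.card) (z z' : V) :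
    hiI G Z T I z = hiI G Z T I z' := by
  have hne : I.Nonempty := card_pos.1 (by omega)
  have h1 := homes_loI_eq (G := G) (Z := Z) (T := T) hne z z'
  have h := exists_mem_ne hI (loI G Z T I z)
  unfold hiI
  rw [← h1, dif_pos h, dif_pos h]

/-- the two ends -/
lemma lohi_spec {z : V} (hz : z ∈ BB G Z T) :
    loI G Z T (ends G T z) z ∈ ends G T z ∧ hiI G Z T (ends G T z) z ∈ ends G T z ∧
      hiI G Z T (ends G T z) z ≠ loI G Z T (ends G T z) z ∧
      ends G T z = {hiI G Z T (ends G T z) z, loI G Z T (ends G T z) z} ∧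
      (Bw G Z T (loI G Z T (ends G T z) z)).card ≤ (Bw G Z T (hiI G Z T (ends G T z) z)).card := by
  have hc : (ends G T z).card = 2 := by rw [card_ends]; exact (mem_BB.1 hz).2
  have hne : (ends G T z).Nonempty := card_pos.1 (by omega)
  have h := exists_min_image (ends G T z) (fun v => (Bw G Z T v).card) hne
  have h1 : loI G Z T (ends G T z) z = h.choose := by
    unfold loI
    rw [dif_pos h]
  have h2 := h.choose_spec
  rw [← h1] at h2
  have g := exists_mem_ne (s := ends G T z) (by omega) (loI G Z T (ends G T z) z)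
  have g1 : hiI G Z T (ends G T z) z = g.choose := by
    unfold hiI
    rw [dif_pos g]
  have g2 := g.choose_spec
  rw [← g1] at g2
  exact ⟨h2.1, g2.1, g2.2, ends_eq_pair hz g2.1 h2.1 g2.2, h2.2 _ g2.1⟩

lemma hmR_homes : Homes G Z T (hmR G r Z T) := by
  intro z hz
  obtain ⟨h1, h2, -⟩ := lohi_spec hz
  unfold hmR
  split_ifs
  · exact h1
  · exact h2

/-- a tail `z` at `w`: either `w` is the low end and `z` is not exceptional, or the reverse -/
lemma hmR_cases {w z : V} (hz : z ∈ tails G Z T (hmR G r Z T) w) :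
    (w = loI G Z T (ends G T z) z ∧ hmR G r Z T z = hiI G Z T (ends G T z) z ∧
      ¬ High G r Z T z) ∨
    (w = hiI G Z T (ends G T z) z ∧ hmR G r Z T z = loI G Z T (ends G T z) z ∧
      High G r Z T z) := by
  obtain ⟨h1, h2, h3⟩ := mem_tails.1 hz
  obtain ⟨l1, l2, l3, l4, l5⟩ := lohi_spec h1
  have h5 : w = hiI G Z T (ends G T z) z ∨ w = loI G Z T (ends G T z) z := by
    rw [l4, mem_insert, mem_singleton] at h2
    exact h2
  by_cases hH : High G r Z T z
  · have h4 : hmR G r Z T z = loI G Z T (ends G T z) z := by unfold hmR; rw [if_pos hH]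
    rw [h4] at h3
    rcases h5 with h5 | h5
    · exact Or.inr ⟨h5, h4, hH⟩
    · exact absurd h5.symm h3
  · have h4 : hmR G r Z T z = hiI G Z T (ends G T z) z := by unfold hmR; rw [if_neg hH]
    rw [h4] at h3
    rcases h5 with h5 | h5
    · exact absurd h5.symm h3
    · exact Or.inl ⟨h5, h4, hH⟩

/-- number of non-neighbours in `Bw` of a vertex of `Bp` -/
private lemma homes_dg_Bw (i w z : V) :
    dg (co G) (Bw G Z T w) z + (Bp G Z T i w).card ≤ gg G Z T i w z + (Bw G Z T w).card := by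
  have h1 : dg (co G) (Bw G Z T w) z ≤ gg G Z T i w z
      + (Bw G Z T w \ Bp G Z T i w).card := by
    unfold gg dg
    rw [← card_filter_add_card_filter_not (s := (Bw G Z T w).filter (fun x => (co G).Adj z x))
      (fun x => x ∈ Bp G Z T i w)]
    refine Nat.add_le_add (card_le_card ?_) (card_le_card ?_)
    · intro x hx
      obtain ⟨h1, h2⟩ := mem_filter.1 hx
      exact mem_filter.2 ⟨h2, (mem_filter.1 h1).2⟩
    · intro x hx
      obtain ⟨h1, h2⟩ := mem_filter.1 hx
      exact mem_sdiff.2 ⟨(mem_filter.1 h1).1, h2⟩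
  have h2 := card_sdiff_add_card_eq_card (Bp_sub_Bw (G := G) (Z := Z) (T := T) i w)
  omega

private lemma homes_Bw_union {hm : V → V} (hh : Homes G Z T hm) (w : V) :
    Bw G Z T w = Ph G Z T hm w ∪ tails G Z T hm w ∧
      Disjoint (Ph G Z T hm w) (tails G Z T hm w) := by
  constructor
  · ext z
    rw [mem_union, mem_Bw, mem_Ph, mem_tails]
    constructor
    · rintro ⟨h1, h2⟩
      by_cases h : hm z = w
      · exact Or.inl ⟨h1, h⟩
      · exact Or.inr ⟨h1, h2, h⟩
    · rintro (⟨h1, h2⟩ | ⟨h1, h2, _⟩)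
      · exact ⟨h1, h2 ▸ hh z h1⟩
      · exact ⟨h1, h2⟩
  · rw [disjoint_left]
    intro z hz hz'
    exact (mem_tails.1 hz').2.2 (mem_Ph.1 hz).2

private lemma homes_dg_union {A B : Finset V} (h : Disjoint A B) (H : SimpleGraph V) (z : V) :
    dg H (A ∪ B) z = dg H A z + dg H B z := by
  unfold dg
  rw [filter_union, card_union_of_disjoint]
  exact disjoint_filter_filter h

/-- `net >= -eta` for all homes -/
lemma net_ge {hm : V → V} (hh : Homes G Z T hm) {w z : V} (hw : w ∈ T)
    (_hz : z ∈ tails G Z T hm w) :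
    -(2 * eta G r Z T (hm z) w z)
      ≤ net2 G r (MM G Z T hm w) (tails G Z T hm w) (hmG G hm) (kk G Z T hm) z := by
  obtain ⟨h1, h2⟩ := homes_Bw_union (w := w) hh
  have h3 := homes_dg_union h2 (co G) z
  rw [← h1] at h3
  have h4 : dg (co G) (MM G Z T hm w) z
      = dg (co G) (Cl G Z T w) z + dg (co G) (Ph G Z T hm w) z := by
    unfold MM
    exact homes_dg_union (MM_disj hw) (co G) z
  have h5 : dg (hmG G hm) (tails G Z T hm w) z ≤ dg (co G) (tails G Z T hm w) z := by
    refine card_le_card fun x hx => ?_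
    obtain ⟨g1, g2⟩ := mem_filter.1 hx
    exact mem_filter.2 ⟨g1, g2.1⟩
  have h6 := homes_dg_Bw (G := G) (Z := Z) (T := T) (hm z) w z
  unfold net2 eta kk
  rw [h4]
  unfold kap
  push_cast
  omega

end Rule

section Server

variable {V : Type*} {G : SimpleGraph V} {r m t : ℕ} {Z T : Finset V}

/-- `|B_i| + |B_w| - |B_iw| <= |B|` -/
private lemma homes_room (hb : (BB G Z T).card + 1 ≤ r) {i w : V} (hiw : i ≠ w) :
    (Bw G Z T i).card + (Bw G Z T w).card + 1 ≤ r + (Bp G Z T i w).card := by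
  have h1 := card_union_add_card_inter (Bw G Z T i) (Bw G Z T w)
  have h2 : Bw G Z T i ∪ Bw G Z T w ⊆ BB G Z T :=
    union_subset (filter_subset _ _) (filter_subset _ _)
  have h3 : Bw G Z T i ∩ Bw G Z T w ⊆ Bp G Z T i w := by
    intro z hz
    rw [mem_inter, mem_Bw, mem_Bw] at hz
    exact mem_Bp.2 ⟨hz.1.1, ends_eq_pair hz.1.1 hz.1.2 hz.2.2 hiw⟩
  have h4 := card_le_card h2
  have h5 := card_le_card h3
  omega

variable (G r Z T) in
/-- the bad tails at `w` -/
noncomputable def DD (w : V) : Finset V :=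
  (tails G Z T (hmR G r Z T) w).filter (fun z =>
    net2 G r (MM G Z T (hmR G r Z T) w) (tails G Z T (hmR G r Z T) w) (hmG G (hmR G r Z T))
      (kk G Z T (hmR G r Z T)) z < 0)

variable (G r Z T) in
/-- the bad tails at `w` with home `j` -/
noncomputable def DJ (w j : V) : Finset V :=
  (DD G r Z T w).filter (fun z => hmR G r Z T z = j)

private lemma homes_mem_DJ {w j z : V} : z ∈ DJ G r Z T w j ↔
    (z ∈ tails G Z T (hmR G r Z T) w ∧
      net2 G r (MM G Z T (hmR G r Z T) w) (tails G Z T (hmR G r Z T) w) (hmG G (hmR G r Z T))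
      (kk G Z T (hmR G r Z T)) z < 0) ∧ hmR G r Z T z = j := by
  unfold DJ DD
  rw [mem_filter, mem_filter]

/-- bad tails are overloaded -/
private lemma homes_DJ_facts (h : PFrame G r m t Z T) {w j z : V} (hw : w ∈ T)
    (hz : z ∈ DJ G r Z T w j) : j ∈ T ∧ j ≠ w ∧ z ∈ Bp G Z T j w ∧ 1 ≤ eta G r Z T j w z := by
  obtain ⟨⟨h1, h2⟩, h3⟩ := homes_mem_DJ.1 hz
  obtain ⟨g1, g2, g3, g4⟩ := h.tail_facts hmR_homes hw h1
  have h4 := net_ge (r := r) hmR_homes hw h1
  rw [h3] at g1 g2 g3 h4
  refine ⟨g1, g2, mem_Bp.2 ⟨(mem_tails.1 h1).1, g3⟩, ?_⟩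
  omega

/-- the two kinds of pairs -/
private lemma homes_DJ_cases (h : PFrame G r m t Z T) (hb : (BB G Z T).card + 1 ≤ r) {w j : V}
    (hw : w ∈ T) (hne : (DJ G r Z T w j).Nonempty) :
    OverSet G r Z T j w (DJ G r Z T w j) ∨
      ((Bw G Z T j).card ≤ (Bw G Z T w).card ∧
        ∀ z ∈ DJ G r Z T w j, 1 ≤ eta G r Z T w j z ∧
          r + 1 ≤ kap G Z T w z + (Cl G Z T j).card) := by
  obtain ⟨z0, hz0⟩ := hne
  obtain ⟨hj, hjw, hB0, -⟩ := homes_DJ_facts h hw hz0
  have he0 := (mem_Bp.1 hB0).2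
  have hcase := fun z (hz : z ∈ DJ G r Z T w j) => hmR_cases (homes_mem_DJ.1 hz).1.1
  have hcard : 1 < ({j, w} : Finset V).card := by rw [card_pair hjw]; norm_num
  have hlo : ∀ z ∈ DJ G r Z T w j,
      loI G Z T (ends G T z) z = loI G Z T ({j, w} : Finset V) z0 := by
    intro z hz
    obtain ⟨-, -, hB, -⟩ := homes_DJ_facts h hw hz
    rw [(mem_Bp.1 hB).2]
    exact homes_loI_eq ⟨j, by simp⟩ _ _
  rcases hcase z0 hz0 with ⟨c1, c2, c3⟩ | ⟨c1, c2, c3⟩
  · left
    have hlow : loI G Z T ({j, w} : Finset V) z0 = w := by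
      rw [← hlo z0 hz0]; exact c1.symm
    have hle : (Bw G Z T w).card ≤ (Bw G Z T j).card := by
      have h5 := (lohi_spec (mem_Bp.1 hB0).1).2.2.2.2
      rw [← c1, ← c2, (homes_mem_DJ.1 hz0).2] at h5
      exact h5
    refine ⟨hj, hw, hjw, fun z hz => (homes_DJ_facts h hw hz).2.2.1,
      fun z hz => (homes_DJ_facts h hw hz).2.2.2, ?_, hle, homes_room hb hjw⟩
    intro z hz
    have heta := (homes_DJ_facts h hw hz).2.2.2
    rcases hcase z hz with ⟨d1, d2, d3⟩ | ⟨d1, d2, d3⟩
    · by_contra hcon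
      apply d3
      unfold High
      rw [← d1, ← d2, (homes_mem_DJ.1 hz).2]
      exact ⟨heta, by omega⟩
    · exfalso
      have : hmR G r Z T z = w := by rw [d2, hlo z hz, hlow]
      rw [(homes_mem_DJ.1 hz).2] at this
      exact hjw this
  · right
    have hlow : loI G Z T ({j, w} : Finset V) z0 = j := by
      rw [← hlo z0 hz0, ← c2]; exact (homes_mem_DJ.1 hz0).2
    refine ⟨?_, ?_⟩
    · have h5 := (lohi_spec (mem_Bp.1 hB0).1).2.2.2.2
      rw [← c1, ← c2, (homes_mem_DJ.1 hz0).2] at h5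
      exact h5
    · intro z hz
      rcases hcase z hz with ⟨d1, d2, d3⟩ | ⟨d1, d2, d3⟩
      · exfalso
        apply hjw
        rw [d1, hlo z hz, hlow]
      · unfold High at d3
        rw [← d1, ← d2, (homes_mem_DJ.1 hz).2] at d3
        exact d3

/-- in the second case there are no edges -/
private lemma homes_E_zero {D : Finset V}
    (hi : ∀ x ∈ D, ∀ y ∈ D, ¬ (co G).Adj x y) (H : SimpleGraph V)
    (hH : ∀ x y, H.Adj x y → (co G).Adj x y) : E H D = 0 := by
  unfold E
  refine sum_eq_zero fun x hx => ?_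
  unfold dg
  rw [card_eq_zero, filter_eq_empty_iff]
  intro y hy hxy
  exact hi x hx y hy (hH x y hxy)

private lemma homes_E_hmG {D : Finset V} {hm : V → V} {j : V} (hD : ∀ z ∈ D, hm z = j) :
    E (hmG G hm) D = E (co G) D := by
  unfold E
  refine sum_congr rfl fun z hz => ?_
  unfold dg
  congr 1
  refine filter_congr fun y hy => ⟨fun h => h.1, fun h => ⟨h, by rw [hD z hz, hD y hy]⟩⟩

/-- **Exact server lemma** for the homes of note 2803: the server `w` pays all PC edges of its
tails and all nonadjacent pairs of tails with the same home -/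
theorem S2.serv (h : S2 G r m t Z T) (hr : 8 ≤ r) (hP : PG G r)
    (hb : (BB G Z T).card + 1 ≤ r) {w : V} (hw : w ∈ T) :
    2 * ∑ z ∈ tails G Z T (hmR G r Z T) w, (kk G Z T (hmR G r Z T) z : ℤ)
      + E (hmG G (hmR G r Z T)) (tails G Z T (hmR G r Z T) w)
      + ∑ z ∈ tails G Z T (hmR G r Z T) w,
          max (net2 G r (MM G Z T (hmR G r Z T) w) (tails G Z T (hmR G r Z T) w)
            (hmG G (hmR G r Z T)) (kk G Z T (hmR G r Z T)) z) 0
      ≤ slk G r (MM G Z T (hmR G r Z T) w) := by
  have hF := h.toPFrame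
  have hh : Homes G Z T (hmR G r Z T) := hmR_homes
  have hDJ : ∀ j, (DD G r Z T w).filter (fun z => hmR G r Z T z = j) = DJ G r Z T w j :=
    fun j => rfl
  have hUne : ∀ i, (OverSet.UU G Z T i (DJ G r Z T w i)).Nonempty → (DJ G r Z T w i).Nonempty := by
    rintro i ⟨p, hp⟩
    obtain ⟨_, z, hz, _⟩ := mem_filter.1 hp
    exact ⟨z, hz⟩
  have hUT : ∀ i, (OverSet.UU G Z T i (DJ G r Z T w i)) = ∅ ∨ (i ∈ T ∧ i ≠ w) := by
    intro i
    by_cases he : (OverSet.UU G Z T i (DJ G r Z T w i)) = ∅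
    · exact Or.inl he
    · obtain ⟨z, hz⟩ := hUne i (nonempty_iff_ne_empty.2 he)
      obtain ⟨g1, g2, -⟩ := homes_DJ_facts hF hw hz
      exact Or.inr ⟨g1, g2⟩
  have hUsub : ∀ i, OverSet.UU G Z T i (DJ G r Z T w i) ⊆ Cl G Z T i := fun i => filter_subset _ _
  refine server_exact hP (MM_tails_disj hw) (H := hmG G (hmR G r Z T)) (hm := hmR G r Z T)
    (fun x _ y _ hxy => hxy.1) (fun x y hxy => hxy.2) _
    (fun z => (Cl G Z T (hmR G r Z T z)).filter (fun p => (co G).Adj z p)) (fun z _ => rfl)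
    (D := DD G r Z T w) rfl (fun i => OverSet.UU G Z T i (DJ G r Z T w i)) ?_ ?_ ?_ ?_
    (fun z => eta G r Z T (hmR G r Z T z) w z)
    (fun i p => (dg G (Cl G Z T w) p : ℤ) + dg G (Bp G Z T i w) p - (Bw G Z T w).card
      + ((r : ℤ) - (Cl G Z T w).card) - 1) ?_ ?_ ?_ ?_
  · -- the union
    intro i
    rw [hDJ]
    ext p
    unfold OverSet.UU
    rw [mem_filter, mem_biUnion]
    constructor
    · rintro ⟨h1, z, hz, hzp⟩
      refine ⟨z, hz, mem_filter.2 ⟨?_, hzp⟩⟩
      rw [(homes_mem_DJ.1 hz).2]; exact h1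
    · rintro ⟨z, hz, hzp⟩
      obtain ⟨h1, h2⟩ := mem_filter.1 hzp
      rw [(homes_mem_DJ.1 hz).2] at h1
      exact ⟨h1, z, hz, h2⟩
  · intro i
    rcases hUT i with he | ⟨hi, -⟩
    · rw [he]
      intro x hx
      simp at hx
    · exact (hF.Cl_clq hi).mono (hUsub i)
  · intro i
    rcases hUT i with he | ⟨hi, hiw⟩
    · rw [he]; exact disjoint_empty_right _
    · rw [MM, disjoint_union_left]
      exact ⟨disjoint_of_subset_right (hUsub i) (Cl_Cl_disjoint hi hw hiw).symm,
        (disjoint_of_subset_left (hUsub i) (disjoint_of_subset_right (filter_subset _ _)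
          (Cl_BB_disjoint hi))).symm⟩
  · intro i
    rcases hUT i with he | ⟨hi, hiw⟩
    · rw [he]; exact disjoint_empty_right _
    · exact (disjoint_of_subset_left (hUsub i) (disjoint_of_subset_right (filter_subset _ _)
          (Cl_BB_disjoint hi))).symm
  · intro z hz
    exact net_ge hh hw (mem_filter.1 hz).1
  · -- the value of a point of the clique
    intro i p hp S hS
    obtain ⟨hi, hiw⟩ : i ∈ T ∧ i ≠ w := by
      rcases hUT i with he | he
      · rw [he] at hp; simp at hp
      · exact he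
    have hpC : p ∈ Cl G Z T i := hUsub i hp
    have hpw : p ∉ Cl G Z T w := disjoint_left.1 (Cl_Cl_disjoint hi hw hiw) hpC
    have hpB : p ∉ BB G Z T := disjoint_left.1 (Cl_BB_disjoint hi) hpC
    have hSA : S ⊆ tails G Z T (hmR G r Z T) w := hS.trans (filter_subset _ _)
    have e1 := dg_compl_notMem G hpw
    have e2 := dg_compl_notMem G (A := Ph G Z T (hmR G r Z T) w)
      (fun h' => hpB (mem_Ph.1 h').1)
    have e3 := dg_compl_notMem G (A := tails G Z T (hmR G r Z T) w \ S)
      (fun h' => hpB (mem_tails.1 (mem_sdiff.1 h').1).1)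
    have e4 : dg (co G) (MM G Z T (hmR G r Z T) w) p
        = dg (co G) (Cl G Z T w) p + dg (co G) (Ph G Z T (hmR G r Z T) w) p := by
      unfold MM
      exact homes_dg_union (MM_disj hw) (co G) p
    have e5 := card_sdiff_add_card_eq_card hSA
    have e6 := Bw_card (w := w) hh
    have e7 : S.card = (S.filter (fun z => hmR G r Z T z ≠ i)).card
        + (S.filter (fun z => hmR G r Z T z = i ∧ p ∈ (Cl G Z T (hmR G r Z T z)).filter
          (fun p => (co G).Adj z p))).card
        + (S.filter (fun z => hmR G r Z T z = i ∧ ¬ (p ∈ (Cl G Z T (hmR G r Z T z)).filter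
          (fun p => (co G).Adj z p)))).card := by
      have f1 := card_filter_add_card_filter_not (s := S) (fun z => hmR G r Z T z ≠ i)
      have f2 := card_filter_add_card_filter_not (s := S.filter (fun z => ¬ (hmR G r Z T z ≠ i)))
        (fun z => p ∈ (Cl G Z T (hmR G r Z T z)).filter (fun p => (co G).Adj z p))
      rw [filter_filter, filter_filter] at f2
      simp only [not_not] at f1 f2
      omega
    have e8 : dg G (Bp G Z T i w) p ≤ (S.filter (fun z => hmR G r Z T z = i ∧
        ¬ (p ∈ (Cl G Z T (hmR G r Z T z)).filter (fun p => (co G).Adj z p)))).card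
        + dg G (Ph G Z T (hmR G r Z T) w) p
        + dg G (tails G Z T (hmR G r Z T) w \ S) p := by
      unfold dg
      refine le_trans (card_le_card ?_) ((card_union_le _ _).trans
        (Nat.add_le_add_right (card_union_le _ _) _))
      intro y hy
      obtain ⟨hy1, hy2⟩ := mem_filter.1 hy
      obtain ⟨hyB, hye⟩ := mem_Bp.1 hy1
      rw [mem_union, mem_union]
      by_cases hyw : hmR G r Z T y = w
      · exact Or.inl (Or.inr (mem_filter.2 ⟨mem_Ph.2 ⟨hyB, hyw⟩, hy2⟩))
      · by_cases hyS : y ∈ S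
        · have hyi : hmR G r Z T y = i := by
            have := hh y hyB
            rw [hye, mem_insert, mem_singleton] at this
            rcases this with h' | h'
            · exact h'
            · exact absurd h' hyw
          refine Or.inl (Or.inl (mem_filter.2 ⟨hyS, hyi, fun h' => ?_⟩))
          exact (mem_filter.1 h').2.2 hy2.symm
        · refine Or.inr (mem_filter.2 ⟨mem_sdiff.2 ⟨mem_tails.2 ⟨hyB, ?_, hyw⟩, hyS⟩, hy2⟩)
          rw [hye]; simp
    rw [e4]
    push_cast
    omega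
  · -- other homes
    intro j u hu
    simp only [hDJ]
    by_cases hne : (DJ G r Z T w j).Nonempty
    · rcases homes_DJ_cases hF hb hw hne with hO | ⟨hle, hH⟩
      · obtain ⟨E0, h1, h2⟩ := hO.other h (by omega) hP hu
        refine ⟨E0, h1, ?_⟩
        have h3 : E (hmG G (hmR G r Z T)) E0 = E (co G) E0 :=
          homes_E_hmG (j := j) fun z hz => (homes_mem_DJ.1 (h1 hz)).2
        have h4 : ∑ z ∈ DJ G r Z T w j \ E0, eta G r Z T (hmR G r Z T z) w z
            = ∑ z ∈ DJ G r Z T w j \ E0, eta G r Z T j w z :=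
          sum_congr rfl fun z hz => by rw [(homes_mem_DJ.1 (mem_sdiff.1 hz).1).2]
        have h5 : ∑ z ∈ E0, (u - (kk G Z T (hmR G r Z T) z : ℤ))
            = ∑ z ∈ E0, (u - (kap G Z T j z : ℤ)) := by
          refine sum_congr rfl fun z hz => ?_
          unfold kk kap
          rw [(homes_mem_DJ.1 (h1 hz)).2]
        rw [h3, h4, h5]
        linarith
      · have hind : ∀ x ∈ DJ G r Z T w j, ∀ y ∈ DJ G r Z T w j, ¬ (co G).Adj x y := by
          intro x hx y hy
          obtain ⟨g1, g2, g3, g4⟩ := homes_DJ_facts hF hw hx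
          obtain ⟨k1, k2, k3, k4⟩ := homes_DJ_facts hF hw hy
          have r1 := homes_room hb (Ne.symm g2) (Z := Z) (T := T) (G := G)
          exact high_adj h hP hw g1 (Ne.symm g2) hle r1 (by rw [Bp_comm]; exact g3)
            (by rw [Bp_comm]; exact k3) (hH x hx).1 (hH y hy).1 (hH x hx).2 (hH y hy).2
        refine ⟨DJ G r Z T w j, Subset.refl _, ?_⟩
        rw [homes_E_zero hind (hmG G (hmR G r Z T)) (fun x y hxy => hxy.1), Finset.sdiff_self, sum_empty]
        have h6 : 0 ≤ ∑ z ∈ DJ G r Z T w j, (u - (kk G Z T (hmR G r Z T) z : ℤ)) := by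
          refine sum_nonneg fun z hz => ?_
          have : kk G Z T (hmR G r Z T) z ≤ (OverSet.UU G Z T j (DJ G r Z T w j)).card := by
            refine card_le_card fun p hp => ?_
            obtain ⟨hp1, hp2⟩ := mem_filter.1 hp
            rw [(homes_mem_DJ.1 hz).2] at hp1
            exact mem_filter.2 ⟨hp1, z, hz, hp2⟩
          have : (kk G Z T (hmR G r Z T) z : ℤ) ≤ u := le_trans (by exact_mod_cast this) hu
          linarith
        push_cast
        linarith
    · rw [not_nonempty_iff_eq_empty] at hne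
      refine ⟨∅, empty_subset _, ?_⟩
      rw [hne]
      simp [E]
  · -- the home of the clique
    intro i
    simp only [hDJ]
    have hmv : ∀ z ∈ DJ G r Z T w i, ∀ p ∈ Cl G Z T i, (co G).Adj z p →
        mv G r Z T i w z ≤ (dg G (Cl G Z T w) p : ℤ) + dg G (Bp G Z T i w) p
          - (Bw G Z T w).card + ((r : ℤ) - (Cl G Z T w).card) - 1 := by
      intro z hz p hp hzp
      obtain ⟨g1, g2, g3, g4⟩ := homes_DJ_facts hF hw hz
      have c1 : kap G Z T w z ≤ dg G (Cl G Z T w) p := by
        refine card_le_card fun q hq => ?_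
        obtain ⟨hq1, hq2⟩ := mem_filter.1 hq
        exact mem_filter.2 ⟨hq1, hF.prod_sub g1 hw g2 g3 hp hq1 hzp hq2⟩
      have c2 : gg G Z T i w z ≤ dg G (Bp G Z T i w) p := by
        refine card_le_card fun q hq => ?_
        obtain ⟨hq1, hq2⟩ := mem_filter.1 hq
        refine mem_filter.2 ⟨hq1, ?_⟩
        by_contra hpq
        have hne : p ≠ q := by
          rintro rfl
          exact disjoint_left.1 (Cl_BB_disjoint g1) hp (mem_Bp.1 hq1).1
        exact hF.no_triple g1 hw (PFrame.Bp_mem_ZI g3) (hF.Cl_mem_ZI g1 (by simp) hp)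
          (PFrame.Bp_mem_ZI hq1) hzp ⟨hne, hpq⟩ hq2
      unfold mv
      omega
    by_cases hne : (DJ G r Z T w i).Nonempty
    · rcases homes_DJ_cases hF hb hw hne with hO | ⟨hle, hH⟩
      · obtain ⟨E0, h1, h2⟩ := hO.same h (by omega) hP hmv
        refine ⟨E0, h1, ?_⟩
        have h3 : E (hmG G (hmR G r Z T)) E0 = E (co G) E0 :=
          homes_E_hmG (j := i) fun z hz => (homes_mem_DJ.1 (h1 hz)).2
        have h4 : ∑ z ∈ DJ G r Z T w i \ E0, eta G r Z T (hmR G r Z T z) w z
            = ∑ z ∈ DJ G r Z T w i \ E0, eta G r Z T i w z :=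
          sum_congr rfl fun z hz => by rw [(homes_mem_DJ.1 (mem_sdiff.1 hz).1).2]
        rw [h3, h4]
        linarith
      · have hind : ∀ x ∈ DJ G r Z T w i, ∀ y ∈ DJ G r Z T w i, ¬ (co G).Adj x y := by
          intro x hx y hy
          obtain ⟨g1, g2, g3, g4⟩ := homes_DJ_facts hF hw hx
          obtain ⟨k1, k2, k3, k4⟩ := homes_DJ_facts hF hw hy
          have r1 := homes_room hb (Ne.symm g2) (Z := Z) (T := T) (G := G)
          exact high_adj h hP hw g1 (Ne.symm g2) hle r1 (by rw [Bp_comm]; exact g3)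
            (by rw [Bp_comm]; exact k3) (hH x hx).1 (hH y hy).1 (hH x hx).2 (hH y hy).2
        refine ⟨DJ G r Z T w i, Subset.refl _, ?_⟩
        rw [homes_E_zero hind (hmG G (hmR G r Z T)) (fun x y hxy => hxy.1), Finset.sdiff_self, sum_empty]
        have h6 : 0 ≤ ∑ p ∈ OverSet.UU G Z T i (DJ G r Z T w i), ((dg G (Cl G Z T w) p : ℤ)
            + dg G (Bp G Z T i w) p - (Bw G Z T w).card + ((r : ℤ) - (Cl G Z T w).card) - 1) := by
          refine sum_nonneg fun p hp => ?_
          obtain ⟨hp1, z, hz, hzp⟩ := mem_filter.1 hp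
          refine le_trans ?_ (hmv z hz p hp1 hzp)
          obtain ⟨g1, g2, g3, g4⟩ := homes_DJ_facts hF hw hz
          have r1 := homes_room hb (Ne.symm g2) (Z := Z) (T := T) (G := G)
          have q1 := high_le h hr hP hw g1 (Ne.symm g2) r1 (by rw [Bp_comm]; exact g3)
            g4 (hH z hz).1 (hH z hz).2
          have q2 := (hH z hz).1
          rw [mv_eq]
          have q3 := Bp_comm (G := G) (Z := Z) (T := T) w i
          rw [q3] at r1
          omega
        push_cast
        linarith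
    · rw [not_nonempty_iff_eq_empty] at hne
      refine ⟨∅, empty_subset _, ?_⟩
      rw [hne]
      have : OverSet.UU G Z T i (∅ : Finset V) = ∅ := by
        unfold OverSet.UU
        rw [filter_eq_empty_iff]
        rintro p _ ⟨z, hz, _⟩
        simp at hz
      rw [this]
      simp [E]

/-- if every server pays its PC and same-tail edges then the different-tail pairs are numerous -/
theorem PFrame.total_of_serv {hm : V → V} (h : PFrame G r m t Z T) (hh : Homes G Z T hm)
    (hserv : ∀ w ∈ T, 2 * ∑ z ∈ tails G Z T hm w, (kk G Z T hm z : ℤ)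
      + E (hmG G hm) (tails G Z T hm w)
      + ∑ z ∈ tails G Z T hm w,
          max (net2 G r (MM G Z T hm w) (tails G Z T hm w) (hmG G hm) (kk G Z T hm) z) 0
      ≤ slk G r (MM G Z T hm w)) :
    2 * ((r : ℤ) - 1) + ∑ w ∈ T, ∑ z ∈ tails G Z T hm w,
        max (net2 G r (MM G Z T hm w) (tails G Z T hm w) (hmG G hm) (kk G Z T hm) z) 0
      ≤ ∑ z ∈ BB G Z T, (diffH G Z T hm z : ℤ) := by
  have h1 := sum_le_sum fun w hw => hserv w hw
  rw [sum_add_distrib, sum_add_distrib, ← mul_sum, PFrame.sum_tails hh,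
    PFrame.sum_E_tails hh] at h1
  have h2 : ∑ w ∈ T, slk G r (MM G Z T hm w)
      = 2 * ∑ z ∈ BB G Z T, (kk G Z T hm z : ℤ) + ∑ z ∈ BB G Z T, (allH G Z T hm z : ℤ)
        - 2 * ((r : ℤ) - 1) := by
    unfold slk
    rw [sum_sub_distrib, sum_congr rfl (fun w hw => h.E_MM hw), sum_add_distrib, ← mul_sum,
      PFrame.sum_Ph hh, PFrame.sum_E_Ph hh, ← mul_sum, sum_sub_distrib, h.sum_card_MM hh,
      sum_const, h.cardT, nsmul_eq_mul]
    ring
  rw [h2] at h1
  have h3 : ∑ z ∈ BB G Z T, (allH G Z T hm z : ℤ)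
      = ∑ z ∈ BB G Z T, (sameH G Z T hm z : ℤ) + ∑ z ∈ BB G Z T, (diffH G Z T hm z : ℤ) := by
    rw [← sum_add_distrib]
    refine sum_congr rfl fun z _ => ?_
    rw [allH_eq]
    push_cast
    rfl
  rw [h3] at h1
  linarith

/-- for the homes of note 2803 the different-tail pairs are numerous -/
theorem S2.serv_total (h : S2 G r m t Z T) (hr : 8 ≤ r) (hP : PG G r)
    (hb : (BB G Z T).card + 1 ≤ r) :
    2 * ((r : ℤ) - 1) + ∑ w ∈ T, ∑ z ∈ tails G Z T (hmR G r Z T) w,
        max (net2 G r (MM G Z T (hmR G r Z T) w) (tails G Z T (hmR G r Z T) w)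
          (hmG G (hmR G r Z T)) (kk G Z T (hmR G r Z T)) z) 0
      ≤ ∑ z ∈ BB G Z T, (diffH G Z T (hmR G r Z T) z : ℤ) :=
  h.toPFrame.total_of_serv hmR_homes fun _ hw => h.serv hr hP hb hw

end Server

end Pool.Agent.Lib.MP_f04ccf_co
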