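import Pool.Agent.Lib.MP_f04ccf_co.S2Homes

/-!
MP_f04ccf_co: product strategies at a server.  Every home `v` chooses a random test set `S v c`
(probability `μ v c`, total at most one), independently; the cross costs are the expected numbers
of nonadjacent pairs.  The centre trick is the special case `S v c = ` the nonneighbours of a
uniform centre `c` in `P v`.
-/

set_option autoImplicit false

namespace Pool.Agent.Lib.MP_f04ccf_co

open Finset

attribute [local instance] Classical.propDecidable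

section Prod

variable {V ι κ : Type*}

/-- expected number of (ordered) `F`-edges between two random sets -/
noncomputable def crossQ (F : SimpleGraph V) (K : ι → Finset κ) (S : ι → κ → Finset V)
    (μ : ι → κ → ℚ) (v v' : ι) : ℚ :=
  ∑ c ∈ K v, ∑ c' ∈ K v', μ v c * μ v' c' * ((∑ y ∈ S v c, dg F (S v' c') y : ℕ) : ℚ)

lemma crossQ_comm (F : SimpleGraph V) (K : ι → Finset κ) (S : ι → κ → Finset V)
    (μ : ι → κ → ℚ) (v v' : ι) : crossQ F K S μ v v' = crossQ F K S μ v' v := by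
  unfold crossQ
  rw [sum_comm]
  refine sum_congr rfl fun c _ => sum_congr rfl fun c' _ => ?_
  rw [dg_comm F (S v c') (S v' c)]
  ring

/-- a value below an average is below some member, or below zero -/
private lemma exists_ge_avg {κ : Type*} (K : Finset κ) (μ A : κ → ℚ) (h0 : ∀ c ∈ K, 0 ≤ μ c)
    (h1 : ∑ c ∈ K, μ c ≤ 1) :
    ∑ c ∈ K, μ c * A c ≤ 0 ∨ ∃ c ∈ K, ∑ c ∈ K, μ c * A c ≤ A c := by
  by_cases hK : K.Nonempty
  · obtain ⟨c0, hc0, hmax⟩ := exists_max_image K A hK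
    by_cases hA : A c0 ≤ 0
    · left
      exact sum_nonpos fun c hc => mul_nonpos_of_nonneg_of_nonpos (h0 c hc) ((hmax c hc).trans hA)
    · right
      refine ⟨c0, hc0, ?_⟩
      push Not at hA
      calc ∑ c ∈ K, μ c * A c ≤ ∑ c ∈ K, μ c * A c0 :=
            sum_le_sum fun c hc => mul_le_mul_of_nonneg_left (hmax c hc) (h0 c hc)
        _ = (∑ c ∈ K, μ c) * A c0 := by rw [sum_mul]
        _ ≤ 1 * A c0 := mul_le_mul_of_nonneg_right h1 hA.le
        _ = A c0 := one_mul _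
  · left
    rw [not_nonempty_iff_eq_empty] at hK
    rw [hK]; simp

/-- **product choice**: the value of some choice is at least the expected value -/
theorem prod_choice (F : SimpleGraph V) (J : Finset ι) (P : ι → Finset V) (K : ι → Finset κ)
    (S : ι → κ → Finset V) (μ : ι → κ → ℚ) (h0 : ∀ v ∈ J, ∀ c ∈ K v, 0 ≤ μ v c)
    (h1 : ∀ v ∈ J, ∑ c ∈ K v, μ v c ≤ 1) (hS : ∀ v ∈ J, ∀ c ∈ K v, S v c ⊆ P v)
    (hP : ∀ v ∈ J, ∀ v' ∈ J, v ≠ v' → Disjoint (P v) (P v')) :
    ∀ g : V → ℚ, ∃ Y ⊆ J.biUnion P,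
      ∑ v ∈ J, ∑ c ∈ K v, μ v c * (∑ y ∈ S v c, g y - E F (S v c))
        - ∑ v ∈ J, ∑ v' ∈ J.erase v, crossQ F K S μ v v'
      ≤ ∑ y ∈ Y, g y - E F Y := by
  induction J using Finset.induction_on with
  | empty =>
    intro g
    refine ⟨∅, by simp, ?_⟩
    simp [E]
  | insert v0 J hv0 ih =>
    intro g
    have hPJ : Disjoint (J.biUnion P) (P v0) := by
      rw [disjoint_biUnion_left]
      intro v hv
      exact hP v (mem_insert_of_mem hv) v0 (mem_insert_self _ _) (fun h => hv0 (h ▸ hv))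
    set q : V → ℚ := fun y => ∑ c ∈ K v0, μ v0 c * (dg F (S v0 c) y : ℚ) with hq
    obtain ⟨Y', hY', hval⟩ := ih (fun v hv => h0 v (mem_insert_of_mem hv))
      (fun v hv => h1 v (mem_insert_of_mem hv)) (fun v hv => hS v (mem_insert_of_mem hv))
      (fun v hv v' hv' => hP v (mem_insert_of_mem hv) v' (mem_insert_of_mem hv'))
      (fun y => g y - 2 * q y)
    set A : κ → ℚ := fun c => ∑ y ∈ S v0 c, g y - E F (S v0 c)
      - 2 * ((∑ y ∈ S v0 c, dg F Y' y : ℕ) : ℚ) with hA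
    -- the average of `A`
    have hAavg : ∑ c ∈ K v0, μ v0 c * A c
        = ∑ c ∈ K v0, μ v0 c * (∑ y ∈ S v0 c, g y - E F (S v0 c)) - 2 * ∑ y ∈ Y', q y := by
      have e1 : ∑ y ∈ Y', q y
          = ∑ c ∈ K v0, μ v0 c * ((∑ y ∈ S v0 c, dg F Y' y : ℕ) : ℚ) := by
        simp only [hq]
        rw [sum_comm]
        refine sum_congr rfl fun c _ => ?_
        rw [← mul_sum, dg_comm F (S v0 c) Y']
        push_cast
        rfl
      rw [e1, mul_sum, ← sum_sub_distrib]
      refine sum_congr rfl fun c _ => ?_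
      simp only [hA]
      ring
    -- the choice in `v0`
    have hchoice : ∃ Y0 ⊆ P v0, ∑ c ∈ K v0, μ v0 c * A c
        ≤ ∑ y ∈ Y0, g y - E F Y0 - 2 * ((∑ y ∈ Y0, dg F Y' y : ℕ) : ℚ) := by
      rcases exists_ge_avg (K v0) (μ v0) A (h0 v0 (mem_insert_self _ _))
        (h1 v0 (mem_insert_self _ _)) with h | ⟨c, hc, h⟩
      · exact ⟨∅, empty_subset _, by simpa [E] using h⟩
      · exact ⟨S v0 c, hS v0 (mem_insert_self _ _) c hc, h⟩
    obtain ⟨Y0, hY0, hval0⟩ := hchoice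
    have hdis : Disjoint Y' Y0 := disjoint_of_subset_left hY' (disjoint_of_subset_right hY0 hPJ)
    refine ⟨Y' ∪ Y0, ?_, ?_⟩
    · rw [biUnion_insert, union_comm (P v0)]
      exact union_subset_union hY' hY0
    · rw [sum_union hdis, E_union F hdis, sum_insert hv0, sum_insert hv0, erase_insert hv0]
      -- the cross terms
      have hcross : ∑ v ∈ J, ∑ v' ∈ (insert v0 J).erase v, crossQ F K S μ v v'
          = ∑ v ∈ J, ∑ v' ∈ J.erase v, crossQ F K S μ v v' + ∑ v ∈ J, crossQ F K S μ v0 v := by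
        rw [← sum_add_distrib]
        refine sum_congr rfl fun v hv => ?_
        have hne : v0 ≠ v := fun h => hv0 (h ▸ hv)
        rw [erase_insert_of_ne hne, sum_insert (by
          intro h; exact hv0 (mem_erase.1 h).2), crossQ_comm F K S μ v v0]
        ring
      have hq' : ∑ v ∈ J, ∑ c ∈ K v, μ v c * (∑ y ∈ S v c, (g y - 2 * q y) - E F (S v c))
          = ∑ v ∈ J, ∑ c ∈ K v, μ v c * (∑ y ∈ S v c, g y - E F (S v c))
            - 2 * ∑ v ∈ J, crossQ F K S μ v0 v := by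
        rw [mul_sum, ← sum_sub_distrib]
        refine sum_congr rfl fun v _ => ?_
        rw [crossQ_comm F K S μ v0 v]
        unfold crossQ
        rw [mul_sum, ← sum_sub_distrib]
        refine sum_congr rfl fun c _ => ?_
        have e1 : ∑ y ∈ S v c, q y
            = ∑ c' ∈ K v0, μ v0 c' * ((∑ y ∈ S v c, dg F (S v0 c') y : ℕ) : ℚ) := by
          simp only [hq]
          rw [sum_comm]
          refine sum_congr rfl fun c' _ => ?_
          rw [← mul_sum]
          push_cast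
          rfl
        have e2 : ∑ c' ∈ K v0, μ v c * μ v0 c' * ((∑ y ∈ S v c, dg F (S v0 c') y : ℕ) : ℚ)
            = μ v c * ∑ y ∈ S v c, q y := by
          rw [e1, mul_sum]
          exact sum_congr rfl fun c' _ => by ring
        rw [e2, sum_sub_distrib, ← mul_sum]
        ring
      rw [hcross]
      rw [hq'] at hval
      rw [hAavg] at hval0
      have e3 : ∑ y ∈ Y', (g y - 2 * q y) = ∑ y ∈ Y', g y - 2 * ∑ y ∈ Y', q y := by
        rw [sum_sub_distrib, ← mul_sum]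
      rw [e3] at hval
      push_cast at hval0 ⊢
      linarith

variable {G : SimpleGraph V} {r : ℕ}

/-- the gain of `y` at a server with set `M` -/
noncomputable def gq (G : SimpleGraph V) (r : ℕ) (M : Finset V) (y : V) : ℚ :=
  (r : ℚ) - 1 - dg (co G) M y

/-- the test of `slk_test` in rational form -/
lemma slk_testQ (hP : PG G r) {M Y : Finset V} (h : Disjoint M Y) :
    2 * ∑ y ∈ Y, gq G r M y - E (co G) Y ≤ (slk G r M : ℚ) := by
  have h1 := slk_test hP h
  have h2 : ((∑ y ∈ Y, (2 * ((r : ℤ) - 1 - dg (co G) M y)) - E (co G) Y : ℤ) : ℚ)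
      ≤ ((slk G r M : ℤ) : ℚ) := by exact_mod_cast h1
  push_cast at h2
  unfold gq
  rw [mul_sum]
  exact h2

/-- **product strategies at a server** -/
theorem slk_prod (hPG : PG G r) {M : Finset V} (J : Finset ι) (P : ι → Finset V)
    (K : ι → Finset κ) (S : ι → κ → Finset V) (μ : ι → κ → ℚ)
    (h0 : ∀ v ∈ J, ∀ c ∈ K v, 0 ≤ μ v c) (h1 : ∀ v ∈ J, ∑ c ∈ K v, μ v c ≤ 1)
    (hS : ∀ v ∈ J, ∀ c ∈ K v, S v c ⊆ P v)
    (hP : ∀ v ∈ J, ∀ v' ∈ J, v ≠ v' → Disjoint (P v) (P v'))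
    (hM : ∀ v ∈ J, Disjoint M (P v)) :
    ∑ v ∈ J, ∑ c ∈ K v, μ v c * (2 * ∑ y ∈ S v c, gq G r M y - E (co G) (S v c))
        - ∑ v ∈ J, ∑ v' ∈ J.erase v, crossQ (co G) K S μ v v'
      ≤ (slk G r M : ℚ) := by
  obtain ⟨Y, hY, h⟩ := prod_choice (co G) J P K S μ h0 h1 hS hP (fun y => 2 * gq G r M y)
  have hd : Disjoint M Y := by
    refine disjoint_of_subset_right hY ?_
    rw [disjoint_biUnion_right]
    exact hM
  have h2 := slk_testQ hPG hd
  simp only [← mul_sum] at h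
  linarith

/-- the cross costs are at most the product of the expected sizes -/
lemma crossQ_le (F : SimpleGraph V) (K : ι → Finset κ) (S : ι → κ → Finset V)
    (μ : ι → κ → ℚ) {v v' : ι} (h0 : ∀ c ∈ K v, 0 ≤ μ v c) (h0' : ∀ c ∈ K v', 0 ≤ μ v' c) :
    crossQ F K S μ v v' ≤ (∑ c ∈ K v, μ v c * ((S v c).card : ℚ))
      * (∑ c ∈ K v', μ v' c * ((S v' c).card : ℚ)) := by
  unfold crossQ
  rw [sum_mul]
  refine sum_le_sum fun c hc => ?_
  rw [mul_sum]
  refine sum_le_sum fun c' hc' => ?_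
  have h1 : (∑ y ∈ S v c, dg F (S v' c') y) ≤ (S v c).card * (S v' c').card := by
    have := sum_le_card_nsmul (S v c) (fun y => dg F (S v' c') y) (S v' c').card
      (fun y _ => dg_le_card _ _)
    simpa using this
  have h2 : ((∑ y ∈ S v c, dg F (S v' c') y : ℕ) : ℚ) ≤ (S v c).card * (S v' c').card := by
    exact_mod_cast h1
  have h3 : 0 ≤ μ v c * μ v' c' := mul_nonneg (h0 c hc) (h0' c' hc')
  calc μ v c * μ v' c' * ((∑ y ∈ S v c, dg F (S v' c') y : ℕ) : ℚ)
      ≤ μ v c * μ v' c' * ((S v c).card * (S v' c').card) := mul_le_mul_of_nonneg_left h2 h3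
    _ = _ := by ring

/-- the number of ordered triples `(c, y, y')` in `P` with `c y`, `c y'` in `H` and `y y'` in `F` -/
noncomputable def triQ (F H : SimpleGraph V) (P : Finset V) : ℕ :=
  ∑ c ∈ P, E F (P.filter (fun y => H.Adj c y))

lemma triQ_eq_zero (F H : SimpleGraph V) (P : Finset V)
    (h : ∀ c ∈ P, ∀ y ∈ P, ∀ y' ∈ P, H.Adj c y → H.Adj c y' → ¬ F.Adj y y') : triQ F H P = 0 := by
  unfold triQ E
  refine sum_eq_zero fun c hc => sum_eq_zero fun y hy => ?_
  unfold dg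
  rw [card_eq_zero, filter_eq_empty_iff]
  intro y' hy'
  rw [mem_filter] at hy hy'
  exact h c hc y hy.1 y' hy'.1 hy.2 hy'.2

lemma sum_filter_adj (H : SimpleGraph V) (P : Finset V) (g : V → ℚ) :
    ∑ c ∈ P, ∑ y ∈ P.filter (fun y => H.Adj c y), g y = ∑ y ∈ P, (dg H P y : ℚ) * g y := by
  simp only [sum_filter]
  rw [sum_comm]
  refine sum_congr rfl fun y _ => ?_
  rw [← sum_filter, sum_const, nsmul_eq_mul]
  congr 2
  unfold dg
  congr 1
  ext c
  simp [H.adj_comm]

/-- twice the weighted degree sum is the sum of the pair sums -/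
lemma sum_dg_mul (H : SimpleGraph V) (P : Finset V) (g : V → ℚ) :
    2 * ∑ y ∈ P, (dg H P y : ℚ) * g y
      = ∑ y ∈ P, ∑ y' ∈ P.filter (fun y' => H.Adj y y'), (g y + g y') := by
  have h1 : ∑ y ∈ P, ∑ y' ∈ P.filter (fun y' => H.Adj y y'), (g y + g y')
      = ∑ y ∈ P, (dg H P y : ℚ) * g y
        + ∑ y ∈ P, ∑ y' ∈ P.filter (fun y' => H.Adj y y'), g y' := by
    rw [← sum_add_distrib]
    refine sum_congr rfl fun y _ => ?_
    rw [sum_add_distrib, sum_const, nsmul_eq_mul]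
    rfl
  rw [h1, sum_filter_adj]
  ring

/-- **product centre trick at a server**: `P v` the points of home `v`, `H v` the pairs charged to
this server, `n v` the number of centres (any number `≥ |P v|`) -/
theorem slk_centre (hPG : PG G r) {M : Finset V} (J : Finset ι) (P : ι → Finset V)
    (H : ι → SimpleGraph V) (n : ι → ℕ) (hn : ∀ v ∈ J, (P v).card ≤ n v)
    (hP : ∀ v ∈ J, ∀ v' ∈ J, v ≠ v' → Disjoint (P v) (P v'))
    (hM : ∀ v ∈ J, Disjoint M (P v)) :
    ∑ v ∈ J, (2 * ∑ y ∈ P v, (dg (H v) (P v) y : ℚ) * gq G r M y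
          - triQ (co G) (H v) (P v)) / n v
        - ∑ v ∈ J, ∑ v' ∈ J.erase v, ((E (H v) (P v) : ℚ) / n v) * ((E (H v') (P v') : ℚ) / n v')
      ≤ (slk G r M : ℚ) := by
  set S : ι → V → Finset V := fun v c => (P v).filter (fun y => (H v).Adj c y) with hS
  set μ : ι → V → ℚ := fun v _ => 1 / n v with hμ
  have h0 : ∀ v ∈ J, ∀ c ∈ P v, 0 ≤ μ v c := fun v _ c _ => by simp only [hμ]; positivity
  have h1 : ∀ v ∈ J, ∑ c ∈ P v, μ v c ≤ 1 := by
    intro v hv
    simp only [hμ]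
    rw [sum_const, nsmul_eq_mul]
    rcases Nat.eq_zero_or_pos (n v) with h | h
    · rw [h]; simp
    · rw [mul_one_div, div_le_one (by exact_mod_cast h)]
      exact_mod_cast hn v hv
  have h2 := slk_prod hPG J P P S μ h0 h1 (fun v _ c _ => filter_subset _ _) hP hM
  have hsize : ∀ v, ∑ c ∈ P v, μ v c * ((S v c).card : ℚ) = (E (H v) (P v) : ℚ) / n v := by
    intro v
    simp only [hμ]
    rw [← mul_sum]
    unfold E
    push_cast
    rw [one_div, div_eq_inv_mul]
    rfl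
  have h3 : ∑ v ∈ J, ∑ v' ∈ J.erase v, crossQ (co G) P S μ v v'
      ≤ ∑ v ∈ J, ∑ v' ∈ J.erase v, ((E (H v) (P v) : ℚ) / n v) * ((E (H v') (P v') : ℚ) / n v') := by
    refine sum_le_sum fun v hv => sum_le_sum fun v' hv' => ?_
    have := crossQ_le (co G) P S μ (h0 v hv) (h0 v' (mem_erase.1 hv').2)
    rwa [hsize v, hsize v'] at this
  have h4 : ∑ v ∈ J, ∑ c ∈ P v, μ v c * (2 * ∑ y ∈ S v c, gq G r M y - E (co G) (S v c))
      = ∑ v ∈ J, (2 * ∑ y ∈ P v, (dg (H v) (P v) y : ℚ) * gq G r M y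
          - triQ (co G) (H v) (P v)) / n v := by
    refine sum_congr rfl fun v _ => ?_
    simp only [hμ]
    rw [← mul_sum, sum_sub_distrib, ← mul_sum]
    simp only [hS]
    rw [sum_filter_adj]
    unfold triQ
    push_cast
    rw [one_div, div_eq_inv_mul]
  rw [h4] at h2
  linarith

/-- all tails tested, and a clique `Γ` on top of them: the surplus of `Γ` is additive -/
lemma server_full (hPG : PG G r) {M A Γ : Finset V} (hMA : Disjoint M A) (hMΓ : Disjoint M Γ)
    (hAΓ : Disjoint A Γ) (hΓ : Clq G Γ) (H : SimpleGraph V) (k : V → ℕ) :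
    ∑ y ∈ A, net2 G r M A H k y + 2 * ∑ y ∈ A, (k y : ℤ) + E H A
      + ∑ p ∈ Γ, 2 * ((r : ℤ) - 1 - dg (co G) M p - dg (co G) A p) ≤ slk G r M := by
  have h0 := slk_test hPG (M := M) (Y := A ∪ Γ) (disjoint_union_right.2 ⟨hMA, hMΓ⟩)
  rw [sum_union hAΓ, E_union (co G) hAΓ, E_compl_clq hΓ] at h0
  have h8 : ∑ y ∈ A, net2 G r M A H k y = ∑ y ∈ A, (2 * ((r : ℤ) - 1 - dg (co G) M y))
      - 2 * ∑ y ∈ A, (k y : ℤ) - E H A - E (co G) A := by
    unfold net2 E
    push_cast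
    rw [mul_sum, ← sum_sub_distrib, ← sum_sub_distrib, ← sum_sub_distrib]
  have h9 : ∑ p ∈ Γ, 2 * ((r : ℤ) - 1 - dg (co G) M p - dg (co G) A p)
      = ∑ p ∈ Γ, (2 * ((r : ℤ) - 1 - dg (co G) M p)) - 2 * ((∑ p ∈ Γ, dg (co G) A p : ℕ) : ℤ) := by
    push_cast
    rw [mul_sum, ← sum_sub_distrib]
    exact sum_congr rfl fun p _ => by ring
  rw [h8, h9]
  push_cast at h0 ⊢
  linarith

end Prod

section Sum

variable {V : Type*} {G : SimpleGraph V} {Z T : Finset V} {hm : V → V} {r m t : ℕ}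

/-- the sum of the slacks -/
lemma PFrame.sum_slk (h : PFrame G r m t Z T) (hh : Homes G Z T hm) :
    ∑ w ∈ T, slk G r (MM G Z T hm w)
      = 2 * ∑ z ∈ BB G Z T, (kk G Z T hm z : ℤ) + ∑ z ∈ BB G Z T, (allH G Z T hm z : ℤ)
        - 2 * ((r : ℤ) - 1) := by
  unfold slk
  rw [sum_sub_distrib, sum_congr rfl (fun w hw => h.E_MM hw), sum_add_distrib, ← mul_sum,
    PFrame.sum_Ph hh, PFrame.sum_E_Ph hh, ← mul_sum, sum_sub_distrib, h.sum_card_MM hh, sum_const,
    h.cardT, nsmul_eq_mul]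
  ring

end Sum

end Pool.Agent.Lib.MP_f04ccf_co
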