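import Pool.Agent.Lib.MP_f04ccf_co.S2Test

/-!
MP_f04ccf_co: the server inequality with the exact value of the points of the clique.
-/

set_option autoImplicit false

namespace Pool.Agent.Lib.MP_f04ccf_co

open Finset

attribute [local instance] Classical.propDecidable

section Serv0

variable {V : Type*} {G : SimpleGraph V}

lemma dg_union {A B : Finset V} (h : Disjoint A B) (H : SimpleGraph V) (p : V) :
    dg H (A ∪ B) p = dg H A p + dg H B p := by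
  unfold dg
  rw [filter_union, card_union_of_disjoint]
  exact disjoint_filter_filter h

/-- the server inequality with a test set `Y ∪ Γ`, `Γ` a clique -/
lemma server_exact {r : ℕ} (hP : PG G r) {M A Γ Y : Finset V} (hMA : Disjoint M A)
    (hMΓ : Disjoint M Γ) (hAΓ : Disjoint A Γ) (hY : Y ⊆ A) (hΓ : Clq G Γ) {H : SimpleGraph V}
    (hH : ∀ x ∈ A, ∀ y ∈ A, H.Adj x y → (co G).Adj x y) (k : V → ℕ) :
    ∑ y ∈ Y, net2 G r M A H k y + 2 * ∑ y ∈ Y, (k y : ℤ)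
      + ((E H A : ℤ) - E H (A \ Y))
      + 2 * ∑ p ∈ Γ, ((r : ℤ) - 1 - dg (co G) (M ∪ Y) p) ≤ slk G r M := by
  have hYΓ : Disjoint Y Γ := disjoint_of_subset_left hY hAΓ
  have hMY : Disjoint M Y := disjoint_of_subset_right hY hMA
  have h0 := slk_test hP (M := M) (Y := Y ∪ Γ) (disjoint_union_right.2 ⟨hMY, hMΓ⟩)
  rw [sum_union hYΓ, E_union (co G) hYΓ, E_compl_clq hΓ] at h0
  have h1 : ∑ p ∈ Γ, ((r : ℤ) - 1 - dg (co G) (M ∪ Y) p)
      = ∑ p ∈ Γ, ((r : ℤ) - 1 - dg (co G) M p) - ∑ p ∈ Γ, (dg (co G) Y p : ℤ) := by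
    rw [← sum_sub_distrib]
    refine sum_congr rfl fun p _ => ?_
    rw [dg_union hMY]
    push_cast
    ring
  -- the part of `Y`
  have h3 : (E (co G) Y : ℤ) = ∑ y ∈ Y, ((dg (co G) A y : ℤ) - dg (co G) (A \ Y) y) := by
    unfold E
    push_cast
    refine sum_congr rfl fun y _ => ?_
    have := dg_sdiff (co G) hY y
    omega
  have h4 : ∑ y ∈ Y, (dg H (A \ Y) y : ℤ) ≤ ∑ y ∈ Y, (dg (co G) (A \ Y) y : ℤ) := by
    refine sum_le_sum fun y hy => ?_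
    have : dg H (A \ Y) y ≤ dg (co G) (A \ Y) y := by
      refine card_le_card fun z hz => ?_
      rw [mem_filter] at hz ⊢
      exact ⟨hz.1, hH y (hY hy) z (mem_sdiff.1 hz.1).1 hz.2⟩
    exact_mod_cast this
  have h5 : (E H A : ℤ) - E H (A \ Y) = ∑ y ∈ Y, (dg H A y : ℤ) + ∑ y ∈ Y, (dg H (A \ Y) y : ℤ) := by
    have h6 := E_sdiff H hY
    have h7 : ∑ v ∈ Y, dg H A v = ∑ v ∈ Y, dg H (A \ Y) v + E H Y := by
      unfold E; rw [← sum_add_distrib]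
      exact sum_congr rfl fun v _ => dg_sdiff H hY v
    have h6' : (E H A : ℤ) + E H Y = E H (A \ Y) + 2 * ((∑ v ∈ Y, dg H A v : ℕ) : ℤ) := by
      exact_mod_cast h6
    have h7' : ((∑ v ∈ Y, dg H A v : ℕ) : ℤ) = ((∑ v ∈ Y, dg H (A \ Y) v : ℕ) : ℤ) + E H Y := by
      exact_mod_cast h7
    push_cast at h6' h7'
    linarith
  have h8 : ∑ y ∈ Y, net2 G r M A H k y = ∑ y ∈ Y, (2 * ((r : ℤ) - 1 - dg (co G) M y))
      - 2 * ∑ y ∈ Y, (k y : ℤ) - ∑ y ∈ Y, (dg H A y : ℤ) - ∑ y ∈ Y, (dg (co G) A y : ℤ) := by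
    unfold net2
    rw [mul_sum, ← sum_sub_distrib, ← sum_sub_distrib, ← sum_sub_distrib]
  rw [sum_sub_distrib] at h3
  have h9 : ∑ p ∈ Γ, (2 * ((r : ℤ) - 1 - dg (co G) M p))
      = 2 * ∑ p ∈ Γ, ((r : ℤ) - 1 - dg (co G) M p) := by rw [mul_sum]
  push_cast at h0
  rw [h9] at h0
  rw [h8, h5, h1]
  linarith

end Serv0

end Pool.Agent.Lib.MP_f04ccf_co
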